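import Pool.Agent.NUKer.Glob

/-!
Decay of the kernels for purely imaginary displacements.
-/

open Complex Finset Filter MeasureTheory
open scoped Topology ENNReal

namespace NUKer

/-- imaginary displacement -/
noncomputable def iD (η : ℝ → ℝ) (t : ℝ) : ℂ := (η t : ℂ) * I

theorem abs_log_le {Q : ℝ} (hQ : |Q| ≤ 1 / 2) : |Real.log (1 + Q)| ≤ 2 * |Q| := by
  have h1 := abs_le.1 hQ
  have hpos : 0 < 1 + Q := by linarith
  rw [abs_le]
  constructor
  · have h2 := Real.one_sub_inv_le_log_of_pos hpos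
    have h3 : 1 - (1 + Q)⁻¹ = Q / (1 + Q) := by field_simp; ring
    rw [h3] at h2
    have h4 : -(2 * |Q|) ≤ Q / (1 + Q) := by
      rw [le_div_iff₀ hpos]
      have h5 : -|Q| ≤ Q := neg_abs_le Q
      nlinarith [abs_nonneg Q]
    linarith
  · have h2 := Real.log_le_sub_one_of_pos hpos
    have h5 : Q ≤ |Q| := le_abs_self Q
    linarith [abs_nonneg Q]

theorem log_norm_sq {Y : ℂ} : Real.log ‖1 + Y‖ = Real.log (‖1 + Y‖ ^ 2) / 2 := by
  rw [Real.log_pow]
  push_cast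
  ring

theorem normSq_Yc (c : ℝ) (η η' : ℝ → ℝ) (t t' : ℝ) :
    ‖1 + Yc c (iD η) (iD η') t t'‖ ^ 2 = 1 + (2 * (1 - Real.cos (2 * (η t - η' t'))) *
      (fC c (t - t') * (fC c (t - t') - 1)) - Real.sin (2 * (η t - η' t')) ^ 2 *
      fE c (t - t') ^ 2) := by
  obtain ⟨y, hy⟩ : ∃ y : ℝ, y = 2 * (η t - η' t') := ⟨_, rfl⟩
  have hz : 2 * (iD η t - iD η' t') = (y : ℂ) * I := by
    unfold iD
    rw [hy]
    push_cast
    ring
  have hY : 1 + Yc c (iD η) (iD η') t t' =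
      ((1 + (Real.cos y - 1) * fC c (t - t') : ℝ) : ℂ) +
        ((Real.sin y * fS c (t - t') : ℝ) : ℂ) * I := by
    unfold Yc
    rw [hz, Complex.cosh_mul_I, Complex.sinh_mul_I]
    push_cast
    ring
  rw [hY, Complex.sq_norm, Complex.normSq_add_mul_I, ← hy]
  have h1 : fS c (t - t') ^ 2 = fC c (t - t') ^ 2 - fE c (t - t') ^ 2 := by
    unfold fS fC
    have := Real.cosh_sq (2 * (t - t'))
    rw [mul_pow, mul_pow, this]
    ring
  have h2 := Real.sin_sq_add_cos_sq y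
  rw [mul_pow, h1]
  have h3 : Real.sin y ^ 2 = 1 - Real.cos y ^ 2 := by linarith
  rw [h3]
  ring

theorem fC_sub_one {c : ℝ} (hc : c < 1) (x : ℝ) : fC c x - 1 = c * fE c x := by
  have h0 : Real.cosh (2 * x) - c ≠ 0 := by
    have := den_ge (c := c) x
    linarith
  unfold fC fE
  field_simp
  ring

theorem fE_nonneg {c : ℝ} (hc : c < 1) (x : ℝ) : 0 ≤ fE c x := by
  unfold fE
  have := den_ge (c := c) x
  have h2 : 0 < Real.cosh (2 * x) - c := by linarith
  positivity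

theorem fE_le {c : ℝ} (hc : c < 1) (x : ℝ) : fE c x ≤ 2 * Bc c * Real.exp (-2 * |x|) := by
  have h1 := (le_abs_self _).trans (fC_abs hc x)
  unfold fC at h1
  have h2 : Real.exp (2 * |x|) / 2 ≤ Real.cosh (2 * x) := by
    rw [← Real.cosh_abs (2 * x), Real.cosh_eq, abs_mul, abs_of_pos (by norm_num : (0 : ℝ) < 2)]
    have := Real.exp_pos (-(2 * |x|))
    linarith
  have h3 := fE_nonneg hc x
  have h4 : Real.exp (2 * |x|) / 2 * fE c x ≤ Bc c := by
    calc Real.exp (2 * |x|) / 2 * fE c x ≤ Real.cosh (2 * x) * fE c x := by gcongr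
      _ ≤ _ := h1
  have h5 : Real.exp (-2 * |x|) = (Real.exp (2 * |x|))⁻¹ := by
    rw [← Real.exp_neg]; congr 1; ring
  rw [h5]
  have h6 := Real.exp_pos (2 * |x|)
  rw [← div_eq_mul_inv, le_div_iff₀ h6]
  linarith

/-- **decay of `kc`**, imaginary displacement -/
theorem exists_dec_c {c : ℝ} (hc : c < 1) : ∃ K : ℝ, 1 ≤ K ∧ ∀ (lam : ℝ) (η η' : ℝ → ℝ),
    (∀ x, |η x| ≤ lam) → (∀ x, |η' x| ≤ lam) → K * lam ≤ 1 → ∀ t t',
    |kc c (iD η) (iD η') t t'| ≤ K * lam ^ 2 * Real.exp (-2 * |t - t'|) := by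
  have hB := one_le_Bc hc
  have hB0 : 0 < Bc c := by linarith
  obtain ⟨M, hM⟩ : ∃ M : ℝ, M = 16 * (|c| * Bc c) + 32 * Bc c := ⟨_, rfl⟩
  have hM0 : 0 ≤ M := by rw [hM]; positivity
  refine ⟨4 * M * Bc c + 1, by nlinarith [mul_nonneg hM0 hB0.le],
    fun lam η η' h h' hsm t t' => ?_⟩
  have hl : 0 ≤ lam := (abs_nonneg _).trans (h 0)
  have hMB : 0 ≤ M * Bc c := by positivity
  have hl1 : lam ≤ 1 := by nlinarith
  obtain ⟨y, hy⟩ : ∃ y : ℝ, y = 2 * (η t - η' t') := ⟨_, rfl⟩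
  have hy4 : |y| ≤ 4 * lam := by
    rw [hy, abs_mul, abs_of_pos (by norm_num : (0 : ℝ) < 2)]
    have := abs_sub (η t) (η' t')
    linarith [h t, h' t']
  have hy2 : y ^ 2 ≤ 16 * lam ^ 2 := by
    rw [← sq_abs]
    have := abs_nonneg y
    nlinarith
  have hcos : 1 - Real.cos y ≤ y ^ 2 / 2 := by
    have := Real.one_sub_sq_div_two_le_cos (x := y)
    linarith
  have hcos0 : 0 ≤ 1 - Real.cos y := by linarith [Real.cos_le_one y]
  have hsin : Real.sin y ^ 2 ≤ y ^ 2 := by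
    rw [← sq_abs (Real.sin y), ← sq_abs y]
    have := Real.abs_sin_le_abs (x := y)
    gcongr
  obtain ⟨Q, hQ⟩ : ∃ Q : ℝ, Q = 2 * (1 - Real.cos y) *
      (fC c (t - t') * (fC c (t - t') - 1)) - Real.sin y ^ 2 * fE c (t - t') ^ 2 := ⟨_, rfl⟩
  have hE0 := fE_nonneg hc (t - t')
  have hE1 := fE_le hc (t - t')
  have hex : Real.exp (-2 * |t - t'|) ≤ 1 := by
    rw [Real.exp_le_one_iff]
    have := abs_nonneg (t - t')
    linarith
  have hE2 : fE c (t - t') ≤ 2 * Bc c := by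
    calc fE c (t - t') ≤ 2 * Bc c * Real.exp (-2 * |t - t'|) := hE1
      _ ≤ 2 * Bc c * 1 := by gcongr
      _ = _ := mul_one _
  have hCa := fC_abs hc (t - t')
  have hQb : |Q| ≤ M * lam ^ 2 * fE c (t - t') := by
    rw [hQ, fC_sub_one hc]
    refine (abs_sub _ _).trans ?_
    have a1 : |2 * (1 - Real.cos y) * (fC c (t - t') * (c * fE c (t - t')))| ≤
        y ^ 2 * (Bc c * (|c| * fE c (t - t'))) := by
      rw [abs_mul, abs_of_nonneg (by linarith : 0 ≤ 2 * (1 - Real.cos y)), abs_mul, abs_mul,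
        abs_of_nonneg hE0]
      have : 2 * (1 - Real.cos y) ≤ y ^ 2 := by linarith
      gcongr
    have a2 : |Real.sin y ^ 2 * fE c (t - t') ^ 2| ≤ y ^ 2 * (fE c (t - t') * (2 * Bc c)) := by
      rw [abs_of_nonneg (by positivity), sq (fE c (t - t'))]
      gcongr
    calc |2 * (1 - Real.cos y) * (fC c (t - t') * (c * fE c (t - t')))| +
        |Real.sin y ^ 2 * fE c (t - t') ^ 2| ≤
        y ^ 2 * (Bc c * (|c| * fE c (t - t'))) + y ^ 2 * (fE c (t - t') * (2 * Bc c)) :=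
          add_le_add a1 a2
      _ = y ^ 2 * ((Bc c * |c| + 2 * Bc c) * fE c (t - t')) := by ring
      _ ≤ (16 * lam ^ 2) * ((Bc c * |c| + 2 * Bc c) * fE c (t - t')) := by gcongr
      _ = _ := by rw [hM]; ring
  have hQe : |Q| ≤ 2 * (M * Bc c) * lam ^ 2 * Real.exp (-2 * |t - t'|) := by
    calc |Q| ≤ M * lam ^ 2 * fE c (t - t') := hQb
      _ ≤ M * lam ^ 2 * (2 * Bc c * Real.exp (-2 * |t - t'|)) := by gcongr
      _ = _ := by ring
  have hsm2 : 4 * (M * Bc c) * lam ≤ 1 := by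
    have : (4 * M * Bc c + 1) * lam = 4 * (M * Bc c) * lam + lam := by ring
    linarith
  have hQ2 : |Q| ≤ 1 / 2 := by
    calc |Q| ≤ 2 * (M * Bc c) * lam ^ 2 * Real.exp (-2 * |t - t'|) := hQe
      _ ≤ 2 * (M * Bc c) * lam ^ 2 * 1 := by gcongr
      _ = (4 * (M * Bc c) * lam) * lam / 2 := by ring
      _ ≤ 1 * 1 / 2 := by gcongr
      _ = 1 / 2 := by norm_num
  have hk : kc c (iD η) (iD η') t t' = Real.log (1 + Q) / 2 := by
    rw [kc_eq, log_norm_sq, normSq_Yc, hQ, hy]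
  rw [hk, abs_div, abs_of_pos (by norm_num : (0 : ℝ) < 2)]
  have hlog := abs_log_le hQ2
  have hex0 := Real.exp_pos (-2 * |t - t'|)
  calc |Real.log (1 + Q)| / 2 ≤ |Q| := by linarith
    _ ≤ 2 * (M * Bc c) * lam ^ 2 * Real.exp (-2 * |t - t'|) := hQe
    _ ≤ (4 * M * Bc c + 1) * lam ^ 2 * Real.exp (-2 * |t - t'|) := by
      gcongr
      nlinarith

/-- **decay of `k0`**, imaginary displacement -/
theorem dec_0 {lam : ℝ} {η η1 : ℝ → ℝ} (hη : ∀ x, HasDerivAt η (η1 x) x) (hc : Continuous η1)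
    (h : ∀ x, |η x| ≤ lam) (h1 : ∀ x, |η1 x| ≤ lam) (hsm : 100 * lam ≤ 1) (t t' : ℝ) :
    |k0 (iD η) (iD η1) t t'| ≤ 800 * lam * Real.exp (-2 * |t - t'|) := by
  have hl : 0 ≤ lam := (abs_nonneg _).trans (h 0)
  have hD : ∀ x, HasDerivAt (iD η) (iD η1 x) x := fun x => (hη x).ofReal_comp.mul_const I
  have hD1c : Continuous (iD η1) := by unfold iD; fun_prop
  have nD : ∀ x, ‖iD η x‖ ≤ lam := fun x => by
    unfold iD
    rw [norm_mul, Complex.norm_I, mul_one, Complex.norm_real]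
    exact h x
  have nD1 : ∀ x, ‖iD η1 x‖ ≤ lam := fun x => by
    unfold iD
    rw [norm_mul, Complex.norm_I, mul_one, Complex.norm_real]
    exact h1 x
  obtain ⟨y0, b0⟩ := (show (∀ t t', ‖Y0 (iD η) (iD η1) t t'‖ ≤ 1 / 2) ∧
      ∀ t t', |k0 (iD η) (iD η1) t t'| ≤ 100 * lam from by
    have H := glob_0 (lam := lam) (D := iD η) (D1 := iD η1) hD hD1c nD nD1 hsm
    exact H)
  rcases le_or_gt |t - t'| 1 with hx | hx
  · have e1 : Real.exp (-2 * 1) ≤ Real.exp (-2 * |t - t'|) := Real.exp_le_exp.2 (by linarith)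
    have e2 : (1 : ℝ) / 8 ≤ Real.exp (-2 * 1) := by
      have h3 : Real.exp (-2 * 1) = (Real.exp 1 ^ 2)⁻¹ := by
        rw [← Real.exp_nat_mul, ← Real.exp_neg]
        norm_num
      rw [h3, one_div]
      have h4 : Real.exp 1 ^ 2 ≤ 8 := by
        have := Real.exp_one_lt_d9
        have := Real.exp_pos 1
        nlinarith
      gcongr
    calc |k0 (iD η) (iD η1) t t'| ≤ 100 * lam := b0 t t'
      _ = 800 * lam * (1 / 8) := by ring
      _ ≤ 800 * lam * Real.exp (-2 * |t - t'|) :=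
        mul_le_mul_of_nonneg_left (e2.trans e1) (by positivity)
  · have hne : t - t' ≠ 0 := by
      intro h0
      rw [h0, abs_zero] at hx
      linarith
    have hs0 : Real.sinh (t - t') ≠ 0 := by rwa [Ne, Real.sinh_eq_zero]
    obtain ⟨y, hy⟩ : ∃ y : ℝ, y = η t - η t' := ⟨_, rfl⟩
    have hy2 : |y| ≤ 2 * lam := by
      rw [hy]
      have := abs_sub (η t) (η t')
      linarith [h t, h t']
    have hnorm : ‖1 + Y0 (iD η) (iD η1) t t'‖ ^ 2 =
        1 + Real.sin y ^ 2 / Real.sinh (t - t') ^ 2 := by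
      have e1 := sinh_mul hD hD1c t t'
      have e2 : ((t : ℂ) + iD η t) - (t' + iD η t') = ((t - t' : ℝ) : ℂ) + (y : ℂ) * I := by
        unfold iD
        rw [hy]
        push_cast
        ring
      rw [e2, Complex.sinh_add, Complex.cosh_mul_I, Complex.sinh_mul_I] at e1
      have e3 : ‖((Real.sinh (t - t') : ℝ) : ℂ) * (1 + Y0 (iD η) (iD η1) t t')‖ ^ 2 =
          Real.sinh (t - t') ^ 2 * ‖1 + Y0 (iD η) (iD η1) t t'‖ ^ 2 := by
        rw [norm_mul, mul_pow, Complex.norm_real, Real.norm_eq_abs, sq_abs]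
      have e4 : Complex.sinh ((t - t' : ℝ) : ℂ) * Complex.cos y +
          Complex.cosh ((t - t' : ℝ) : ℂ) * (Complex.sin y * I) =
          ((Real.sinh (t - t') * Real.cos y : ℝ) : ℂ) +
          ((Real.cosh (t - t') * Real.sin y : ℝ) : ℂ) * I := by
        push_cast
        ring
      rw [← e1, e4, Complex.sq_norm, Complex.normSq_add_mul_I] at e3
      have h6 := Real.cosh_sq (t - t')
      have h7 := Real.sin_sq_add_cos_sq y
      have hs2 : Real.sinh (t - t') ^ 2 ≠ 0 := pow_ne_zero 2 hs0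
      field_simp
      have e5 : Real.sinh (t - t') ^ 2 * ‖1 + Y0 (iD η) (iD η1) t t'‖ ^ 2 =
          Real.sinh (t - t') ^ 2 + Real.sin y ^ 2 := by
        rw [← e3, mul_pow, mul_pow, h6]
        have : Real.cos y ^ 2 = 1 - Real.sin y ^ 2 := by linarith
        rw [this]
        ring
      linarith
    have hs1 : Real.exp (2 * |t - t'|) / 8 ≤ Real.sinh (t - t') ^ 2 := by
      rw [← sq_abs, Real.abs_sinh, Real.sinh_eq]
      set u := |t - t'|
      have h8 : Real.exp (-u) ≤ Real.exp u / 4 := by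
        have e6 : Real.exp u = Real.exp (2 * u) * Real.exp (-u) := by
          rw [← Real.exp_add]; congr 1; ring
        have e7 : (4 : ℝ) ≤ Real.exp (2 * u) := by
          have h9 : Real.exp (2 * 1) ≤ Real.exp (2 * u) := Real.exp_le_exp.2 (by linarith)
          have h10 : Real.exp (2 * 1) = Real.exp 1 ^ 2 := by
            rw [← Real.exp_nat_mul]; norm_num
          have h11 := Real.add_one_le_exp (1 : ℝ)
          nlinarith
        have e8 := Real.exp_pos (-u)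
        nlinarith
      have h12 : Real.exp (2 * u) = Real.exp u ^ 2 := by
        rw [← Real.exp_nat_mul]; norm_num
      rw [h12]
      have h13 : 3 / 8 * Real.exp u ≤ (Real.exp u - Real.exp (-u)) / 2 := by linarith
      have h14 := Real.exp_pos u
      have h15 : (3 / 8 * Real.exp u) ^ 2 ≤ ((Real.exp u - Real.exp (-u)) / 2) ^ 2 :=
        pow_le_pow_left₀ (by positivity) h13 2
      nlinarith [sq_nonneg (Real.exp u)]
    obtain ⟨Q, hQ⟩ : ∃ Q : ℝ, Q = Real.sin y ^ 2 / Real.sinh (t - t') ^ 2 := ⟨_, rfl⟩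
    have hQ0 : 0 ≤ Q := by rw [hQ]; positivity
    have hsin : Real.sin y ^ 2 ≤ 4 * lam ^ 2 := by
      rw [← sq_abs]
      have h16 := Real.abs_sin_le_abs (x := y)
      have h17 : |Real.sin y| ≤ 2 * lam := h16.trans hy2
      have := abs_nonneg (Real.sin y)
      nlinarith
    have hQb : Q ≤ 32 * lam ^ 2 * Real.exp (-2 * |t - t'|) := by
      have h18 : Real.exp (-2 * |t - t'|) = (Real.exp (2 * |t - t'|))⁻¹ := by
        rw [← Real.exp_neg]; congr 1; ring
      rw [hQ, h18]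
      have h19 := Real.exp_pos (2 * |t - t'|)
      calc Real.sin y ^ 2 / Real.sinh (t - t') ^ 2 ≤ (4 * lam ^ 2) / (Real.exp (2 * |t - t'|) / 8) := by
            gcongr
        _ = _ := by field_simp; ring
    have hex : Real.exp (-2 * |t - t'|) ≤ 1 := by
      rw [Real.exp_le_one_iff]
      linarith
    have hlam : lam ^ 2 ≤ lam / 100 := by nlinarith
    have hQ2 : |Q| ≤ 1 / 2 := by
      rw [abs_of_nonneg hQ0]
      have : 32 * lam ^ 2 * Real.exp (-2 * |t - t'|) ≤ 32 * lam ^ 2 * 1 := by gcongr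
      nlinarith
    have hk : k0 (iD η) (iD η1) t t' = Real.log (1 + Q) / 2 := by
      rw [k0_eq, log_norm_sq, hnorm, hQ]
    rw [hk, abs_div, abs_of_pos (by norm_num : (0 : ℝ) < 2)]
    have hlog := abs_log_le hQ2
    rw [abs_of_nonneg hQ0] at hlog
    have hex0 := Real.exp_pos (-2 * |t - t'|)
    calc |Real.log (1 + Q)| / 2 ≤ Q := by linarith
      _ ≤ 32 * lam ^ 2 * Real.exp (-2 * |t - t'|) := hQb
      _ ≤ 32 * (lam / 100) * Real.exp (-2 * |t - t'|) := by gcongr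
      _ ≤ _ := by nlinarith [mul_nonneg hl hex0.le]

/-- **decay of the own kernel** -/
theorem exists_dec_w : ∃ K : ℝ, 1 ≤ K ∧ ∀ (lam : ℝ) (η η1 : ℝ → ℝ),
    (∀ x, HasDerivAt η (η1 x) x) → Continuous η1 →
    (∀ x, |η x| ≤ lam) → (∀ x, |η1 x| ≤ lam) → K * lam ≤ 1 → ∀ t t',
    |kw (iD η) (iD η1) t t'| ≤ K * lam * Real.exp (-2 * |t - t'|) := by
  obtain ⟨K1, hK1, H1⟩ := exists_dec_c (c := 0) (by norm_num)
  obtain ⟨K2, hK2, H2⟩ := exists_dec_c (c := NUMF.r) r_lt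
  refine ⟨1600 + K1 + K2, by linarith, fun lam η η1 hη hc h h1 hsm t t' => ?_⟩
  have hl : 0 ≤ lam := (abs_nonneg _).trans (h 0)
  have m1 : 0 ≤ K1 * lam := by positivity
  have m2 : 0 ≤ K2 * lam := by positivity
  have hl1 : lam ≤ 1 := by nlinarith
  have q0 := abs_le.1 (dec_0 hη hc h h1 (by linarith) t t')
  have e1 := H1 lam η η h h (by nlinarith) t t'
  have e2 := H2 lam η η h h (by nlinarith) t t'
  have hex0 := Real.exp_pos (-2 * |t - t'|)
  have hsq : lam ^ 2 ≤ lam := by nlinarith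
  have f1 : K1 * lam ^ 2 * Real.exp (-2 * |t - t'|) ≤ K1 * lam * Real.exp (-2 * |t - t'|) := by
    gcongr
  have f2 : K2 * lam ^ 2 * Real.exp (-2 * |t - t'|) ≤ K2 * lam * Real.exp (-2 * |t - t'|) := by
    gcongr
  have q1 := abs_le.1 (e1.trans f1)
  have q2 := abs_le.1 (e2.trans f2)
  unfold kw
  rw [abs_le]
  constructor <;> nlinarith

/-- **decay of the cross kernel** -/
theorem exists_dec_g : ∃ K : ℝ, 1 ≤ K ∧ ∀ (lam : ℝ) (η η' : ℝ → ℝ),
    (∀ x, |η x| ≤ lam) → (∀ x, |η' x| ≤ lam) → K * lam ≤ 1 → ∀ t t',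
    |kg (iD η) (iD η') t t'| ≤ K * lam * Real.exp (-2 * |t - t'|) := by
  obtain ⟨K1, hK1, H1⟩ := exists_dec_c (c := -1) (by norm_num)
  obtain ⟨K2, hK2, H2⟩ := exists_dec_c (c := -NUMF.r) (by linarith [r_pos])
  refine ⟨K1 + 2 * K2, by linarith, fun lam η η' h h' hsm t t' => ?_⟩
  have hl : 0 ≤ lam := (abs_nonneg _).trans (h 0)
  have m1 : 0 ≤ K1 * lam := by positivity
  have m2 : 0 ≤ K2 * lam := by positivity
  have hl1 : lam ≤ 1 := by nlinarith
  have e1 := H1 lam η η' h h' (by nlinarith) t t'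
  have e2 := H2 lam η η' h h' (by nlinarith) t t'
  have hex0 := Real.exp_pos (-2 * |t - t'|)
  have hsq : lam ^ 2 ≤ lam := by nlinarith
  have f1 : K1 * lam ^ 2 * Real.exp (-2 * |t - t'|) ≤ K1 * lam * Real.exp (-2 * |t - t'|) := by
    gcongr
  have f2 : K2 * lam ^ 2 * Real.exp (-2 * |t - t'|) ≤ K2 * lam * Real.exp (-2 * |t - t'|) := by
    gcongr
  have q1 := abs_le.1 (e1.trans f1)
  have q2 := abs_le.1 (e2.trans f2)
  unfold kg
  rw [abs_le]
  constructor <;> nlinarith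

theorem kc_zero {c : ℝ} {D D' : ℝ → ℂ} {t t' : ℝ} (h : D t = 0) (h' : D' t' = 0) :
    kc c D D' t t' = 0 := by
  unfold kc Yc
  rw [h, h']
  simp

theorem k0_zero {D D1 : ℝ → ℂ} (hD : ∀ x, HasDerivAt D (D1 x) x) (hc : Continuous D1) {t t' : ℝ}
    (h : D t = 0) (h' : D t' = 0) (h1 : D1 t = 0) : k0 D D1 t t' = 0 := by
  have hq : qd D1 t t' = 0 := by
    rcases eq_or_ne t t' with rfl | hne
    · rw [qd_diag, h1]
    · have h2 := sub_eq_qd hD hc t t'
      rw [h, h', sub_zero] at h2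
      have h3 : ((t - t' : ℝ) : ℂ) ≠ 0 := by
        exact_mod_cast sub_ne_zero.2 hne
      exact (mul_eq_zero.1 h2.symm).resolve_left h3
  unfold k0 Y0
  rw [hq, h, h']
  simp

/-- support of the own kernel -/
theorem kw_zero {D D1 : ℝ → ℂ} (hD : ∀ x, HasDerivAt D (D1 x) x) (hc : Continuous D1) {t t' : ℝ}
    (h : D t = 0) (h' : D t' = 0) (h1 : D1 t = 0) : kw D D1 t t' = 0 := by
  unfold kw
  rw [k0_zero hD hc h h' h1, kc_zero h h', kc_zero h h']
  ring

theorem kg_zero {D D' : ℝ → ℂ} {t t' : ℝ} (h : D t = 0) (h' : D' t' = 0) :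
    kg D D' t t' = 0 := by
  unfold kg
  rw [kc_zero h h', kc_zero h h']
  ring

/-- **remainder** of the cut kernel -/
theorem cut_rem {κ : ℝ → ℝ → ℝ} {M T Rb : ℝ} (hM : 0 ≤ M)
    (hd : ∀ t t', |κ t t'| ≤ M * Real.exp (-2 * |t - t'|))
    (hz : ∀ t t', T < |t| → T < |t'| → κ t t' = 0) (hT : T ≤ Rb) {b : ℝ → ℝ}
    (hb1 : ∀ t, |t| ≤ Rb → b t = 1) (hb0 : ∀ t, 0 ≤ b t) (hb2 : ∀ t, b t ≤ 1) (t t' : ℝ) :
    |κ t t' - b t * b t' * κ t t'| ≤ M * Real.exp (-2 * (Rb - T)) := by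
  have h0 : |1 - b t * b t'| ≤ 1 := by
    have h1 : b t * b t' ≤ 1 := by
      have := mul_le_mul (hb2 t) (hb2 t') (hb0 t') zero_le_one
      linarith
    have h2 : 0 ≤ b t * b t' := mul_nonneg (hb0 t) (hb0 t')
    rw [abs_le]
    constructor <;> linarith
  have key : ∀ t t' : ℝ, Rb < |t| → |κ t t'| ≤ M * Real.exp (-2 * (Rb - T)) ∨ κ t t' = 0 := by
    intro t t' ht
    rcases le_or_gt |t'| T with h' | h'
    · left
      refine (hd t t').trans (mul_le_mul_of_nonneg_left (Real.exp_le_exp.2 ?_) hM)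
      have := abs_sub_abs_le_abs_sub t t'
      linarith
    · exact Or.inr (hz t t' (lt_of_le_of_lt hT ht) h')
  have key' : ∀ t t' : ℝ, Rb < |t'| → |κ t t'| ≤ M * Real.exp (-2 * (Rb - T)) ∨ κ t t' = 0 := by
    intro t t' ht
    rcases le_or_gt |t| T with h' | h'
    · left
      refine (hd t t').trans (mul_le_mul_of_nonneg_left (Real.exp_le_exp.2 ?_) hM)
      have := abs_sub_abs_le_abs_sub t' t
      rw [abs_sub_comm t t']
      linarith
    · exact Or.inr (hz t t' h' (lt_of_le_of_lt hT ht))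
  have e1 : κ t t' - b t * b t' * κ t t' = (1 - b t * b t') * κ t t' := by ring
  have hM' : 0 ≤ M * Real.exp (-2 * (Rb - T)) := by positivity
  rw [e1, abs_mul]
  rcases le_or_gt |t| Rb with h | h
  · rcases le_or_gt |t'| Rb with h' | h'
    · rw [hb1 t h, hb1 t' h']
      simpa using hM'
    · rcases key' t t' h' with h3 | h3
      · calc |1 - b t * b t'| * |κ t t'| ≤ 1 * (M * Real.exp (-2 * (Rb - T))) := by gcongr
          _ = _ := one_mul _
      · rw [h3, abs_zero, mul_zero]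
        exact hM'
  · rcases key t t' h with h3 | h3
    · calc |1 - b t * b t'| * |κ t t'| ≤ 1 * (M * Real.exp (-2 * (Rb - T))) := by gcongr
        _ = _ := one_mul _
    · rw [h3, abs_zero, mul_zero]
      exact hM'

theorem nuF_abs {ι : Type*} [Fintype ι] {ρ : ℝ → ℝ} {s : ι → ℝ} (hρi : Integrable ρ)
    (hρ0 : ∀ t, 0 ≤ ρ t) {f : ℝ → ℝ} {C : ℝ} (hC : ∀ t, |f t| ≤ C) :
    |nuF ρ s f| ≤ C * ((Fintype.card ι : ℝ) + ∫ t, ρ t) := by
  unfold nuF
  have h1 : |∑ i, f (s i)| ≤ (Fintype.card ι : ℝ) * C := by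
    refine (abs_sum_le_sum_abs _ _).trans ?_
    calc ∑ i, |f (s i)| ≤ ∑ _i : ι, C := sum_le_sum fun i _ => hC _
      _ = _ := by simp
  have h2 : |∫ t', f t' * ρ t'| ≤ C * ∫ t', ρ t' := by
    have h3 : ‖∫ t', f t' * ρ t'‖ ≤ ∫ t', C * ρ t' := by
      refine norm_integral_le_of_norm_le (hρi.const_mul C) (ae_of_all _ fun t' => ?_)
      rw [norm_mul, Real.norm_eq_abs, Real.norm_of_nonneg (hρ0 t')]
      exact mul_le_mul_of_nonneg_right (hC t') (hρ0 t')
    rwa [integral_const_mul] at h3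
  refine (abs_sub _ _).trans ?_
  linarith

theorem nuF_sub {ι : Type*} [Fintype ι] {ρ : ℝ → ℝ} {s : ι → ℝ} (hρi : Integrable ρ)
    {f g : ℝ → ℝ} (hf : Continuous f) (hg : Continuous g) {C : ℝ} (hC : ∀ t, |f t| ≤ C)
    (hC' : ∀ t, |g t| ≤ C) :
    nuF ρ s (fun t => f t - g t) = nuF ρ s f - nuF ρ s g := by
  unfold nuF
  have i1 : Integrable fun t => f t * ρ t :=
    hρi.bdd_mul hf.aestronglyMeasurable (ae_of_all _ hC)
  have i2 : Integrable fun t => g t * ρ t :=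
    hρi.bdd_mul hg.aestronglyMeasurable (ae_of_all _ hC')
  simp only [sub_mul]
  rw [integral_sub i1 i2, sum_sub_distrib]
  ring

/-- **whole line form minus cut form** -/
theorem nuF2_sub_cut {ι ι' : Type*} [Fintype ι] [Fintype ι'] {ρ ρ' : ℝ → ℝ} {s : ι → ℝ}
    {s' : ι' → ℝ} (hρi : Integrable ρ) (hρ0 : ∀ t, 0 ≤ ρ t) (hρi' : Integrable ρ')
    (hρ0' : ∀ t, 0 ≤ ρ' t) (hρc' : Continuous ρ') {κ κ' : ℝ → ℝ → ℝ}
    (hκ : Continuous fun p : ℝ × ℝ => κ p.1 p.2) (hκ' : Continuous fun p : ℝ × ℝ => κ' p.1 p.2)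
    {C ε : ℝ} (hC : ∀ t t', |κ t t'| ≤ C) (hC' : ∀ t t', |κ' t t'| ≤ C)
    (hε : ∀ t t', |κ t t' - κ' t t'| ≤ ε) :
    |nuF2 ρ ρ' s s' κ - nuF2 ρ ρ' s s' κ'| ≤
      ε * ((Fintype.card ι' : ℝ) + ∫ t, ρ' t) * ((Fintype.card ι : ℝ) + ∫ t, ρ t) := by
  have cin : ∀ {κ : ℝ → ℝ → ℝ}, (Continuous fun p : ℝ × ℝ => κ p.1 p.2) →
      (∀ t t', |κ t t'| ≤ C) → Continuous fun t => nuF ρ' s' (κ t) := by
    intro κ hκ hC
    unfold nuF
    refine Continuous.sub ?_ ?_
    · exact continuous_finsetSum _ fun i _ => hκ.comp (by fun_prop : Continuous fun t => (t, s' i))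
    · refine continuous_of_dominated (F := fun t t' => κ t t' * ρ' t') (bound := fun t' => C * ρ' t')
        (fun t => ?_) (fun t => ae_of_all _ fun t' => ?_) (hρi'.const_mul C)
        (ae_of_all _ fun t' => ?_)
      · exact ((hκ.comp (by fun_prop : Continuous fun t' => (t, t'))).mul hρc').aestronglyMeasurable
      · rw [norm_mul, Real.norm_eq_abs, Real.norm_of_nonneg (hρ0' t')]
        exact mul_le_mul_of_nonneg_right (hC t t') (hρ0' t')
      · exact (hκ.comp (by fun_prop : Continuous fun t => (t, t'))).mul continuous_const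
  have h1 := cin hκ hC
  have h2 := cin hκ' hC'
  unfold nuF2
  rw [← nuF_sub hρi h1 h2 (C := C * ((Fintype.card ι' : ℝ) + ∫ t, ρ' t))
    (fun t => nuF_abs hρi' hρ0' (hC t)) (fun t => nuF_abs hρi' hρ0' (hC' t))]
  refine nuF_abs hρi hρ0 fun t => ?_
  have h3 := nuF_sub (s := s') hρi' (f := κ t) (g := κ' t)
    (hκ.comp (by fun_prop : Continuous fun t' => (t, t')))
    (hκ'.comp (by fun_prop : Continuous fun t' => (t, t'))) (hC t) (hC' t)
  rw [← h3]
  exact nuF_abs hρi' hρ0' (hε t)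

end NUKer
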