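import Pool.Agent.NUKer.Fourier

/-!
Functions with three bounded derivatives (no boundary condition): cutoff; one variable to two
variables; difference quotients.
-/

open Complex Finset Filter MeasureTheory
open scoped Topology

namespace NUKer

/-- the fixed bump: `1` on `[-1,1]`, `0` outside `(-3/2, 3/2)` -/
noncomputable def bmp : ContDiffBump (0 : ℝ) := ⟨1, 3 / 2, one_pos, by norm_num⟩

noncomputable def b0 (x : ℝ) : ℝ := bmp x
noncomputable def b1 : ℝ → ℝ := deriv b0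
noncomputable def b2 : ℝ → ℝ := deriv b1
noncomputable def b3 : ℝ → ℝ := deriv b2

theorem b0_smooth : ContDiff ℝ 3 b0 := bmp.contDiff

theorem b1_smooth : ContDiff ℝ 2 b1 :=
  ((contDiff_succ_iff_deriv (n := 2)).1 b0_smooth).2.2

theorem b2_smooth : ContDiff ℝ 1 b2 :=
  ((contDiff_succ_iff_deriv (n := 1)).1 b1_smooth).2.2

theorem b3_cont : Continuous b3 :=
  ((contDiff_succ_iff_deriv (n := 0)).1 b2_smooth).2.2.continuous

theorem b0_deriv (x : ℝ) : HasDerivAt b0 (b1 x) x :=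
  (b0_smooth.differentiable (by norm_num) x).hasDerivAt

theorem b1_deriv (x : ℝ) : HasDerivAt b1 (b2 x) x :=
  (b1_smooth.differentiable (by norm_num) x).hasDerivAt

theorem b2_deriv (x : ℝ) : HasDerivAt b2 (b3 x) x :=
  (b2_smooth.differentiable (by norm_num) x).hasDerivAt

theorem b0_supp : HasCompactSupport b0 := bmp.hasCompactSupport
theorem b1_supp : HasCompactSupport b1 := b0_supp.deriv
theorem b2_supp : HasCompactSupport b2 := b1_supp.deriv
theorem b3_supp : HasCompactSupport b3 := b2_supp.deriv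

theorem b0_one {x : ℝ} (h : |x| ≤ 1) : b0 x = 1 :=
  bmp.one_of_mem_closedBall (by simpa [bmp, Real.norm_eq_abs] using h)

theorem b0_zero {x : ℝ} (h : 3 / 2 ≤ |x|) : b0 x = 0 :=
  bmp.zero_of_le_dist (by simpa [bmp, Real.dist_eq] using h)

theorem b_zero_of {f : ℝ → ℝ} (hf : ∀ x, 3 / 2 ≤ |x| → f x = 0) {x : ℝ} (h : 3 / 2 < |x|) :
    deriv f x = 0 := by
  have h1 : f =ᶠ[𝓝 x] fun _ => 0 := by
    have : {y : ℝ | 3 / 2 < |y|} ∈ 𝓝 x :=
      (isOpen_lt continuous_const continuous_abs).mem_nhds h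
    filter_upwards [this] with y hy using hf y hy.le
  rw [h1.deriv_eq]
  simp

theorem b_zero_of' {f : ℝ → ℝ} (hf : ∀ x, 3 / 2 < |x| → f x = 0) {x : ℝ} (h : 3 / 2 < |x|) :
    deriv f x = 0 := by
  have h1 : f =ᶠ[𝓝 x] fun _ => 0 := by
    have : {y : ℝ | 3 / 2 < |y|} ∈ 𝓝 x :=
      (isOpen_lt continuous_const continuous_abs).mem_nhds h
    filter_upwards [this] with y hy using hf y hy
  rw [h1.deriv_eq]
  simp

theorem b1_zero {x : ℝ} (h : 3 / 2 < |x|) : b1 x = 0 := b_zero_of (fun _ h => b0_zero h) h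
theorem b2_zero {x : ℝ} (h : 3 / 2 < |x|) : b2 x = 0 := b_zero_of' (fun _ h => b1_zero h) h
theorem b3_zero {x : ℝ} (h : 3 / 2 < |x|) : b3 x = 0 := b_zero_of' (fun _ h => b2_zero h) h

theorem exists_bb : ∃ C : ℝ, 1 ≤ C ∧ (∀ x, |b0 x| ≤ C) ∧ (∀ x, |b1 x| ≤ C) ∧ (∀ x, |b2 x| ≤ C) ∧
    ∀ x, |b3 x| ≤ C := by
  obtain ⟨C0, h0⟩ := b0_supp.exists_bound_of_continuous b0_smooth.continuous
  obtain ⟨C1, h1⟩ := b1_supp.exists_bound_of_continuous b1_smooth.continuous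
  obtain ⟨C2, h2⟩ := b2_supp.exists_bound_of_continuous b2_smooth.continuous
  obtain ⟨C3, h3⟩ := b3_supp.exists_bound_of_continuous b3_cont
  refine ⟨max 1 (max (max C0 C1) (max C2 C3)), le_max_left _ _, fun x => ?_, fun x => ?_,
    fun x => ?_, fun x => ?_⟩
  · exact (h0 x).trans (by simp)
  · exact (h1 x).trans (by simp)
  · exact (h2 x).trans (by simp)
  · exact (h3 x).trans (by simp)

/-- **three bounded derivatives suffice** -/
theorem exists_KC1 : ∃ K : ℝ, 0 < K ∧ ∀ (A : ℝ), 1 ≤ A → ∀ f f1 f2 f3 : ℝ → ℂ,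
    (∀ x, HasDerivAt f (f1 x) x) → (∀ x, HasDerivAt f1 (f2 x) x) →
    (∀ x, HasDerivAt f2 (f3 x) x) → Continuous f3 → ∀ M : ℝ,
    (∀ x, |x| ≤ 2 * A → ‖f x‖ ≤ M) → (∀ x, |x| ≤ 2 * A → ‖f1 x‖ ≤ M) →
    (∀ x, |x| ≤ 2 * A → ‖f2 x‖ ≤ M) → (∀ x, |x| ≤ 2 * A → ‖f3 x‖ ≤ M) →
    KC1 A (K * A ^ 3 * M) f := by
  obtain ⟨C, hC, c0, c1, c2, c3⟩ := exists_bb
  have hKz : 0 ≤ Kz := tsum_nonneg fun n => by positivity
  refine ⟨C + 12 * (8 * C) * Kz, by positivity, ?_⟩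
  intro A hA f f1 f2 f3 h1 h2 h3 h4 M m0 m1 m2 m3
  have hA0 : 0 < A := by linarith
  have hM : 0 ≤ M := (norm_nonneg _).trans (m0 0 (by simp; linarith))
  have d0 : ∀ x : ℝ, HasDerivAt (fun x : ℝ => ((b0 (x / A) : ℝ) : ℂ)) (((b1 (x / A) / A : ℝ) : ℂ)) x := by
    intro x
    have := (b0_deriv (x / A)).comp x ((hasDerivAt_id x).div_const A)
    have h5 := this.ofReal_comp
    convert h5 using 1
    congr 1
    rw [mul_one_div]
  have d1 : ∀ x : ℝ, HasDerivAt (fun x : ℝ => ((b1 (x / A) / A : ℝ) : ℂ))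
      (((b2 (x / A) / A ^ 2 : ℝ) : ℂ)) x := by
    intro x
    have := ((b1_deriv (x / A)).comp x ((hasDerivAt_id x).div_const A)).div_const A
    have h5 := this.ofReal_comp
    convert h5 using 1
    congr 1
    field_simp
  have d2 : ∀ x : ℝ, HasDerivAt (fun x : ℝ => ((b2 (x / A) / A ^ 2 : ℝ) : ℂ))
      (((b3 (x / A) / A ^ 3 : ℝ) : ℂ)) x := by
    intro x
    have := ((b2_deriv (x / A)).comp x ((hasDerivAt_id x).div_const A)).div_const (A ^ 2)
    have h5 := this.ofReal_comp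
    convert h5 using 1
    congr 1
    field_simp
  -- the cut functions
  set g : ℝ → ℂ := fun x => (b0 (x / A) : ℝ) * f x with hg
  set g1 : ℝ → ℂ := fun x => (b1 (x / A) / A : ℝ) * f x + (b0 (x / A) : ℝ) * f1 x with hg1
  set g2 : ℝ → ℂ := fun x => (b2 (x / A) / A ^ 2 : ℝ) * f x + (b1 (x / A) / A : ℝ) * f1 x +
    ((b1 (x / A) / A : ℝ) * f1 x + (b0 (x / A) : ℝ) * f2 x) with hg2
  set g3 : ℝ → ℂ := fun x => ((b3 (x / A) / A ^ 3 : ℝ) * f x + (b2 (x / A) / A ^ 2 : ℝ) * f1 x +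
    ((b2 (x / A) / A ^ 2 : ℝ) * f1 x + (b1 (x / A) / A : ℝ) * f2 x)) +
    (((b2 (x / A) / A ^ 2 : ℝ) * f1 x + (b1 (x / A) / A : ℝ) * f2 x) +
    ((b1 (x / A) / A : ℝ) * f2 x + (b0 (x / A) : ℝ) * f3 x)) with hg3
  have e1 : ∀ x, HasDerivAt g (g1 x) x := fun x => (d0 x).mul (h1 x)
  have e2 : ∀ x, HasDerivAt g1 (g2 x) x := fun x => ((d1 x).mul (h1 x)).add ((d0 x).mul (h2 x))
  have e3 : ∀ x, HasDerivAt g2 (g3 x) x := fun x =>
    (((d2 x).mul (h1 x)).add ((d1 x).mul (h2 x))).add (((d1 x).mul (h2 x)).add ((d0 x).mul (h3 x)))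
  have cf : Continuous f := continuous_iff_continuousAt.2 fun x => (h1 x).continuousAt
  have cf1 : Continuous f1 := continuous_iff_continuousAt.2 fun x => (h2 x).continuousAt
  have cf2 : Continuous f2 := continuous_iff_continuousAt.2 fun x => (h3 x).continuousAt
  have cb0 := b0_smooth.continuous
  have cb1 := b1_smooth.continuous
  have cb2 := b2_smooth.continuous
  have cb3 := b3_cont
  have cg3 : Continuous g3 := by rw [hg3]; fun_prop
  have zer : ∀ x : ℝ, |x| = 2 * A → 3 / 2 < |x / A| := by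
    intro x hx
    rw [abs_div, hx, abs_of_pos hA0]
    rw [mul_div_assoc, div_self hA0.ne']
    norm_num
  have zz : ∀ x : ℝ, |x| = 2 * A → g x = 0 ∧ g1 x = 0 ∧ g2 x = 0 := by
    intro x hx
    have h6 := zer x hx
    have h7 := b0_zero h6.le
    have h8 := b1_zero h6
    have h9 := b2_zero h6
    refine ⟨?_, ?_, ?_⟩
    · simp [hg, h7]
    · simp [hg1, h7, h8]
    · simp [hg2, h7, h8, h9]
  have za : |(-(2 * A))| = 2 * A := by rw [abs_neg, abs_of_pos (by linarith)]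
  have zb : |2 * A| = 2 * A := abs_of_pos (by linarith)
  have hA1 : ∀ (k : ℕ) (y : ℝ), |y| ≤ C → |y / A ^ k| ≤ C := by
    intro k y hy
    rw [abs_div, abs_of_pos (by positivity : 0 < A ^ k)]
    exact (div_le_self (abs_nonneg _) (one_le_pow₀ hA)).trans hy
  have nm : ∀ (y : ℝ) (z : ℂ), |y| ≤ C → ‖z‖ ≤ M → ‖(y : ℂ) * z‖ ≤ C * M := by
    intro y z hy hz
    rw [norm_mul, Complex.norm_real, Real.norm_eq_abs]
    gcongr
  have key := KC1_periodic (L := 2 * A) (by linarith) (g := g) (g1 := g1) (g2 := g2) (g3 := g3)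
    (fun x _ _ => e1 x) (fun x _ _ => e2 x) (fun x _ _ => e3 x)
    (continuous_iff_continuousAt.2 fun x => (e1 x).continuousAt)
    (continuous_iff_continuousAt.2 fun x => (e2 x).continuousAt)
    (continuous_iff_continuousAt.2 fun x => (e3 x).continuousAt) cg3
    (zz _ za).1 (zz _ zb).1 (zz _ za).2.1 (zz _ zb).2.1 (zz _ za).2.2 (zz _ zb).2.2
    (M0 := C * M) (M3 := 8 * (C * M)) (fun x hx hx' => nm _ _ (c0 _) (m0 x (abs_le.2 ⟨hx, hx'⟩)))
    (fun x hx hx' => by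
      have hx2 : |x| ≤ 2 * A := abs_le.2 ⟨hx, hx'⟩
      have k1 := nm _ _ (hA1 3 _ (c3 (x / A))) (m0 x hx2)
      have k2 := nm _ _ (hA1 2 _ (c2 (x / A))) (m1 x hx2)
      have k3 := nm _ _ (hA1 1 _ (c1 (x / A))) (m2 x hx2)
      have k4 := nm _ _ (c0 (x / A)) (m3 x hx2)
      rw [pow_one] at k3
      rw [hg3]
      simp only
      refine (norm_add_le _ _).trans ?_
      have s1 := norm_add_le (((b3 (x / A) / A ^ 3 : ℝ) : ℂ) * f x + (b2 (x / A) / A ^ 2 : ℝ) * f1 x)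
        ((b2 (x / A) / A ^ 2 : ℝ) * f1 x + (b1 (x / A) / A : ℝ) * f2 x)
      have s2 := norm_add_le (((b3 (x / A) / A ^ 3 : ℝ) : ℂ) * f x) ((b2 (x / A) / A ^ 2 : ℝ) * f1 x)
      have s3 := norm_add_le (((b2 (x / A) / A ^ 2 : ℝ) : ℂ) * f1 x) ((b1 (x / A) / A : ℝ) * f2 x)
      have s4 := norm_add_le (((b2 (x / A) / A ^ 2 : ℝ) : ℂ) * f1 x + (b1 (x / A) / A : ℝ) * f2 x)
        ((b1 (x / A) / A : ℝ) * f2 x + (b0 (x / A) : ℝ) * f3 x)
      have s5 := norm_add_le (((b1 (x / A) / A : ℝ) : ℂ) * f2 x) ((b0 (x / A) : ℝ) * f3 x)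
      linarith)
    (R := A) (by linarith)
  -- conclusion
  intro ε hε
  obtain ⟨ι, hι, c, a, k1, k2⟩ := key ε hε
  refine ⟨ι, hι, c, a, k1.trans ?_, fun t ht => ?_⟩
  · have hA3 : 1 ≤ A ^ 3 := one_le_pow₀ hA
    have hA2 : A ^ 2 ≤ A ^ 3 := pow_le_pow_right₀ hA (by norm_num)
    have : ((2 * A) ^ 3 + (2 * A) ^ 2) ≤ 12 * A ^ 3 := by
      have : (2 * A) ^ 3 + (2 * A) ^ 2 = 8 * A ^ 3 + 4 * A ^ 2 := by ring
      linarith
    have hCM : C * M ≤ C * M * A ^ 3 := le_mul_of_one_le_right (by positivity) hA3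
    have hCM2 : ((2 * A) ^ 3 + (2 * A) ^ 2) * (8 * (C * M)) * Kz ≤
        (12 * A ^ 3) * (8 * (C * M)) * Kz := by gcongr
    calc C * M + ((2 * A) ^ 3 + (2 * A) ^ 2) * (8 * (C * M)) * Kz ≤
        C * M * A ^ 3 + (12 * A ^ 3) * (8 * (C * M)) * Kz := add_le_add hCM hCM2
      _ = _ := by ring
  · have h5 := k2 t ht
    have h6 : g t = f t := by
      rw [hg]
      simp only
      rw [b0_one, ofReal_one, one_mul]
      rw [abs_div, abs_of_pos hA0, div_le_one hA0]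
      exact ht
    rwa [h6] at h5

end NUKer
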