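import Pool.Agent.NUKer.Kap
import Pool.Agent.NUP.MF.Quanta

/-!
The kernels of the pair functions `w` (own) and `g` (cross) for displaced paths, and the exact
product identity.
-/

open Complex Finset Filter MeasureTheory
open scoped Topology

namespace NUKer

/-- own pair function, complex argument -/
noncomputable def wcx (z : ℂ) : ℂ :=
  Complex.sinh z ^ 2 * Complex.cosh (2 * z) / (Complex.cosh (2 * z) - NUMF.r)

/-- cross pair function, complex argument -/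
noncomputable def gcx (z : ℂ) : ℂ :=
  4 * Complex.cosh z ^ 2 / (Complex.cosh (2 * z) + NUMF.r) ^ 2

theorem r_lt : NUMF.r < 1 := by
  unfold NUMF.r
  have := Real.sqrt_two_lt_three_halves
  linarith

theorem r_pos : 0 < NUMF.r := by
  unfold NUMF.r
  positivity

/-- kernel of `w` -/
noncomputable def kw (D D1 : ℝ → ℂ) (t t' : ℝ) : ℝ :=
  2 * k0 D D1 t t' + kc 0 D D t t' - kc NUMF.r D D t t'

/-- kernel of `g` -/
noncomputable def kg (D D' : ℝ → ℂ) (t t' : ℝ) : ℝ :=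
  kc (-1) D D' t t' - 2 * kc (-NUMF.r) D D' t t'

theorem one_add_ne {Y : ℂ} (h : ‖Y‖ ≤ 1 / 2) : 1 + Y ≠ 0 := by
  intro h0
  have : Y = -1 := by linear_combination h0
  rw [this] at h
  norm_num at h

theorem exp_kc {c : ℝ} {D D' : ℝ → ℂ} {t t' : ℝ} (h : ‖Yc c D D' t t'‖ ≤ 1 / 2) :
    Real.exp (kc c D D' t t') = ‖1 + Yc c D D' t t'‖ := by
  rw [kc_eq, Real.exp_log (norm_pos_iff.2 (one_add_ne h))]

theorem exp_k0 {D D1 : ℝ → ℂ} {t t' : ℝ} (h : ‖Y0 D D1 t t'‖ ≤ 1 / 2) :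
    Real.exp (k0 D D1 t t') = ‖1 + Y0 D D1 t t'‖ := by
  rw [k0_eq, Real.exp_log (norm_pos_iff.2 (one_add_ne h))]

theorem norm_den {c : ℝ} (hc : c < 1) {D D' : ℝ → ℂ} {t t' : ℝ} (h : ‖Yc c D D' t t'‖ ≤ 1 / 2) :
    ‖Complex.cosh (2 * ((t + D t) - (t' + D' t'))) - c‖ =
      (Real.cosh (2 * (t - t')) - c) * Real.exp (kc c D D' t t') := by
  rw [den_mul hc, norm_mul, exp_kc h, Complex.norm_real, Real.norm_of_nonneg]
  linarith [den_ge (c := c) (t - t')]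

theorem norm_sinh {D D1 : ℝ → ℂ} (hD : ∀ x, HasDerivAt D (D1 x) x) (hc : Continuous D1)
    {t t' : ℝ} (h : ‖Y0 D D1 t t'‖ ≤ 1 / 2) :
    ‖Complex.sinh ((t + D t) - (t' + D t'))‖ = |Real.sinh (t - t')| * Real.exp (k0 D D1 t t') := by
  rw [sinh_mul hD hc, norm_mul, exp_k0 h, Complex.norm_real, Real.norm_eq_abs]

/-- smallness of all relative changes on the square `[-R,R]^2`, same path -/
structure Sm (R : ℝ) (D D1 : ℝ → ℂ) : Prop where
  hD : ∀ x, HasDerivAt D (D1 x) x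
  hc : Continuous D1
  y0 : ∀ t t', |t| ≤ R → |t'| ≤ R → ‖Y0 D D1 t t'‖ ≤ 1 / 2
  yz : ∀ t t', |t| ≤ R → |t'| ≤ R → ‖Yc 0 D D t t'‖ ≤ 1 / 2
  yr : ∀ t t', |t| ≤ R → |t'| ≤ R → ‖Yc NUMF.r D D t t'‖ ≤ 1 / 2

/-- the same for two paths -/
structure Sm2 (R : ℝ) (D D' : ℝ → ℂ) : Prop where
  y1 : ∀ t t', |t| ≤ R → |t'| ≤ R → ‖Yc (-1) D D' t t'‖ ≤ 1 / 2
  y2 : ∀ t t', |t| ≤ R → |t'| ≤ R → ‖Yc (-NUMF.r) D D' t t'‖ ≤ 1 / 2

variable {R : ℝ} {D D1 D' D1' : ℝ → ℂ}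

theorem norm_wcx (h : Sm R D D1) {t t' : ℝ} (ht : |t| ≤ R) (ht' : |t'| ≤ R) :
    ‖wcx ((t + D t) - (t' + D t'))‖ = NUMF.w (t - t') * Real.exp (kw D D1 t t') := by
  have h1 := norm_sinh h.hD h.hc (h.y0 t t' ht ht')
  have h2 := norm_den (c := 0) (by norm_num) (h.yz t t' ht ht')
  have h3 := norm_den r_lt (h.yr t t' ht ht')
  rw [Complex.ofReal_zero, sub_zero, sub_zero] at h2
  unfold wcx kw NUMF.w
  rw [norm_div, norm_mul, norm_pow, h1, h2, h3]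
  have hpos : 0 < Real.cosh (2 * (t - t')) - NUMF.r := by
    have := den_ge (c := NUMF.r) (t - t')
    linarith [r_lt]
  rw [show 2 * k0 D D1 t t' + kc 0 D D t t' - kc NUMF.r D D t t' =
    k0 D D1 t t' + k0 D D1 t t' + kc 0 D D t t' - kc NUMF.r D D t t' by ring,
    Real.exp_sub, Real.exp_add, Real.exp_add, mul_pow, sq_abs]
  have he := Real.exp_pos (kc NUMF.r D D t t')
  field_simp

theorem cosh_sq_two (z : ℂ) : 2 * Complex.cosh z ^ 2 = Complex.cosh (2 * z) - ((-1 : ℝ) : ℂ) := by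
  rw [Complex.cosh_two_mul, Complex.ofReal_neg, Complex.ofReal_one]
  have := Complex.cosh_sq_sub_sinh_sq z
  linear_combination this

theorem norm_gcx (h : Sm2 R D D') {t t' : ℝ} (ht : |t| ≤ R) (ht' : |t'| ≤ R) :
    ‖gcx ((t + D t) - (t' + D' t'))‖ = NUMF.g (t - t') * Real.exp (kg D D' t t') := by
  have h2 := norm_den (c := -1) (by norm_num) (h.y1 t t' ht ht')
  have h3 := norm_den (c := -NUMF.r) (by linarith [r_pos]) (h.y2 t t' ht ht')
  have hpos : 0 < Real.cosh (2 * (t - t')) - -NUMF.r := by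
    have := den_ge (c := -NUMF.r) (t - t')
    linarith [r_pos]
  have e1 : gcx ((t + D t) - (t' + D' t')) =
      2 * (Complex.cosh (2 * ((t + D t) - (t' + D' t'))) - ((-1 : ℝ) : ℂ)) /
      (Complex.cosh (2 * ((t + D t) - (t' + D' t'))) - ((-NUMF.r : ℝ) : ℂ)) ^ 2 := by
    unfold gcx
    rw [← cosh_sq_two]
    push_cast
    ring
  have e2 : NUMF.g (t - t') = 2 * (Real.cosh (2 * (t - t')) - -1) /
      (Real.cosh (2 * (t - t')) - -NUMF.r) ^ 2 := by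
    unfold NUMF.g
    have : Real.cosh (2 * (t - t')) = 2 * Real.cosh (t - t') ^ 2 - 1 := by
      rw [Real.cosh_two_mul]
      have := Real.cosh_sq_sub_sinh_sq (t - t')
      linarith
    rw [show 4 * Real.cosh (t - t') ^ 2 = 2 * (Real.cosh (2 * (t - t')) - -1) by rw [this]; ring]
    congr 1
    ring
  rw [e1, e2, norm_div, norm_mul, norm_pow, h2, h3]
  unfold kg
  rw [show kc (-1) D D' t t' - 2 * kc (-NUMF.r) D D' t t' =
    kc (-1) D D' t t' - (kc (-NUMF.r) D D' t t' + kc (-NUMF.r) D D' t t') by ring,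
    Real.exp_sub, Real.exp_add]
  have he := Real.exp_pos (kc (-NUMF.r) D D' t t')
  simp only [Complex.norm_ofNat]
  field_simp

theorem kc_diag (c : ℝ) (D : ℝ → ℂ) (t : ℝ) : kc c D D t t = 0 := by
  unfold kc Yc
  simp

theorem kw_diag (D D1 : ℝ → ℂ) (t : ℝ) : kw D D1 t t = 2 * Real.log ‖1 + D1 t‖ := by
  unfold kw
  rw [kc_diag, kc_diag, k0_eq, Y0_diag]
  ring

theorem kg_diag (D : ℝ → ℂ) (t : ℝ) : kg D D t t = 0 := by
  unfold kg
  rw [kc_diag, kc_diag]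
  ring

/-- four derivatives bounded by `lam` on `[-2R, 2R]` -/
structure Disp (R lam : ℝ) (D D1 : ℝ → ℂ) : Prop where
  ex : ∃ D2 D3 D4 : ℝ → ℂ, (∀ x, HasDerivAt D (D1 x) x) ∧ (∀ x, HasDerivAt D1 (D2 x) x) ∧
    (∀ x, HasDerivAt D2 (D3 x) x) ∧ (∀ x, HasDerivAt D3 (D4 x) x) ∧ Continuous D4 ∧
    (∀ x, |x| ≤ 2 * R → ‖D x‖ ≤ lam) ∧ (∀ x, |x| ≤ 2 * R → ‖D1 x‖ ≤ lam) ∧
    (∀ x, |x| ≤ 2 * R → ‖D2 x‖ ≤ lam) ∧ (∀ x, |x| ≤ 2 * R → ‖D3 x‖ ≤ lam) ∧
    (∀ x, |x| ≤ 2 * R → ‖D4 x‖ ≤ lam)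

theorem Disp.deriv {lam : ℝ} (h : Disp R lam D D1) (x : ℝ) : HasDerivAt D (D1 x) x := by
  obtain ⟨D2, D3, D4, h1, -⟩ := h.ex
  exact h1 x

theorem Disp.cont1 {lam : ℝ} (h : Disp R lam D D1) : Continuous D1 := by
  obtain ⟨D2, D3, D4, h1, h2, -⟩ := h.ex
  exact continuous_iff_continuousAt.2 fun x => (h2 x).continuousAt

theorem Disp.cont {lam : ℝ} (h : Disp R lam D D1) : Continuous D :=
  continuous_iff_continuousAt.2 fun x => (h.deriv x).continuousAt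

/-- constructor from `ContDiff` -/
theorem Disp.of_contDiff {lam : ℝ} {D : ℝ → ℂ} (h : ContDiff ℝ 4 D)
    (hb : ∀ j ≤ 4, ∀ x, |x| ≤ 2 * R → ‖iteratedDeriv j D x‖ ≤ lam) :
    Disp R lam D (_root_.deriv D) := by
  have hd : ∀ j < 4, ∀ x, HasDerivAt (iteratedDeriv j D) (iteratedDeriv (j + 1) D x) x := by
    intro j hj x
    rw [iteratedDeriv_succ]
    exact ((h.differentiable_iteratedDeriv j (by exact_mod_cast hj)) x).hasDerivAt
  have e0 : iteratedDeriv 0 D = D := iteratedDeriv_zero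
  have e1 : iteratedDeriv 1 D = _root_.deriv D := iteratedDeriv_one
  have hd0 := hd 0 (by norm_num)
  have hd1 := hd 1 (by norm_num)
  rw [e0, zero_add, e1] at hd0
  rw [e1] at hd1
  have hb0 := hb 0 (by norm_num)
  have hb1 := hb 1 (by norm_num)
  rw [e0] at hb0
  rw [e1] at hb1
  exact ⟨iteratedDeriv 2 D, iteratedDeriv 3 D, iteratedDeriv 4 D, hd0, hd1,
    hd 2 (by norm_num), hd 3 (by norm_num), h.continuous_iteratedDeriv 4 le_rfl, hb0, hb1,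
    hb 2 (by norm_num), hb 3 (by norm_num), hb 4 le_rfl⟩

theorem exists_disp : ∃ K : ℝ, 1 ≤ K ∧ ∀ R : ℝ, 1 ≤ R → ∀ (lam : ℝ) (D D1 : ℝ → ℂ),
    Disp R lam D D1 → 0 ≤ lam ∧ KC1 R (K * R ^ 3 * lam) D ∧ KC1 R (K * R ^ 3 * lam) D1 := by
  obtain ⟨K, hK0, hK⟩ := exists_KC1
  refine ⟨K + 1, by linarith, fun R hR lam D D1 h => ?_⟩
  obtain ⟨D2, D3, D4, h1, h2, h3, h4, hc, b0, b1, b2, b3, b4⟩ := h.ex
  have hl : 0 ≤ lam := (norm_nonneg _).trans (b0 0 (by simp; linarith))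
  have c3 : Continuous D3 := continuous_iff_continuousAt.2 fun x => (h4 x).continuousAt
  have hm : K * R ^ 3 * lam ≤ (K + 1) * R ^ 3 * lam := by
    gcongr
    linarith
  exact ⟨hl, (hK R hR D D1 D2 D3 h1 h2 h3 c3 lam b0 b1 b2 b3).mono hm,
    (hK R hR D1 D2 D3 D4 h2 h3 h4 hc lam b1 b2 b3 b4).mono hm⟩

/-- **own kernel**: smallness and class -/
theorem exists_kw : ∃ K : ℝ, 1 ≤ K ∧ ∀ R : ℝ, 1 ≤ R → ∀ (lam : ℝ) (D D1 : ℝ → ℂ),
    Disp R lam D D1 → K * R ^ 7 * lam ≤ 1 →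
    Sm R D D1 ∧ KC R (K * R ^ 7 * lam) (fun t t' => ((kw D D1 t t' : ℝ) : ℂ)) := by
  obtain ⟨K1, hK1, H1⟩ := exists_disp
  obtain ⟨K2, hK2, H2⟩ := exists_k0
  obtain ⟨K3, hK3, H3⟩ := exists_kc (c := 0) (by norm_num)
  obtain ⟨K4, hK4, H4⟩ := exists_kc (c := NUMF.r) r_lt
  have hp2 : 0 < K1 := by linarith
  refine ⟨4 * K1 * (K2 + K3 + K4), by nlinarith, fun R hR lam D D1 h hsm => ?_⟩
  obtain ⟨hl, hD, hD1⟩ := H1 R hR lam D D1 h
  have hR7 : R ^ 4 * R ^ 3 = R ^ 7 := by ring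
  have hR6 : R ^ 3 * R ^ 3 ≤ R ^ 7 := by
    rw [← pow_add]
    exact pow_le_pow_right₀ hR (by norm_num)
  have hX : 0 ≤ K1 * (R ^ 7 * lam) := by positivity
  have e2 : K2 * R ^ 4 * (K1 * R ^ 3 * lam) = K2 * (K1 * (R ^ 7 * lam)) := by ring
  have e3 : ∀ K : ℝ, 0 ≤ K → K * R ^ 3 * (K1 * R ^ 3 * lam) ≤ K * (K1 * (R ^ 7 * lam)) := by
    intro K hK
    calc K * R ^ 3 * (K1 * R ^ 3 * lam) = K * (K1 * ((R ^ 3 * R ^ 3) * lam)) := by ring
      _ ≤ _ := by gcongr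
  have hsm' : 4 * (K2 + K3 + K4) * (K1 * (R ^ 7 * lam)) ≤ 1 := by
    refine le_trans (le_of_eq ?_) hsm
    ring
  have b2 : K2 * (K1 * (R ^ 7 * lam)) ≤ 1 := by nlinarith
  have b3 : K3 * (K1 * (R ^ 7 * lam)) ≤ 1 := by nlinarith
  have b4 : K4 * (K1 * (R ^ 7 * lam)) ≤ 1 := by nlinarith
  obtain ⟨k1, s1⟩ := H2 R hR _ D D1 hD hD1 (by rw [e2]; exact b2)
  obtain ⟨k2, s2⟩ := H3 R hR _ D D hD hD ((e3 K3 (by linarith)).trans b3)
  obtain ⟨k3, s3⟩ := H4 R hR _ D D hD hD ((e3 K4 (by linarith)).trans b4)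
  refine ⟨⟨h.deriv, h.cont1, s1, s2, s3⟩, ?_⟩
  have hk := ((k1.smul 2).add k2).sub k3
  refine (hk.mono ?_).congr fun t t' _ _ => ?_
  · have q3 := e3 K3 (by linarith)
    have q4 := e3 K4 (by linarith)
    rw [e2, show ‖(2 : ℂ)‖ = 2 by simp]
    calc 2 * (K2 * (K1 * (R ^ 7 * lam))) + K3 * R ^ 3 * (K1 * R ^ 3 * lam) +
        K4 * R ^ 3 * (K1 * R ^ 3 * lam) ≤ 2 * (K2 * (K1 * (R ^ 7 * lam))) +
        K3 * (K1 * (R ^ 7 * lam)) + K4 * (K1 * (R ^ 7 * lam)) := by gcongr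
      _ ≤ _ := by nlinarith
  · unfold kw
    push_cast
    ring

/-- **cross kernel**: smallness and class -/
theorem exists_kg : ∃ K : ℝ, 1 ≤ K ∧ ∀ R : ℝ, 1 ≤ R → ∀ (lam : ℝ) (D D1 D' D1' : ℝ → ℂ),
    Disp R lam D D1 → Disp R lam D' D1' → K * R ^ 6 * lam ≤ 1 →
    Sm2 R D D' ∧ KC R (K * R ^ 6 * lam) (fun t t' => ((kg D D' t t' : ℝ) : ℂ)) := by
  obtain ⟨K1, hK1, H1⟩ := exists_disp
  obtain ⟨K3, hK3, H3⟩ := exists_kc (c := -1) (by norm_num)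
  obtain ⟨K4, hK4, H4⟩ := exists_kc (c := -NUMF.r) (by linarith [r_pos])
  have hp2 : 0 < K1 := by linarith
  refine ⟨4 * K1 * (K3 + K4), by nlinarith, fun R hR lam D D1 D' D1' h h' hsm => ?_⟩
  obtain ⟨hl, hD, -⟩ := H1 R hR lam D D1 h
  obtain ⟨-, hD', -⟩ := H1 R hR lam D' D1' h'
  have hX : 0 ≤ K1 * (R ^ 6 * lam) := by positivity
  have e3 : ∀ K : ℝ, K * R ^ 3 * (K1 * R ^ 3 * lam) = K * (K1 * (R ^ 6 * lam)) := by
    intro K
    ring
  have hsm' : 4 * (K3 + K4) * (K1 * (R ^ 6 * lam)) ≤ 1 := by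
    refine le_trans (le_of_eq ?_) hsm
    ring
  have b3 : K3 * (K1 * (R ^ 6 * lam)) ≤ 1 := by nlinarith
  have b4 : K4 * (K1 * (R ^ 6 * lam)) ≤ 1 := by nlinarith
  obtain ⟨k2, s2⟩ := H3 R hR _ D D' hD hD' ((e3 K3).le.trans b3)
  obtain ⟨k3, s3⟩ := H4 R hR _ D D' hD hD' ((e3 K4).le.trans b4)
  refine ⟨⟨s2, s3⟩, ?_⟩
  have hk := k2.sub (k3.smul 2)
  refine (hk.mono ?_).congr fun t t' _ _ => ?_
  · rw [e3, e3, show ‖(2 : ℂ)‖ = 2 by simp]
    nlinarith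
  · unfold kg
    push_cast
    ring

/-- the sum over pairs as half the full double sum minus half the diagonal -/
theorem sum_pairs_half {n : ℕ} (f : Fin n → Fin n → ℝ) (hf : ∀ i j, f i j = f j i) :
    ∑ i, ∑ j ∈ Ioi i, f i j = (1 / 2) * ∑ i, ∑ j, f i j - (1 / 2) * ∑ i, f i i := by
  have h1 : ∀ i : Fin n, ∑ j, f i j = ∑ j ∈ Ioi i, f i j + f i i + ∑ j ∈ Iio i, f i j := by
    intro i
    have h2 : (univ : Finset (Fin n)) = (Ioi i ∪ {i}) ∪ Iio i := by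
      ext j
      simp only [mem_univ, mem_union, mem_Ioi, mem_singleton, mem_Iio, true_iff]
      rcases lt_trichotomy i j with h | h | h
      · exact Or.inl (Or.inl h)
      · exact Or.inl (Or.inr h.symm)
      · exact Or.inr h
    rw [h2, sum_union, sum_union, sum_singleton]
    · rw [disjoint_singleton_right]
      simp
    · rw [disjoint_left]
      intro j hj hj'
      rw [mem_union, mem_Ioi, mem_singleton] at hj
      rw [mem_Iio] at hj'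
      rcases hj with h | h
      · exact absurd (h.trans hj') (lt_irrefl _)
      · rw [h] at hj'
        exact lt_irrefl _ hj'
  have h3 : ∑ i : Fin n, ∑ j ∈ Iio i, f i j = ∑ i, ∑ j ∈ Ioi i, f i j := by
    have e : ∀ i : Fin n, ∑ j ∈ Iio i, f i j = ∑ j, if j < i then f i j else 0 := by
      intro i
      rw [← sum_filter]
      congr 1
      ext j; simp
    have e' : ∀ i : Fin n, ∑ j ∈ Ioi i, f i j = ∑ j, if i < j then f i j else 0 := by
      intro i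
      rw [← sum_filter]
      congr 1
      ext j; simp
    simp only [e, e']
    rw [sum_comm]
    refine sum_congr rfl fun i _ => sum_congr rfl fun j _ => ?_
    split_ifs
    · exact hf j i
    · rfl
  simp only [h1, sum_add_distrib]
  rw [h3]
  ring

theorem k0_symm (h : Sm R D D1) {t t' : ℝ} (ht : |t| ≤ R) (ht' : |t'| ≤ R) :
    k0 D D1 t t' = k0 D D1 t' t := by
  rcases eq_or_ne t t' with rfl | hne
  · rfl
  have h1 := norm_sinh h.hD h.hc (h.y0 t t' ht ht')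
  have h2 := norm_sinh h.hD h.hc (h.y0 t' t ht' ht)
  have h3 : ‖Complex.sinh ((t + D t) - (t' + D t'))‖ = ‖Complex.sinh ((t' + D t') - (t + D t))‖ := by
    rw [← norm_neg, ← Complex.sinh_neg]
    congr 2
    ring
  have h4 : |Real.sinh (t' - t)| = |Real.sinh (t - t')| := by
    rw [← abs_neg, ← Real.sinh_neg]
    congr 2
    ring
  rw [h1, h2, h4] at h3
  have h5 : |Real.sinh (t - t')| ≠ 0 := by
    rw [abs_ne_zero, Ne, Real.sinh_eq_zero]
    exact sub_ne_zero.2 hne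
  exact Real.exp_injective (mul_left_cancel₀ h5 h3)

theorem kc_symm {c : ℝ} (hc : c < 1) (D D' : ℝ → ℂ) (t t' : ℝ) :
    kc c D D' t t' = kc c D' D t' t := by
  have h1 := den_mul hc D D' t t'
  have h2 := den_mul hc D' D t' t
  have h0 : (Real.cosh (2 * (t - t')) - c : ℝ) ≠ 0 := by
    have := den_ge (c := c) (t - t')
    linarith
  have h0' : (((Real.cosh (2 * (t - t')) - c : ℝ)) : ℂ) ≠ 0 := by exact_mod_cast h0
  have h3 : Complex.cosh (2 * ((t + D t) - (t' + D' t'))) =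
      Complex.cosh (2 * ((t' + D' t') - (t + D t))) := by
    rw [← Complex.cosh_neg]
    congr 1
    ring
  have h4 : Real.cosh (2 * (t' - t)) = Real.cosh (2 * (t - t')) := by
    rw [← Real.cosh_neg]
    congr 1
    ring
  rw [h3, h2, h4] at h1
  have h5 := mul_left_cancel₀ h0' h1
  have h6 : Yc c D D' t t' = Yc c D' D t' t := (add_left_cancel h5).symm
  unfold kc
  rw [h6]

theorem kw_symm (h : Sm R D D1) {t t' : ℝ} (ht : |t| ≤ R) (ht' : |t'| ≤ R) :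
    kw D D1 t t' = kw D D1 t' t := by
  unfold kw
  rw [k0_symm h ht ht', kc_symm (c := 0) (by norm_num), kc_symm (c := NUMF.r) r_lt]

theorem kg_symm (D D' : ℝ → ℂ) (t t' : ℝ) : kg D D' t t' = kg D' D t' t := by
  unfold kg
  rw [kc_symm (c := -1) (by norm_num), kc_symm (c := -NUMF.r) (by linarith [r_pos])]

/-- **exact modulus of the displaced own pair product with the Jacobian** -/
theorem prod_own {n : ℕ} (h : Sm R D D1) (hJ : ∀ t, |t| ≤ R → 1 + D1 t ≠ 0) (t : Fin n → ℝ)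
    (ht : ∀ i, |t i| ≤ R) :
    (∏ i, ∏ j ∈ Ioi i, ‖wcx ((t i + D (t i)) - (t j + D (t j)))‖) * ∏ i, ‖1 + D1 (t i)‖ =
      (∏ i, ∏ j ∈ Ioi i, NUMF.w (t i - t j)) *
        Real.exp ((1 / 2) * ∑ i, ∑ j, kw D D1 (t i) (t j)) := by
  have h1 : ∏ i, ∏ j ∈ Ioi i, ‖wcx ((t i + D (t i)) - (t j + D (t j)))‖ =
      (∏ i, ∏ j ∈ Ioi i, NUMF.w (t i - t j)) *
      Real.exp (∑ i, ∑ j ∈ Ioi i, kw D D1 (t i) (t j)) := by
    rw [Real.exp_sum, ← prod_mul_distrib]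
    refine prod_congr rfl fun i _ => ?_
    rw [Real.exp_sum, ← prod_mul_distrib]
    exact prod_congr rfl fun j _ => norm_wcx h (ht i) (ht j)
  have h2 : ∏ i, ‖1 + D1 (t i)‖ = Real.exp ((1 / 2) * ∑ i, kw D D1 (t i) (t i)) := by
    rw [mul_sum, Real.exp_sum]
    refine prod_congr rfl fun i _ => ?_
    rw [kw_diag, ← mul_assoc, one_div, inv_mul_cancel₀ two_ne_zero, one_mul,
      Real.exp_log (norm_pos_iff.2 (hJ _ (ht i)))]
  rw [h1, h2, mul_assoc, ← Real.exp_add, sum_pairs_half _ fun i j => kw_symm h (ht i) (ht j)]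
  congr 2
  ring

/-- **exact modulus of the displaced cross pair product** -/
theorem prod_cross {n p : ℕ} (h : Sm2 R D D') (t : Fin n → ℝ) (t' : Fin p → ℝ)
    (ht : ∀ i, |t i| ≤ R) (ht' : ∀ i, |t' i| ≤ R) :
    ∏ i, ∏ j, ‖gcx ((t i + D (t i)) - (t' j + D' (t' j)))‖ =
      (∏ i, ∏ j, NUMF.g (t i - t' j)) * Real.exp (∑ i, ∑ j, kg D D' (t i) (t' j)) := by
  rw [Real.exp_sum, ← prod_mul_distrib]
  refine prod_congr rfl fun i _ => ?_
  rw [Real.exp_sum, ← prod_mul_distrib]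
  exact prod_congr rfl fun j _ => norm_gcx h (ht i) (ht' j)

end NUKer
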