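import Pool.Agent.NUKer.Basic

/-!
Jensen's inequality: the exponential of a quadratic form with a kernel of the class `KC` is
controlled by the exponentials of the squares of ONE Fourier mode at a time.
-/

open Complex Finset Filter MeasureTheory
open scoped Topology ENNReal

namespace NUKer

/-- the centred linear statistic `∑ f(s_i) - ∫_{-R}^{R} f ρ` -/
noncomputable def nu {ι : Type*} [Fintype ι] (R : ℝ) (ρ : ℝ → ℝ) (s : ι → ℝ) (f : ℝ → ℝ) : ℝ :=
  ∑ i, f (s i) - ∫ t in (-R)..R, f t * ρ t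

section nu

variable {ι : Type*} [Fintype ι] {R : ℝ} {ρ : ℝ → ℝ} {s : ι → ℝ}

theorem ii {f : ℝ → ℝ} (hf : Continuous f) (hρ : Continuous ρ) :
    IntervalIntegrable (fun t => f t * ρ t) volume (-R) R :=
  (hf.mul hρ).intervalIntegrable _ _

theorem nu_add (hρ : Continuous ρ) {f g : ℝ → ℝ} (hf : Continuous f) (hg : Continuous g) :
    nu R ρ s (fun t => f t + g t) = nu R ρ s f + nu R ρ s g := by
  unfold nu
  simp only [add_mul]
  rw [intervalIntegral.integral_add (ii hf hρ) (ii hg hρ), sum_add_distrib]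
  ring

theorem nu_smul (c : ℝ) (f : ℝ → ℝ) :
    nu R ρ s (fun t => c * f t) = c * nu R ρ s f := by
  unfold nu
  simp only [mul_assoc]
  rw [intervalIntegral.integral_const_mul, ← mul_sum]
  ring

theorem nu_sub (hρ : Continuous ρ) {f g : ℝ → ℝ} (hf : Continuous f) (hg : Continuous g) :
    nu R ρ s (fun t => f t - g t) = nu R ρ s f - nu R ρ s g := by
  unfold nu
  simp only [sub_mul]
  rw [intervalIntegral.integral_sub (ii hf hρ) (ii hg hρ), sum_sub_distrib]
  ring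

theorem nu_sum (hρ : Continuous ρ) {α : Type*} (S : Finset α) {f : α → ℝ → ℝ}
    (hf : ∀ i ∈ S, Continuous (f i)) :
    nu R ρ s (fun t => ∑ i ∈ S, f i t) = ∑ i ∈ S, nu R ρ s (f i) := by
  classical
  induction S using Finset.induction_on with
  | empty => simp [nu]
  | insert j S hj ih =>
    simp only [sum_insert hj]
    rw [nu_add hρ (hf j (mem_insert_self j S))
      (continuous_finsetSum _ fun i hi => hf i (mem_insert_of_mem hi)),
      ih fun i hi => hf i (mem_insert_of_mem hi)]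

/-- total variation -/
noncomputable def tv (ι : Type*) [Fintype ι] (R : ℝ) (ρ : ℝ → ℝ) : ℝ :=
  (Fintype.card ι : ℝ) + ∫ t in (-R)..R, |ρ t|

theorem abs_nu_le (hR : 0 ≤ R) (hρ : Continuous ρ) (hs : ∀ i, |s i| ≤ R) {f : ℝ → ℝ}
    {C : ℝ} (hC : ∀ t, |t| ≤ R → |f t| ≤ C) :
    |nu R ρ s f| ≤ tv ι R ρ * C := by
  unfold nu tv
  have h1 : |∑ i, f (s i)| ≤ (Fintype.card ι : ℝ) * C := by
    refine (abs_sum_le_sum_abs _ _).trans ?_
    calc ∑ i, |f (s i)| ≤ ∑ _i : ι, C := sum_le_sum fun i _ => hC _ (hs i)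
      _ = _ := by simp
  have h2 : |∫ t in (-R)..R, f t * ρ t| ≤ (∫ t in (-R)..R, |ρ t|) * C := by
    have h3 : ‖∫ t in (-R)..R, f t * ρ t‖ ≤ ∫ t in (-R)..R, |ρ t| * C := by
      apply intervalIntegral.norm_integral_le_of_norm_le (by linarith)
      · refine ae_of_all _ fun t ht => ?_
        rw [norm_mul, mul_comm, Real.norm_eq_abs, Real.norm_eq_abs]
        exact mul_le_mul_of_nonneg_left (hC t (abs_le.2 ⟨ht.1.le, ht.2⟩)) (abs_nonneg _)
      · exact (by fun_prop : Continuous fun t => |ρ t| * C).intervalIntegrable _ _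
    rwa [intervalIntegral.integral_mul_const] at h3
  calc |∑ i, f (s i) - ∫ t in (-R)..R, f t * ρ t| ≤ |∑ i, f (s i)| +
        |∫ t in (-R)..R, f t * ρ t| := abs_sub _ _
    _ ≤ _ := by rw [add_mul]; exact add_le_add h1 h2

theorem nu_cont (hρ : Continuous ρ) {κ : ℝ → ℝ → ℝ}
    (hκ : Continuous fun p : ℝ × ℝ => κ p.1 p.2) :
    Continuous fun t => nu R ρ s (κ t) := by
  unfold nu
  refine Continuous.sub ?_ ?_
  · exact continuous_finsetSum _ fun i _ => hκ.comp (by fun_prop : Continuous fun t => (t, s i))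
  · apply intervalIntegral.continuous_parametric_intervalIntegral_of_continuous'
    exact (by fun_prop : Continuous fun p : ℝ × ℝ => κ p.1 p.2 * ρ p.2)

end nu

/-- the bilinear form `<ν, κ ν'>` -/
noncomputable def nu2 {ι ι' : Type*} [Fintype ι] [Fintype ι'] (R : ℝ) (ρ ρ' : ℝ → ℝ)
    (s : ι → ℝ) (s' : ι' → ℝ) (κ : ℝ → ℝ → ℝ) : ℝ :=
  nu R ρ s (fun t => nu R ρ' s' (κ t))

section nu2

variable {ι ι' : Type*} [Fintype ι] [Fintype ι'] {R : ℝ} {ρ ρ' : ℝ → ℝ} {s : ι → ℝ} {s' : ι' → ℝ}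

theorem nu2_sub (hρ : Continuous ρ) (hρ' : Continuous ρ') {κ κ' : ℝ → ℝ → ℝ}
    (hκ : Continuous fun p : ℝ × ℝ => κ p.1 p.2) (hκ' : Continuous fun p : ℝ × ℝ => κ' p.1 p.2) :
    nu2 R ρ ρ' s s' (fun t t' => κ t t' - κ' t t') =
      nu2 R ρ ρ' s s' κ - nu2 R ρ ρ' s s' κ' := by
  unfold nu2
  have h1 : ∀ t, nu R ρ' s' (fun t' => κ t t' - κ' t t') =
      nu R ρ' s' (κ t) - nu R ρ' s' (κ' t) := fun t =>
    nu_sub hρ' (hκ.comp (by fun_prop : Continuous fun t' => (t, t')))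
      (hκ'.comp (by fun_prop : Continuous fun t' => (t, t')))
  simp only [h1]
  exact nu_sub hρ (nu_cont hρ' hκ) (nu_cont hρ' hκ')

theorem nu2_sum (hρ : Continuous ρ) (hρ' : Continuous ρ') {α : Type*} (S : Finset α)
    {κ : α → ℝ → ℝ → ℝ} (hκ : ∀ j ∈ S, Continuous fun p : ℝ × ℝ => κ j p.1 p.2) :
    nu2 R ρ ρ' s s' (fun t t' => ∑ j ∈ S, κ j t t') = ∑ j ∈ S, nu2 R ρ ρ' s s' (κ j) := by
  unfold nu2
  have h1 : ∀ t, nu R ρ' s' (fun t' => ∑ j ∈ S, κ j t t') = ∑ j ∈ S, nu R ρ' s' (κ j t) :=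
    fun t => nu_sum hρ' S fun j hj => (hκ j hj).comp (by fun_prop : Continuous fun t' => (t, t'))
  simp only [h1]
  exact nu_sum hρ S fun j hj => nu_cont hρ' (hκ j hj)

theorem nu2_prod (f g : ℝ → ℝ) :
    nu2 R ρ ρ' s s' (fun t t' => f t * g t') = nu R ρ s f * nu R ρ' s' g := by
  unfold nu2
  have h1 : ∀ t, nu R ρ' s' (fun t' => f t * g t') = nu R ρ' s' g * f t := fun t => by
    rw [nu_smul, mul_comm]
  simp only [h1]
  rw [nu_smul, mul_comm]

theorem abs_nu2_le (hR : 0 ≤ R) (hρ : Continuous ρ) (hρ' : Continuous ρ')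
    (hs : ∀ i, |s i| ≤ R) (hs' : ∀ i, |s' i| ≤ R) {κ : ℝ → ℝ → ℝ} {C : ℝ}
    (hC : ∀ t t', |t| ≤ R → |t'| ≤ R → |κ t t'| ≤ C) :
    |nu2 R ρ ρ' s s' κ| ≤ tv ι R ρ * (tv ι' R ρ' * C) :=
  abs_nu_le hR hρ hs fun t ht => abs_nu_le hR hρ' hs' fun t' ht' => hC t t' ht ht'

theorem nu2_exp (hρ : Continuous ρ) (hρ' : Continuous ρ') (c : ℂ) (a b : ℝ) :
    nu2 R ρ ρ' s s' (fun t t' => (c * cexp (((a * t + b * t' : ℝ) : ℂ) * I)).re) ≤
      ‖c‖ * (((nu R ρ s fun t => Real.cos (a * t)) ^ 2 + (nu R ρ s fun t => Real.sin (a * t)) ^ 2) +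
        ((nu R ρ' s' fun t => Real.cos (b * t)) ^ 2 +
          (nu R ρ' s' fun t => Real.sin (b * t)) ^ 2)) / 2 := by
  have h1 : ∀ t t' : ℝ, (c * cexp (((a * t + b * t' : ℝ) : ℂ) * I)).re =
      ∑ j : Fin 4, (![fun t t' => (c.re * Real.cos (a * t)) * Real.cos (b * t'),
        fun t t' => (-c.re * Real.sin (a * t)) * Real.sin (b * t'),
        fun t t' => (-c.im * Real.sin (a * t)) * Real.cos (b * t'),
        fun t t' => (-c.im * Real.cos (a * t)) * Real.sin (b * t')] : Fin 4 → ℝ → ℝ → ℝ) j t t' := by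
    intro t t'
    rw [Complex.mul_re, exp_ofReal_mul_I_re, exp_ofReal_mul_I_im, Real.cos_add, Real.sin_add]
    simp [Fin.sum_univ_four]
    ring
  have h2 := nu2_sum (s := s) (s' := s') (R := R) hρ hρ' (univ : Finset (Fin 4))
    (κ := ![fun t t' => (c.re * Real.cos (a * t)) * Real.cos (b * t'),
        fun t t' => (-c.re * Real.sin (a * t)) * Real.sin (b * t'),
        fun t t' => (-c.im * Real.sin (a * t)) * Real.cos (b * t'),
        fun t t' => (-c.im * Real.cos (a * t)) * Real.sin (b * t')]) (by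
      intro j _
      fin_cases j <;> simp <;> fun_prop)
  simp only [h1]
  rw [h2, Fin.sum_univ_four]
  simp only [Matrix.cons_val_zero, Matrix.cons_val_one, Matrix.cons_val]
  rw [nu2_prod, nu2_prod, nu2_prod, nu2_prod, nu_smul, nu_smul, nu_smul, nu_smul]
  set C := nu R ρ s fun t => Real.cos (a * t)
  set S := nu R ρ s fun t => Real.sin (a * t)
  set C' := nu R ρ' s' fun t => Real.cos (b * t)
  set S' := nu R ρ' s' fun t => Real.sin (b * t)
  have h3 : c.re * C * C' + -c.re * S * S' + -c.im * S * C' + -c.im * C * S' =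
      (c * ((C + S * I) * (C' + S' * I))).re := by
    simp [Complex.mul_re, Complex.mul_im]
    ring
  rw [h3]
  refine (Complex.re_le_norm _).trans ?_
  rw [norm_mul, norm_mul, mul_div_assoc]
  refine mul_le_mul_of_nonneg_left ?_ (norm_nonneg _)
  have h4 : ‖(C + S * I : ℂ)‖ ^ 2 = C ^ 2 + S ^ 2 := by
    rw [Complex.sq_norm, Complex.normSq_add_mul_I]
  have h5 : ‖(C' + S' * I : ℂ)‖ ^ 2 = C' ^ 2 + S' ^ 2 := by
    rw [Complex.sq_norm, Complex.normSq_add_mul_I]
  nlinarith [sq_nonneg (‖(C + S * I : ℂ)‖ - ‖(C' + S' * I : ℂ)‖)]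

end nu2

/-- convexity of the exponential, subprobability weights -/
theorem exp_conv {α : Type*} (S : Finset α) {w g : α → ℝ} (hw : ∀ j ∈ S, 0 ≤ w j)
    (hs : ∑ j ∈ S, w j ≤ 1) :
    Real.exp (∑ j ∈ S, w j * g j) ≤ (1 - ∑ j ∈ S, w j) + ∑ j ∈ S, w j * Real.exp (g j) := by
  have h := convexOn_exp.map_add_sum_le (t := S) (w := w) (p := g) (v := 1 - ∑ j ∈ S, w j) (q := 0)
    hw (by ring) (fun _ _ => Set.mem_univ _) (by linarith) (Set.mem_univ _)
  simpa [smul_eq_mul] using h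

section lint

variable {Ω : Type*} [MeasurableSpace Ω] {μ : Measure Ω} {W : Ω → ℝ≥0∞} {B : ℝ≥0∞}

theorem lint_conv {α : Type*} (S : Finset α) {w : α → ℝ} {g : α → Ω → ℝ}
    (hw : ∀ j ∈ S, 0 ≤ w j) (hs : ∑ j ∈ S, w j ≤ 1) (hW : Measurable W)
    (hg : ∀ j ∈ S, Measurable (g j)) (h0 : ∫⁻ x, W x ∂μ ≤ B)
    (h : ∀ j ∈ S, ∫⁻ x, W x * ENNReal.ofReal (Real.exp (g j x)) ∂μ ≤ B) :
    ∫⁻ x, W x * ENNReal.ofReal (Real.exp (∑ j ∈ S, w j * g j x)) ∂μ ≤ B := by
  have h1 : ∀ x, W x * ENNReal.ofReal (Real.exp (∑ j ∈ S, w j * g j x)) ≤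
      ENNReal.ofReal (1 - ∑ j ∈ S, w j) * W x +
        ∑ j ∈ S, ENNReal.ofReal (w j) * (W x * ENNReal.ofReal (Real.exp (g j x))) := by
    intro x
    have h2 := ENNReal.ofReal_le_ofReal (exp_conv S (g := fun j => g j x) hw hs)
    rw [ENNReal.ofReal_add (by linarith)
      (sum_nonneg fun j hj => mul_nonneg (hw j hj) (Real.exp_pos _).le),
      ENNReal.ofReal_sum_of_nonneg fun j hj => mul_nonneg (hw j hj) (Real.exp_pos _).le] at h2
    calc W x * ENNReal.ofReal (Real.exp (∑ j ∈ S, w j * g j x)) ≤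
        W x * (ENNReal.ofReal (1 - ∑ j ∈ S, w j) +
          ∑ j ∈ S, ENNReal.ofReal (w j * Real.exp (g j x))) := by gcongr
      _ = _ := by
        rw [mul_add, mul_comm, mul_sum]
        congr 1
        refine sum_congr rfl fun j hj => ?_
        rw [ENNReal.ofReal_mul (hw j hj)]
        ring
  refine (lintegral_mono h1).trans ?_
  rw [lintegral_add_left (by fun_prop), lintegral_const_mul _ hW,
    lintegral_finsetSum S (fun j hj => by
      have := hg j hj
      fun_prop)]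
  have h3 : ∀ j ∈ S, ∫⁻ x, ENNReal.ofReal (w j) * (W x * ENNReal.ofReal (Real.exp (g j x))) ∂μ ≤
      ENNReal.ofReal (w j) * B := by
    intro j hj
    have hm := hg j hj
    rw [lintegral_const_mul _ (by fun_prop)]
    gcongr
    exact h j hj
  calc ENNReal.ofReal (1 - ∑ j ∈ S, w j) * ∫⁻ x, W x ∂μ +
      ∑ j ∈ S, ∫⁻ x, ENNReal.ofReal (w j) * (W x * ENNReal.ofReal (Real.exp (g j x))) ∂μ ≤
      ENNReal.ofReal (1 - ∑ j ∈ S, w j) * B + ∑ j ∈ S, ENNReal.ofReal (w j) * B := by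
        gcongr with j hj
        exact h3 j hj
    _ = (ENNReal.ofReal (1 - ∑ j ∈ S, w j) + ENNReal.ofReal (∑ j ∈ S, w j)) * B := by
        rw [ENNReal.ofReal_sum_of_nonneg hw, add_mul, sum_mul]
    _ = B := by
        rw [← ENNReal.ofReal_add (by linarith) (sum_nonneg hw)]
        simp

theorem measurable_nu {n : ℕ} {R : ℝ} {ρ : ℝ → ℝ} {s : Ω → Fin n → ℝ} (hs : Measurable s)
    {f : ℝ → ℝ} (hf : Continuous f) : Measurable fun x => nu R ρ (s x) f := by
  unfold nu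
  refine Measurable.sub ?_ measurable_const
  exact Finset.measurable_fun_sum _ fun i _ => hf.measurable.comp (by fun_prop)

/-- **Jensen**: one Fourier mode at a time. -/
theorem jensen {σ : Type} [Fintype σ] [Nonempty σ] {n : σ → ℕ} {s : ∀ k, Ω → Fin (n k) → ℝ}
    (hs : ∀ k, Measurable (s k)) {R : ℝ} (hR : 0 ≤ R) (hsR : ∀ k x i, |s k x i| ≤ R)
    {ρ : σ → ℝ → ℝ} (hρ : ∀ k, Continuous (ρ k)) {κ : σ → σ → ℝ → ℝ → ℝ}
    (hκ : ∀ k k', Continuous fun p : ℝ × ℝ => κ k k' p.1 p.2) {Λ : σ → σ → ℝ}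
    (hK : ∀ k k', KC R (Λ k k') (fun t t' => (κ k k' t t' : ℂ))) {Λ0 : ℝ} (hΛ0 : 0 < Λ0)
    (hΛ : ∑ k, ∑ k', Λ k k' ≤ Λ0) (hW : Measurable W)
    (hc : ∀ k (a : ℝ), ∫⁻ x, W x * ENNReal.ofReal (Real.exp (2 * Λ0 / (1 + |a|) *
      (nu R (ρ k) (s k x) fun t => Real.cos (a * t)) ^ 2)) ∂μ ≤ B)
    (hsn : ∀ k (a : ℝ), ∫⁻ x, W x * ENNReal.ofReal (Real.exp (2 * Λ0 / (1 + |a|) *
      (nu R (ρ k) (s k x) fun t => Real.sin (a * t)) ^ 2)) ∂μ ≤ B) :
    ∫⁻ x, W x * ENNReal.ofReal (Real.exp (∑ k, ∑ k',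
      nu2 R (ρ k) (ρ k') (s k x) (s k' x) (κ k k'))) ∂μ ≤ B := by
  have h0 : ∫⁻ x, W x ∂μ ≤ B := by
    refine le_trans (lintegral_mono fun x => ?_) (hc (Classical.arbitrary σ) 0)
    calc W x = W x * ENNReal.ofReal 1 := by simp
      _ ≤ _ := by
        gcongr
        rw [← Real.exp_zero]
        exact Real.exp_le_exp.2 (by positivity)
  -- total error constant
  obtain ⟨T, hT⟩ : ∃ T : ℝ, T = ∑ k, ∑ k', tv (Fin (n k)) R (ρ k) * tv (Fin (n k')) R (ρ k') :=
    ⟨_, rfl⟩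
  have key : ∀ ε : ℝ, 0 < ε → ∫⁻ x, W x * ENNReal.ofReal (Real.exp (∑ k, ∑ k',
      nu2 R (ρ k) (ρ k') (s k x) (s k' x) (κ k k'))) ∂μ ≤
      ENNReal.ofReal (Real.exp (T * ε)) * B := by
    intro ε hε
    choose ι hι c a b h1 h2 using fun p : σ × σ => hK p.1 p.2 ε hε
    -- the modes
    set g : (Σ p : σ × σ, ι p × Fin 4) → Ω → ℝ := fun j x =>
      ![2 * Λ0 / (1 + |a j.1 j.2.1|) *
          (nu R (ρ j.1.1) (s j.1.1 x) fun t => Real.cos (a j.1 j.2.1 * t)) ^ 2,
        2 * Λ0 / (1 + |a j.1 j.2.1|) *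
          (nu R (ρ j.1.1) (s j.1.1 x) fun t => Real.sin (a j.1 j.2.1 * t)) ^ 2,
        2 * Λ0 / (1 + |b j.1 j.2.1|) *
          (nu R (ρ j.1.2) (s j.1.2 x) fun t => Real.cos (b j.1 j.2.1 * t)) ^ 2,
        2 * Λ0 / (1 + |b j.1 j.2.1|) *
          (nu R (ρ j.1.2) (s j.1.2 x) fun t => Real.sin (b j.1 j.2.1 * t)) ^ 2] j.2.2 with hg
    set w : (Σ p : σ × σ, ι p × Fin 4) → ℝ := fun j =>
      ‖c j.1 j.2.1‖ * (1 + |a j.1 j.2.1| + |b j.1 j.2.1|) / (4 * Λ0) with hw
    have hw0 : ∀ j ∈ (univ : Finset (Σ p : σ × σ, ι p × Fin 4)), 0 ≤ w j := fun j _ => by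
      rw [hw]; positivity
    have hws : ∑ j, w j ≤ 1 := by
      rw [Fintype.sum_sigma, hw]
      have e1 : ∀ p : σ × σ, ∑ y : ι p × Fin 4, ‖c p y.1‖ * (1 + |a p y.1| + |b p y.1|) / (4 * Λ0) ≤
          Λ p.1 p.2 / Λ0 := by
        intro p
        rw [Fintype.sum_prod_type]
        simp only [sum_const, card_univ, Fintype.card_fin, nsmul_eq_mul]
        calc ∑ i, ((4 : ℕ) : ℝ) * (‖c p i‖ * (1 + |a p i| + |b p i|) / (4 * Λ0)) =
            (∑ i, ‖c p i‖ * (1 + |a p i| + |b p i|)) / Λ0 := by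
              rw [sum_div]
              refine sum_congr rfl fun i _ => ?_
              push_cast
              field_simp
          _ ≤ _ := by
            gcongr
            exact h1 p
      calc ∑ p : σ × σ, ∑ y : ι p × Fin 4, ‖c p y.1‖ * (1 + |a p y.1| + |b p y.1|) / (4 * Λ0) ≤
          ∑ p : σ × σ, Λ p.1 p.2 / Λ0 := sum_le_sum fun p _ => e1 p
        _ = (∑ k, ∑ k', Λ k k') / Λ0 := by rw [← sum_div, Fintype.sum_prod_type]
        _ ≤ 1 := by rw [div_le_one hΛ0]; exact hΛ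
    have hgm : ∀ j ∈ (univ : Finset (Σ p : σ × σ, ι p × Fin 4)), Measurable (g j) := by
      rintro ⟨p, i, k⟩ _
      rw [hg]
      have m1 := measurable_nu (R := R) (ρ := ρ p.1) (hs p.1)
        (f := fun t => Real.cos (a p i * t)) (by fun_prop)
      have m2 := measurable_nu (R := R) (ρ := ρ p.1) (hs p.1)
        (f := fun t => Real.sin (a p i * t)) (by fun_prop)
      have m3 := measurable_nu (R := R) (ρ := ρ p.2) (hs p.2)
        (f := fun t => Real.cos (b p i * t)) (by fun_prop)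
      have m4 := measurable_nu (R := R) (ρ := ρ p.2) (hs p.2)
        (f := fun t => Real.sin (b p i * t)) (by fun_prop)
      fin_cases k <;> simp <;> fun_prop
    have hgB : ∀ j ∈ (univ : Finset (Σ p : σ × σ, ι p × Fin 4)),
        ∫⁻ x, W x * ENNReal.ofReal (Real.exp (g j x)) ∂μ ≤ B := by
      rintro ⟨p, i, k⟩ _
      rw [hg]
      fin_cases k
      · exact hc p.1 (a p i)
      · exact hsn p.1 (a p i)
      · exact hc p.2 (b p i)
      · exact hsn p.2 (b p i)
    have hconv := lint_conv (μ := μ) (W := W) (B := B) univ hw0 hws hW hgm h0 hgB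
    have hpt : ∀ x, ∑ k, ∑ k', nu2 R (ρ k) (ρ k') (s k x) (s k' x) (κ k k') ≤
        T * ε + ∑ j, w j * g j x := by
      intro x
      have e2 : ∀ p : σ × σ, nu2 R (ρ p.1) (ρ p.2) (s p.1 x) (s p.2 x) (κ p.1 p.2) ≤
          tv (Fin (n p.1)) R (ρ p.1) * tv (Fin (n p.2)) R (ρ p.2) * ε +
          ∑ y : ι p × Fin 4, w ⟨p, y⟩ * g ⟨p, y⟩ x := by
        intro p
        have c1 : Continuous fun q : ℝ × ℝ => ∑ i,
            (c p i * cexp (((a p i * q.1 + b p i * q.2 : ℝ) : ℂ) * I)).re := by fun_prop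
        have h3 := nu2_sub (R := R) (s := s p.1 x) (s' := s p.2 x) (hρ p.1) (hρ p.2)
          (hκ p.1 p.2) (κ' := fun t t' => ∑ i,
            (c p i * cexp (((a p i * t + b p i * t' : ℝ) : ℂ) * I)).re) c1
        have h4 := abs_nu2_le (s := s p.1 x) (s' := s p.2 x) hR (hρ p.1) (hρ p.2)
          (hsR p.1 x) (hsR p.2 x) (κ := fun t t' => κ p.1 p.2 t t' - ∑ i,
            (c p i * cexp (((a p i * t + b p i * t' : ℝ) : ℂ) * I)).re) (C := ε) (by
          intro t t' ht ht'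
          have h5 := h2 p t t' ht ht'
          have h6 := Complex.abs_re_le_norm ((κ p.1 p.2 t t' : ℂ) -
            ∑ i, c p i * cexp (((a p i * t + b p i * t' : ℝ) : ℂ) * I))
          rw [Complex.sub_re, Complex.ofReal_re, Complex.re_sum] at h6
          exact h6.trans h5)
        have h7 := nu2_sum (R := R) (s := s p.1 x) (s' := s p.2 x) (hρ p.1) (hρ p.2)
          (univ : Finset (ι p)) (κ := fun i t t' =>
            (c p i * cexp (((a p i * t + b p i * t' : ℝ) : ℂ) * I)).re)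
          (fun i _ => by fun_prop)
        have h8 : ∀ i, nu2 R (ρ p.1) (ρ p.2) (s p.1 x) (s p.2 x) (fun t t' =>
            (c p i * cexp (((a p i * t + b p i * t' : ℝ) : ℂ) * I)).re) ≤
            ∑ k, w ⟨p, i, k⟩ * g ⟨p, i, k⟩ x := by
          intro i
          refine (nu2_exp (hρ p.1) (hρ p.2) (c p i) (a p i) (b p i)).trans ?_
          rw [Fin.sum_univ_four]
          simp only [hw, hg, Matrix.cons_val_zero, Matrix.cons_val_one, Matrix.cons_val]
          set C := nu R (ρ p.1) (s p.1 x) fun t => Real.cos (a p i * t)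
          set S := nu R (ρ p.1) (s p.1 x) fun t => Real.sin (a p i * t)
          set C' := nu R (ρ p.2) (s p.2 x) fun t => Real.cos (b p i * t)
          set S' := nu R (ρ p.2) (s p.2 x) fun t => Real.sin (b p i * t)
          have pa := abs_nonneg (a p i)
          have pb := abs_nonneg (b p i)
          have pc := norm_nonneg (c p i)
          have q1 : ‖c p i‖ / 2 ≤ ‖c p i‖ * (1 + |a p i| + |b p i|) / (4 * Λ0) *
              (2 * Λ0 / (1 + |a p i|)) := by
            have : ‖c p i‖ * (1 + |a p i| + |b p i|) / (4 * Λ0) * (2 * Λ0 / (1 + |a p i|)) =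
              ‖c p i‖ / 2 * ((1 + |a p i| + |b p i|) / (1 + |a p i|)) := by
              field_simp
              ring
            rw [this]
            refine le_mul_of_one_le_right (by positivity) ?_
            rw [one_le_div (by positivity)]
            linarith
          have q2 : ‖c p i‖ / 2 ≤ ‖c p i‖ * (1 + |a p i| + |b p i|) / (4 * Λ0) *
              (2 * Λ0 / (1 + |b p i|)) := by
            have : ‖c p i‖ * (1 + |a p i| + |b p i|) / (4 * Λ0) * (2 * Λ0 / (1 + |b p i|)) =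
              ‖c p i‖ / 2 * ((1 + |a p i| + |b p i|) / (1 + |b p i|)) := by
              field_simp
              ring
            rw [this]
            refine le_mul_of_one_le_right (by positivity) ?_
            rw [one_le_div (by positivity)]
            linarith
          calc ‖c p i‖ * (C ^ 2 + S ^ 2 + (C' ^ 2 + S' ^ 2)) / 2 =
              ‖c p i‖ / 2 * C ^ 2 + ‖c p i‖ / 2 * S ^ 2 + ‖c p i‖ / 2 * C' ^ 2 +
                ‖c p i‖ / 2 * S' ^ 2 := by ring
            _ ≤ (‖c p i‖ * (1 + |a p i| + |b p i|) / (4 * Λ0) *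
              (2 * Λ0 / (1 + |a p i|))) * C ^ 2 + (‖c p i‖ * (1 + |a p i| + |b p i|) / (4 * Λ0) *
              (2 * Λ0 / (1 + |a p i|))) * S ^ 2 + (‖c p i‖ * (1 + |a p i| + |b p i|) / (4 * Λ0) *
              (2 * Λ0 / (1 + |b p i|))) * C' ^ 2 + (‖c p i‖ * (1 + |a p i| + |b p i|) / (4 * Λ0) *
              (2 * Λ0 / (1 + |b p i|))) * S' ^ 2 := by gcongr
            _ = _ := by ring
        rw [Fintype.sum_prod_type]
        have h9 : ∑ i, nu2 R (ρ p.1) (ρ p.2) (s p.1 x) (s p.2 x) (fun t t' =>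
            (c p i * cexp (((a p i * t + b p i * t' : ℝ) : ℂ) * I)).re) ≤
            ∑ i, ∑ k, w ⟨p, i, k⟩ * g ⟨p, i, k⟩ x := sum_le_sum fun i _ => h8 i
        rw [← h7] at h9
        have h10 := (abs_le.1 h4).2
        linarith
      have e3 : ∑ k, ∑ k', nu2 R (ρ k) (ρ k') (s k x) (s k' x) (κ k k') =
          ∑ p : σ × σ, nu2 R (ρ p.1) (ρ p.2) (s p.1 x) (s p.2 x) (κ p.1 p.2) :=
        (Fintype.sum_prod_type (f := fun p : σ × σ =>
        nu2 R (ρ p.1) (ρ p.2) (s p.1 x) (s p.2 x) (κ p.1 p.2))).symm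
      have e4 : T = ∑ p : σ × σ, tv (Fin (n p.1)) R (ρ p.1) * tv (Fin (n p.2)) R (ρ p.2) := by
        rw [hT]
        exact (Fintype.sum_prod_type (f := fun p : σ × σ =>
          tv (Fin (n p.1)) R (ρ p.1) * tv (Fin (n p.2)) R (ρ p.2))).symm
      rw [e3, e4, Fintype.sum_sigma, sum_mul, ← sum_add_distrib]
      exact sum_le_sum fun p _ => e2 p
    calc ∫⁻ x, W x * ENNReal.ofReal (Real.exp (∑ k, ∑ k',
          nu2 R (ρ k) (ρ k') (s k x) (s k' x) (κ k k'))) ∂μ ≤
        ∫⁻ x, ENNReal.ofReal (Real.exp (T * ε)) *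
          (W x * ENNReal.ofReal (Real.exp (∑ j, w j * g j x))) ∂μ := by
          refine lintegral_mono fun x => ?_
          have h3 := Real.exp_le_exp.2 (hpt x)
          rw [Real.exp_add] at h3
          calc W x * ENNReal.ofReal (Real.exp (∑ k, ∑ k',
              nu2 R (ρ k) (ρ k') (s k x) (s k' x) (κ k k'))) ≤
              W x * ENNReal.ofReal (Real.exp (T * ε) * Real.exp (∑ j, w j * g j x)) := by gcongr
            _ = _ := by
              rw [ENNReal.ofReal_mul (Real.exp_pos _).le]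
              ring
      _ = ENNReal.ofReal (Real.exp (T * ε)) *
          ∫⁻ x, (W x * ENNReal.ofReal (Real.exp (∑ j, w j * g j x))) ∂μ := by
          rw [lintegral_const_mul']
          exact ENNReal.ofReal_ne_top
      _ ≤ _ := by gcongr
  have hlim : Tendsto (fun ε : ℝ => ENNReal.ofReal (Real.exp (T * ε)) * B) (𝓝[>] 0)
      (𝓝 (ENNReal.ofReal (Real.exp (T * 0)) * B)) := by
    apply Tendsto.mono_left _ nhdsWithin_le_nhds
    have hcont : Continuous fun ε : ℝ => ENNReal.ofReal (Real.exp (T * ε)) :=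
      ENNReal.continuous_ofReal.comp (by fun_prop)
    refine ENNReal.Tendsto.mul_const (hcont.tendsto 0) (Or.inl ?_)
    simp
  rw [mul_zero, Real.exp_zero, ENNReal.ofReal_one, one_mul] at hlim
  exact ge_of_tendsto hlim (eventually_nhdsWithin_of_forall fun ε hε => key ε hε)

end lint

end NUKer
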