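import Pool.Agent.NUKer.LogC
import Pool.Agent.NUR2.Wo

/-!
Integrals of kernels against smooth functions of compact support: classes `KC1`.
-/

set_option autoImplicit false

open Complex Set Filter MeasureTheory
open scoped Topology

namespace NUKer

open NUOC NUR2

/-- **(Q1)** integration of the second variable -/
theorem KC.int_right {R Λ N : ℝ} {κ : ℝ → ℝ → ℂ} (hR : 0 ≤ R) (h : KC R Λ κ) {β : ℝ → ℂ}
    (hβ : Continuous β) (hs : ∀ y, R < |y| → β y = 0) (hN : ∫ y, ‖β y‖ ≤ N) :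
    KC1 R (N * Λ) (fun t => ∫ y, κ t y * β y) := by
  intro ε hε
  have hcs : HasCompactSupport β := by
    refine HasCompactSupport.of_support_subset_isCompact (isCompact_Icc (a := -R) (b := R)) ?_
    intro y hy
    by_contra hy2
    exact hy (hs y (by
      by_contra h3
      exact hy2 (abs_le.1 (not_lt.1 h3))))
  have hβi : Integrable β := hβ.integrable_of_hasCompactSupport hcs
  have hN0 : 0 ≤ N := (integral_nonneg fun y => norm_nonneg _).trans hN
  have hδ : 0 < ε / (N + 1) := by positivity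
  obtain ⟨ι, hι, c, a, b, h1, h2⟩ := h (ε / (N + 1)) hδ
  refine ⟨ι, hι, fun i => c i * ∫ y, cexp (((b i * y : ℝ) : ℂ) * I) * β y, a, ?_, ?_⟩
  · calc ∑ i, ‖c i * ∫ y, cexp (((b i * y : ℝ) : ℂ) * I) * β y‖ * (1 + |a i|) ≤
        ∑ i, N * (‖c i‖ * (1 + |a i| + |b i|)) := by
          refine Finset.sum_le_sum fun i _ => ?_
          rw [norm_mul]
          have h3 : ‖∫ y, cexp (((b i * y : ℝ) : ℂ) * I) * β y‖ ≤ N := by
            refine (norm_integral_le_integral_norm _).trans (le_trans (le_of_eq ?_) hN)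
            congr 1
            funext y
            rw [norm_mul, norm_e, one_mul]
          have h4 := abs_nonneg (a i)
          have h5 := abs_nonneg (b i)
          calc ‖c i‖ * ‖∫ y, cexp (((b i * y : ℝ) : ℂ) * I) * β y‖ * (1 + |a i|) ≤
              ‖c i‖ * N * (1 + |a i| + |b i|) :=
                mul_le_mul (mul_le_mul_of_nonneg_left h3 (norm_nonneg _)) (by linarith)
                  (by positivity) (by positivity)
            _ = _ := by ring
      _ = N * ∑ i, ‖c i‖ * (1 + |a i| + |b i|) := by rw [Finset.mul_sum]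
      _ ≤ N * Λ := by gcongr
  · intro t ht
    -- continuity of `κ t` in the window
    have hΛ := h.nonneg
    have hκc : Continuous fun y => κ t (cl R y) := by
      refine continuous_iff_continuousAt.2 fun y => ?_
      rw [ContinuousAt, tendsto_iff_norm_sub_tendsto_zero]
      refine squeeze_zero (fun _ => norm_nonneg _) (g := fun z => Λ * |cl R z - cl R y|)
        (fun z => ?_) ?_
      · have := h.lip ht ht (cl_abs hR z) (cl_abs hR y)
        rw [sub_self, abs_zero, zero_add] at this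
        exact this
      · have h3 : Continuous fun z => Λ * |cl R z - cl R y| :=
          continuous_const.mul ((cl_cont R).sub continuous_const).abs
        have h4 := h3.tendsto y
        simp only [sub_self, abs_zero, mul_zero] at h4
        exact h4
    have e1 : ∀ y, κ t y * β y = κ t (cl R y) * β y := by
      intro y
      rcases le_or_gt |y| R with h3 | h3
      · rw [cl_eq h3]
      · rw [hs y h3, mul_zero, mul_zero]
    have hi1 : Integrable fun y => κ t y * β y := by
      have : (fun y => κ t y * β y) = fun y => κ t (cl R y) * β y := funext e1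
      rw [this]
      exact (hκc.mul hβ).integrable_of_hasCompactSupport (hcs.mul_left)
    have hi2 : ∀ i, Integrable fun y => c i * cexp (((a i * t + b i * y : ℝ) : ℂ) * I) * β y := by
      intro i
      refine Continuous.integrable_of_hasCompactSupport ?_ (hcs.mul_left)
      fun_prop
    have e2 : ∑ i, (c i * ∫ y, cexp (((b i * y : ℝ) : ℂ) * I) * β y) *
        cexp (((a i * t : ℝ) : ℂ) * I) =
        ∫ y, (∑ i, c i * cexp (((a i * t + b i * y : ℝ) : ℂ) * I)) * β y := by
      have e3 : ∀ y, (∑ i, c i * cexp (((a i * t + b i * y : ℝ) : ℂ) * I)) * β y =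
          ∑ i, c i * cexp (((a i * t + b i * y : ℝ) : ℂ) * I) * β y := fun y => Finset.sum_mul _ _ _
      simp_rw [e3]
      rw [integral_finsetSum _ fun i _ => hi2 i]
      refine Finset.sum_congr rfl fun i _ => ?_
      have e4 : ∀ y, c i * cexp (((a i * t + b i * y : ℝ) : ℂ) * I) * β y =
          (c i * cexp (((a i * t : ℝ) : ℂ) * I)) * (cexp (((b i * y : ℝ) : ℂ) * I) * β y) := by
        intro y
        have : (((a i * t + b i * y : ℝ) : ℂ) * I) =
            (((a i * t : ℝ) : ℂ) * I) + (((b i * y : ℝ) : ℂ) * I) := by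
          push_cast
          ring
        rw [this, Complex.exp_add]
        ring
      simp_rw [e4]
      rw [integral_const_mul]
      ring
    have hi3 : Integrable fun y => (∑ i, c i * cexp (((a i * t + b i * y : ℝ) : ℂ) * I)) * β y := by
      have e3 : ∀ y, (∑ i, c i * cexp (((a i * t + b i * y : ℝ) : ℂ) * I)) * β y =
          ∑ i, c i * cexp (((a i * t + b i * y : ℝ) : ℂ) * I) * β y := fun y => Finset.sum_mul _ _ _
      simp_rw [e3]
      exact integrable_finsetSum _ fun i _ => hi2 i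
    rw [e2, ← integral_sub hi1 hi3]
    have hle : ∀ y, ‖κ t y * β y - (∑ i, c i * cexp (((a i * t + b i * y : ℝ) : ℂ) * I)) * β y‖ ≤
        ε / (N + 1) * ‖β y‖ := by
      intro y
      rw [← sub_mul, norm_mul]
      rcases le_or_gt |y| R with h3 | h3
      · exact mul_le_mul_of_nonneg_right (h2 t y ht h3) (norm_nonneg _)
      · rw [hs y h3, norm_zero, mul_zero, mul_zero]
    calc ‖∫ y, (κ t y * β y - (∑ i, c i * cexp (((a i * t + b i * y : ℝ) : ℂ) * I)) * β y)‖ ≤
        ∫ y, ε / (N + 1) * ‖β y‖ :=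
          norm_integral_le_of_norm_le (hβi.norm.const_mul _) (Eventually.of_forall hle)
      _ = ε / (N + 1) * ∫ y, ‖β y‖ := integral_const_mul _ _
      _ ≤ ε / (N + 1) * N := by gcongr
      _ ≤ ε := by
          rw [div_mul_eq_mul_div, div_le_iff₀ (by positivity)]
          nlinarith

theorem KC1.re {R Λ : ℝ} {f : ℝ → ℂ} (hR : 0 ≤ R) (h : KC1 R Λ f) :
    KC1 R Λ (fun t => ((f t).re : ℂ)) := by
  have hh := h.left.re
  intro ε hε
  obtain ⟨ι, hι, c, a, b, h1, h2⟩ := hh ε hε
  refine ⟨ι, hι, c, a, ?_, fun t ht => ?_⟩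
  · refine le_trans (Finset.sum_le_sum fun i _ => ?_) h1
    have h4 := abs_nonneg (b i)
    exact mul_le_mul_of_nonneg_left (by linarith) (norm_nonneg _)
  · have h3 := h2 t 0 ht (by rwa [abs_zero])
    simpa using h3

/-! ### (Q2) convolution with a log singular kernel -/

theorem gr_int_le : ∃ c0 : ℝ, 0 ≤ c0 ∧ ∀ R : ℝ, 1 ≤ R → ∀ t : ℝ, |t| ≤ 2 * R →
    ∫ y in Icc (-R) R, NUAct.gr |t - y| ≤ c0 * R ^ 2 := by
  have hli := gr_li
  obtain ⟨c1, hc1⟩ : ∃ c1 : ℝ, c1 = ∫ v in Icc (-1 : ℝ) 1, NUAct.gr |v| := ⟨_, rfl⟩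
  have hgr : ∀ v : ℝ, 0 ≤ NUAct.gr |v| := by
    intro v
    unfold NUAct.gr
    positivity
  have hc10 : 0 ≤ c1 := by
    rw [hc1]
    exact integral_nonneg fun v => hgr v
  refine ⟨18 + c1, by linarith, fun R hR t ht => ?_⟩
  have hind : Integrable (indicator (Icc (-1 : ℝ) 1) fun v => NUAct.gr |v|) := by
    rw [integrable_indicator_iff measurableSet_Icc]
    exact hli.integrableOn_isCompact isCompact_Icc
  have hind2 : Integrable fun y => indicator (Icc (-1 : ℝ) 1) (fun v => NUAct.gr |v|) (t - y) :=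
    hind.comp_sub_left t
  have hle : ∀ y ∈ Icc (-R) R, NUAct.gr |t - y| ≤
      9 * R + indicator (Icc (-1 : ℝ) 1) (fun v => NUAct.gr |v|) (t - y) := by
    intro y hy
    by_cases h1 : t - y ∈ Icc (-1 : ℝ) 1
    · rw [indicator_of_mem h1]
      linarith
    · rw [indicator_of_notMem h1, add_zero]
      have h2 : 1 < |t - y| := by
        by_contra h3
        exact h1 (abs_le.1 (not_lt.1 h3))
      have h3 : |t - y| ≤ 3 * R := by
        have := abs_sub t y
        have h4 := abs_le.2 hy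
        linarith
      unfold NUAct.gr
      have h5 : |Real.log (|t - y|)| ≤ |t - y| := by
        rw [abs_of_nonneg (Real.log_nonneg h2.le)]
        have := Real.log_le_sub_one_of_pos (lt_trans one_pos h2)
        linarith
      linarith
  have hvol : (volume : Measure ℝ).real (Icc (-R) R) = 2 * R := by
    rw [Real.volume_real_Icc_of_le (by linarith)]
    ring
  have hfin : IntegrableOn (fun _ : ℝ => 9 * R) (Icc (-R) R) :=
    (integrableOn_const (by simp))
  calc ∫ y in Icc (-R) R, NUAct.gr |t - y| ≤ ∫ y in Icc (-R) R,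
      (9 * R + indicator (Icc (-1 : ℝ) 1) (fun v => NUAct.gr |v|) (t - y)) := by
        refine setIntegral_mono_on ?_ (hfin.add hind2.integrableOn) measurableSet_Icc hle
        have h6 : LocallyIntegrable fun y : ℝ => NUAct.gr |t - y| := by
          rw [locallyIntegrable_iff]
          intro k hk
          obtain ⟨r, hr⟩ := hk.isBounded.subset_closedBall 0
          rw [Real.closedBall_eq_Icc] at hr
          simp only [zero_sub, zero_add] at hr
          have h7 : Integrable (indicator (Icc (t - r) (t + r)) fun v => NUAct.gr |v|) := by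
            rw [integrable_indicator_iff measurableSet_Icc]
            exact hli.integrableOn_isCompact isCompact_Icc
          have h8 := (h7.comp_sub_left t).integrableOn (s := k)
          refine h8.congr_fun_ae ?_
          filter_upwards [ae_restrict_mem hk.measurableSet] with y hy
          have h9 := hr hy
          exact indicator_of_mem (show t - y ∈ Icc (t - r) (t + r) from
            ⟨by linarith [h9.2], by linarith [h9.1]⟩) _
        exact h6.integrableOn_isCompact isCompact_Icc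
    _ = 9 * R * (2 * R) + ∫ y in Icc (-R) R,
          indicator (Icc (-1 : ℝ) 1) (fun v => NUAct.gr |v|) (t - y) := by
        rw [integral_add hfin hind2.integrableOn, setIntegral_const, hvol, smul_eq_mul]
        ring
    _ ≤ 9 * R * (2 * R) + c1 := by
        gcongr
        calc ∫ y in Icc (-R) R, indicator (Icc (-1 : ℝ) 1) (fun v => NUAct.gr |v|) (t - y) ≤
            ∫ y, indicator (Icc (-1 : ℝ) 1) (fun v => NUAct.gr |v|) (t - y) := by
              refine setIntegral_le_integral hind2 (Eventually.of_forall fun y => ?_)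
              exact indicator_nonneg (fun v _ => hgr v) _
          _ = c1 := by
              rw [integral_sub_left_eq_self (indicator (Icc (-1 : ℝ) 1) fun v => NUAct.gr |v|),
                integral_indicator measurableSet_Icc, hc1]
    _ ≤ _ := by nlinarith [mul_self_nonneg (R - 1)]

theorem zero_deriv {R : ℝ} {G G' : ℝ → ℝ} (h : ∀ x, HasDerivAt G (G' x) x)
    (hs : ∀ x, R < |x| → G x = 0) : ∀ x, R < |x| → G' x = 0 := by
  intro x hx
  have e : G =ᶠ[𝓝 x] fun _ => 0 := by
    filter_upwards [(continuous_abs.tendsto x).eventually (lt_mem_nhds hx)] with y hy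
    exact hs y hy
  exact (h x).unique ((hasDerivAt_const x (0:ℝ)).congr_of_eventuallyEq e)

theorem hcs_of_zero {R : ℝ} {G : ℝ → ℝ} (hs : ∀ x, R < |x| → G x = 0) : HasCompactSupport G := by
  refine HasCompactSupport.of_support_subset_isCompact (isCompact_Icc (a := -R) (b := R)) ?_
  intro y hy
  by_contra hy2
  exact hy (hs y (by
    by_contra h3
    exact hy2 (abs_le.1 (not_lt.1 h3))))

/-- convolution on the line -/
noncomputable def cv (U u : ℝ → ℝ) (t : ℝ) : ℝ := ∫ y, U (t - y) * u y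

theorem cv_eq (U u : ℝ → ℝ) :
    cv U u = convolution U u (ContinuousLinearMap.mul ℝ ℝ) volume := by
  funext t
  unfold cv
  rw [convolution_def, ← integral_sub_left_eq_self (fun y => ContinuousLinearMap.mul ℝ ℝ (U y) (u (t - y)))
    volume t]
  congr 1
  funext y
  rw [ContinuousLinearMap.mul_apply', sub_sub_cancel]

theorem cv_deriv {U u u' : ℝ → ℝ} (hU : LocallyIntegrable U) (hu : ∀ x, HasDerivAt u (u' x) x)
    (hu' : Continuous u') (hcs : HasCompactSupport u) (x : ℝ) :
    HasDerivAt (cv U u) (cv U u' x) x := by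
  have hd : deriv u = u' := funext fun x => (hu x).deriv
  have h1 : ContDiff ℝ 1 u := by
    rw [contDiff_one_iff_deriv, hd]
    exact ⟨fun x => (hu x).differentiableAt, hu'⟩
  have h2 := hcs.hasDerivAt_convolution_right (ContinuousLinearMap.mul ℝ ℝ) hU h1 x
  rw [cv_eq, cv_eq, ← hd]
  exact h2

theorem cv_cont {U u : ℝ → ℝ} (hU : LocallyIntegrable U) (hu : Continuous u)
    (hcs : HasCompactSupport u) : Continuous (cv U u) := by
  rw [cv_eq]
  exact hcs.continuous_convolution_right (ContinuousLinearMap.mul ℝ ℝ) hU hu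

/-- **(Q2)** -/
theorem exists_conv {U : ℝ → ℝ} (hUm : Measurable U) {K0 : ℝ}
    (hU : ∀ u : ℝ, u ≠ 0 → |U u| ≤ K0 * NUAct.gr |u|) : ∃ K : ℝ, 1 ≤ K ∧ ∀ R : ℝ, 1 ≤ R →
    ∀ (μ : ℝ) (u : ℝ → ℝ), O 3 μ u → (∀ y, R < |y| → u y = 0) →
    KC1 R (K * R ^ 5 * μ) (fun t => ((cv U u t : ℝ) : ℂ)) := by
  obtain ⟨c0, hc0, hc⟩ := gr_int_le
  obtain ⟨K, hK0, hK⟩ := exists_KC1
  have hUl := li_of_gr hUm hU
  have hK00 : 0 ≤ K0 := by
    have h1 := hU 1 one_ne_zero
    unfold NUAct.gr at h1
    rw [abs_one, Real.log_one, abs_zero] at h1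
    have := abs_nonneg (U 1)
    linarith
  refine ⟨K * (K0 * c0) + 1, by nlinarith [mul_nonneg hK0.le (mul_nonneg hK00 hc0)],
    fun R hR μ u hu hs => ?_⟩
  have hμ := hu.nonneg
  obtain ⟨b0, u1, d1, b1, u2, d2, b2, u3, d3, c3, b3⟩ := hu
  have s1 := zero_deriv d1 hs
  have s2 := zero_deriv d2 s1
  have s3 := zero_deriv d3 s2
  have cu1 : Continuous u1 := continuous_iff_continuousAt.2 fun x => (d2 x).continuousAt
  have cu2 : Continuous u2 := continuous_iff_continuousAt.2 fun x => (d3 x).continuousAt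
  have cu0 : Continuous u := continuous_iff_continuousAt.2 fun x => (d1 x).continuousAt
  have hb : ∀ {v : ℝ → ℝ}, Continuous v → (∀ x, |v x| ≤ μ) → (∀ y, R < |y| → v y = 0) →
      ∀ t : ℝ, |t| ≤ 2 * R → ‖((cv U v t : ℝ) : ℂ)‖ ≤ K0 * c0 * R ^ 2 * μ := by
    intro v hvc hv hvs t ht
    rw [Complex.norm_real]
    unfold cv
    have e1 : ∫ y, U (t - y) * v y = ∫ y in Icc (-R) R, U (t - y) * v y := by
      rw [← integral_indicator measurableSet_Icc]
      congr 1
      funext y
      by_cases hy : y ∈ Icc (-R) R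
      · rw [indicator_of_mem hy]
      · rw [indicator_of_notMem hy, hvs y, mul_zero]
        by_contra h3
        exact hy (abs_le.1 (not_lt.1 h3))
    rw [e1]
    have hgi : IntegrableOn (fun y => NUAct.gr |t - y|) (Icc (-R) R) := by
      have h7 : Integrable (indicator (Icc (t - R) (t + R)) fun v => NUAct.gr |v|) := by
        rw [integrable_indicator_iff measurableSet_Icc]
        exact gr_li.integrableOn_isCompact isCompact_Icc
      have h8 := (h7.comp_sub_left t).integrableOn (s := Icc (-R) R)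
      refine h8.congr_fun_ae ?_
      filter_upwards [ae_restrict_mem measurableSet_Icc] with y hy
      exact indicator_of_mem (show t - y ∈ Icc (t - R) (t + R) from
        ⟨by linarith [hy.2], by linarith [hy.1]⟩) _
    have h0 : ∀ᵐ y : ℝ, t - y ≠ 0 := by
      have : ∀ᵐ y : ℝ, y ≠ t := by simp [ae_iff, measure_singleton]
      filter_upwards [this] with y hy
      exact sub_ne_zero.2 (Ne.symm hy)
    calc ‖∫ y in Icc (-R) R, U (t - y) * v y‖ ≤ ∫ y in Icc (-R) R, K0 * μ * NUAct.gr |t - y| := by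
          refine norm_integral_le_of_norm_le (hgi.const_mul _) ?_
          filter_upwards [ae_restrict_of_ae h0] with y hy
          rw [norm_mul, Real.norm_eq_abs, Real.norm_eq_abs]
          have h1 := hU _ hy
          have h2 := hv y
          calc |U (t - y)| * |v y| ≤ (K0 * NUAct.gr |t - y|) * μ :=
                mul_le_mul h1 h2 (abs_nonneg _) ((abs_nonneg _).trans h1)
            _ = _ := by ring
      _ = K0 * μ * ∫ y in Icc (-R) R, NUAct.gr |t - y| := integral_const_mul _ _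
      _ ≤ K0 * μ * (c0 * R ^ 2) := by
          have := hc R hR t ht
          gcongr
      _ = _ := by ring
  have h := hK R hR (fun t => ((cv U u t : ℝ) : ℂ)) (fun t => ((cv U u1 t : ℝ) : ℂ))
    (fun t => ((cv U u2 t : ℝ) : ℂ)) (fun t => ((cv U u3 t : ℝ) : ℂ))
    (fun x => (cv_deriv hUl d1 cu1 (hcs_of_zero hs) x).ofReal_comp)
    (fun x => (cv_deriv hUl d2 cu2 (hcs_of_zero s1) x).ofReal_comp)
    (fun x => (cv_deriv hUl d3 c3 (hcs_of_zero s2) x).ofReal_comp)
    (Complex.continuous_ofReal.comp (cv_cont hUl c3 (hcs_of_zero s3)))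
    (K0 * c0 * R ^ 2 * μ) (hb cu0 b0 hs) (hb cu1 b1 s1) (hb cu2 b2 s2) (hb c3 b3 s3)
  refine h.mono ?_
  have h5 : 0 ≤ R ^ 5 * μ := by positivity
  calc K * R ^ 3 * (K0 * c0 * R ^ 2 * μ) = K * (K0 * c0) * (R ^ 5 * μ) := by ring
    _ ≤ (K * (K0 * c0) + 1) * (R ^ 5 * μ) := by nlinarith
    _ = _ := by ring

theorem exists_conv_w : ∃ K : ℝ, 1 ≤ K ∧ ∀ R : ℝ, 1 ≤ R →
    ∀ (μ : ℝ) (u : ℝ → ℝ), O 3 μ u → (∀ y, R < |y| → u y = 0) →
    KC1 R (K * R ^ 5 * μ) (fun t => ((cv Uw u t : ℝ) : ℂ)) := by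
  obtain ⟨K, hK⟩ := NUAct.ks_bd
  refine exists_conv Uw_meas (K0 := K) fun u hu => ?_
  have h1 := hK u hu
  unfold NUAct.ks at h1
  rw [Complex.norm_real, Real.norm_eq_abs] at h1
  exact h1

theorem exists_conv_g : ∃ K : ℝ, 1 ≤ K ∧ ∀ R : ℝ, 1 ≤ R →
    ∀ (μ : ℝ) (u : ℝ → ℝ), O 3 μ u → (∀ y, R < |y| → u y = 0) →
    KC1 R (K * R ^ 5 * μ) (fun t => ((cv Ug u t : ℝ) : ℂ)) := by
  obtain ⟨K, hK⟩ := NUAct.kx_bd
  refine exists_conv Ug_meas (K0 := K) fun u hu => ?_
  have h1 := hK u hu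
  unfold NUAct.kx at h1
  rw [Complex.norm_real, Real.norm_eq_abs] at h1
  exact h1

/-! ### (Q3) the pair potentials along displaced paths -/

theorem hcs_of_zero' {R : ℝ} {β : ℝ → ℂ} (hs : ∀ x, R < |x| → β x = 0) : HasCompactSupport β := by
  refine HasCompactSupport.of_support_subset_isCompact (isCompact_Icc (a := -R) (b := R)) ?_
  intro y hy
  by_contra hy2
  exact hy (hs y (by
    by_contra h3
    exact hy2 (abs_le.1 (not_lt.1 h3))))

theorem KC.integrable_right {R Λ : ℝ} {κ : ℝ → ℝ → ℂ} (hR : 0 ≤ R) (h : KC R Λ κ) {β : ℝ → ℂ}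
    (hβ : Continuous β) (hs : ∀ y, R < |y| → β y = 0) {t : ℝ} (ht : |t| ≤ R) :
    Integrable fun y => κ t y * β y := by
  have hκc : Continuous fun y => κ t (cl R y) := by
    refine continuous_iff_continuousAt.2 fun y => ?_
    rw [ContinuousAt, tendsto_iff_norm_sub_tendsto_zero]
    refine squeeze_zero (fun _ => norm_nonneg _) (g := fun z => Λ * |cl R z - cl R y|)
      (fun z => ?_) ?_
    · have := h.lip ht ht (cl_abs hR z) (cl_abs hR y)
      rw [sub_self, abs_zero, zero_add] at this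
      exact this
    · have h3 : Continuous fun z => Λ * |cl R z - cl R y| :=
        continuous_const.mul ((cl_cont R).sub continuous_const).abs
      have h4 := h3.tendsto y
      simp only [sub_self, abs_zero, mul_zero] at h4
      exact h4
  have e1 : (fun y => κ t y * β y) = fun y => κ t (cl R y) * β y := by
    funext y
    rcases le_or_gt |y| R with h3 | h3
    · rw [cl_eq h3]
    · rw [hs y h3, mul_zero, mul_zero]
  rw [e1]
  exact (hκc.mul hβ).integrable_of_hasCompactSupport ((hcs_of_zero' hs).mul_left)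

theorem KC1_of_left {R Λ : ℝ} {f : ℝ → ℂ} (hh : KC R Λ fun t _ => f t) (hR : 0 ≤ R) :
    KC1 R Λ f := by
  intro ε hε
  obtain ⟨ι, hι, c, a, b, h1, h2⟩ := hh ε hε
  refine ⟨ι, hι, c, a, ?_, fun t ht => ?_⟩
  · refine le_trans (Finset.sum_le_sum fun i _ => ?_) h1
    have h4 := abs_nonneg (b i)
    exact mul_le_mul_of_nonneg_left (by linarith) (norm_nonneg _)
  · have h3 := h2 t 0 ht (by rwa [abs_zero])
    simpa using h3

theorem KC1.sub {R Λ Λ' : ℝ} {f g : ℝ → ℂ} (hR : 0 ≤ R) (h : KC1 R Λ f) (h' : KC1 R Λ' g) :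
    KC1 R (Λ + Λ') (fun t => f t - g t) := KC1_of_left (h.left.sub h'.left) hR

theorem KC1.add {R Λ Λ' : ℝ} {f g : ℝ → ℂ} (hR : 0 ≤ R) (h : KC1 R Λ f) (h' : KC1 R Λ' g) :
    KC1 R (Λ + Λ') (fun t => f t + g t) := KC1_of_left (h.left.add h'.left) hR

theorem KC1.congr {R Λ : ℝ} {f g : ℝ → ℂ} (h : KC1 R Λ f) (hfg : ∀ t, |t| ≤ R → f t = g t) :
    KC1 R Λ g := by
  intro ε hε
  obtain ⟨ι, hι, c, a, h1, h2⟩ := h ε hε
  refine ⟨ι, hι, c, a, h1, fun t ht => ?_⟩
  rw [← hfg t ht]
  exact h2 t ht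

/-- real part of an integral against a real kernel minus a kernel of class `KC` -/
theorem re_split {R Λ : ℝ} (hR : 0 ≤ R) {U : ℝ → ℝ} (hU : LocallyIntegrable U) {κ L : ℝ → ℝ → ℂ}
    (hL : KC R Λ L) {β : ℝ → ℂ} (hβ : Continuous β) (hs : ∀ y, R < |y| → β y = 0)
    (he : ∀ t y, |t| ≤ R → |y| ≤ R → t ≠ y → κ t y = (U (t - y) : ℂ) - L t y) {t : ℝ}
    (ht : |t| ≤ R) :
    (∫ y, κ t y * β y).re = cv U (fun y => (β y).re) t - (∫ y, L t y * β y).re := by
  have hcs := hcs_of_zero' hs
  have hi1 : Integrable fun y => (U (t - y) : ℂ) * β y := by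
    have h1 : LocallyIntegrable fun y => U (t - y) := by
      rw [locallyIntegrable_iff]
      intro k hk
      obtain ⟨r, hr⟩ := hk.isBounded.subset_closedBall 0
      rw [Real.closedBall_eq_Icc] at hr
      simp only [zero_sub, zero_add] at hr
      have h7 : Integrable (indicator (Icc (t - r) (t + r)) U) := by
        rw [integrable_indicator_iff measurableSet_Icc]
        exact hU.integrableOn_isCompact isCompact_Icc
      have h8 := (h7.comp_sub_left t).integrableOn (s := k)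
      refine h8.congr_fun_ae ?_
      filter_upwards [ae_restrict_mem hk.measurableSet] with y hy
      have h9 := hr hy
      exact indicator_of_mem (show t - y ∈ Icc (t - r) (t + r) from
        ⟨by linarith [h9.2], by linarith [h9.1]⟩) _
    have h2 := h1.integrable_smul_right_of_hasCompactSupport hβ hcs
    refine h2.congr (Eventually.of_forall fun y => ?_)
    simp only [Complex.real_smul]
  have hi2 := hL.integrable_right hR hβ hs ht
  have e1 : ∫ y, κ t y * β y = (∫ y, (U (t - y) : ℂ) * β y) - ∫ y, L t y * β y := by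
    rw [← integral_sub hi1 hi2]
    refine integral_congr_ae ?_
    have h0 : ∀ᵐ y : ℝ, y ≠ t := by simp [ae_iff, measure_singleton]
    filter_upwards [h0] with y hy
    rcases le_or_gt |y| R with h3 | h3
    · rw [he t y ht h3 (Ne.symm hy)]
      ring
    · simp only [hs y h3, mul_zero, sub_zero]
  have e2 : (∫ y, (U (t - y) : ℂ) * β y).re = cv U (fun y => (β y).re) t := by
    have h1 := integral_re hi1
    simp only [RCLike.re_to_complex] at h1
    rw [← h1]
    unfold cv
    congr 1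
    funext y
    rw [Complex.re_ofReal_mul]
  rw [e1, Complex.sub_re, e2]

/-- smallness of the imaginary parts -/
theorem im_lt_l {R lam : ℝ} (hlam : lam ≤ 1 / 6) {D D' : ℝ → ℂ}
    (h : ∀ x, |x| ≤ R → ‖D x‖ ≤ lam) (h' : ∀ x, |x| ≤ R → ‖D' x‖ ≤ lam) {t t' : ℝ}
    (ht : |t| ≤ R) (ht' : |t'| ≤ R) :
    |(((t : ℂ) + D t) - (t' + D' t')).im| < NUMF.l := by
  have e : (((t : ℂ) + D t) - (t' + D' t')).im = (D t).im - (D' t').im := by
    simp
  rw [e]
  have h1 := (Complex.abs_im_le_norm (D t)).trans (h t ht)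
  have h2 := (Complex.abs_im_le_norm (D' t')).trans (h' t' ht')
  have h3 := abs_sub (D t).im (D' t').im
  unfold NUMF.l
  linarith [Real.pi_gt_three]

open NUAct in
/-- **(Q3), own species** -/
theorem exists_Q_own : ∃ K : ℝ, 1 ≤ K ∧ ∀ R : ℝ, 1 ≤ R → ∀ (lam : ℝ) (D D1 : ℝ → ℂ),
    Disp R lam D D1 → K * R ^ 7 * lam ≤ 1 → ∀ (β : ℝ → ℂ) (N μ : ℝ), Continuous β →
    (∀ y, R < |y| → β y = 0) → ∫ y, ‖β y‖ ≤ N → O 3 μ (fun y => (β y).re) →
    KC1 R (K * R ^ 5 * μ + N * (K * R ^ 7 * lam))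
      (fun t => (((∫ y, Up Us (fun x => (x : ℂ) + D x) t y * β y).re : ℝ) : ℂ)) := by
  obtain ⟨K1, hK1, H1⟩ := exists_Lw
  obtain ⟨K2, hK2, H2⟩ := exists_conv_w
  refine ⟨K1 + K2 + 6, by linarith, fun R hR lam D D1 hD hsm β N μ hβ hs hN hμ => ?_⟩
  have hR0 : 0 ≤ R := by linarith
  obtain ⟨D2, D3, D4, h1, h2, h3, h4, hc, b0, b1, b2, b3, b4⟩ := hD.ex
  have hl : 0 ≤ lam := (norm_nonneg _).trans (b0 0 (by simp; linarith))
  have hR7 : (1:ℝ) ≤ R ^ 7 := one_le_pow₀ hR
  have hN0 : 0 ≤ N := (integral_nonneg fun y => norm_nonneg _).trans hN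
  have hμ0 := hμ.nonneg
  have hm1 : K1 * R ^ 7 * lam ≤ (K1 + K2 + 6) * R ^ 7 * lam := by
    gcongr
    linarith
  have hlam : lam ≤ 1 / 6 := by
    have : 6 * lam ≤ (K1 + K2 + 6) * R ^ 7 * lam := by
      have : 6 ≤ (K1 + K2 + 6) * R ^ 7 := by nlinarith
      nlinarith
    linarith
  obtain ⟨hS, hL⟩ := H1 R hR lam D D1 hD (hm1.trans hsm)
  have hb : ∀ x, |x| ≤ R → ‖D x‖ ≤ lam := fun x hx => b0 x (by linarith)
  have q1 := (KC.int_right hR0 hL hβ hs hN).re hR0
  have q2 := H2 R hR μ _ hμ (fun y hy => by rw [hs y hy, Complex.zero_re])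
  have q3 := (q2.sub hR0 q1).congr (g := fun t => (((∫ y, Up Us (fun x => (x : ℂ) + D x) t y *
    β y).re : ℝ) : ℂ)) (fun t ht => by
      rw [re_split (κ := Up Us (fun x => (x : ℂ) + D x)) hR0 Uw_li hL hβ hs
        (fun t y ht hy hne => ?_) ht]
      · push_cast
        rfl
      · rw [Up_eq hS ht hy hne (im_lt_l hlam hb hb ht hy)]
        rfl)
  refine q3.mono ?_
  have e1 : K2 * R ^ 5 * μ ≤ (K1 + K2 + 6) * R ^ 5 * μ := by
    gcongr
    linarith
  have e2 : N * (K1 * R ^ 7 * lam) ≤ N * ((K1 + K2 + 6) * R ^ 7 * lam) := by gcongr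
  linarith

open NUAct in
/-- **(Q3), cross** -/
theorem exists_Q_cross : ∃ K : ℝ, 1 ≤ K ∧ ∀ R : ℝ, 1 ≤ R → ∀ (lam : ℝ) (D D1 D' D1' : ℝ → ℂ),
    Disp R lam D D1 → Disp R lam D' D1' → K * R ^ 7 * lam ≤ 1 →
    ∀ (β : ℝ → ℂ) (N μ : ℝ), Continuous β →
    (∀ y, R < |y| → β y = 0) → ∫ y, ‖β y‖ ≤ N → O 3 μ (fun y => (β y).re) →
    KC1 R (K * R ^ 5 * μ + N * (K * R ^ 7 * lam))
      (fun t => (((∫ y, Ux (((t : ℂ) + D t) - (y + D' y)) * β y).re : ℝ) : ℂ)) := by
  obtain ⟨K1, hK1, H1⟩ := exists_Lg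
  obtain ⟨K2, hK2, H2⟩ := exists_conv_g
  refine ⟨K1 + K2 + 6, by linarith, fun R hR lam D D1 D' D1' hD hD' hsm β N μ hβ hs hN hμ => ?_⟩
  have hR0 : 0 ≤ R := by linarith
  obtain ⟨D2, D3, D4, h1, h2, h3, h4, hc, b0, b1, b2, b3, b4⟩ := hD.ex
  obtain ⟨D2', D3', D4', h1', h2', h3', h4', hc', b0', b1', b2', b3', b4'⟩ := hD'.ex
  have hl : 0 ≤ lam := (norm_nonneg _).trans (b0 0 (by simp; linarith))
  have hR7 : (1:ℝ) ≤ R ^ 7 := one_le_pow₀ hR
  have hR67 : R ^ 6 ≤ R ^ 7 := pow_le_pow_right₀ hR (by norm_num)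
  have hN0 : 0 ≤ N := (integral_nonneg fun y => norm_nonneg _).trans hN
  have hμ0 := hμ.nonneg
  have hm1 : K1 * R ^ 6 * lam ≤ (K1 + K2 + 6) * R ^ 7 * lam := by
    gcongr
    linarith
  have hlam : lam ≤ 1 / 6 := by
    have : 6 * lam ≤ (K1 + K2 + 6) * R ^ 7 * lam := by
      have : 6 ≤ (K1 + K2 + 6) * R ^ 7 := by nlinarith
      nlinarith
    linarith
  obtain ⟨hS, hL⟩ := H1 R hR lam D D1 D' D1' hD hD' (hm1.trans hsm)
  have hb : ∀ x, |x| ≤ R → ‖D x‖ ≤ lam := fun x hx => b0 x (by linarith)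
  have hb' : ∀ x, |x| ≤ R → ‖D' x‖ ≤ lam := fun x hx => b0' x (by linarith)
  have q1 := (KC.int_right hR0 hL hβ hs hN).re hR0
  have q2 := H2 R hR μ _ hμ (fun y hy => by rw [hs y hy, Complex.zero_re])
  have q3 := (q2.sub hR0 q1).congr (g := fun t => (((∫ y, Ux (((t : ℂ) + D t) - (y + D' y)) *
    β y).re : ℝ) : ℂ)) (fun t ht => by
      rw [re_split (κ := fun t y => Ux (((t : ℂ) + D t) - (y + D' y))) hR0 Ug_li hL hβ hs
        (fun t y ht hy hne => ?_) ht]
      · push_cast
        rfl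
      · rw [Ux_path hS ht hy (im_lt_l hlam hb hb' ht hy)]
        rfl)
  refine q3.mono ?_
  have e1 : K2 * R ^ 5 * μ ≤ (K1 + K2 + 6) * R ^ 5 * μ := by
    gcongr
    linarith
  have e2 : N * (K1 * R ^ 6 * lam) ≤ N * ((K1 + K2 + 6) * R ^ 7 * lam) := by gcongr
  linarith

end NUKer
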