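import Pool.Agent.NUKer.Two

/-!
Jensen without continuity hypotheses, and the expectation of `|<ν, κ ν'>|`.
-/

open Complex Finset Filter MeasureTheory
open scoped Topology ENNReal

namespace NUKer

/-- clamp to `[-R,R]` -/
noncomputable def cl (R t : ℝ) : ℝ := max (-R) (min t R)

theorem cl_cont (R : ℝ) : Continuous (cl R) := by unfold cl; fun_prop

theorem cl_abs {R : ℝ} (hR : 0 ≤ R) (t : ℝ) : |cl R t| ≤ R := by
  unfold cl
  rw [abs_le]
  exact ⟨le_max_left _ _, max_le (by linarith) (min_le_right _ _)⟩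

theorem cl_eq {R t : ℝ} (ht : |t| ≤ R) : cl R t = t := by
  have h := abs_le.1 ht
  unfold cl
  rw [min_eq_left h.2, max_eq_right h.1]

variable {R : ℝ}

theorem nu_congr {ι : Type*} [Fintype ι] {ρ : ℝ → ℝ} {s : ι → ℝ} (hR : 0 ≤ R)
    (hs : ∀ i, |s i| ≤ R) {f g : ℝ → ℝ} (h : ∀ t, |t| ≤ R → f t = g t) :
    nu R ρ s f = nu R ρ s g := by
  unfold nu
  congr 1
  · exact sum_congr rfl fun i _ => h _ (hs i)
  · apply intervalIntegral.integral_congr
    intro t ht
    rw [Set.uIcc_of_le (by linarith)] at ht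
    simp only
    rw [h t (abs_le.2 ⟨ht.1, ht.2⟩)]

theorem nu2_congr {ι ι' : Type*} [Fintype ι] [Fintype ι'] {ρ ρ' : ℝ → ℝ} {s : ι → ℝ}
    {s' : ι' → ℝ} (hR : 0 ≤ R) (hs : ∀ i, |s i| ≤ R) (hs' : ∀ i, |s' i| ≤ R)
    {κ κ' : ℝ → ℝ → ℝ} (h : ∀ t t', |t| ≤ R → |t'| ≤ R → κ t t' = κ' t t') :
    nu2 R ρ ρ' s s' κ = nu2 R ρ ρ' s s' κ' :=
  nu_congr hR hs fun t ht => nu_congr hR hs' fun t' ht' => h t t' ht ht'

theorem KC.clamp {Λ : ℝ} (hR : 0 ≤ R) {κ : ℝ → ℝ → ℝ}
    (h : KC R Λ (fun t t' => (κ t t' : ℂ))) :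
    (Continuous fun p : ℝ × ℝ => κ (cl R p.1) (cl R p.2)) ∧
    KC R Λ (fun t t' => ((κ (cl R t) (cl R t') : ℝ) : ℂ)) := by
  constructor
  · have h0 := h.nonneg
    rw [Metric.continuous_iff]
    intro p ε hε
    have hc : Continuous fun q : ℝ × ℝ => Λ * (|cl R q.1 - cl R p.1| + |cl R q.2 - cl R p.2|) := by
      have := cl_cont R
      fun_prop
    have h1 := Metric.tendsto_nhds_nhds.1 (hc.tendsto p) ε hε
    obtain ⟨δ, hδ, h2⟩ := h1
    refine ⟨δ, hδ, fun q hq => ?_⟩
    have h3 := h2 hq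
    simp only [sub_self, abs_zero, add_zero, mul_zero] at h3
    rw [Real.dist_eq, sub_zero] at h3
    have h4 := h.lip (cl_abs hR q.1) (cl_abs hR p.1) (cl_abs hR q.2) (cl_abs hR p.2)
    rw [← Complex.ofReal_sub, Complex.norm_real, Real.norm_eq_abs] at h4
    rw [Real.dist_eq]
    exact lt_of_le_of_lt (h4.trans (le_abs_self _)) h3
  · refine h.congr fun t t' ht ht' => ?_
    rw [cl_eq ht, cl_eq ht']

variable {Ω : Type*} [MeasurableSpace Ω] {μ : Measure Ω} {W : Ω → ℝ≥0∞} {B : ℝ≥0∞}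

/-- **Jensen**, kernels only in the class `KC` -/
theorem jensen' {σ : Type} [Fintype σ] [Nonempty σ] {n : σ → ℕ} {s : ∀ k, Ω → Fin (n k) → ℝ}
    (hs : ∀ k, Measurable (s k)) (hR : 0 ≤ R) (hsR : ∀ k x i, |s k x i| ≤ R)
    {ρ : σ → ℝ → ℝ} (hρ : ∀ k, Continuous (ρ k)) {κ : σ → σ → ℝ → ℝ → ℝ} {Λ : σ → σ → ℝ}
    (hK : ∀ k k', KC R (Λ k k') (fun t t' => (κ k k' t t' : ℂ))) {Λ0 : ℝ} (hΛ0 : 0 < Λ0)
    (hΛ : ∑ k, ∑ k', Λ k k' ≤ Λ0) (hW : Measurable W)
    (hc : ∀ k (a : ℝ), ∫⁻ x, W x * ENNReal.ofReal (Real.exp (2 * Λ0 / (1 + |a|) *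
      (nu R (ρ k) (s k x) fun t => Real.cos (a * t)) ^ 2)) ∂μ ≤ B)
    (hsn : ∀ k (a : ℝ), ∫⁻ x, W x * ENNReal.ofReal (Real.exp (2 * Λ0 / (1 + |a|) *
      (nu R (ρ k) (s k x) fun t => Real.sin (a * t)) ^ 2)) ∂μ ≤ B) :
    ∫⁻ x, W x * ENNReal.ofReal (Real.exp (∑ k, ∑ k',
      nu2 R (ρ k) (ρ k') (s k x) (s k' x) (κ k k'))) ∂μ ≤ B := by
  have h := jensen (μ := μ) (W := W) (B := B) hs hR hsR hρ
    (κ := fun k k' t t' => κ k k' (cl R t) (cl R t')) (fun k k' => ((hK k k').clamp hR).1)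
    (fun k k' => ((hK k k').clamp hR).2) hΛ0 hΛ hW hc hsn
  refine le_trans (le_of_eq ?_) h
  refine lintegral_congr fun x => ?_
  congr 3
  refine sum_congr rfl fun k _ => sum_congr rfl fun k' _ => ?_
  exact nu2_congr hR (hsR k x) (hsR k' x) fun t t' ht ht' => by rw [cl_eq ht, cl_eq ht']

theorem abs_nu2_exp {ι ι' : Type*} [Fintype ι] [Fintype ι'] {ρ ρ' : ℝ → ℝ} {s : ι → ℝ}
    {s' : ι' → ℝ} (hρ : Continuous ρ) (hρ' : Continuous ρ') (c : ℂ) (a b : ℝ) :
    |nu2 R ρ ρ' s s' (fun t t' => (c * cexp (((a * t + b * t' : ℝ) : ℂ) * I)).re)| ≤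
      ‖c‖ * (((nu R ρ s fun t => Real.cos (a * t)) ^ 2 + (nu R ρ s fun t => Real.sin (a * t)) ^ 2) +
        ((nu R ρ' s' fun t => Real.cos (b * t)) ^ 2 +
          (nu R ρ' s' fun t => Real.sin (b * t)) ^ 2)) / 2 := by
  rw [abs_le]
  constructor
  · have h := nu2_exp (R := R) (s := s) (s' := s') hρ hρ' (-c) a b
    rw [norm_neg] at h
    have e : nu2 R ρ ρ' s s' (fun t t' => (-c * cexp (((a * t + b * t' : ℝ) : ℂ) * I)).re) =
        - nu2 R ρ ρ' s s' (fun t t' => (c * cexp (((a * t + b * t' : ℝ) : ℂ) * I)).re) := by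
      have h1 := nu2_sub (R := R) (s := s) (s' := s') hρ hρ' (κ := fun _ _ => 0)
        (κ' := fun t t' => (c * cexp (((a * t + b * t' : ℝ) : ℂ) * I)).re) continuous_const
        (by fun_prop)
      have h2 : nu2 R ρ ρ' s s' (fun _ _ => (0 : ℝ)) = 0 := by
        simp [nu2, nu]
      rw [h2, zero_sub] at h1
      rw [← h1]
      congr 1
      funext t t'
      rw [neg_mul, Complex.neg_re, zero_sub]
    rw [e] at h
    linarith
  · exact nu2_exp hρ hρ' c a b

theorem ofReal4 {x p q : ℝ} (hx : 0 ≤ x) (hp : 0 ≤ p) (hq : 0 ≤ q) :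
    ENNReal.ofReal x * (ENNReal.ofReal p + ENNReal.ofReal p + ENNReal.ofReal q + ENNReal.ofReal q) =
      ENNReal.ofReal (x * (p + p + q + q)) := by
  rw [ENNReal.ofReal_mul hx, ENNReal.ofReal_add (by positivity) hq,
    ENNReal.ofReal_add (by positivity) hq, ENNReal.ofReal_add hp hp]

theorem measurable_nu2 {n n' : ℕ} {s : Ω → Fin n → ℝ} {s' : Ω → Fin n' → ℝ} (hs : Measurable s)
    (hs' : Measurable s') {ρ ρ' : ℝ → ℝ} (hρ : Continuous ρ) (hρ' : Continuous ρ')
    {κ : ℝ → ℝ → ℝ} (hκ : Continuous fun p : ℝ × ℝ => κ p.1 p.2) :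
    Measurable fun x => nu2 R ρ ρ' (s x) (s' x) κ := by
  have h1 : Continuous fun p : (Fin n' → ℝ) × ℝ => nu R ρ' p.1 (κ p.2) := by
    unfold nu
    refine Continuous.sub ?_ ?_
    · exact continuous_finsetSum _ fun i _ =>
        hκ.comp (by fun_prop : Continuous fun p : (Fin n' → ℝ) × ℝ => (p.2, p.1 i))
    · apply intervalIntegral.continuous_parametric_intervalIntegral_of_continuous'
      have h2 : Continuous fun q : ((Fin n' → ℝ) × ℝ) × ℝ => κ q.1.2 q.2 :=
        hκ.comp (by fun_prop : Continuous fun q : ((Fin n' → ℝ) × ℝ) × ℝ => (q.1.2, q.2))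
      exact (by fun_prop : Continuous fun q : ((Fin n' → ℝ) × ℝ) × ℝ => κ q.1.2 q.2 * ρ' q.2)
  have h3 : Continuous fun p : (Fin n → ℝ) × (Fin n' → ℝ) => nu2 R ρ ρ' p.1 p.2 κ := by
    unfold nu2
    show Continuous fun p : (Fin n → ℝ) × (Fin n' → ℝ) => (∑ i, nu R ρ' p.2 (κ (p.1 i)) -
      ∫ t in (-R)..R, nu R ρ' p.2 (κ t) * ρ t)
    refine Continuous.sub ?_ ?_
    · exact continuous_finsetSum _ fun i _ =>
        h1.comp (by fun_prop : Continuous fun p : (Fin n → ℝ) × (Fin n' → ℝ) => (p.2, p.1 i))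
    · apply intervalIntegral.continuous_parametric_intervalIntegral_of_continuous'
      have h2 : Continuous fun q : ((Fin n → ℝ) × (Fin n' → ℝ)) × ℝ => nu R ρ' q.1.2 (κ q.2) :=
        h1.comp (by fun_prop : Continuous fun q : ((Fin n → ℝ) × (Fin n' → ℝ)) × ℝ => (q.1.2, q.2))
      exact (by fun_prop : Continuous fun q : ((Fin n → ℝ) × (Fin n' → ℝ)) × ℝ =>
        nu R ρ' q.1.2 (κ q.2) * ρ q.2)
  exact h3.measurable.comp (hs.prodMk hs')

/-- **expectation** of the absolute value of the quadratic form -/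
theorem expect {σ : Type} [Fintype σ] {n : σ → ℕ} {s : ∀ k, Ω → Fin (n k) → ℝ}
    (hs : ∀ k, Measurable (s k)) (hR : 0 ≤ R) (hsR : ∀ k x i, |s k x i| ≤ R)
    {ρ : σ → ℝ → ℝ} (hρ : ∀ k, Continuous (ρ k)) {κ : σ → σ → ℝ → ℝ → ℝ} {Λ : σ → σ → ℝ}
    (hK : ∀ k k', KC R (Λ k k') (fun t t' => (κ k k' t t' : ℂ))) {Λ0 : ℝ}
    (hΛ : ∑ k, ∑ k', Λ k k' ≤ Λ0) {V : ℝ} (hV : 0 ≤ V) [IsFiniteMeasure μ]
    (hc : ∀ k (a : ℝ), ∫⁻ x, ENNReal.ofReal
      ((nu R (ρ k) (s k x) fun t => Real.cos (a * t)) ^ 2) ∂μ ≤ ENNReal.ofReal (V * (1 + |a|)))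
    (hsn : ∀ k (a : ℝ), ∫⁻ x, ENNReal.ofReal
      ((nu R (ρ k) (s k x) fun t => Real.sin (a * t)) ^ 2) ∂μ ≤ ENNReal.ofReal (V * (1 + |a|))) :
    ∫⁻ x, ENNReal.ofReal (∑ k, ∑ k', |nu2 R (ρ k) (ρ k') (s k x) (s k' x) (κ k k')|) ∂μ ≤
      ENNReal.ofReal (2 * V * Λ0) := by
  obtain ⟨T, hT⟩ : ∃ T : ℝ, T = ∑ k, ∑ k', tv (Fin (n k)) R (ρ k) * tv (Fin (n k')) R (ρ k') :=
    ⟨_, rfl⟩
  have htv : ∀ k, 0 ≤ tv (Fin (n k)) R (ρ k) := fun k => by
    unfold tv
    have : 0 ≤ ∫ t in (-R)..R, |ρ k t| :=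
      intervalIntegral.integral_nonneg (by linarith) fun t _ => abs_nonneg _
    positivity
  have hT0 : 0 ≤ T := by
    rw [hT]
    exact sum_nonneg fun k _ => sum_nonneg fun k' _ => mul_nonneg (htv k) (htv k')
  have hone : ∀ (k k' : σ) (ε : ℝ), 0 < ε →
      ∫⁻ x, ENNReal.ofReal |nu2 R (ρ k) (ρ k') (s k x) (s k' x) (κ k k')| ∂μ ≤
      ENNReal.ofReal (2 * V * Λ k k') +
        ENNReal.ofReal (tv (Fin (n k)) R (ρ k) * tv (Fin (n k')) R (ρ k') * ε) * μ Set.univ := by
    intro k k' ε hε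
    obtain ⟨ι, hι, c, a, b, h1, h2⟩ := ((hK k k').clamp hR).2 ε hε
    have hcont := ((hK k k').clamp hR).1
    have hpt : ∀ x, |nu2 R (ρ k) (ρ k') (s k x) (s k' x) (κ k k')| ≤
        (∑ i, ‖c i‖ / 2 * ((nu R (ρ k) (s k x) fun t => Real.cos (a i * t)) ^ 2 +
          (nu R (ρ k) (s k x) fun t => Real.sin (a i * t)) ^ 2 +
          (nu R (ρ k') (s k' x) fun t => Real.cos (b i * t)) ^ 2 +
          (nu R (ρ k') (s k' x) fun t => Real.sin (b i * t)) ^ 2)) +
        tv (Fin (n k)) R (ρ k) * tv (Fin (n k')) R (ρ k') * ε := by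
      intro x
      have c1 : Continuous fun q : ℝ × ℝ => ∑ i,
          (c i * cexp (((a i * q.1 + b i * q.2 : ℝ) : ℂ) * I)).re := by fun_prop
      have h3 := nu2_sub (R := R) (s := s k x) (s' := s k' x) (hρ k) (hρ k')
        (κ := fun t t' => κ k k' (cl R t) (cl R t')) hcont (κ' := fun t t' => ∑ i,
          (c i * cexp (((a i * t + b i * t' : ℝ) : ℂ) * I)).re) c1
      have h4 := abs_nu2_le (s := s k x) (s' := s k' x) hR (hρ k) (hρ k')
        (hsR k x) (hsR k' x) (κ := fun t t' => κ k k' (cl R t) (cl R t') - ∑ i,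
          (c i * cexp (((a i * t + b i * t' : ℝ) : ℂ) * I)).re) (C := ε) (by
        intro t t' ht ht'
        have h5 := h2 t t' ht ht'
        have h6 := Complex.abs_re_le_norm ((κ k k' (cl R t) (cl R t') : ℂ) -
          ∑ i, c i * cexp (((a i * t + b i * t' : ℝ) : ℂ) * I))
        rw [Complex.sub_re, Complex.ofReal_re, Complex.re_sum] at h6
        exact h6.trans h5)
      have h7 := nu2_sum (R := R) (s := s k x) (s' := s k' x) (hρ k) (hρ k')
        (univ : Finset ι) (κ := fun i t t' =>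
          (c i * cexp (((a i * t + b i * t' : ℝ) : ℂ) * I)).re)
        (fun i _ => by fun_prop)
      have h8 : nu2 R (ρ k) (ρ k') (s k x) (s k' x) (κ k k') =
          nu2 R (ρ k) (ρ k') (s k x) (s k' x) (fun t t' => κ k k' (cl R t) (cl R t')) :=
        nu2_congr hR (hsR k x) (hsR k' x) fun t t' ht ht' => by rw [cl_eq ht, cl_eq ht']
      have h9 : |nu2 R (ρ k) (ρ k') (s k x) (s k' x) (fun t t' => ∑ i,
          (c i * cexp (((a i * t + b i * t' : ℝ) : ℂ) * I)).re)| ≤
          ∑ i, ‖c i‖ / 2 * ((nu R (ρ k) (s k x) fun t => Real.cos (a i * t)) ^ 2 +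
          (nu R (ρ k) (s k x) fun t => Real.sin (a i * t)) ^ 2 +
          (nu R (ρ k') (s k' x) fun t => Real.cos (b i * t)) ^ 2 +
          (nu R (ρ k') (s k' x) fun t => Real.sin (b i * t)) ^ 2) := by
        rw [h7]
        refine (abs_sum_le_sum_abs _ _).trans (sum_le_sum fun i _ => ?_)
        refine (abs_nu2_exp (hρ k) (hρ k') (c i) (a i) (b i)).trans (le_of_eq ?_)
        ring
      rw [h8]
      rw [h3] at h4
      have h10 := abs_le.1 h4
      have h11 := abs_le.1 h9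
      rw [abs_le]
      constructor <;> linarith
    have hm : ∀ (j : σ) (f : ℝ → ℝ), Continuous f →
        Measurable fun x => ENNReal.ofReal ((nu R (ρ j) (s j x) f) ^ 2) := fun j f hf =>
      ENNReal.measurable_ofReal.comp ((measurable_nu (R := R) (ρ := ρ j) (hs j) hf).pow_const 2)
    calc ∫⁻ x, ENNReal.ofReal |nu2 R (ρ k) (ρ k') (s k x) (s k' x) (κ k k')| ∂μ ≤
        ∫⁻ x, ((∑ i, ENNReal.ofReal (‖c i‖ / 2) *
          (ENNReal.ofReal ((nu R (ρ k) (s k x) fun t => Real.cos (a i * t)) ^ 2) +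
          ENNReal.ofReal ((nu R (ρ k) (s k x) fun t => Real.sin (a i * t)) ^ 2) +
          ENNReal.ofReal ((nu R (ρ k') (s k' x) fun t => Real.cos (b i * t)) ^ 2) +
          ENNReal.ofReal ((nu R (ρ k') (s k' x) fun t => Real.sin (b i * t)) ^ 2))) +
          ENNReal.ofReal (tv (Fin (n k)) R (ρ k) * tv (Fin (n k')) R (ρ k') * ε)) ∂μ := by
          refine lintegral_mono fun x => ?_
          refine (ENNReal.ofReal_le_ofReal (hpt x)).trans (le_of_eq ?_)
          rw [ENNReal.ofReal_add (sum_nonneg fun i _ => by positivity)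
            (mul_nonneg (mul_nonneg (htv k) (htv k')) hε.le),
            ENNReal.ofReal_sum_of_nonneg fun i _ => by positivity]
          congr 1
          refine sum_congr rfl fun i _ => ?_
          rw [ENNReal.ofReal_mul (by positivity), ENNReal.ofReal_add (by positivity) (by positivity),
            ENNReal.ofReal_add (by positivity) (by positivity),
            ENNReal.ofReal_add (by positivity) (by positivity)]
      _ ≤ _ := by
        have m1 := fun i => hm k (fun t => Real.cos (a i * t)) (by fun_prop)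
        have m2 := fun i => hm k (fun t => Real.sin (a i * t)) (by fun_prop)
        have m3 := fun i => hm k' (fun t => Real.cos (b i * t)) (by fun_prop)
        have m4 := fun i => hm k' (fun t => Real.sin (b i * t)) (by fun_prop)
        rw [lintegral_add_right _ measurable_const, lintegral_const,
          lintegral_finsetSum _ (fun i _ => by
            have n1 := m1 i
            have n2 := m2 i
            have n3 := m3 i
            have n4 := m4 i
            fun_prop)]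
        gcongr
        have g1 : ∀ i, ∫⁻ x, ENNReal.ofReal (‖c i‖ / 2) *
            (ENNReal.ofReal ((nu R (ρ k) (s k x) fun t => Real.cos (a i * t)) ^ 2) +
            ENNReal.ofReal ((nu R (ρ k) (s k x) fun t => Real.sin (a i * t)) ^ 2) +
            ENNReal.ofReal ((nu R (ρ k') (s k' x) fun t => Real.cos (b i * t)) ^ 2) +
            ENNReal.ofReal ((nu R (ρ k') (s k' x) fun t => Real.sin (b i * t)) ^ 2)) ∂μ ≤
            ENNReal.ofReal (2 * V * (‖c i‖ * (1 + |a i| + |b i|))) := by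
          intro i
          have n1 := m1 i
          have n2 := m2 i
          have n3 := m3 i
          have n4 := m4 i
          rw [lintegral_const_mul _ (by fun_prop), lintegral_add_right _ n4,
            lintegral_add_right _ n3, lintegral_add_right _ n2]
          calc ENNReal.ofReal (‖c i‖ / 2) *
              (∫⁻ x, ENNReal.ofReal ((nu R (ρ k) (s k x) fun t => Real.cos (a i * t)) ^ 2) ∂μ +
              ∫⁻ x, ENNReal.ofReal ((nu R (ρ k) (s k x) fun t => Real.sin (a i * t)) ^ 2) ∂μ +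
              ∫⁻ x, ENNReal.ofReal ((nu R (ρ k') (s k' x) fun t => Real.cos (b i * t)) ^ 2) ∂μ +
              ∫⁻ x, ENNReal.ofReal ((nu R (ρ k') (s k' x) fun t => Real.sin (b i * t)) ^ 2) ∂μ) ≤
              ENNReal.ofReal (‖c i‖ / 2) * (ENNReal.ofReal (V * (1 + |a i|)) +
                ENNReal.ofReal (V * (1 + |a i|)) + ENNReal.ofReal (V * (1 + |b i|)) +
                ENNReal.ofReal (V * (1 + |b i|))) := by
                gcongr
                · exact hc k (a i)
                · exact hsn k (a i)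
                · exact hc k' (b i)
                · exact hsn k' (b i)
            _ = ENNReal.ofReal (‖c i‖ / 2 * (V * (1 + |a i|) + V * (1 + |a i|) +
                V * (1 + |b i|) + V * (1 + |b i|))) :=
                ofReal4 (by positivity) (by positivity) (by positivity)
            _ ≤ _ := by
                apply ENNReal.ofReal_le_ofReal
                have q1 : ‖c i‖ / 2 * (V * (1 + |a i|) + V * (1 + |a i|) +
                  V * (1 + |b i|) + V * (1 + |b i|)) = V * (‖c i‖ * (2 + |a i| + |b i|)) := by ring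
                rw [q1]
                have q2 : 2 * V * (‖c i‖ * (1 + |a i| + |b i|)) =
                  V * (‖c i‖ * (2 * (1 + |a i| + |b i|))) := by ring
                rw [q2]
                have q3 := abs_nonneg (a i)
                have q4 := abs_nonneg (b i)
                gcongr
                linarith
        refine (sum_le_sum fun i _ => g1 i).trans ?_
        rw [← ENNReal.ofReal_sum_of_nonneg fun i _ => by positivity]
        apply ENNReal.ofReal_le_ofReal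
        rw [← mul_sum]
        gcongr
  have hone' : ∀ (k k' : σ),
      ∫⁻ x, ENNReal.ofReal |nu2 R (ρ k) (ρ k') (s k x) (s k' x) (κ k k')| ∂μ ≤
      ENNReal.ofReal (2 * V * Λ k k') := by
    intro k k'
    have hlim : Tendsto (fun ε : ℝ => ENNReal.ofReal (2 * V * Λ k k') +
        ENNReal.ofReal (tv (Fin (n k)) R (ρ k) * tv (Fin (n k')) R (ρ k') * ε) * μ Set.univ)
        (𝓝[>] 0) (𝓝 (ENNReal.ofReal (2 * V * Λ k k') +
        ENNReal.ofReal (tv (Fin (n k)) R (ρ k) * tv (Fin (n k')) R (ρ k') * 0) * μ Set.univ)) := by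
      apply Tendsto.mono_left _ nhdsWithin_le_nhds
      apply Tendsto.const_add
      have hcont : Continuous fun ε : ℝ =>
          ENNReal.ofReal (tv (Fin (n k)) R (ρ k) * tv (Fin (n k')) R (ρ k') * ε) :=
        ENNReal.continuous_ofReal.comp (by fun_prop)
      exact ENNReal.Tendsto.mul_const (hcont.tendsto 0) (Or.inr (measure_ne_top μ _))
    rw [mul_zero, ENNReal.ofReal_zero, zero_mul, add_zero] at hlim
    exact ge_of_tendsto hlim (eventually_nhdsWithin_of_forall fun ε hε => hone k k' ε hε)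
  have hmeas : ∀ k k', Measurable fun x =>
      ENNReal.ofReal |nu2 R (ρ k) (ρ k') (s k x) (s k' x) (κ k k')| := by
    intro k k'
    have h8 : ∀ x, nu2 R (ρ k) (ρ k') (s k x) (s k' x) (κ k k') =
        nu2 R (ρ k) (ρ k') (s k x) (s k' x) (fun t t' => κ k k' (cl R t) (cl R t')) := fun x =>
      nu2_congr hR (hsR k x) (hsR k' x) fun t t' ht ht' => by rw [cl_eq ht, cl_eq ht']
    simp only [h8]
    have h9 := measurable_nu2 (R := R) (hs k) (hs k') (hρ k) (hρ k')
      (κ := fun t t' => κ k k' (cl R t) (cl R t')) ((hK k k').clamp hR).1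
    exact ENNReal.measurable_ofReal.comp h9.abs
  have e1 : ∀ x, ENNReal.ofReal (∑ k, ∑ k', |nu2 R (ρ k) (ρ k') (s k x) (s k' x) (κ k k')|) =
      ∑ k, ∑ k', ENNReal.ofReal |nu2 R (ρ k) (ρ k') (s k x) (s k' x) (κ k k')| := by
    intro x
    rw [ENNReal.ofReal_sum_of_nonneg fun k _ => sum_nonneg fun k' _ => abs_nonneg _]
    refine sum_congr rfl fun k _ => ?_
    rw [ENNReal.ofReal_sum_of_nonneg fun k' _ => abs_nonneg _]
  simp only [e1]
  rw [lintegral_finsetSum _ fun k _ => Finset.measurable_fun_sum _ fun k' _ => hmeas k k']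
  have e2 : ∀ k, ∫⁻ x, ∑ k', ENNReal.ofReal |nu2 R (ρ k) (ρ k') (s k x) (s k' x) (κ k k')| ∂μ ≤
      ENNReal.ofReal (∑ k', 2 * V * Λ k k') := by
    intro k
    rw [lintegral_finsetSum _ fun k' _ => hmeas k k', ENNReal.ofReal_sum_of_nonneg fun k' _ => by
      have := (hK k k').nonneg
      positivity]
    exact sum_le_sum fun k' _ => hone' k k'
  refine (sum_le_sum fun k _ => e2 k).trans ?_
  rw [← ENNReal.ofReal_sum_of_nonneg fun k _ => sum_nonneg fun k' _ => by
    have := (hK k k').nonneg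
    positivity]
  apply ENNReal.ofReal_le_ofReal
  simp only [← mul_sum]
  gcongr

end NUKer
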