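import Pool.Agent.NUKer.Pair
import Pool.Agent.NUKer.Expect

/-!
Global (whole plane) versions: boundedness and continuity of the kernels, smallness on every
square, and the comparison of the whole line form of `<ν, κ ν'>` with the cut one.
-/

open Complex Finset Filter MeasureTheory
open scoped Topology ENNReal

namespace NUKer

theorem norm_cosh_sub_one_le (z : ℂ) : ‖Complex.cosh z - 1‖ ≤ ‖z‖ ^ 2 * Real.exp ‖z‖ :=
  (KC.const (R := 1) z).cosh_sub_one.bound (t := 0) (t' := 0) (by simp) (by simp)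

theorem norm_sinh_le (z : ℂ) : ‖Complex.sinh z‖ ≤ ‖z‖ * Real.exp ‖z‖ :=
  (KC.const (R := 1) z).sinh.bound (t := 0) (t' := 0) (by simp) (by simp)

theorem norm_shc_le (z : ℂ) : ‖shc z‖ ≤ Real.exp ‖z‖ :=
  (KC.const (R := 1) z).shc.bound (t := 0) (t' := 0) (by simp) (by simp)

theorem norm_log_le {Y : ℂ} (hY : ‖Y‖ ≤ 1 / 2) : ‖Complex.log (1 + Y)‖ ≤ 4 * ‖Y‖ :=
  ((KC.const (R := 1) Y).log hY).bound (t := 0) (t' := 0) (by simp) (by simp)

theorem fh_abs (y : ℝ) : |fh y| ≤ |y| := by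
  unfold fh
  rw [abs_mul]
  exact mul_le_of_le_one_right (abs_nonneg _) (tanh_abs_le y)

theorem xcoth_abs (x : ℝ) : |xcoth x| ≤ 1 + |x| := by
  unfold xcoth
  refine (abs_add_le _ _).trans ?_
  rw [abs_one]
  have h1 : HasSum (fun j : ℕ => |x| / 2 * (1 / 2 : ℝ) ^ j) (|x| / 2 * 2) :=
    hasSum_geometric_two.mul_left _
  have h2 : ∀ j : ℕ, ‖fh (x / 2 ^ (j + 1))‖ ≤ |x| / 2 * (1 / 2 : ℝ) ^ j := by
    intro j
    rw [Real.norm_eq_abs]
    refine (fh_abs _).trans (le_of_eq ?_)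
    rw [abs_div, abs_of_pos (by positivity : (0 : ℝ) < 2 ^ (j + 1)), pow_succ, one_div, inv_pow]
    field_simp
  have h3 := tsum_of_norm_bounded h1 h2
  rw [Real.norm_eq_abs] at h3
  linarith

theorem xcoth_cont : Continuous xcoth := by
  obtain ⟨K, hK0, hK⟩ := exists_xcoth
  rw [continuous_iff_continuousAt]
  intro x
  have hR : (1 : ℝ) ≤ |x| + 1 := by linarith [abs_nonneg x]
  have h := hK (|x| + 1) hR
  have hL : LipschitzOnWith (K * (|x| + 1) ^ 4).toNNReal xcoth (Metric.closedBall x 1) := by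
    refine LipschitzOnWith.of_dist_le_mul fun u hu v hv => ?_
    rw [Metric.mem_closedBall, Real.dist_eq] at hu hv
    have hu' : |u| ≤ |x| + 1 := by
      have := abs_sub_abs_le_abs_sub u x
      linarith
    have hv' : |v| ≤ |x| + 1 := by
      have := abs_sub_abs_le_abs_sub v x
      linarith
    have h1 := h.lip (u := u) (v := v) (u' := 0) (v' := 0) hu' hv' (by simp; linarith)
      (by simp; linarith)
    rw [Real.coe_toNNReal _ (by positivity), Real.dist_eq, Real.dist_eq]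
    rw [← Complex.ofReal_sub, Complex.norm_real, Real.norm_eq_abs] at h1
    simpa using h1
  exact (hL.continuousOn).continuousAt (Metric.closedBall_mem_nhds x one_pos)

theorem qd_norm_le {D1 : ℝ → ℂ} {lam : ℝ} (h : ∀ x, ‖D1 x‖ ≤ lam) (t t' : ℝ) :
    ‖qd D1 t t'‖ ≤ lam := by
  unfold qd
  have := intervalIntegral.norm_integral_le_of_norm_le_const (a := (0 : ℝ)) (b := 1)
    (f := fun s => D1 (t' + s * (t - t'))) (C := lam) (fun s _ => h _)
  simpa using this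

theorem qd_cont {D1 : ℝ → ℂ} (h : Continuous D1) :
    Continuous fun p : ℝ × ℝ => qd D1 p.1 p.2 := by
  unfold qd
  apply intervalIntegral.continuous_parametric_intervalIntegral_of_continuous'
  exact (by fun_prop : Continuous fun q : (ℝ × ℝ) × ℝ => D1 (q.1.2 + q.2 * (q.1.1 - q.1.2)))

theorem shc_cont : Continuous shc := by
  rw [continuous_iff_continuousAt]
  intro z
  have h1 : ContinuousOn shc (Metric.closedBall z 1) := by
    unfold shc
    have h2 := (summable_aux (fun n => (1 / ((Nat.factorial (2 * n + 1) : ℂ)))) shc_norm (‖z‖ + 1)).1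
    refine continuousOn_tsum (u := fun n => ‖(1 / ((Nat.factorial (2 * n + 1) : ℂ)))‖ *
      ((‖z‖ + 1) ^ 2) ^ n) (fun n => by fun_prop) h2 ?_
    intro n w hw
    rw [norm_mul, norm_pow, norm_pow]
    rw [Metric.mem_closedBall, dist_eq_norm] at hw
    have hw' : ‖w‖ ≤ ‖z‖ + 1 := by
      have := norm_sub_norm_le w z
      linarith
    gcongr
  exact h1.continuousAt (Metric.closedBall_mem_nhds z one_pos)

section glob

variable {lam : ℝ} {D D1 D' : ℝ → ℂ}

theorem exists_glob_c {c : ℝ} (hc : c < 1) : ∃ K : ℝ, 1 ≤ K ∧ ∀ (lam : ℝ) (D D' : ℝ → ℂ),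
    (∀ x, ‖D x‖ ≤ lam) → (∀ x, ‖D' x‖ ≤ lam) → K * lam ≤ 1 →
    (∀ t t', ‖Yc c D D' t t'‖ ≤ 1 / 2) ∧ ∀ t t', |kc c D D' t t'| ≤ K * lam := by
  have hB := one_le_Bc hc
  refine ⟨6480 * Bc c, by linarith, fun lam D D' h h' hsm => ?_⟩
  have hl : 0 ≤ lam := (norm_nonneg _).trans (h 0)
  have hB0 : 0 < Bc c := by linarith
  have hl1 : lam ≤ 1 := by nlinarith
  have key : ∀ t t', ‖Yc c D D' t t'‖ ≤ 1620 * Bc c * lam := by
    intro t t'
    have hz : ‖2 * (D t - D' t')‖ ≤ 4 * lam := by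
      rw [norm_mul, Complex.norm_ofNat]
      have := norm_sub_le (D t) (D' t')
      linarith [h t, h' t']
    have hz0 := norm_nonneg (2 * (D t - D' t'))
    have he : Real.exp ‖2 * (D t - D' t')‖ ≤ 81 :=
      (Real.exp_le_exp.2 (by linarith)).trans exp_four_le
    have e1 := norm_cosh_sub_one_le (2 * (D t - D' t'))
    have e2 := norm_sinh_le (2 * (D t - D' t'))
    have f1 := fC_abs hc (t - t')
    have f2 := fS_abs hc (t - t')
    unfold Yc
    refine (norm_add_le _ _).trans ?_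
    rw [norm_mul, norm_mul, Complex.norm_real, Complex.norm_real, Real.norm_eq_abs,
      Real.norm_eq_abs]
    have g1 : ‖Complex.cosh (2 * (D t - D' t')) - 1‖ ≤ (4 * lam) ^ 2 * 81 :=
      e1.trans (by gcongr)
    have g2 : ‖Complex.sinh (2 * (D t - D' t'))‖ ≤ (4 * lam) * 81 := e2.trans (by gcongr)
    calc ‖Complex.cosh (2 * (D t - D' t')) - 1‖ * |fC c (t - t')| +
        ‖Complex.sinh (2 * (D t - D' t'))‖ * |fS c (t - t')| ≤
        (4 * lam) ^ 2 * 81 * Bc c + (4 * lam) * 81 * Bc c := by gcongr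
      _ ≤ 1620 * Bc c * lam := by
        have : lam ^ 2 ≤ lam := by nlinarith
        nlinarith [mul_nonneg hB0.le hl, mul_le_mul_of_nonneg_left this hB0.le]
  have k2 : ∀ t t', ‖Yc c D D' t t'‖ ≤ 1 / 2 := fun t t' => (key t t').trans (by linarith)
  refine ⟨k2, fun t t' => ?_⟩
  have h1 := (Complex.abs_re_le_norm _).trans (norm_log_le (k2 t t'))
  have h2 := key t t'
  unfold kc
  linarith

theorem glob_0 (hD : ∀ x, HasDerivAt D (D1 x) x) (hc : Continuous D1)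
    (h : ∀ x, ‖D x‖ ≤ lam) (h' : ∀ x, ‖D1 x‖ ≤ lam) (hsm : 100 * lam ≤ 1) :
    (∀ t t', ‖Y0 D D1 t t'‖ ≤ 1 / 2) ∧ ∀ t t', |k0 D D1 t t'| ≤ 100 * lam := by
  have hl : 0 ≤ lam := (norm_nonneg _).trans (h 0)
  have key : ∀ t t', ‖Y0 D D1 t t'‖ ≤ 25 * lam := by
    intro t t'
    have hz : ‖D t - D t'‖ ≤ 2 * lam := by
      have := norm_sub_le (D t) (D t')
      linarith [h t, h t']
    have hz0 := norm_nonneg (D t - D t')
    have he : Real.exp ‖D t - D t'‖ ≤ 3 := (Real.exp_le_exp.2 (by linarith)).trans exp_one_le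
    have e1 := norm_cosh_sub_one_le (D t - D t')
    have e2 := norm_shc_le (D t - D t')
    have e3 : ‖((xcoth (t - t') : ℝ) : ℂ) * qd D1 t t'‖ ≤ 3 * lam := by
      rw [norm_mul, Complex.norm_real, Real.norm_eq_abs]
      have q1 := xcoth_abs (t - t')
      have q2 := qd_norm_le h' t t'
      have q3 := sub_eq_qd hD hc t t'
      have q4 : |t - t'| * ‖qd D1 t t'‖ ≤ 2 * lam := by
        have : ‖D t - D t'‖ = |t - t'| * ‖qd D1 t t'‖ := by
          rw [q3, norm_mul, Complex.norm_real, Real.norm_eq_abs]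
        linarith
      have q5 := norm_nonneg (qd D1 t t')
      calc |xcoth (t - t')| * ‖qd D1 t t'‖ ≤ (1 + |t - t'|) * ‖qd D1 t t'‖ := by gcongr
        _ = ‖qd D1 t t'‖ + |t - t'| * ‖qd D1 t t'‖ := by ring
        _ ≤ _ := by linarith
    unfold Y0
    refine (norm_add_le _ _).trans ?_
    rw [norm_mul]
    have g1 : ‖Complex.cosh (D t - D t') - 1‖ ≤ (2 * lam) ^ 2 * 3 := e1.trans (by gcongr)
    have g2 : ‖((xcoth (t - t') : ℝ) : ℂ) * qd D1 t t'‖ * ‖shc (D t - D t')‖ ≤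
        (3 * lam) * 3 := by
      apply mul_le_mul e3 (e2.trans he) (norm_nonneg _) (by positivity)
    nlinarith
  have k2 : ∀ t t', ‖Y0 D D1 t t'‖ ≤ 1 / 2 := fun t t' => (key t t').trans (by linarith)
  refine ⟨k2, fun t t' => ?_⟩
  have h1 := (Complex.abs_re_le_norm _).trans (norm_log_le (k2 t t'))
  have h2 := key t t'
  unfold k0
  linarith

theorem exists_glob_0 : ∃ K : ℝ, 1 ≤ K ∧ ∀ (lam : ℝ) (D D1 : ℝ → ℂ),
    (∀ x, HasDerivAt D (D1 x) x) → Continuous D1 →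
    (∀ x, ‖D x‖ ≤ lam) → (∀ x, ‖D1 x‖ ≤ lam) → K * lam ≤ 1 →
    (∀ t t', ‖Y0 D D1 t t'‖ ≤ 1 / 2) ∧ ∀ t t', |k0 D D1 t t'| ≤ K * lam :=
  ⟨100, by norm_num, fun _ _ _ hD hc h h' hsm => glob_0 hD hc h h' hsm⟩

theorem kc_cont {c : ℝ} (hc : c < 1) (hD : Continuous D) (hD' : Continuous D')
    (hY : ∀ t t', ‖Yc c D D' t t'‖ ≤ 1 / 2) : Continuous fun p : ℝ × ℝ => kc c D D' p.1 p.2 := by
  have h1 : Continuous fun p : ℝ × ℝ => Yc c D D' p.1 p.2 := by
    unfold Yc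
    have := fC_cont hc
    have := fS_cont hc
    have h2 : Continuous fun p : ℝ × ℝ => Complex.cosh (2 * (D p.1 - D' p.2)) :=
      Complex.continuous_cosh.comp (by fun_prop)
    have h3 : Continuous fun p : ℝ × ℝ => Complex.sinh (2 * (D p.1 - D' p.2)) :=
      Complex.continuous_sinh.comp (by fun_prop)
    fun_prop
  unfold kc
  refine Complex.continuous_re.comp (Continuous.clog (by fun_prop) fun p => ?_)
  left
  have h2 := (abs_le.1 ((Complex.abs_re_le_norm _).trans (hY p.1 p.2))).1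
  rw [Complex.add_re, Complex.one_re]
  linarith

theorem k0_cont (hD : Continuous D) (hD1 : Continuous D1)
    (hY : ∀ t t', ‖Y0 D D1 t t'‖ ≤ 1 / 2) : Continuous fun p : ℝ × ℝ => k0 D D1 p.1 p.2 := by
  have h1 : Continuous fun p : ℝ × ℝ => Y0 D D1 p.1 p.2 := by
    unfold Y0
    have := xcoth_cont
    have h4 := qd_cont hD1
    have h2 : Continuous fun p : ℝ × ℝ => Complex.cosh (D p.1 - D p.2) :=
      Complex.continuous_cosh.comp (by fun_prop)
    have h3 : Continuous fun p : ℝ × ℝ => shc (D p.1 - D p.2) :=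
      shc_cont.comp (by fun_prop)
    fun_prop
  unfold k0
  refine Complex.continuous_re.comp (Continuous.clog (by fun_prop) fun p => ?_)
  left
  have h2 := (abs_le.1 ((Complex.abs_re_le_norm _).trans (hY p.1 p.2))).1
  rw [Complex.add_re, Complex.one_re]
  linarith

/-- **own kernel, whole plane** -/
theorem exists_glob_w : ∃ K : ℝ, 1 ≤ K ∧ ∀ (lam : ℝ) (D D1 : ℝ → ℂ),
    (∀ x, HasDerivAt D (D1 x) x) → Continuous D1 →
    (∀ x, ‖D x‖ ≤ lam) → (∀ x, ‖D1 x‖ ≤ lam) → K * lam ≤ 1 →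
    (∀ R, Sm R D D1) ∧ (∀ t t', |kw D D1 t t'| ≤ K * lam) ∧
    Continuous fun p : ℝ × ℝ => kw D D1 p.1 p.2 := by
  obtain ⟨K0, hK0, H0⟩ := exists_glob_0
  obtain ⟨K1, hK1, H1⟩ := exists_glob_c (c := 0) (by norm_num)
  obtain ⟨K2, hK2, H2⟩ := exists_glob_c (c := NUMF.r) r_lt
  refine ⟨2 * K0 + K1 + K2, by linarith, fun lam D D1 hD hc h h' hsm => ?_⟩
  have hl : 0 ≤ lam := (norm_nonneg _).trans (h 0)
  have m0 : 0 ≤ K0 * lam := by positivity
  have m1 : 0 ≤ K1 * lam := by positivity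
  have m2 : 0 ≤ K2 * lam := by positivity
  have cD : Continuous D := continuous_iff_continuousAt.2 fun x => (hD x).continuousAt
  obtain ⟨y0, b0⟩ := H0 lam D D1 hD hc h h' (by linarith)
  obtain ⟨y1, b1⟩ := H1 lam D D h h (by linarith)
  obtain ⟨y2, b2⟩ := H2 lam D D h h (by linarith)
  refine ⟨fun R => ⟨hD, hc, fun t t' _ _ => y0 t t', fun t t' _ _ => y1 t t',
    fun t t' _ _ => y2 t t'⟩, fun t t' => ?_, ?_⟩
  · have q0 := abs_le.1 (b0 t t')
    have q1 := abs_le.1 (b1 t t')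
    have q2 := abs_le.1 (b2 t t')
    unfold kw
    rw [abs_le]
    constructor <;> linarith
  · have c0 := k0_cont cD hc y0
    have c1 := kc_cont (c := 0) (by norm_num) cD cD y1
    have c2 := kc_cont (c := NUMF.r) r_lt cD cD y2
    unfold kw
    fun_prop

/-- **cross kernel, whole plane** -/
theorem exists_glob_g : ∃ K : ℝ, 1 ≤ K ∧ ∀ (lam : ℝ) (D D' : ℝ → ℂ),
    Continuous D → Continuous D' → (∀ x, ‖D x‖ ≤ lam) → (∀ x, ‖D' x‖ ≤ lam) → K * lam ≤ 1 →
    (∀ R, Sm2 R D D') ∧ (∀ t t', |kg D D' t t'| ≤ K * lam) ∧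
    Continuous fun p : ℝ × ℝ => kg D D' p.1 p.2 := by
  obtain ⟨K1, hK1, H1⟩ := exists_glob_c (c := -1) (by norm_num)
  obtain ⟨K2, hK2, H2⟩ := exists_glob_c (c := -NUMF.r) (by linarith [r_pos])
  refine ⟨K1 + 2 * K2, by linarith, fun lam D D' cD cD' h h' hsm => ?_⟩
  have hl : 0 ≤ lam := (norm_nonneg _).trans (h 0)
  have m1 : 0 ≤ K1 * lam := by positivity
  have m2 : 0 ≤ K2 * lam := by positivity
  obtain ⟨y1, b1⟩ := H1 lam D D' h h' (by linarith)
  obtain ⟨y2, b2⟩ := H2 lam D D' h h' (by linarith)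
  refine ⟨fun R => ⟨fun t t' _ _ => y1 t t', fun t t' _ _ => y2 t t'⟩, fun t t' => ?_, ?_⟩
  · have q1 := abs_le.1 (b1 t t')
    have q2 := abs_le.1 (b2 t t')
    unfold kg
    rw [abs_le]
    constructor <;> linarith
  · have c1 := kc_cont (c := -1) (by norm_num) cD cD' y1
    have c2 := kc_cont (c := -NUMF.r) (by linarith [r_pos]) cD cD' y2
    unfold kg
    fun_prop

end glob

/-! ### the whole line form -/

/-- whole line statistic -/
noncomputable def nuF {ι : Type*} [Fintype ι] (ρ : ℝ → ℝ) (s : ι → ℝ) (f : ℝ → ℝ) : ℝ :=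
  ∑ i, f (s i) - ∫ t, f t * ρ t

/-- whole line bilinear form -/
noncomputable def nuF2 {ι ι' : Type*} [Fintype ι] [Fintype ι'] (ρ ρ' : ℝ → ℝ)
    (s : ι → ℝ) (s' : ι' → ℝ) (κ : ℝ → ℝ → ℝ) : ℝ :=
  nuF ρ s (fun t => nuF ρ' s' (κ t))

theorem nuF_sub_nu {ι : Type*} [Fintype ι] {R : ℝ} (hR : 0 ≤ R) {ρ : ℝ → ℝ} {s : ι → ℝ}
    (hρi : Integrable ρ) (hρ0 : ∀ t, 0 ≤ ρ t) {τ : ℝ}
    (hτ : ∫ t in (Set.Ioc (-R) R)ᶜ, ρ t ≤ τ) {f : ℝ → ℝ} (hf : Continuous f) {C : ℝ}
    (hC : ∀ t, |f t| ≤ C) : |nuF ρ s f - nu R ρ s f| ≤ C * τ := by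
  have hC0 : 0 ≤ C := (abs_nonneg _).trans (hC 0)
  unfold nuF nu
  have hfi : Integrable fun t => f t * ρ t := by
    refine (hρi.const_mul C).mono' (hf.aestronglyMeasurable.mul hρi.aestronglyMeasurable)
      (ae_of_all _ fun t => ?_)
    rw [norm_mul, Real.norm_eq_abs, Real.norm_of_nonneg (hρ0 t)]
    exact mul_le_mul_of_nonneg_right (hC t) (hρ0 t)
  rw [intervalIntegral.integral_of_le (by linarith)]
  have h1 := integral_add_compl (s := Set.Ioc (-R) R) measurableSet_Ioc hfi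
  have h2 : |∫ t in (Set.Ioc (-R) R)ᶜ, f t * ρ t| ≤ C * τ := by
    have h3 : ‖∫ t in (Set.Ioc (-R) R)ᶜ, f t * ρ t‖ ≤ ∫ t in (Set.Ioc (-R) R)ᶜ, C * ρ t := by
      refine norm_integral_le_of_norm_le (hρi.const_mul C).integrableOn (ae_of_all _ fun t => ?_)
      rw [norm_mul, Real.norm_eq_abs, Real.norm_of_nonneg (hρ0 t)]
      exact mul_le_mul_of_nonneg_right (hC t) (hρ0 t)
    rw [integral_const_mul] at h3
    exact h3.trans (by gcongr)
  have h4 : (∑ i, f (s i) - ∫ t, f t * ρ t) -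
      (∑ i, f (s i) - ∫ t in Set.Ioc (-R) R, f t * ρ t) =
      -∫ t in (Set.Ioc (-R) R)ᶜ, f t * ρ t := by
    rw [← h1]; ring
  rw [h4, abs_neg]
  exact h2

/-- **comparison** of the whole line form with the cut form -/
theorem nuF2_sub_nu2 {ι ι' : Type*} [Fintype ι] [Fintype ι'] {R : ℝ} (hR : 0 ≤ R)
    {ρ ρ' : ℝ → ℝ} {s : ι → ℝ} {s' : ι' → ℝ} (hρi : Integrable ρ) (hρ0 : ∀ t, 0 ≤ ρ t)
    (hρc : Continuous ρ) (hρi' : Integrable ρ') (hρ0' : ∀ t, 0 ≤ ρ' t) (hρc' : Continuous ρ')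
    {τ : ℝ} (hτ : ∫ t in (Set.Ioc (-R) R)ᶜ, ρ t ≤ τ) (hτ' : ∫ t in (Set.Ioc (-R) R)ᶜ, ρ' t ≤ τ)
    {κ : ℝ → ℝ → ℝ} (hκ : Continuous fun p : ℝ × ℝ => κ p.1 p.2) {C : ℝ}
    (hC : ∀ t t', |κ t t'| ≤ C) (hs : ∀ i, |s i| ≤ R) :
    |nuF2 ρ ρ' s s' κ - nu2 R ρ ρ' s s' κ| ≤
      C * ((Fintype.card ι' : ℝ) + ∫ t, ρ' t) * τ + C * τ * ((Fintype.card ι : ℝ) + ∫ t, ρ t) := by
  have hC0 : 0 ≤ C := (abs_nonneg _).trans (hC 0 0)
  -- inner function, whole line
  have hin : Continuous fun t => nuF ρ' s' (κ t) := by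
    unfold nuF
    refine Continuous.sub ?_ ?_
    · exact continuous_finsetSum _ fun i _ => hκ.comp (by fun_prop : Continuous fun t => (t, s' i))
    · refine continuous_of_dominated (F := fun t t' => κ t t' * ρ' t') (bound := fun t' => C * ρ' t')
        (fun t => ?_) (fun t => ae_of_all _ fun t' => ?_) (hρi'.const_mul C)
        (ae_of_all _ fun t' => ?_)
      · exact ((hκ.comp (by fun_prop : Continuous fun t' => (t, t'))).mul hρc').aestronglyMeasurable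
      · rw [norm_mul, Real.norm_eq_abs, Real.norm_of_nonneg (hρ0' t')]
        exact mul_le_mul_of_nonneg_right (hC t t') (hρ0' t')
      · exact (hκ.comp (by fun_prop : Continuous fun t => (t, t'))).mul continuous_const
  have hinb : ∀ t, |nuF ρ' s' (κ t)| ≤ C * ((Fintype.card ι' : ℝ) + ∫ t, ρ' t) := by
    intro t
    unfold nuF
    have h1 : |∑ i, κ t (s' i)| ≤ (Fintype.card ι' : ℝ) * C := by
      refine (abs_sum_le_sum_abs _ _).trans ?_
      calc ∑ i, |κ t (s' i)| ≤ ∑ _i : ι', C := sum_le_sum fun i _ => hC _ _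
        _ = _ := by simp
    have h2 : |∫ t', κ t t' * ρ' t'| ≤ C * ∫ t', ρ' t' := by
      have h3 : ‖∫ t', κ t t' * ρ' t'‖ ≤ ∫ t', C * ρ' t' := by
        refine norm_integral_le_of_norm_le (hρi'.const_mul C) (ae_of_all _ fun t' => ?_)
        rw [norm_mul, Real.norm_eq_abs, Real.norm_of_nonneg (hρ0' t')]
        exact mul_le_mul_of_nonneg_right (hC t t') (hρ0' t')
      rwa [integral_const_mul] at h3
    refine (abs_sub _ _).trans ?_
    linarith
  have h1 := nuF_sub_nu hR (s := s) hρi hρ0 hτ hin hinb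
  -- inner difference
  have h2 : ∀ t, |nuF ρ' s' (κ t) - nu R ρ' s' (κ t)| ≤ C * τ := fun t =>
    nuF_sub_nu hR (s := s') hρi' hρ0' hτ' (hκ.comp (by fun_prop : Continuous fun t' => (t, t')))
      (hC t)
  have h3 : |nu R ρ s (fun t => nuF ρ' s' (κ t)) - nu R ρ s (fun t => nu R ρ' s' (κ t))| ≤
      tv ι R ρ * (C * τ) := by
    rw [← nu_sub hρc hin (nu_cont hρc' hκ)]
    exact abs_nu_le hR hρc hs fun t _ => h2 t
  have h4 : tv ι R ρ ≤ (Fintype.card ι : ℝ) + ∫ t, ρ t := by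
    unfold tv
    gcongr
    rw [intervalIntegral.integral_of_le (by linarith)]
    have e : ∀ t, |ρ t| = ρ t := fun t => abs_of_nonneg (hρ0 t)
    simp only [e]
    exact setIntegral_le_integral hρi (ae_of_all _ hρ0)
  have hτ0 : 0 ≤ τ := le_trans (integral_nonneg fun t => hρ0 t) hτ
  unfold nuF2 nu2
  have e5 : nuF ρ s (fun t => nuF ρ' s' (κ t)) - nu R ρ s (fun t => nu R ρ' s' (κ t)) =
      (nuF ρ s (fun t => nuF ρ' s' (κ t)) - nu R ρ s (fun t => nuF ρ' s' (κ t))) +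
      (nu R ρ s (fun t => nuF ρ' s' (κ t)) - nu R ρ s (fun t => nu R ρ' s' (κ t))) := by ring
  rw [e5]
  refine (abs_add_le _ _).trans (add_le_add h1 (h3.trans ?_))
  calc tv ι R ρ * (C * τ) ≤ ((Fintype.card ι : ℝ) + ∫ t, ρ t) * (C * τ) := by gcongr
    _ = _ := by ring

end NUKer
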