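import Pool.Agent.NUKer.Dec
import Pool.Agent.NUAct.FE

/-!
Complex kernels: the pair potentials `Us`, `Ux` of `NUAct` along displaced paths are the real
kernels minus the complex logarithms `Lw`, `Lg`, of class `KC`, with `Re Lw = kw`, `Re Lg = kg`.
-/

open Complex Finset Filter MeasureTheory
open scoped Topology

namespace NUKer

/-- complex kernel of `cosh 2z - c` -/
noncomputable def Lc (c : ℝ) (D D' : ℝ → ℂ) (t t' : ℝ) : ℂ := Complex.log (1 + Yc c D D' t t')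

/-- complex kernel of `sinh z` -/
noncomputable def L0 (D D1 : ℝ → ℂ) (t t' : ℝ) : ℂ := Complex.log (1 + Y0 D D1 t t')

/-- complex own kernel -/
noncomputable def Lw (D D1 : ℝ → ℂ) (t t' : ℝ) : ℂ :=
  2 * L0 D D1 t t' + Lc 0 D D t t' - Lc NUMF.r D D t t'

/-- complex cross kernel -/
noncomputable def Lg (D D' : ℝ → ℂ) (t t' : ℝ) : ℂ :=
  Lc (-1) D D' t t' - 2 * Lc (-NUMF.r) D D' t t'

theorem Lw_re (D D1 : ℝ → ℂ) (t t' : ℝ) : (Lw D D1 t t').re = kw D D1 t t' := by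
  unfold Lw kw L0 Lc k0 kc
  simp

theorem Lg_re (D D' : ℝ → ℂ) (t t' : ℝ) : (Lg D D' t t').re = kg D D' t t' := by
  unfold Lg kg Lc kc
  simp

variable {R lam : ℝ}

theorem exists_Lc {c : ℝ} (hc : c < 1) : ∃ K : ℝ, 1 ≤ K ∧ ∀ R : ℝ, 1 ≤ R → ∀ lam : ℝ,
    ∀ D D' : ℝ → ℂ, KC1 R lam D → KC1 R lam D' → K * R ^ 3 * lam ≤ 1 →
    KC R (K * R ^ 3 * lam) (fun t t' => Lc c D D' t t') ∧
    ∀ t t', |t| ≤ R → |t'| ≤ R → ‖Yc c D D' t t'‖ ≤ 1 / 2 := by
  obtain ⟨K, hK0, hK⟩ := exists_CS hc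
  refine ⟨104000 * (K + 1), by nlinarith, fun R hR lam D D' hD hD' hsm => ?_⟩
  have hl := hD.nonneg
  have hR3 : 1 ≤ R ^ 3 := one_le_pow₀ hR
  have hl1 : lam ≤ 1 := by
    have h1 : lam ≤ 104000 * (K + 1) * R ^ 3 * lam :=
      le_mul_of_one_le_left hl (by nlinarith)
    linarith
  obtain ⟨hC, hS⟩ := hK (2 * R) (by linarith)
  have hC2 := hC.diff
  have hS2 := hS.diff
  have hz : KC R (4 * lam) (fun t t' => 2 * (D t - D' t')) := by
    have h1 := (hD.left.sub hD'.right).smul 2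
    refine h1.mono (le_of_eq ?_)
    rw [show ‖(2 : ℂ)‖ = 2 by simp]
    ring
  have h2 := (hz.cosh_sub_one.mul hC2).add (hz.sinh.mul hS2)
  have he : Real.exp (4 * lam) ≤ 81 := (Real.exp_le_exp.2 (by linarith)).trans exp_four_le
  obtain ⟨M, hM⟩ : ∃ M : ℝ, M = (4 * lam) ^ 2 * Real.exp (4 * lam) * (2 * (K * (2 * R) ^ 3)) +
      4 * lam * Real.exp (4 * lam) * (2 * (K * (2 * R) ^ 3)) := ⟨_, rfl⟩
  have hMb : M ≤ 25920 * (K * R ^ 3 * lam) := by
    have h3 : (4 * lam) ^ 2 ≤ 16 * lam := by nlinarith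
    have hE := Real.exp_pos (4 * lam)
    calc M = ((4 * lam) ^ 2 + 4 * lam) * Real.exp (4 * lam) * (16 * (K * R ^ 3)) := by
          rw [hM]; ring
      _ ≤ (20 * lam) * 81 * (16 * (K * R ^ 3)) := by
          have h4 : (4 * lam) ^ 2 + 4 * lam ≤ 20 * lam := by linarith
          have h5 : ((4 * lam) ^ 2 + 4 * lam) * Real.exp (4 * lam) ≤ (20 * lam) * 81 := by
            apply mul_le_mul h4 he hE.le (by positivity)
          gcongr
      _ ≤ _ := by nlinarith [mul_nonneg (mul_nonneg hK0.le (by positivity : (0 : ℝ) ≤ R ^ 3)) hl]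
  have hM4 : M ≤ 1 / 4 := by
    have h6 : K * R ^ 3 * lam ≤ 1 / 104000 := by
      rw [le_div_iff₀ (by norm_num)]
      have : K * R ^ 3 * lam * 104000 ≤ 104000 * (K + 1) * R ^ 3 * lam := by
        nlinarith [mul_nonneg (by positivity : (0 : ℝ) ≤ R ^ 3) hl]
      linarith
    linarith
  have h2' : KC R M (Yc c D D') := (h2.mono (le_of_eq hM.symm)).congr fun t t' _ _ => rfl
  refine ⟨?_, fun t t' ht ht' => (h2'.bound ht ht').trans (by linarith)⟩
  have h7 := h2'.log (by linarith)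
  refine h7.mono ?_
  have : 0 ≤ R ^ 3 * lam := by positivity
  nlinarith

theorem exists_L0 : ∃ K : ℝ, 1 ≤ K ∧ ∀ R : ℝ, 1 ≤ R → ∀ lam : ℝ,
    ∀ D D1 : ℝ → ℂ, KC1 R lam D → KC1 R lam D1 → K * R ^ 4 * lam ≤ 1 →
    KC R (K * R ^ 4 * lam) (fun t t' => L0 D D1 t t') ∧
    ∀ t t', |t| ≤ R → |t'| ≤ R → ‖Y0 D D1 t t'‖ ≤ 1 / 2 := by
  obtain ⟨K, hK0, hK⟩ := exists_xcoth
  refine ⟨1000 * (K + 1), by nlinarith, fun R hR lam D D1 hD hD1 hsm => ?_⟩
  have hl := hD.nonneg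
  have hR4 : 1 ≤ R ^ 4 := one_le_pow₀ hR
  have hl1 : lam ≤ 1 / 1000 := by
    have h1 : 1000 * lam ≤ 1000 * (K + 1) * R ^ 4 * lam := by
      have h2 : 1 ≤ (K + 1) * R ^ 4 := by nlinarith
      nlinarith
    linarith
  have hz : KC R (2 * lam) (fun t t' => D t - D t') := by
    have h1 := (hD.left.sub hD.right)
    exact h1.mono (le_of_eq (by ring))
  have hq := hD1.qd (by linarith : 0 ≤ R)
  have h2 := hz.cosh_sub_one.add (((hK R hR).mul hq).mul hz.shc)
  have he : Real.exp (2 * lam) ≤ 3 := (Real.exp_le_exp.2 (by linarith)).trans exp_one_le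
  obtain ⟨M, hM⟩ : ∃ M : ℝ, M = (2 * lam) ^ 2 * Real.exp (2 * lam) +
      K * R ^ 4 * lam * Real.exp (2 * lam) := ⟨_, rfl⟩
  have hMb : M ≤ 3 * (K + 1) * R ^ 4 * lam := by
    have h3 : (2 * lam) ^ 2 ≤ lam := by nlinarith
    have hE := Real.exp_pos (2 * lam)
    have h8 : 0 ≤ K * R ^ 4 * lam := by positivity
    calc M = ((2 * lam) ^ 2 + K * R ^ 4 * lam) * Real.exp (2 * lam) := by
          rw [hM]; ring
      _ ≤ (lam + K * R ^ 4 * lam) * 3 := by
          apply mul_le_mul (by linarith) he hE.le (by positivity)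
      _ ≤ _ := by nlinarith
  have hM4 : M ≤ 1 / 4 := by nlinarith
  have h2' : KC R M (Y0 D D1) := (h2.mono (le_of_eq hM.symm)).congr fun t t' _ _ => rfl
  refine ⟨?_, fun t t' ht ht' => (h2'.bound ht ht').trans (by linarith)⟩
  have h7 := h2'.log (by linarith)
  refine h7.mono ?_
  have : 0 ≤ (K + 1) * R ^ 4 * lam := by positivity
  nlinarith

variable {R : ℝ} {D D1 D' D1' : ℝ → ℂ}

/-- **own kernel**: smallness and class -/
theorem exists_Lw : ∃ K : ℝ, 1 ≤ K ∧ ∀ R : ℝ, 1 ≤ R → ∀ (lam : ℝ) (D D1 : ℝ → ℂ),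
    Disp R lam D D1 → K * R ^ 7 * lam ≤ 1 →
    Sm R D D1 ∧ KC R (K * R ^ 7 * lam) (fun t t' => Lw D D1 t t') := by
  obtain ⟨K1, hK1, H1⟩ := exists_disp
  obtain ⟨K2, hK2, H2⟩ := exists_L0
  obtain ⟨K3, hK3, H3⟩ := exists_Lc (c := 0) (by norm_num)
  obtain ⟨K4, hK4, H4⟩ := exists_Lc (c := NUMF.r) r_lt
  have hp2 : 0 < K1 := by linarith
  refine ⟨4 * K1 * (K2 + K3 + K4), by nlinarith, fun R hR lam D D1 h hsm => ?_⟩
  obtain ⟨hl, hD, hD1⟩ := H1 R hR lam D D1 h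
  have hR7 : R ^ 4 * R ^ 3 = R ^ 7 := by ring
  have hR6 : R ^ 3 * R ^ 3 ≤ R ^ 7 := by
    rw [← pow_add]
    exact pow_le_pow_right₀ hR (by norm_num)
  have hX : 0 ≤ K1 * (R ^ 7 * lam) := by positivity
  have e2 : K2 * R ^ 4 * (K1 * R ^ 3 * lam) = K2 * (K1 * (R ^ 7 * lam)) := by ring
  have e3 : ∀ K : ℝ, 0 ≤ K → K * R ^ 3 * (K1 * R ^ 3 * lam) ≤ K * (K1 * (R ^ 7 * lam)) := by
    intro K hK
    calc K * R ^ 3 * (K1 * R ^ 3 * lam) = K * (K1 * ((R ^ 3 * R ^ 3) * lam)) := by ring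
      _ ≤ _ := by gcongr
  have hsm' : 4 * (K2 + K3 + K4) * (K1 * (R ^ 7 * lam)) ≤ 1 := by
    refine le_trans (le_of_eq ?_) hsm
    ring
  have b2 : K2 * (K1 * (R ^ 7 * lam)) ≤ 1 := by nlinarith
  have b3 : K3 * (K1 * (R ^ 7 * lam)) ≤ 1 := by nlinarith
  have b4 : K4 * (K1 * (R ^ 7 * lam)) ≤ 1 := by nlinarith
  obtain ⟨k1, s1⟩ := H2 R hR _ D D1 hD hD1 (by rw [e2]; exact b2)
  obtain ⟨k2, s2⟩ := H3 R hR _ D D hD hD ((e3 K3 (by linarith)).trans b3)
  obtain ⟨k3, s3⟩ := H4 R hR _ D D hD hD ((e3 K4 (by linarith)).trans b4)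
  refine ⟨⟨h.deriv, h.cont1, s1, s2, s3⟩, ?_⟩
  have hk := ((k1.smul 2).add k2).sub k3
  refine (hk.mono ?_).congr fun t t' _ _ => ?_
  · have q3 := e3 K3 (by linarith)
    have q4 := e3 K4 (by linarith)
    rw [e2, show ‖(2 : ℂ)‖ = 2 by simp]
    calc 2 * (K2 * (K1 * (R ^ 7 * lam))) + K3 * R ^ 3 * (K1 * R ^ 3 * lam) +
        K4 * R ^ 3 * (K1 * R ^ 3 * lam) ≤ 2 * (K2 * (K1 * (R ^ 7 * lam))) +
        K3 * (K1 * (R ^ 7 * lam)) + K4 * (K1 * (R ^ 7 * lam)) := by gcongr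
      _ ≤ _ := by nlinarith
  · unfold Lw
    ring

/-- **cross kernel**: smallness and class -/
theorem exists_Lg : ∃ K : ℝ, 1 ≤ K ∧ ∀ R : ℝ, 1 ≤ R → ∀ (lam : ℝ) (D D1 D' D1' : ℝ → ℂ),
    Disp R lam D D1 → Disp R lam D' D1' → K * R ^ 6 * lam ≤ 1 →
    Sm2 R D D' ∧ KC R (K * R ^ 6 * lam) (fun t t' => Lg D D' t t') := by
  obtain ⟨K1, hK1, H1⟩ := exists_disp
  obtain ⟨K3, hK3, H3⟩ := exists_Lc (c := -1) (by norm_num)
  obtain ⟨K4, hK4, H4⟩ := exists_Lc (c := -NUMF.r) (by linarith [r_pos])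
  have hp2 : 0 < K1 := by linarith
  refine ⟨4 * K1 * (K3 + K4), by nlinarith, fun R hR lam D D1 D' D1' h h' hsm => ?_⟩
  obtain ⟨hl, hD, -⟩ := H1 R hR lam D D1 h
  obtain ⟨-, hD', -⟩ := H1 R hR lam D' D1' h'
  have hX : 0 ≤ K1 * (R ^ 6 * lam) := by positivity
  have e3 : ∀ K : ℝ, K * R ^ 3 * (K1 * R ^ 3 * lam) = K * (K1 * (R ^ 6 * lam)) := by
    intro K
    ring
  have hsm' : 4 * (K3 + K4) * (K1 * (R ^ 6 * lam)) ≤ 1 := by
    refine le_trans (le_of_eq ?_) hsm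
    ring
  have b3 : K3 * (K1 * (R ^ 6 * lam)) ≤ 1 := by nlinarith
  have b4 : K4 * (K1 * (R ^ 6 * lam)) ≤ 1 := by nlinarith
  obtain ⟨k2, s2⟩ := H3 R hR _ D D' hD hD' ((e3 K3).le.trans b3)
  obtain ⟨k3, s3⟩ := H4 R hR _ D D' hD hD' ((e3 K4).le.trans b4)
  refine ⟨⟨s2, s3⟩, ?_⟩
  have hk := k2.sub (k3.smul 2)
  refine (hk.mono ?_).congr fun t t' _ _ => ?_
  · rw [e3, e3, show ‖(2 : ℂ)‖ = 2 by simp]
    nlinarith
  · unfold Lg
    ring


/-! ### branches -/

theorem log_unique {A B : ℂ} (h : cexp A = cexp B) (hA : |A.im| < Real.pi)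
    (hB : |B.im| < Real.pi) : A = B := by
  obtain ⟨n, hn⟩ := Complex.exp_eq_exp_iff_exists_int.1 h
  have h1 : A.im = B.im + n * (2 * Real.pi) := by
    rw [hn]
    simp
  have h2 := abs_lt.1 hA
  have h3 := abs_lt.1 hB
  have hpi := Real.pi_pos
  have h4 : n = 0 := by
    by_contra hne
    rcases lt_or_gt_of_ne hne with h5 | h5
    · have h6 : (n : ℝ) ≤ -1 := by exact_mod_cast (by omega : n ≤ -1)
      nlinarith
    · have h6 : (1 : ℝ) ≤ n := by exact_mod_cast (by omega : 1 ≤ n)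
      nlinarith
  rw [hn, h4]
  simp

theorem re_one_add {Y : ℂ} (h : ‖Y‖ ≤ 1 / 2) : 0 < (1 + Y).re := by
  have h1 := (abs_le.1 ((Complex.abs_re_le_norm Y).trans h)).1
  rw [Complex.add_re, Complex.one_re]
  linarith

theorem abs_arg_lt {z : ℂ} (h : 0 < z.re) : |z.arg| < Real.pi / 2 :=
  Complex.abs_arg_lt_pi_div_two_iff.2 (Or.inl h)

open NUAct in
/-- **`log (cosh 2z + cos 2y)` along displaced paths** -/
theorem Ly_eq {y c : ℝ} (hc : c < 1) (hy : Real.cos (2 * y) = -c) {D D' : ℝ → ℂ} {t t' : ℝ}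
    (him : |(((t : ℂ) + D t) - (t' + D' t')).im| + |y| < Real.pi / 2)
    (hY : ‖Yc c D D' t t'‖ ≤ 1 / 2) :
    Ly y (((t : ℂ) + D t) - (t' + D' t')) =
      (Real.log (Real.cosh (2 * (t - t')) - c) : ℂ) + Lc c D D' t t' := by
  obtain ⟨z, hz⟩ : ∃ z : ℂ, z = ((t : ℂ) + D t) - (t' + D' t') := ⟨_, rfl⟩
  rw [← hz] at him ⊢
  have hden : 0 < Real.cosh (2 * (t - t')) - c := by
    have := den_ge (c := c) (t - t')
    linarith
  have r1 : 0 < (Complex.cosh (z + y * I)).re := by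
    rw [NUMF.re_cosh]
    have h1 := abs_lt.1 (im_add_lt him)
    have := Real.cos_pos_of_mem_Ioo ⟨h1.1, h1.2⟩
    positivity
  have r2 : 0 < (Complex.cosh (z - y * I)).re := by
    rw [NUMF.re_cosh]
    have h1 := abs_lt.1 (im_sub_lt him)
    have := Real.cos_pos_of_mem_Ioo ⟨h1.1, h1.2⟩
    positivity
  have n1 : Complex.cosh (z + y * I) ≠ 0 := by
    intro h
    rw [h] at r1
    simp at r1
  have n2 : Complex.cosh (z - y * I) ≠ 0 := by
    intro h
    rw [h] at r2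
    simp at r2
  have e1 : Complex.cosh (z + y * I) * Complex.cosh (z - y * I) =
      (Complex.cosh (2 * z) - c) / 2 := by
    have h1 : Complex.cosh (2 * z) = Complex.cosh ((z + y * I) + (z - y * I)) := by
      congr 1
      ring
    have h2 : ((Real.cos (2 * y) : ℝ) : ℂ) = Complex.cosh ((z + y * I) - (z - y * I)) := by
      have : (z + y * I) - (z - y * I) = ((2 * y : ℝ) : ℂ) * I := by
        push_cast
        ring
      rw [this, Complex.cosh_mul_I, Complex.ofReal_cos]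
    rw [hy] at h2
    rw [Complex.cosh_add] at h1
    rw [Complex.cosh_sub] at h2
    push_cast at h2
    linear_combination (-1 / 2) * h1 + (-1 / 2) * h2
  have e2 := den_mul hc D D' t t'
  rw [← hz] at e2
  have hY0 := one_add_ne hY
  have key : Complex.log (Complex.cosh (z + y * I)) + Complex.log (Complex.cosh (z - y * I)) =
      (Real.log ((Real.cosh (2 * (t - t')) - c) / 2) : ℂ) + Lc c D D' t t' := by
    apply log_unique
    · rw [Complex.exp_add, Complex.exp_log n1, Complex.exp_log n2, e1, Complex.exp_add,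
        ← Complex.ofReal_exp, Real.exp_log (by positivity)]
      unfold Lc
      rw [Complex.exp_log hY0, e2]
      push_cast
      ring
    · rw [Complex.add_im, Complex.log_im, Complex.log_im]
      have h1 := abs_arg_lt r1
      have h2 := abs_arg_lt r2
      have := abs_add_le (Complex.cosh (z + y * I)).arg (Complex.cosh (z - y * I)).arg
      linarith
    · unfold Lc
      rw [Complex.add_im, Complex.ofReal_im, zero_add, Complex.log_im]
      have := abs_arg_lt (re_one_add hY)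
      linarith [Real.pi_pos]
  unfold Ly
  rw [key, Real.log_div hden.ne' two_ne_zero]
  push_cast
  ring

theorem cos_l : Real.cos (2 * NUMF.l) = NUMF.r := by
  unfold NUMF.l NUMF.r
  rw [show 2 * (Real.pi / 8) = Real.pi / 4 by ring, Real.cos_pi_div_four]

theorem cos_2l : Real.cos (2 * (2 * NUMF.l)) = 0 := by
  unfold NUMF.l
  rw [show 2 * (2 * (Real.pi / 8)) = Real.pi / 2 by ring, Real.cos_pi_div_two]

theorem cos_3l : Real.cos (2 * (3 * NUMF.l)) = -NUMF.r := by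
  unfold NUMF.l NUMF.r
  rw [show 2 * (3 * (Real.pi / 8)) = Real.pi - Real.pi / 4 by ring, Real.cos_pi_sub,
    Real.cos_pi_div_four]

theorem Yc_symm {c : ℝ} (hc : c < 1) (D D' : ℝ → ℂ) (t t' : ℝ) :
    Yc c D D' t t' = Yc c D' D t' t := by
  have h1 := den_mul hc D D' t t'
  have h2 := den_mul hc D' D t' t
  have h0 : (Real.cosh (2 * (t - t')) - c : ℝ) ≠ 0 := by
    have := den_ge (c := c) (t - t')
    linarith
  have h0' : (((Real.cosh (2 * (t - t')) - c : ℝ)) : ℂ) ≠ 0 := by exact_mod_cast h0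
  have h3 : Complex.cosh (2 * ((t + D t) - (t' + D' t'))) =
      Complex.cosh (2 * ((t' + D' t') - (t + D t))) := by
    rw [← Complex.cosh_neg]
    congr 1
    ring
  have h4 : Real.cosh (2 * (t' - t)) = Real.cosh (2 * (t - t')) := by
    rw [← Real.cosh_neg]
    congr 1
    ring
  rw [h3, h2, h4] at h1
  have h5 := mul_left_cancel₀ h0' h1
  exact (add_left_cancel h5).symm

theorem Y0_symm {D D1 : ℝ → ℂ} (hD : ∀ x, HasDerivAt D (D1 x) x) (hc : Continuous D1)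
    (t t' : ℝ) : Y0 D D1 t t' = Y0 D D1 t' t := by
  rcases eq_or_ne t t' with rfl | hne
  · rfl
  have h1 := sinh_mul hD hc t t'
  have h2 := sinh_mul hD hc t' t
  have h3 : Complex.sinh ((t + D t) - (t' + D t')) = -Complex.sinh ((t' + D t') - (t + D t)) := by
    rw [← Complex.sinh_neg]
    congr 1
    ring
  have h4 : Real.sinh (t' - t) = -Real.sinh (t - t') := by
    rw [← Real.sinh_neg]
    congr 1
    ring
  have h0 : Real.sinh (t - t') ≠ 0 := by
    rw [Ne, Real.sinh_eq_zero]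
    exact sub_ne_zero.2 hne
  have h0' : ((Real.sinh (t - t') : ℝ) : ℂ) ≠ 0 := by exact_mod_cast h0
  rw [h3, h2, h4, Complex.ofReal_neg, neg_mul, neg_neg] at h1
  exact (add_left_cancel (mul_left_cancel₀ h0' h1)).symm

theorem Lw_symm {D D1 : ℝ → ℂ} (hD : ∀ x, HasDerivAt D (D1 x) x) (hc : Continuous D1)
    (t t' : ℝ) : Lw D D1 t t' = Lw D D1 t' t := by
  unfold Lw L0 Lc
  rw [Y0_symm hD hc, Yc_symm (c := 0) (by norm_num), Yc_symm r_lt]

theorem Lg_symm (D D' : ℝ → ℂ) (t t' : ℝ) : Lg D D' t t' = Lg D' D t' t := by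
  unfold Lg Lc
  rw [Yc_symm (c := -1) (by norm_num), Yc_symm (c := -NUMF.r) (by linarith [r_pos])]

section

open NUAct

theorem Us_lt {D D1 : ℝ → ℂ} (h : Sm R D D1) {t t' : ℝ} (ht : |t| ≤ R) (ht' : |t'| ≤ R)
    (hlt : t' < t) (him : |(((t : ℂ) + D t) - (t' + D t')).im| < NUMF.l) :
    Us (((t : ℂ) + D t) - (t' + D t')) = ks (t - t') - Lw D D1 t t' := by
  have hu : 0 < t - t' := by linarith
  have e3 := Ly_eq (y := 3 * NUMF.l) (c := NUMF.r) r_lt cos_3l (D := D) (D' := D) (a3 him)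
    (h.yr t t' ht ht')
  have e2 := Ly_eq (y := 2 * NUMF.l) (c := 0) (by norm_num) (by rw [cos_2l]; simp) (D := D)
    (D' := D) (a2 him) (h.yz t t' ht ht')
  have e0 := sinh_mul h.hD h.hc t t'
  have hs : 0 < Real.sinh (t - t') := Real.sinh_pos_iff.2 hu
  have hY0 := one_add_ne (h.y0 t t' ht ht')
  have hl : Complex.log (Complex.sinh (((t : ℂ) + D t) - (t' + D t'))) =
      (Real.log (Real.sinh (t - t')) : ℂ) + L0 D D1 t t' := by
    rw [e0, Complex.log_ofReal_mul hs hY0]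
    rfl
  have hc0 : 0 < Real.cosh (2 * (t - t')) := Real.cosh_pos _
  have hcr : 0 < Real.cosh (2 * (t - t')) - NUMF.r := by
    have := den_ge (c := NUMF.r) (t - t')
    linarith [r_lt]
  have hw : Real.log (NUMF.w (t - t')) = 2 * Real.log (Real.sinh (t - t')) +
      Real.log (Real.cosh (2 * (t - t'))) - Real.log (Real.cosh (2 * (t - t')) - NUMF.r) := by
    unfold NUMF.w
    rw [Real.log_div (by positivity) hcr.ne', Real.log_mul (by positivity) hc0.ne', Real.log_pow]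
    push_cast
    ring
  unfold Us ks Lw
  rw [e3, e2, hl, hw, sub_zero]
  push_cast
  ring

/-- **own pair potential along a displaced path** -/
theorem Up_eq {D D1 : ℝ → ℂ} (h : Sm R D D1) {t t' : ℝ} (ht : |t| ≤ R) (ht' : |t'| ≤ R)
    (hne : t ≠ t') (him : |(((t : ℂ) + D t) - (t' + D t')).im| < NUMF.l) :
    Up Us (fun x => (x : ℂ) + D x) t t' = ks (t - t') - Lw D D1 t t' := by
  rcases lt_or_gt_of_ne hne with hlt | hlt
  · unfold Up
    rw [if_neg (not_lt.2 hlt.le)]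
    have him' : |(((t' : ℂ) + D t') - (t + D t)).im| < NUMF.l := by
      rw [← abs_neg, ← Complex.neg_im, neg_sub]
      exact him
    rw [Us_lt h ht' ht hlt him', Lw_symm h.hD h.hc]
    congr 1
    unfold ks
    rw [← NUAct.w_neg, neg_sub]
  · unfold Up
    rw [if_pos hlt]
    exact Us_lt h ht ht' hlt him

/-- **cross pair potential along displaced paths** -/
theorem Ux_path {D D' : ℝ → ℂ} (h : Sm2 R D D') {t t' : ℝ} (ht : |t| ≤ R) (ht' : |t'| ≤ R)
    (him : |(((t : ℂ) + D t) - (t' + D' t')).im| < NUMF.l) :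
    Ux (((t : ℂ) + D t) - (t' + D' t')) = kx (t - t') - Lg D D' t t' := by
  have e1 := Ly_eq (y := NUMF.l) (c := -NUMF.r) (by linarith [r_pos]) (by rw [cos_l]; ring)
    (D := D) (D' := D') (a1 him) (h.y2 t t' ht ht')
  have e0 := Ly_eq (y := 0) (c := -1) (by norm_num) (by simp) (D := D) (D' := D') (a0 him)
    (h.y1 t t' ht ht')
  have hcr : 0 < Real.cosh (2 * (t - t')) + NUMF.r := by
    have := Real.one_le_cosh (2 * (t - t'))
    linarith [r_pos]
  have hc1 : 0 < Real.cosh (2 * (t - t')) + 1 := by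
    have := Real.one_le_cosh (2 * (t - t'))
    linarith
  have hg : Real.log (NUMF.g (t - t')) = Real.log 2 + Real.log (Real.cosh (2 * (t - t')) + 1) -
      2 * Real.log (Real.cosh (2 * (t - t')) + NUMF.r) := by
    have e4 : 4 * Real.cosh (t - t') ^ 2 = 2 * (Real.cosh (2 * (t - t')) + 1) := by
      have := Real.cosh_two_mul (t - t')
      have h2 := Real.cosh_sq (t - t')
      rw [this, h2]
      ring
    unfold NUMF.g
    rw [e4, Real.log_div (by positivity) (by positivity), Real.log_mul (by norm_num) hc1.ne',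
      Real.log_pow]
    push_cast
    ring
  unfold Ux kx Lg
  rw [e1, e0, hg, sub_neg_eq_add, sub_neg_eq_add]
  push_cast
  ring

end

end NUKer
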