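import Mathlib

/-!
The class of kernels which are absolutely convergent superpositions of exponentials
`exp (i (a t + b t'))`, quantified by the weight `1 + |a| + |b|`, on a square `[-R, R]^2`.
-/

open Complex Finset Filter
open scoped Topology

namespace NUKer

/-- `κ` is, on `[-R,R]^2`, a uniform limit of finite exponential sums of norm `≤ Λ`. -/
def KC (R Λ : ℝ) (κ : ℝ → ℝ → ℂ) : Prop :=
  ∀ ε : ℝ, 0 < ε → ∃ (ι : Type) (_ : Fintype ι) (c : ι → ℂ) (a b : ι → ℝ),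
    ∑ i, ‖c i‖ * (1 + |a i| + |b i|) ≤ Λ ∧
    ∀ t t' : ℝ, |t| ≤ R → |t'| ≤ R →
      ‖κ t t' - ∑ i, c i * cexp (((a i * t + b i * t' : ℝ) : ℂ) * I)‖ ≤ ε

variable {R Λ Λ' : ℝ} {κ κ' : ℝ → ℝ → ℂ}

theorem KC.mono (h : KC R Λ κ) (hL : Λ ≤ Λ') : KC R Λ' κ := by
  intro ε hε
  obtain ⟨ι, hι, c, a, b, h1, h2⟩ := h ε hε
  exact ⟨ι, hι, c, a, b, h1.trans hL, h2⟩

theorem KC.congr (h : KC R Λ κ) (hk : ∀ t t', |t| ≤ R → |t'| ≤ R → κ t t' = κ' t t') :
    KC R Λ κ' := by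
  intro ε hε
  obtain ⟨ι, hι, c, a, b, h1, h2⟩ := h ε hε
  refine ⟨ι, hι, c, a, b, h1, fun t t' ht ht' => ?_⟩
  rw [← hk t t' ht ht']
  exact h2 t t' ht ht'

theorem norm_e (x : ℝ) : ‖cexp ((x : ℂ) * I)‖ = 1 := norm_exp_ofReal_mul_I x

theorem norm_es_le {ι : Type} [Fintype ι] (c : ι → ℂ) (a b : ι → ℝ) (t t' : ℝ) :
    ‖∑ i, c i * cexp (((a i * t + b i * t' : ℝ) : ℂ) * I)‖ ≤ ∑ i, ‖c i‖ * (1 + |a i| + |b i|) := by
  refine (norm_sum_le _ _).trans (sum_le_sum fun i _ => ?_)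
  rw [norm_mul, norm_e, mul_one]
  have h1 := abs_nonneg (a i)
  have h2 := abs_nonneg (b i)
  exact le_mul_of_one_le_right (norm_nonneg _) (by linarith)

theorem KC.nonneg (h : KC R Λ κ) : 0 ≤ Λ := by
  obtain ⟨ι, hι, c, a, b, h1, h2⟩ := h 1 one_pos
  exact le_trans (sum_nonneg fun i _ => by positivity) h1

theorem KC.bound (h : KC R Λ κ) {t t' : ℝ} (ht : |t| ≤ R) (ht' : |t'| ≤ R) : ‖κ t t'‖ ≤ Λ := by
  refine le_of_forall_pos_le_add fun ε hε => ?_
  obtain ⟨ι, hι, c, a, b, h1, h2⟩ := h ε hε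
  have h3 := h2 t t' ht ht'
  have h4 := norm_es_le c a b t t'
  have h5 : ‖κ t t'‖ ≤ ‖κ t t' - ∑ i, c i * cexp (((a i * t + b i * t' : ℝ) : ℂ) * I)‖ +
      ‖∑ i, c i * cexp (((a i * t + b i * t' : ℝ) : ℂ) * I)‖ := by
    have := norm_add_le (κ t t' - ∑ i, c i * cexp (((a i * t + b i * t' : ℝ) : ℂ) * I))
      (∑ i, c i * cexp (((a i * t + b i * t' : ℝ) : ℂ) * I))
    simpa using this
  linarith

theorem KC.exp (a b : ℝ) : KC R (1 + |a| + |b|)
    (fun t t' => cexp (((a * t + b * t' : ℝ) : ℂ) * I)) := by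
  intro ε hε
  refine ⟨Unit, inferInstance, fun _ => 1, fun _ => a, fun _ => b, by simp, fun t t' _ _ => ?_⟩
  simp [hε.le]

theorem KC.zero : KC R 0 (fun _ _ => 0) := by
  intro ε hε
  refine ⟨Empty, inferInstance, fun _ => 1, fun _ => 0, fun _ => 0, by simp, fun t t' _ _ => ?_⟩
  simp [hε.le]

theorem KC.add (h : KC R Λ κ) (h' : KC R Λ' κ') :
    KC R (Λ + Λ') (fun t t' => κ t t' + κ' t t') := by
  intro ε hε
  obtain ⟨ι, hι, c, a, b, h1, h2⟩ := h (ε / 2) (by positivity)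
  obtain ⟨ι', hι', c', a', b', h1', h2'⟩ := h' (ε / 2) (by positivity)
  refine ⟨ι ⊕ ι', inferInstance, Sum.elim c c', Sum.elim a a', Sum.elim b b', ?_, ?_⟩
  · simp only [Fintype.sum_sum_type, Sum.elim_inl, Sum.elim_inr]
    exact add_le_add h1 h1'
  · intro t t' ht ht'
    simp only [Fintype.sum_sum_type, Sum.elim_inl, Sum.elim_inr]
    have e1 : κ t t' + κ' t t' - (∑ i, c i * cexp (((a i * t + b i * t' : ℝ) : ℂ) * I) +
        ∑ i, c' i * cexp (((a' i * t + b' i * t' : ℝ) : ℂ) * I)) =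
        (κ t t' - ∑ i, c i * cexp (((a i * t + b i * t' : ℝ) : ℂ) * I)) +
        (κ' t t' - ∑ i, c' i * cexp (((a' i * t + b' i * t' : ℝ) : ℂ) * I)) := by ring
    rw [e1]
    refine (norm_add_le _ _).trans ?_
    linarith [h2 t t' ht ht', h2' t t' ht ht']

theorem KC.mul (h : KC R Λ κ) (h' : KC R Λ' κ') :
    KC R (Λ * Λ') (fun t t' => κ t t' * κ' t t') := by
  intro ε hε
  have hΛ := h.nonneg
  have hΛ' := h'.nonneg
  obtain ⟨δ, hδ, hδ1, hδ2⟩ : ∃ δ : ℝ, 0 < δ ∧ δ ≤ 1 ∧ δ * (Λ + Λ' + 1) ≤ ε := by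
    refine ⟨min 1 (ε / (Λ + Λ' + 1)), by positivity, min_le_left _ _, ?_⟩
    calc min 1 (ε / (Λ + Λ' + 1)) * (Λ + Λ' + 1) ≤ ε / (Λ + Λ' + 1) * (Λ + Λ' + 1) := by
          gcongr; exact min_le_right _ _
      _ = ε := by field_simp
  obtain ⟨ι, hι, c, a, b, h1, h2⟩ := h δ hδ
  obtain ⟨ι', hι', c', a', b', h1', h2'⟩ := h' δ hδ
  refine ⟨ι × ι', inferInstance, fun p => c p.1 * c' p.2, fun p => a p.1 + a' p.2,
    fun p => b p.1 + b' p.2, ?_, ?_⟩
  · rw [Fintype.sum_prod_type]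
    calc ∑ i, ∑ j, ‖c i * c' j‖ * (1 + |a i + a' j| + |b i + b' j|) ≤
        ∑ i, ∑ j, (‖c i‖ * (1 + |a i| + |b i|)) * (‖c' j‖ * (1 + |a' j| + |b' j|)) := by
          refine sum_le_sum fun i _ => sum_le_sum fun j _ => ?_
          rw [norm_mul]
          have e1 := abs_add_le (a i) (a' j)
          have e2 := abs_add_le (b i) (b' j)
          have p1 := abs_nonneg (a i)
          have p2 := abs_nonneg (a' j)
          have p3 := abs_nonneg (b i)
          have p4 := abs_nonneg (b' j)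
          have e3 : 1 + |a i + a' j| + |b i + b' j| ≤
              (1 + |a i| + |b i|) * (1 + |a' j| + |b' j|) := by nlinarith [mul_nonneg p1 p2, mul_nonneg p1 p4, mul_nonneg p3 p2, mul_nonneg p3 p4]
          calc ‖c i‖ * ‖c' j‖ * (1 + |a i + a' j| + |b i + b' j|) ≤
              ‖c i‖ * ‖c' j‖ * ((1 + |a i| + |b i|) * (1 + |a' j| + |b' j|)) := by gcongr
            _ = _ := by ring
      _ = (∑ i, ‖c i‖ * (1 + |a i| + |b i|)) * ∑ j, ‖c' j‖ * (1 + |a' j| + |b' j|) := by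
          rw [sum_mul_sum]
      _ ≤ Λ * Λ' := by
          gcongr
  · intro t t' ht ht'
    rw [Fintype.sum_prod_type]
    have e1 : ∑ i, ∑ j, c i * c' j *
        cexp ((((a i + a' j) * t + (b i + b' j) * t' : ℝ) : ℂ) * I) =
        (∑ i, c i * cexp (((a i * t + b i * t' : ℝ) : ℂ) * I)) *
        ∑ j, c' j * cexp (((a' j * t + b' j * t' : ℝ) : ℂ) * I) := by
      rw [sum_mul_sum]
      refine sum_congr rfl fun i _ => sum_congr rfl fun j _ => ?_
      have : ((((a i + a' j) * t + (b i + b' j) * t' : ℝ) : ℂ) * I) =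
          (((a i * t + b i * t' : ℝ) : ℂ) * I) + (((a' j * t + b' j * t' : ℝ) : ℂ) * I) := by
        push_cast; ring
      rw [this, Complex.exp_add]
      ring
    rw [e1]
    set S := ∑ i, c i * cexp (((a i * t + b i * t' : ℝ) : ℂ) * I) with hS
    set S' := ∑ j, c' j * cexp (((a' j * t + b' j * t' : ℝ) : ℂ) * I) with hS'
    have h3 := h2 t t' ht ht'
    have h3' := h2' t t' ht ht'
    have h4 := h'.bound ht ht'
    have h5 : ‖S‖ ≤ Λ := (norm_es_le c a b t t').trans h1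
    have e2 : κ t t' * κ' t t' - S * S' = (κ t t' - S) * κ' t t' + S * (κ' t t' - S') := by ring
    rw [e2]
    calc ‖(κ t t' - S) * κ' t t' + S * (κ' t t' - S')‖ ≤ δ * Λ' + Λ * δ := by
          refine (norm_add_le _ _).trans ?_
          rw [norm_mul, norm_mul]
          gcongr
      _ ≤ δ * (Λ + Λ' + 1) := by nlinarith
      _ ≤ ε := hδ2

theorem KC.const (c : ℂ) : KC R ‖c‖ (fun _ _ => c) := by
  intro ε hε
  refine ⟨Unit, inferInstance, fun _ => c, fun _ => 0, fun _ => 0, by simp, fun t t' _ _ => ?_⟩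
  simp [hε.le]

theorem KC.smul (c : ℂ) (h : KC R Λ κ) : KC R (‖c‖ * Λ) (fun t t' => c * κ t t') :=
  (KC.const c).mul h

theorem KC.neg (h : KC R Λ κ) : KC R Λ (fun t t' => - κ t t') := by
  have := h.smul (-1)
  simpa using this

theorem KC.sub (h : KC R Λ κ) (h' : KC R Λ' κ') :
    KC R (Λ + Λ') (fun t t' => κ t t' - κ' t t') := by
  simpa [sub_eq_add_neg] using h.add h'.neg

theorem KC.pow (h : KC R Λ κ) (n : ℕ) : KC R (Λ ^ n) (fun t t' => κ t t' ^ n) := by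
  induction n with
  | zero => simpa using KC.const (R := R) 1
  | succ n ih => simpa [pow_succ] using ih.mul h

theorem KC.sum {α : Type*} (s : Finset α) {Λ : α → ℝ} {κ : α → ℝ → ℝ → ℂ}
    (h : ∀ i ∈ s, KC R (Λ i) (κ i)) : KC R (∑ i ∈ s, Λ i) (fun t t' => ∑ i ∈ s, κ i t t') := by
  classical
  induction s using Finset.induction_on with
  | empty => simpa using KC.zero (R := R)
  | insert j s hj ih =>
    have h1 := h j (mem_insert_self j s)
    have h2 := ih fun i hi => h i (mem_insert_of_mem hi)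
    simpa [sum_insert hj] using h1.add h2

/-- closure under uniform limits on the square -/
theorem KC.lim {κn : ℕ → ℝ → ℝ → ℂ} (h : ∀ n, KC R Λ (κn n))
    (hlim : ∀ ε : ℝ, 0 < ε → ∃ n, ∀ t t', |t| ≤ R → |t'| ≤ R → ‖κ t t' - κn n t t'‖ ≤ ε) :
    KC R Λ κ := by
  intro ε hε
  obtain ⟨n, hn⟩ := hlim (ε / 2) (by positivity)
  obtain ⟨ι, hι, c, a, b, h1, h2⟩ := h n (ε / 2) (by positivity)
  refine ⟨ι, hι, c, a, b, h1, fun t t' ht ht' => ?_⟩
  have e1 : κ t t' - ∑ i, c i * cexp (((a i * t + b i * t' : ℝ) : ℂ) * I) =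
      (κ t t' - κn n t t') +
      (κn n t t' - ∑ i, c i * cexp (((a i * t + b i * t' : ℝ) : ℂ) * I)) := by ring
  rw [e1]
  refine (norm_add_le _ _).trans ?_
  linarith [hn t t' ht ht', h2 t t' ht ht']

/-- absolutely convergent series -/
theorem KC.tsum {Λ : ℕ → ℝ} {κ : ℕ → ℝ → ℝ → ℂ} (h : ∀ n, KC R (Λ n) (κ n)) (hs : Summable Λ) :
    KC R (∑' n, Λ n) (fun t t' => ∑' n, κ n t t') := by
  have h0 : ∀ n, 0 ≤ Λ n := fun n => (h n).nonneg
  refine KC.lim (κn := fun N t t' => ∑ n ∈ range N, κ n t t')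
    (fun N => (KC.sum (range N) fun i _ => h i).mono (hs.sum_le_tsum _ fun i _ => h0 i)) ?_
  intro ε hε
  have h1 := (tendsto_sum_nat_add Λ).eventually_lt_const hε
  obtain ⟨N, hN⟩ := h1.exists
  refine ⟨N, fun t t' ht ht' => ?_⟩
  have hsn : Summable fun n => κ n t t' :=
    Summable.of_norm_bounded hs fun n => (h n).bound ht ht'
  rw [← hsn.sum_add_tsum_nat_add N, add_sub_cancel_left]
  have h2 : ∀ k, ‖κ (k + N) t t'‖ ≤ Λ (k + N) := fun k => (h (k + N)).bound ht ht'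
  exact (tsum_of_norm_bounded ((summable_nat_add_iff N).2 hs).hasSum h2).trans hN.le

/-- power series -/
theorem KC.series (h : KC R Λ κ) {u : ℕ → ℂ} (hs : Summable fun n => ‖u n‖ * Λ ^ n) :
    KC R (∑' n, ‖u n‖ * Λ ^ n) (fun t t' => ∑' n, u n * κ t t' ^ n) :=
  KC.tsum (fun n => (h.pow n).smul (u n)) hs

/-- power series, `HasSum` form -/
theorem KC.hasSum (h : KC R Λ κ) {u : ℕ → ℂ} {f : ℂ → ℂ} {M : ℝ}
    (hs : HasSum (fun n => ‖u n‖ * Λ ^ n) M)
    (hf : ∀ z : ℂ, ‖z‖ ≤ Λ → HasSum (fun n => u n * z ^ n) (f z)) :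
    KC R M (fun t t' => f (κ t t')) := by
  have h1 := h.series hs.summable
  rw [hs.tsum_eq] at h1
  refine h1.congr fun t t' ht ht' => ?_
  exact (hf _ (h.bound ht ht')).tsum_eq

end NUKer
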