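import Pool.Agent.NUKer.Glob

/-!
Composition of a complex displacement with a real transport `ψ = id + ξ`.
-/

open Complex Finset Filter MeasureTheory
open scoped Topology ENNReal

namespace NUKer

/-- displacement of `ζ ∘ ψ`, `ζ = id + D`, `ψ = id + ξ` -/
noncomputable def cD (ξ : ℝ → ℝ) (D : ℝ → ℂ) (t : ℝ) : ℂ := (ξ t : ℂ) + D (t + ξ t)

/-- its derivative -/
noncomputable def cD1 (ξ ξ1 : ℝ → ℝ) (D1 : ℝ → ℂ) (t : ℝ) : ℂ :=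
  (ξ1 t : ℂ) + ((1 + ξ1 t : ℝ) : ℂ) * D1 (t + ξ t)

theorem cD_deriv {ξ ξ1 : ℝ → ℝ} {D D1 : ℝ → ℂ} (hξ : ∀ x, HasDerivAt ξ (ξ1 x) x)
    (hD : ∀ x, HasDerivAt D (D1 x) x) (x : ℝ) : HasDerivAt (cD ξ D) (cD1 ξ ξ1 D1 x) x := by
  have h1 : HasDerivAt (fun t : ℝ => t + ξ t) (1 + ξ1 x) x := (hasDerivAt_id x).add (hξ x)
  have h2 := (hD (x + ξ x)).scomp x h1
  rw [Complex.real_smul] at h2
  exact (hξ x).ofReal_comp.add h2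

variable {R : ℝ} {ξ ξ1 : ℝ → ℝ} {D D1 : ℝ → ℂ}

/-- **own kernel under transport** -/
theorem comp_w {R' : ℝ} (h : Sm R D D1) (h' : Sm R' (cD ξ D) (cD1 ξ ξ1 D1)) {x y : ℝ}
    (hx : |x| ≤ R') (hy : |y| ≤ R') (hx' : |x + ξ x| ≤ R) (hy' : |y + ξ y| ≤ R) :
    NUMF.w ((x + ξ x) - (y + ξ y)) * Real.exp (kw D D1 (x + ξ x) (y + ξ y)) =
      NUMF.w (x - y) * Real.exp (kw (cD ξ D) (cD1 ξ ξ1 D1) x y) := by
  rw [← norm_wcx h hx' hy', ← norm_wcx h' hx hy]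
  congr 2
  unfold cD
  push_cast
  ring

/-- **cross kernel under transport** -/
theorem comp_g {R' : ℝ} {ξ' : ℝ → ℝ} {D' : ℝ → ℂ} (h : Sm2 R D D')
    (h' : Sm2 R' (cD ξ D) (cD ξ' D')) {x y : ℝ}
    (hx : |x| ≤ R') (hy : |y| ≤ R') (hx' : |x + ξ x| ≤ R) (hy' : |y + ξ' y| ≤ R) :
    NUMF.g ((x + ξ x) - (y + ξ' y)) * Real.exp (kg D D' (x + ξ x) (y + ξ' y)) =
      NUMF.g (x - y) * Real.exp (kg (cD ξ D) (cD ξ' D') x y) := by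
  rw [← norm_gcx h hx' hy', ← norm_gcx h' hx hy]
  congr 2
  unfold cD
  push_cast
  ring

/-- **diagonal** -/
theorem comp_diag (hJ : ∀ t, 0 < 1 + ξ1 t) (hD : ∀ t, 1 + D1 t ≠ 0) (x : ℝ) :
    kw (cD ξ D) (cD1 ξ ξ1 D1) x x - kw D D1 x x = 2 * Real.log (1 + ξ1 x) +
      2 * (Real.log ‖1 + D1 (x + ξ x)‖ - Real.log ‖1 + D1 x‖) := by
  rw [kw_diag, kw_diag]
  have h1 : 1 + cD1 ξ ξ1 D1 x = ((1 + ξ1 x : ℝ) : ℂ) * (1 + D1 (x + ξ x)) := by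
    unfold cD1
    push_cast
    ring
  rw [h1, norm_mul, Complex.norm_real, Real.norm_of_nonneg (hJ x).le,
    Real.log_mul (hJ x).ne' (norm_ne_zero_iff.2 (hD _))]
  ring

end NUKer
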