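import Pool.Agent.NUKer.Dec

/-!
Kernels of purely imaginary displacements far from the support of the displacements.
-/

set_option autoImplicit false

open Complex Set Filter MeasureTheory
open scoped Topology

namespace NUKer

theorem eq_iD {D : ℝ → ℂ} (h : ∀ x, (D x).re = 0) : D = iD fun x => (D x).im := by
  funext x
  apply Complex.ext
  · simp [iD, h x]
  · simp [iD]

theorem re_deriv_zero {D D1 : ℝ → ℂ} (hD : ∀ x, HasDerivAt D (D1 x) x) (h : ∀ x, (D x).re = 0)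
    (x : ℝ) : (D1 x).re = 0 := by
  have h1 : HasDerivAt (fun x => (D x).re) (D1 x).re x :=
    (Complex.reCLM.hasFDerivAt.comp_hasDerivAt x (hD x))
  have h2 : (fun x => (D x).re) = fun _ => (0 : ℝ) := funext h
  rw [h2] at h1
  exact h1.unique (hasDerivAt_const x 0)

theorem im_deriv {D D1 : ℝ → ℂ} (hD : ∀ x, HasDerivAt D (D1 x) x) (x : ℝ) :
    HasDerivAt (fun x => (D x).im) (D1 x).im x :=
  Complex.imCLM.hasFDerivAt.comp_hasDerivAt x (hD x)

/-- global decay for purely imaginary complex displacements -/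
theorem exists_decC_w : ∃ K : ℝ, 1 ≤ K ∧ ∀ (lam : ℝ) (D D1 : ℝ → ℂ),
    (∀ x, HasDerivAt D (D1 x) x) → Continuous D1 → (∀ x, (D x).re = 0) →
    (∀ x, ‖D x‖ ≤ lam) → (∀ x, ‖D1 x‖ ≤ lam) → K * lam ≤ 1 → ∀ t t',
    |kw D D1 t t'| ≤ K * lam * Real.exp (-2 * |t - t'|) := by
  obtain ⟨K, hK, H⟩ := exists_dec_w
  refine ⟨K, hK, fun lam D D1 hD hc hr h h1 hsm t t' => ?_⟩
  have e1 := eq_iD hr
  have e2 := eq_iD (re_deriv_zero hD hr)
  rw [e1, e2]
  exact H lam _ _ (im_deriv hD) (Complex.continuous_im.comp hc)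
    (fun x => (Complex.abs_im_le_norm _).trans (h x))
    (fun x => (Complex.abs_im_le_norm _).trans (h1 x)) hsm t t'

theorem exists_decC_g : ∃ K : ℝ, 1 ≤ K ∧ ∀ (lam : ℝ) (D D' : ℝ → ℂ),
    (∀ x, (D x).re = 0) → (∀ x, (D' x).re = 0) →
    (∀ x, ‖D x‖ ≤ lam) → (∀ x, ‖D' x‖ ≤ lam) → K * lam ≤ 1 → ∀ t t',
    |kg D D' t t'| ≤ K * lam * Real.exp (-2 * |t - t'|) := by
  obtain ⟨K, hK, H⟩ := exists_dec_g
  refine ⟨K, hK, fun lam D D' hr hr' h h' hsm t t' => ?_⟩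
  have e1 := eq_iD hr
  have e2 := eq_iD hr'
  rw [e1, e2]
  exact H lam _ _ (fun x => (Complex.abs_im_le_norm _).trans (h x))
    (fun x => (Complex.abs_im_le_norm _).trans (h' x)) hsm t t'

/-- **own kernel far from the support** -/
theorem exists_far_w : ∃ K : ℝ, 1 ≤ K ∧ ∀ (lam T1 : ℝ) (D D1 : ℝ → ℂ),
    (∀ x, HasDerivAt D (D1 x) x) → Continuous D1 → (∀ x, (D x).re = 0) →
    (∀ x, ‖D x‖ ≤ lam) → (∀ x, ‖D1 x‖ ≤ lam) → (∀ x, T1 ≤ |x| → D x = 0) → K * lam ≤ 1 →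
    ∀ t t', T1 ≤ |t'| → |kw D D1 t t'| ≤ K * lam * Real.exp (-2 * (|t'| - T1)) := by
  obtain ⟨K, hK, H⟩ := exists_decC_w
  refine ⟨K, hK, fun lam T1 D D1 hD hc hr h h1 hz hsm t t' ht' => ?_⟩
  have hl : 0 ≤ lam := (norm_nonneg _).trans (h 0)
  rcases le_or_gt |t| T1 with h3 | h3
  · refine (H lam D D1 hD hc hr h h1 hsm t t').trans ?_
    have h4 : |t'| - T1 ≤ |t - t'| := by
      have := abs_sub_abs_le_abs_sub t' t
      rw [abs_sub_comm] at this
      linarith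
    have h5 : Real.exp (-2 * |t - t'|) ≤ Real.exp (-2 * (|t'| - T1)) :=
      Real.exp_le_exp.2 (by linarith)
    exact mul_le_mul_of_nonneg_left h5 (by positivity)
  · have h4 : D1 t = 0 := by
      have e : D =ᶠ[𝓝 t] fun _ => 0 := by
        filter_upwards [(continuous_abs.tendsto t).eventually (lt_mem_nhds h3)] with y hy
        exact hz y hy.le
      exact (hD t).unique ((hasDerivAt_const t (0:ℂ)).congr_of_eventuallyEq e)
    rw [kw_zero hD hc (hz t h3.le) (hz t' ht') h4, abs_zero]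
    positivity

/-- **cross kernel far from the supports** (second argument far) -/
theorem exists_far_g : ∃ K : ℝ, 1 ≤ K ∧ ∀ (lam T1 : ℝ) (D D' : ℝ → ℂ),
    (∀ x, (D x).re = 0) → (∀ x, (D' x).re = 0) →
    (∀ x, ‖D x‖ ≤ lam) → (∀ x, ‖D' x‖ ≤ lam) → (∀ x, T1 ≤ |x| → D x = 0) →
    (∀ x, T1 ≤ |x| → D' x = 0) → K * lam ≤ 1 →
    ∀ t t', (T1 ≤ |t'| → |kg D D' t t'| ≤ K * lam * Real.exp (-2 * (|t'| - T1))) ∧
      (T1 ≤ |t| → |kg D D' t t'| ≤ K * lam * Real.exp (-2 * (|t| - T1))) := by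
  obtain ⟨K, hK, H⟩ := exists_decC_g
  refine ⟨K, hK, fun lam T1 D D' hr hr' h h' hz hz' hsm t t' => ?_⟩
  have hl : 0 ≤ lam := (norm_nonneg _).trans (h 0)
  have gen : ∀ {a : ℝ}, a ≤ |t - t'| → |kg D D' t t'| ≤ K * lam * Real.exp (-2 * a) := by
    intro a ha
    refine (H lam D D' hr hr' h h' hsm t t').trans ?_
    have h5 : Real.exp (-2 * |t - t'|) ≤ Real.exp (-2 * a) := Real.exp_le_exp.2 (by linarith)
    exact mul_le_mul_of_nonneg_left h5 (by positivity)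
  constructor
  · intro ht'
    rcases le_or_gt |t| T1 with h3 | h3
    · refine gen ?_
      have := abs_sub_abs_le_abs_sub t' t
      rw [abs_sub_comm] at this
      linarith
    · rw [kg_zero (hz t h3.le) (hz' t' ht'), abs_zero]
      positivity
  · intro ht
    rcases le_or_gt |t'| T1 with h3 | h3
    · refine gen ?_
      have := abs_sub_abs_le_abs_sub t t'
      linarith
    · rw [kg_zero (hz t ht) (hz' t' h3.le), abs_zero]
      positivity

end NUKer
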