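import Pool.Agent.NUKer.Basic

/-!
One-variable functions with three bounded derivatives are superpositions of exponentials on
bounded intervals.
-/

open Complex Finset Filter MeasureTheory
open scoped Topology

namespace NUKer

/-- one-variable class -/
def KC1 (R Λ : ℝ) (f : ℝ → ℂ) : Prop :=
  ∀ ε : ℝ, 0 < ε → ∃ (ι : Type) (_ : Fintype ι) (c : ι → ℂ) (a : ι → ℝ),
    ∑ i, ‖c i‖ * (1 + |a i|) ≤ Λ ∧
    ∀ t : ℝ, |t| ≤ R → ‖f t - ∑ i, c i * cexp (((a i * t : ℝ) : ℂ) * I)‖ ≤ ε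

/-- summability constant -/
noncomputable def Kz : ℝ := ∑' n : ℤ, 1 / (n : ℝ) ^ 2

theorem summable_Kz : Summable fun n : ℤ => 1 / (n : ℝ) ^ 2 :=
  Real.summable_one_div_int_pow.2 (by norm_num)

theorem norm_fourierCoeffOn_le {a b : ℝ} (hab : a < b) {g : ℝ → ℂ} {M : ℝ}
    (hM : ∀ x, a ≤ x → x ≤ b → ‖g x‖ ≤ M) (n : ℤ) : ‖fourierCoeffOn hab g n‖ ≤ M := by
  have : Fact (0 < b - a) := ⟨by linarith⟩
  rw [fourierCoeffOn_eq_integral]
  rw [norm_smul]
  have h1 : ‖∫ x in a..b, fourier (-n) (x : AddCircle (b - a)) • g x‖ ≤ M * |b - a| := by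
    refine intervalIntegral.norm_integral_le_of_norm_le_const fun x hx => ?_
    rw [Set.uIoc_of_le hab.le] at hx
    rw [norm_smul]
    have h2 : ‖(fourier (-n) (x : AddCircle (b - a)) : ℂ)‖ = 1 := by
      rw [fourier_apply]
      exact Circle.norm_coe _
    rw [h2, one_mul]
    exact hM x hx.1.le hx.2
  rw [Real.norm_of_nonneg (by have : 0 < b - a := by linarith
                              positivity)]
  rw [abs_of_pos (by linarith : 0 < b - a)] at h1
  calc 1 / (b - a) * ‖∫ x in a..b, fourier (-n) (x : AddCircle (b - a)) • g x‖ ≤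
      1 / (b - a) * (M * (b - a)) := by
        have : 0 < b - a := by linarith
        gcongr
    _ = M := by
        have : b - a ≠ 0 := by linarith
        field_simp

/-- integration by parts, boundary values zero -/
theorem coeff_step {L : ℝ} (hL : 0 < L) {g g1 : ℝ → ℂ}
    (h1 : ∀ x, -L ≤ x → x ≤ L → HasDerivAt g (g1 x) x) (hc : Continuous g1)
    (hm : g (-L) = 0) (hp : g L = 0) {n : ℤ} (hn : n ≠ 0)
    (hab : -L < L) :
    ‖fourierCoeffOn hab g n‖ = L / (Real.pi * |(n : ℝ)|) * ‖fourierCoeffOn hab g1 n‖ := by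
  rw [fourierCoeffOn_of_hasDerivAt hab hn (f' := g1) (fun x hx => by
    rw [Set.uIcc_of_le hab.le] at hx
    exact h1 x hx.1 hx.2) (hc.intervalIntegrable _ _), hm, hp, sub_self, mul_zero, zero_sub,
    norm_mul, norm_neg, norm_mul]
  have e1 : ‖(1 : ℂ) / (-2 * Real.pi * I * n)‖ = 1 / (2 * Real.pi * |(n : ℝ)|) := by
    rw [norm_div, norm_one, norm_mul, norm_mul, norm_mul, norm_neg, Complex.norm_I,
      Complex.norm_real, Complex.norm_intCast, mul_one, Real.norm_of_nonneg Real.pi_pos.le]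
    simp
  have e2 : ‖((L : ℂ) - ((-L : ℝ) : ℂ))‖ = 2 * L := by
    have : ((L : ℂ) - ((-L : ℝ) : ℂ)) = ((2 * L : ℝ) : ℂ) := by push_cast; ring
    rw [this, Complex.norm_real, Real.norm_of_nonneg (by linarith)]
  rw [e1, e2]
  have hn' : |(n : ℝ)| ≠ 0 := by
    rw [abs_ne_zero]
    exact_mod_cast hn
  field_simp

theorem KC1_periodic {L : ℝ} (hL : 0 < L) {g g1 g2 g3 : ℝ → ℂ}
    (h1 : ∀ x, -L ≤ x → x ≤ L → HasDerivAt g (g1 x) x)
    (h2 : ∀ x, -L ≤ x → x ≤ L → HasDerivAt g1 (g2 x) x)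
    (h3 : ∀ x, -L ≤ x → x ≤ L → HasDerivAt g2 (g3 x) x)
    (hg : Continuous g) (hg1 : Continuous g1) (hg2 : Continuous g2) (hg3 : Continuous g3)
    (z1 : g (-L) = 0) (z2 : g L = 0) (z3 : g1 (-L) = 0) (z4 : g1 L = 0) (z5 : g2 (-L) = 0)
    (z6 : g2 L = 0) {M0 M3 : ℝ} (hM0 : ∀ x, -L ≤ x → x ≤ L → ‖g x‖ ≤ M0)
    (hM3 : ∀ x, -L ≤ x → x ≤ L → ‖g3 x‖ ≤ M3) {R : ℝ} (hR : R < L) :
    KC1 R (M0 + (L ^ 3 + L ^ 2) * M3 * Kz) g := by
  have hab : -L < L := by linarith
  have hM3' : 0 ≤ M3 := (norm_nonneg _).trans (hM3 0 (by linarith) hL.le)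
  have hF : Fact (0 < 2 * L) := ⟨by linarith⟩
  set F : AddCircle (2 * L) → ℂ := AddCircle.liftIco (2 * L) (-L) g with hFdef
  have hFc : Continuous F := by
    apply AddCircle.liftIco_continuous
    · rw [z1, show -L + 2 * L = L by ring, z2]
    · exact hg.continuousOn
  set Fc : C(AddCircle (2 * L), ℂ) := ⟨F, hFc⟩ with hFc'
  have hcoef : ∀ n : ℤ, fourierCoeff F n = fourierCoeffOn hab g n := by
    intro n
    have := fourierCoeff_liftIco_eq (T := 2 * L) (a := -L) g n
    rw [hFdef, this]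
    congr 1
    ring
  have hb : ∀ n : ℤ, n ≠ 0 → ‖fourierCoeff F n‖ ≤ (L / (Real.pi * |(n : ℝ)|)) ^ 3 * M3 := by
    intro n hn
    rw [hcoef, coeff_step hL h1 hg1 z1 z2 hn hab, coeff_step hL h2 hg2 z3 z4 hn hab,
      coeff_step hL h3 hg3 z5 z6 hn hab]
    have h4 := norm_fourierCoeffOn_le hab hM3 n
    calc L / (Real.pi * |(n : ℝ)|) * (L / (Real.pi * |(n : ℝ)|) * (L / (Real.pi * |(n : ℝ)|) *
        ‖fourierCoeffOn hab g3 n‖)) = (L / (Real.pi * |(n : ℝ)|)) ^ 3 *
        ‖fourierCoeffOn hab g3 n‖ := by ring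
      _ ≤ _ := by gcongr
  -- the weighted bound
  have hw : ∀ n : ℤ, ‖fourierCoeff F n‖ * (1 + |Real.pi * n / L|) ≤
      (if n = 0 then M0 else 0) + (L ^ 3 + L ^ 2) * M3 * (1 / (n : ℝ) ^ 2) := by
    intro n
    by_cases hn : n = 0
    · subst hn
      simp only [if_true, Int.cast_zero, mul_zero, zero_div, abs_zero, add_zero, mul_one]
      rw [hcoef]
      have := norm_fourierCoeffOn_le hab hM0 0
      simpa using this
    · rw [if_neg hn, zero_add]
      have hn1 : (1 : ℝ) ≤ |(n : ℝ)| := by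
        rw [← Int.cast_abs]
        exact_mod_cast Int.one_le_abs hn
      have hn0 : (0 : ℝ) < |(n : ℝ)| := by linarith
      have hpi := Real.pi_gt_three
      have e1 : |Real.pi * n / L| = Real.pi * |(n : ℝ)| / L := by
        rw [abs_div, abs_mul, abs_of_pos Real.pi_pos, abs_of_pos hL]
      rw [e1]
      have e2 : (n : ℝ) ^ 2 = |(n : ℝ)| ^ 2 := (sq_abs _).symm
      rw [e2]
      set N := |(n : ℝ)|
      calc ‖fourierCoeff F n‖ * (1 + Real.pi * N / L) ≤
          ((L / (Real.pi * N)) ^ 3 * M3) * (1 + Real.pi * N / L) := by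
            gcongr
            exact hb n hn
        _ = (L ^ 3 * (1 / (Real.pi ^ 3 * N)) + L ^ 2 * (1 / Real.pi ^ 2)) * M3 * (1 / N ^ 2) := by
            field_simp
        _ ≤ (L ^ 3 * 1 + L ^ 2 * 1) * M3 * (1 / N ^ 2) := by
            have q1 : 1 / (Real.pi ^ 3 * N) ≤ 1 := by
              rw [div_le_one (by positivity)]
              have : 1 ≤ Real.pi ^ 3 := one_le_pow₀ (by linarith)
              nlinarith
            have q2 : 1 / Real.pi ^ 2 ≤ 1 := by
              rw [div_le_one (by positivity)]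
              exact one_le_pow₀ (by linarith)
            gcongr
        _ = _ := by ring
  have hsum2 : Summable fun n : ℤ => (if n = 0 then M0 else 0) +
      (L ^ 3 + L ^ 2) * M3 * (1 / (n : ℝ) ^ 2) := by
    refine Summable.add ?_ (summable_Kz.mul_left _)
    exact summable_of_ne_finset_zero (s := {0}) fun n hn => by
      rw [if_neg (by simpa using hn)]
  have hsumw : Summable fun n : ℤ => ‖fourierCoeff F n‖ * (1 + |Real.pi * n / L|) :=
    Summable.of_nonneg_of_le (fun n => by positivity) hw hsum2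
  have hsumn : Summable fun n : ℤ => ‖fourierCoeff F n‖ :=
    Summable.of_nonneg_of_le (fun n => norm_nonneg _) (fun n =>
      le_mul_of_one_le_right (norm_nonneg _) (by linarith [abs_nonneg (Real.pi * n / L)])) hsumw
  have htot : ∑' n : ℤ, ((if n = 0 then M0 else 0) +
      (L ^ 3 + L ^ 2) * M3 * (1 / (n : ℝ) ^ 2)) = M0 + (L ^ 3 + L ^ 2) * M3 * Kz := by
    rw [Summable.tsum_add _ (summable_Kz.mul_left _), tsum_ite_eq, tsum_mul_left, Kz]
    exact summable_of_ne_finset_zero (s := {0}) fun n hn => by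
      rw [if_neg (by simpa using hn)]
  intro ε hε
  -- a finite set with small tail
  obtain ⟨S, hS⟩ : ∃ S : Finset ℤ, ∑' n : ↥((S : Set ℤ)ᶜ), ‖fourierCoeff F n‖ < ε := by
    have h5 := (tendsto_tsum_compl_atTop_zero fun n : ℤ => ‖fourierCoeff F n‖).eventually_lt_const hε
    obtain ⟨S, hS⟩ := h5.exists
    exact ⟨S, hS⟩
  refine ⟨{n // n ∈ S}, inferInstance, fun n => fourierCoeff F (n : ℤ), fun n => Real.pi * (n : ℤ) / L,
    ?_, ?_⟩
  · rw [← htot]
    calc ∑ n : {n // n ∈ S}, ‖fourierCoeff F (n : ℤ)‖ * (1 + |Real.pi * ((n : ℤ) : ℝ) / L|) =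
        ∑ n ∈ S, ‖fourierCoeff F n‖ * (1 + |Real.pi * (n : ℝ) / L|) :=
          Finset.sum_coe_sort S fun n : ℤ => ‖fourierCoeff F n‖ * (1 + |Real.pi * (n : ℝ) / L|)
      _ ≤ ∑' n : ℤ, ‖fourierCoeff F n‖ * (1 + |Real.pi * (n : ℝ) / L|) :=
          hsumw.sum_le_tsum _ fun n _ => by positivity
      _ ≤ _ := hsumw.tsum_le_tsum hw hsum2
  · intro t ht
    have htL := abs_le.1 ht
    have h6 : HasSum (fun i => fourierCoeff F i • fourier i (t : AddCircle (2 * L)))
        (F (t : AddCircle (2 * L))) := by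
      have := has_pointwise_sum_fourier_series_of_summable (f := Fc) (by
        exact Summable.of_norm hsumn) (t : AddCircle (2 * L))
      exact this
    have h7 : F (t : AddCircle (2 * L)) = g t := by
      rw [hFdef, AddCircle.liftIco_coe_apply]
      constructor <;> linarith
    rw [h7] at h6
    have h8 : ∀ n : ℤ, (fourierCoeff F n • fourier n (t : AddCircle (2 * L)) : ℂ) =
        fourierCoeff F n * cexp ((((Real.pi * n / L) * t : ℝ) : ℂ) * I) := by
      intro n
      rw [fourier_coe_apply, smul_eq_mul]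
      congr 2
      push_cast
      field_simp
    simp only [h8] at h6
    have h9 : g t - ∑ n : {n // n ∈ S}, fourierCoeff F (n : ℤ) *
        cexp ((((Real.pi * ((n : ℤ) : ℝ) / L) * t : ℝ) : ℂ) * I) =
        ∑' n : ↥((S : Set ℤ)ᶜ), fourierCoeff F n *
          cexp ((((Real.pi * (n : ℤ) / L) * t : ℝ) : ℂ) * I) := by
      rw [Finset.sum_coe_sort S fun n : ℤ => fourierCoeff F n *
        cexp ((((Real.pi * (n : ℝ) / L) * t : ℝ) : ℂ) * I), ← h6.tsum_eq,
        ← h6.summable.sum_add_tsum_compl (s := S), add_sub_cancel_left]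
    rw [h9]
    have h10 : Summable fun n : ↥((S : Set ℤ)ᶜ) => ‖fourierCoeff F (n : ℤ)‖ :=
      hsumn.subtype _
    refine (tsum_of_norm_bounded h10.hasSum fun n => ?_).trans hS.le
    rw [norm_mul, norm_e, mul_one]

end NUKer
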