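import Pool.Agent.NUKer.Two

/-!
Concrete members of the classes `KC`, `KC1`: entire functions, logarithm,
`cosh 2x / (cosh 2x - c)`, `sinh 2x / (cosh 2x - c)`, `x coth x`.
-/

open Complex Finset Filter MeasureTheory
open scoped Topology Nat

namespace NUKer

variable {R Λ : ℝ} {κ : ℝ → ℝ → ℂ}

/-- `sinh w / w` -/
noncomputable def shc (w : ℂ) : ℂ := ∑' n : ℕ, (1 / ((2 * n + 1)! : ℂ)) * (w ^ 2) ^ n

/-- `(cosh w - 1) / w^2` -/
noncomputable def chc (w : ℂ) : ℂ := ∑' n : ℕ, (1 / ((2 * n + 2)! : ℂ)) * (w ^ 2) ^ n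

theorem summable_aux (u : ℕ → ℂ) (hu : ∀ n, ‖u n‖ ≤ 1 / ((2 * n)! : ℝ)) (Λ : ℝ) :
    Summable (fun n => ‖u n‖ * (Λ ^ 2) ^ n) ∧ ∑' n, ‖u n‖ * (Λ ^ 2) ^ n ≤ Real.exp |Λ| := by
  have h1 : ∀ n, ‖u n‖ * (Λ ^ 2) ^ n ≤ |Λ| ^ (2 * n) / ((2 * n)! : ℝ) := by
    intro n
    rw [pow_mul, sq_abs]
    calc ‖u n‖ * (Λ ^ 2) ^ n ≤ 1 / ((2 * n)! : ℝ) * (Λ ^ 2) ^ n := by
          gcongr
          exact hu n
      _ = _ := by ring
  have h2 := Real.hasSum_cosh |Λ|
  have h3 : Summable (fun n => ‖u n‖ * (Λ ^ 2) ^ n) :=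
    Summable.of_nonneg_of_le (fun n => by positivity) h1 h2.summable
  refine ⟨h3, ?_⟩
  calc ∑' n, ‖u n‖ * (Λ ^ 2) ^ n ≤ ∑' n, |Λ| ^ (2 * n) / ((2 * n)! : ℝ) :=
        h3.tsum_le_tsum h1 h2.summable
    _ = Real.cosh |Λ| := h2.tsum_eq
    _ ≤ Real.exp |Λ| := by
        rw [Real.cosh_eq]
        have : Real.exp (-|Λ|) ≤ Real.exp |Λ| := Real.exp_le_exp.2 (by
          have := abs_nonneg Λ; linarith)
        linarith

theorem shc_norm (n : ℕ) : ‖(1 / ((2 * n + 1)! : ℂ))‖ ≤ 1 / ((2 * n)! : ℝ) := by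
  rw [norm_div, norm_one, Complex.norm_natCast]
  gcongr
  omega

theorem chc_norm (n : ℕ) : ‖(1 / ((2 * n + 2)! : ℂ))‖ ≤ 1 / ((2 * n)! : ℝ) := by
  rw [norm_div, norm_one, Complex.norm_natCast]
  gcongr
  omega

theorem mul_shc (w : ℂ) : w * shc w = Complex.sinh w := by
  rw [shc, ← tsum_mul_left]
  rw [← (Complex.hasSum_sinh w).tsum_eq]
  refine tsum_congr fun n => ?_
  rw [pow_succ w (2 * n), pow_mul w 2 n]
  ring

theorem mul_chc (w : ℂ) : w ^ 2 * chc w = Complex.cosh w - 1 := by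
  have h := Complex.hasSum_cosh w
  have h2 := h.summable.sum_add_tsum_nat_add 1
  rw [h.tsum_eq] at h2
  simp only [range_one, sum_singleton, mul_zero, pow_zero, Nat.factorial_zero, Nat.cast_one,
    div_one] at h2
  rw [← h2, add_sub_cancel_left, chc, ← tsum_mul_left]
  refine tsum_congr fun n => ?_
  rw [show 2 * (n + 1) = 2 * n + 2 by ring, pow_add, pow_mul]
  ring

theorem KC.shc (h : KC R Λ κ) : KC R (Real.exp Λ) (fun t t' => NUKer.shc (κ t t')) := by
  have h1 := summable_aux (fun n => (1 / ((2 * n + 1)! : ℂ))) shc_norm Λ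
  have h2 := (h.pow 2).series h1.1
  rw [abs_of_nonneg h.nonneg] at h1
  exact h2.mono h1.2

theorem KC.chc (h : KC R Λ κ) : KC R (Real.exp Λ) (fun t t' => NUKer.chc (κ t t')) := by
  have h1 := summable_aux (fun n => (1 / ((2 * n + 2)! : ℂ))) chc_norm Λ
  have h2 := (h.pow 2).series h1.1
  rw [abs_of_nonneg h.nonneg] at h1
  exact h2.mono h1.2

theorem KC.sinh (h : KC R Λ κ) :
    KC R (Λ * Real.exp Λ) (fun t t' => Complex.sinh (κ t t')) :=
  (h.mul h.shc).congr fun _ _ _ _ => mul_shc _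

theorem KC.cosh_sub_one (h : KC R Λ κ) :
    KC R (Λ ^ 2 * Real.exp Λ) (fun t t' => Complex.cosh (κ t t') - 1) :=
  ((h.pow 2).mul h.chc).congr fun _ _ _ _ => mul_chc _

/-- logarithm -/
theorem KC.log (h : KC R Λ κ) (hΛ : Λ ≤ 1 / 2) :
    KC R (4 * Λ) (fun t t' => Complex.log (1 + κ t t')) := by
  have h0 := h.nonneg
  set u : ℕ → ℂ := fun n => (-1) ^ (n + 1) / n with hu
  have hun : ∀ n, ‖u n‖ * Λ ^ n ≤ 2 * Λ * (1 / 2) ^ n := by
    intro n
    have e1 : ‖u n‖ = 1 / n := by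
      rw [hu]
      simp
    rw [e1]
    rcases n with _ | n
    · simp; positivity
    · rw [pow_succ, pow_succ]
      have q1 : (1 : ℝ) / ((n + 1 : ℕ) : ℝ) ≤ 1 := by
        rw [div_le_one (by positivity)]
        push_cast
        have : (0 : ℝ) ≤ n := by positivity
        linarith
      have q2 : Λ ^ n ≤ (1 / 2) ^ n := pow_le_pow_left₀ h0 hΛ n
      calc 1 / ((n + 1 : ℕ) : ℝ) * (Λ ^ n * Λ) ≤ 1 * ((1 / 2) ^ n * Λ) := by gcongr
        _ = _ := by ring
  have hs2 : HasSum (fun n : ℕ => 2 * Λ * (1 / 2 : ℝ) ^ n) (2 * Λ * 2) :=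
    hasSum_geometric_two.mul_left _
  have hs : Summable fun n => ‖u n‖ * Λ ^ n :=
    Summable.of_nonneg_of_le (fun n => by positivity) hun hs2.summable
  have h1 := h.series hs
  have h2 : ∑' n, ‖u n‖ * Λ ^ n ≤ 4 * Λ := by
    refine (hs.tsum_le_tsum hun hs2.summable).trans (le_of_eq ?_)
    rw [hs2.tsum_eq]; ring
  refine (h1.mono h2).congr fun t t' ht ht' => ?_
  have h3 : ‖κ t t'‖ < 1 := lt_of_le_of_lt (h.bound ht ht') (by linarith)
  have h4 := hasSum_taylorSeries_log h3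
  rw [← h4.tsum_eq]
  refine tsum_congr fun n => ?_
  rw [hu]
  ring

/-! ### the functions of the difference -/

noncomputable def fE (c x : ℝ) : ℝ := 1 / (Real.cosh (2 * x) - c)
noncomputable def fC (c x : ℝ) : ℝ := Real.cosh (2 * x) * fE c x
noncomputable def fS (c x : ℝ) : ℝ := Real.sinh (2 * x) * fE c x

variable {c : ℝ}

theorem den_ge (x : ℝ) : 1 - c ≤ Real.cosh (2 * x) - c := by
  linarith [Real.one_le_cosh (2 * x)]

theorem hd_cosh (x : ℝ) : HasDerivAt (fun x : ℝ => Real.cosh (2 * x)) (Real.sinh (2 * x) * 2) x := by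
  have h1 : HasDerivAt (fun x : ℝ => 2 * x) 2 x := by
    simpa using (hasDerivAt_id x).const_mul (2 : ℝ)
  exact (Real.hasDerivAt_cosh (2 * x)).comp x h1

theorem hd_sinh (x : ℝ) : HasDerivAt (fun x : ℝ => Real.sinh (2 * x)) (Real.cosh (2 * x) * 2) x := by
  have h1 : HasDerivAt (fun x : ℝ => 2 * x) 2 x := by
    simpa using (hasDerivAt_id x).const_mul (2 : ℝ)
  exact (Real.hasDerivAt_sinh (2 * x)).comp x h1

theorem fE_deriv (hc : c < 1) (x : ℝ) : HasDerivAt (fE c) (-2 * fS c x * fE c x) x := by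
  have h0 : Real.cosh (2 * x) - c ≠ 0 := by linarith [den_ge (c := c) x]
  have h1 : HasDerivAt (fun x : ℝ => Real.cosh (2 * x) - c) (Real.sinh (2 * x) * 2) x :=
    (hd_cosh x).sub_const c
  have e : fE c = (fun x : ℝ => Real.cosh (2 * x) - c)⁻¹ := by
    funext y; simp [fE]
  rw [e]
  refine (h1.inv h0).congr_deriv ?_
  simp only [fS, fE, Pi.inv_apply]
  field_simp

theorem fC_deriv (hc : c < 1) (x : ℝ) :
    HasDerivAt (fC c) (2 * fS c x - 2 * fS c x * fC c x) x := by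
  have h2 : HasDerivAt (fC c) _ x := (hd_cosh x).mul (fE_deriv hc x)
  refine h2.congr_deriv ?_
  simp only [fS, fC]
  ring

theorem fS_deriv (hc : c < 1) (x : ℝ) :
    HasDerivAt (fS c) (2 * fC c x - 2 * fS c x ^ 2) x := by
  have h2 : HasDerivAt (fS c) _ x := (hd_sinh x).mul (fE_deriv hc x)
  refine h2.congr_deriv ?_
  simp only [fS, fC]
  ring

/-- a common bound -/
noncomputable def Bc (c : ℝ) : ℝ := 1 + (1 + |c|) / (1 - c)

theorem one_le_Bc (hc : c < 1) : 1 ≤ Bc c := by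
  unfold Bc
  have : 0 < 1 - c := by linarith
  have h2 : 0 ≤ (1 + |c|) / (1 - c) := by positivity
  linarith

theorem fC_abs (hc : c < 1) (x : ℝ) : |fC c x| ≤ Bc c := by
  have h0 : 0 < 1 - c := by linarith
  have h1 := den_ge (c := c) x
  have h2 : 0 < Real.cosh (2 * x) - c := by linarith
  have h3 := Real.one_le_cosh (2 * x)
  unfold fC fE Bc
  rw [abs_mul, abs_of_pos (by linarith : 0 < Real.cosh (2 * x)), abs_of_pos (by positivity),
    mul_one_div, div_le_iff₀ h2]
  have h4 : (1 + |c|) ≤ (1 + |c|) / (1 - c) * (Real.cosh (2 * x) - c) := by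
    calc (1 + |c|) = (1 + |c|) / (1 - c) * (1 - c) := by field_simp
      _ ≤ _ := by gcongr
  have h5 : c ≤ |c| := le_abs_self c
  nlinarith

theorem fS_abs (hc : c < 1) (x : ℝ) : |fS c x| ≤ Bc c := by
  refine le_trans ?_ (fC_abs hc x)
  have h2 : 0 < Real.cosh (2 * x) - c := by
    have := den_ge (c := c) x
    linarith
  unfold fS fC
  rw [abs_mul, abs_mul]
  have h3 : |Real.sinh (2 * x)| ≤ |Real.cosh (2 * x)| := by
    rw [abs_of_pos (Real.cosh_pos _), Real.abs_sinh, ← Real.cosh_abs (2 * x)]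
    exact Real.sinh_lt_cosh _ |>.le
  gcongr

theorem fC_cont (hc : c < 1) : Continuous (fC c) :=
  continuous_iff_continuousAt.2 fun x => (fC_deriv hc x).continuousAt

theorem fS_cont (hc : c < 1) : Continuous (fS c) :=
  continuous_iff_continuousAt.2 fun x => (fS_deriv hc x).continuousAt

theorem exists_CS (hc : c < 1) : ∃ K : ℝ, 0 < K ∧ ∀ A : ℝ, 1 ≤ A →
    KC1 A (K * A ^ 3) (fun x => (fC c x : ℂ)) ∧ KC1 A (K * A ^ 3) (fun x => (fS c x : ℂ)) := by
  obtain ⟨K0, hK0, hK⟩ := exists_KC1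
  have hB := one_le_Bc hc
  set B := Bc c with hBdef
  have hB0 : 0 < B := by linarith
  refine ⟨K0 * (256 * B ^ 4), by positivity, fun A hA => ?_⟩
  have dC := fC_deriv hc
  have dS := fS_deriv hc
  have cC := fC_cont hc
  have cS := fS_cont hc
  have aC := fC_abs hc
  have aS := fS_abs hc
  set C := fC c with hC
  set S := fS c with hS
  have p2 : B ≤ B ^ 2 := by nlinarith
  have p3 : B ^ 2 ≤ B ^ 3 := by nlinarith [sq_nonneg B]
  have p4 : B ^ 3 ≤ B ^ 4 := by nlinarith [pow_pos hB0 3]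
  have p5 : 1 ≤ B ^ 4 := one_le_pow₀ hB
  -- bounds for monomials
  have m1 : ∀ x y z w : ℝ, |x| ≤ B → |y| ≤ B → |z| ≤ B → |w| ≤ B → |x * y * z * w| ≤ B ^ 4 := by
    intro x y z w hx hy hz hw
    rw [abs_mul, abs_mul, abs_mul]
    calc |x| * |y| * |z| * |w| ≤ B * B * B * B := by gcongr
      _ = B ^ 4 := by ring
  have m2 : ∀ x y z : ℝ, |x| ≤ B → |y| ≤ B → |z| ≤ B → |x * y * z| ≤ B ^ 4 := by
    intro x y z hx hy hz
    rw [abs_mul, abs_mul]
    calc |x| * |y| * |z| ≤ B * B * B := by gcongr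
      _ = B ^ 3 := by ring
      _ ≤ _ := p4
  have m3 : ∀ x y : ℝ, |x| ≤ B → |y| ≤ B → |x * y| ≤ B ^ 4 := by
    intro x y hx hy
    rw [abs_mul]
    calc |x| * |y| ≤ B * B := by gcongr
      _ = B ^ 2 := by ring
      _ ≤ _ := by linarith
  have m4 : ∀ x : ℝ, |x| ≤ B → |x| ≤ B ^ 4 := fun x hx => by linarith
  -- conversion
  have conv : ∀ (f f1 f2 f3 : ℝ → ℝ), (∀ x, HasDerivAt f (f1 x) x) →
      (∀ x, HasDerivAt f1 (f2 x) x) → (∀ x, HasDerivAt f2 (f3 x) x) → Continuous f3 →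
      (∀ x, |f x| ≤ 256 * B ^ 4) → (∀ x, |f1 x| ≤ 256 * B ^ 4) → (∀ x, |f2 x| ≤ 256 * B ^ 4) →
      (∀ x, |f3 x| ≤ 256 * B ^ 4) → KC1 A (K0 * (256 * B ^ 4) * A ^ 3) (fun x => (f x : ℂ)) := by
    intro f f1 f2 f3 h1 h2 h3 h4 b0 b1 b2 b3
    have h5 := hK A hA (fun x => (f x : ℂ)) (fun x => (f1 x : ℂ)) (fun x => (f2 x : ℂ))
      (fun x => (f3 x : ℂ)) (fun x => (h1 x).ofReal_comp) (fun x => (h2 x).ofReal_comp)
      (fun x => (h3 x).ofReal_comp) (by fun_prop) (256 * B ^ 4)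
      (fun x _ => by rw [Complex.norm_real]; exact b0 x)
      (fun x _ => by rw [Complex.norm_real]; exact b1 x)
      (fun x _ => by rw [Complex.norm_real]; exact b2 x)
      (fun x _ => by rw [Complex.norm_real]; exact b3 x)
    exact h5.mono (le_of_eq (by ring))
  constructor
  · refine conv C (fun x => 2 * S x - 2 * (S x * C x))
      (fun x => 4 * C x - 8 * (S x * S x) - 4 * (C x * C x) + 8 * (S x * S x * C x))
      (fun x => 8 * S x - 56 * (S x * C x) + 48 * (S x * C x * C x) + 48 * (S x * S x * S x)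
          - 48 * (S x * S x * S x * C x)) ?_ ?_ ?_ ?_ ?_ ?_ ?_ ?_
    · exact fun x => (dC x).congr_deriv (by ring)
    · intro x
      have h : HasDerivAt (fun x => 2 * S x - 2 * (S x * C x)) _ x :=
        ((dS x).const_mul 2).sub (((dS x).mul (dC x)).const_mul 2)
      exact h.congr_deriv (by ring)
    · intro x
      have h : HasDerivAt (fun x => 4 * C x - 8 * (S x * S x) - 4 * (C x * C x) +
          8 * (S x * S x * C x)) _ x :=
        ((((dC x).const_mul 4).sub (((dS x).mul (dS x)).const_mul 8)).sub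
        (((dC x).mul (dC x)).const_mul 4)).add ((((dS x).mul (dS x)).mul (dC x)).const_mul 8)
      refine h.congr_deriv ?_
      simp only [Pi.mul_apply]
      ring
    · fun_prop
    · intro x
      have q0 := m4 _ (aC x)
      linarith
    · intro x
      have q0 := abs_le.1 (m4 _ (aS x))
      have q1 := abs_le.1 (m3 _ _ (aS x) (aC x))
      rw [abs_le]
      constructor <;> linarith
    · intro x
      have q0 := abs_le.1 (m4 _ (aC x))
      have q1 := abs_le.1 (m3 _ _ (aS x) (aS x))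
      have q2 := abs_le.1 (m3 _ _ (aC x) (aC x))
      have q3 := abs_le.1 (m2 _ _ _ (aS x) (aS x) (aC x))
      rw [abs_le]
      constructor <;> linarith
    · intro x
      have q0 := abs_le.1 (m4 _ (aS x))
      have q1 := abs_le.1 (m3 _ _ (aS x) (aC x))
      have q2 := abs_le.1 (m2 _ _ _ (aS x) (aC x) (aC x))
      have q3 := abs_le.1 (m2 _ _ _ (aS x) (aS x) (aS x))
      have q4 := abs_le.1 (m1 _ _ _ _ (aS x) (aS x) (aS x) (aC x))
      rw [abs_le]
      constructor <;> linarith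
  · refine conv S (fun x => 2 * C x - 2 * (S x * S x))
      (fun x => 4 * S x - 12 * (S x * C x) + 8 * (S x * S x * S x))
      (fun x => 8 * C x - 32 * (S x * S x) - 24 * (C x * C x) + 96 * (S x * S x * C x)
          - 48 * (S x * S x * S x * S x)) ?_ ?_ ?_ ?_ ?_ ?_ ?_ ?_
    · exact fun x => (dS x).congr_deriv (by ring)
    · intro x
      have h : HasDerivAt (fun x => 2 * C x - 2 * (S x * S x)) _ x :=
        ((dC x).const_mul 2).sub (((dS x).mul (dS x)).const_mul 2)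
      exact h.congr_deriv (by ring)
    · intro x
      have h : HasDerivAt (fun x => 4 * S x - 12 * (S x * C x) + 8 * (S x * S x * S x)) _ x :=
        (((dS x).const_mul 4).sub (((dS x).mul (dC x)).const_mul 12)).add
        ((((dS x).mul (dS x)).mul (dS x)).const_mul 8)
      refine h.congr_deriv ?_
      simp only [Pi.mul_apply]
      ring
    · fun_prop
    · intro x
      have q0 := m4 _ (aS x)
      linarith
    · intro x
      have q0 := abs_le.1 (m4 _ (aC x))
      have q1 := abs_le.1 (m3 _ _ (aS x) (aS x))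
      rw [abs_le]
      constructor <;> linarith
    · intro x
      have q0 := abs_le.1 (m4 _ (aS x))
      have q1 := abs_le.1 (m3 _ _ (aS x) (aC x))
      have q2 := abs_le.1 (m2 _ _ _ (aS x) (aS x) (aS x))
      rw [abs_le]
      constructor <;> linarith
    · intro x
      have q0 := abs_le.1 (m4 _ (aC x))
      have q1 := abs_le.1 (m3 _ _ (aS x) (aS x))
      have q2 := abs_le.1 (m3 _ _ (aC x) (aC x))
      have q3 := abs_le.1 (m2 _ _ _ (aS x) (aS x) (aC x))
      have q4 := abs_le.1 (m1 _ _ _ _ (aS x) (aS x) (aS x) (aS x))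
      rw [abs_le]
      constructor <;> linarith

/-! ### `x coth x` -/

/-- `y tanh y` -/
noncomputable def fh (y : ℝ) : ℝ := y * Real.tanh y

/-- `x coth x` as a series -/
noncomputable def xcoth (x : ℝ) : ℝ := 1 + ∑' j : ℕ, fh (x / 2 ^ (j + 1))

theorem tanh_deriv (y : ℝ) : HasDerivAt Real.tanh (1 - Real.tanh y * Real.tanh y) y := by
  have h0 : Real.cosh y ≠ 0 := (Real.cosh_pos y).ne'
  have h1 : HasDerivAt (fun y => Real.sinh y / Real.cosh y) _ y :=
    (Real.hasDerivAt_sinh y).div (Real.hasDerivAt_cosh y) h0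
  have e : Real.tanh = fun y => Real.sinh y / Real.cosh y := by
    funext z; exact Real.tanh_eq_sinh_div_cosh z
  rw [e]
  refine h1.congr_deriv ?_
  field_simp

theorem tanh_abs_le (y : ℝ) : |Real.tanh y| ≤ 1 := (Real.abs_tanh_lt_one y).le

theorem exists_fh : ∃ K : ℝ, 0 < K ∧ ∀ A : ℝ, 1 ≤ A → ∀ j : ℕ,
    KC1 A (K * A ^ 4 * (1 / 2) ^ (j + 1)) (fun x => ((fh (x / 2 ^ (j + 1)) : ℝ) : ℂ)) := by
  obtain ⟨K0, hK0, hK⟩ := exists_KC1
  refine ⟨K0 * 12, by positivity, fun A hA j => ?_⟩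
  obtain ⟨q, hq⟩ : ∃ q : ℝ, q = (1 / 2) ^ (j + 1) := ⟨_, rfl⟩
  have hq0 : 0 < q := by rw [hq]; positivity
  have hq1 : q ≤ 1 / 2 := by
    rw [hq, pow_succ]
    have : (1 / 2 : ℝ) ^ j ≤ 1 := pow_le_one₀ (by norm_num) (by norm_num)
    nlinarith
  have hdiv : ∀ x : ℝ, x / 2 ^ (j + 1) = q * x := by
    intro x
    rw [hq, one_div, inv_pow]
    field_simp
  simp only [hdiv, ← hq]
  set u : ℝ → ℝ := fun x => Real.tanh (q * x) with hu
  have du : ∀ x, HasDerivAt u ((1 - u x * u x) * q) x := by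
    intro x
    have h1 : HasDerivAt (fun x : ℝ => q * x) q x := by
      simpa using (hasDerivAt_id x).const_mul q
    exact (tanh_deriv (q * x)).comp x h1
  have cu : Continuous u := continuous_iff_continuousAt.2 fun x => (du x).continuousAt
  have au : ∀ x, |u x| ≤ 1 := fun x => tanh_abs_le _
  have dx : ∀ x : ℝ, HasDerivAt (fun x : ℝ => q * x) q x := fun x => by
    simpa using (hasDerivAt_id x).const_mul q
  have vu : ∀ x, |1 - u x * u x| ≤ 1 := by
    intro x
    have h1 := au x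
    have h2 : u x * u x ≤ 1 := by
      have := abs_le.1 h1
      nlinarith
    rw [abs_le]
    constructor <;> nlinarith [mul_self_nonneg (u x)]
  -- chain
  have e0 : ∀ x, HasDerivAt (fun x => (q * x) * u x)
      (q * u x + q * ((q * x) * (1 - u x * u x))) x := by
    intro x
    have h : HasDerivAt (fun x => (q * x) * u x) _ x := (dx x).mul (du x)
    exact h.congr_deriv (by ring)
  have dv : ∀ x, HasDerivAt (fun x => 1 - u x * u x) (-(2 * q) * (u x * (1 - u x * u x))) x := by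
    intro x
    have h : HasDerivAt (fun x => 1 - u x * u x) _ x :=
      ((du x).mul (du x)).const_sub 1
    exact h.congr_deriv (by ring)
  have e1 : ∀ x, HasDerivAt (fun x => q * u x + q * ((q * x) * (1 - u x * u x)))
      (q ^ 2 * (2 * (1 - u x * u x) - 2 * ((q * x) * u x * (1 - u x * u x)))) x := by
    intro x
    have h : HasDerivAt (fun x => q * u x + q * ((q * x) * (1 - u x * u x))) _ x :=
      ((du x).const_mul q).add (((dx x).mul (dv x)).const_mul q)
    exact h.congr_deriv (by ring)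
  have e2 : ∀ x, HasDerivAt
      (fun x => q ^ 2 * (2 * (1 - u x * u x) - 2 * ((q * x) * u x * (1 - u x * u x))))
      (q ^ 3 * (-6 * (u x * (1 - u x * u x)) - 2 * ((q * x) * (1 - u x * u x) * (1 - u x * u x))
        + 4 * ((q * x) * u x * u x * (1 - u x * u x)))) x := by
    intro x
    have h : HasDerivAt
      (fun x => q ^ 2 * (2 * (1 - u x * u x) - 2 * ((q * x) * u x * (1 - u x * u x)))) _ x :=
      (((dv x).const_mul 2).sub ((((dx x).mul (du x)).mul (dv x)).const_mul 2)).const_mul (q ^ 2)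
    refine h.congr_deriv ?_
    simp only [Pi.mul_apply]
    ring
  have key := hK A hA (fun x => (((q * x) * u x : ℝ) : ℂ))
    (fun x => ((q * u x + q * ((q * x) * (1 - u x * u x)) : ℝ) : ℂ))
    (fun x => ((q ^ 2 * (2 * (1 - u x * u x) - 2 * ((q * x) * u x * (1 - u x * u x))) : ℝ) : ℂ))
    (fun x => ((q ^ 3 * (-6 * (u x * (1 - u x * u x)) - 2 * ((q * x) * (1 - u x * u x) *
      (1 - u x * u x)) + 4 * ((q * x) * u x * u x * (1 - u x * u x))) : ℝ) : ℂ))
    (fun x => (e0 x).ofReal_comp) (fun x => (e1 x).ofReal_comp) (fun x => (e2 x).ofReal_comp)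
    (by fun_prop) (12 * A * q) ?_ ?_ ?_ ?_
  · refine KC1.mono key (le_of_eq (by ring))
  all_goals
    intro x hx
    rw [Complex.norm_real, Real.norm_eq_abs]
    have hy : |q * x| ≤ A := by
      rw [abs_mul, abs_of_pos hq0]
      calc q * |x| ≤ 1 / 2 * (2 * A) := by gcongr
        _ = A := by ring
    have h1 := au x
    have h2 := vu x
    have hA0 : 0 < A := by linarith
    set y := q * x
    set v := 1 - u x * u x
    set w := u x
  · rw [abs_mul]
    have h3 : |y| ≤ 2 * A * q := by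
      rw [abs_mul, abs_of_pos hq0]
      nlinarith
    calc |y| * |w| ≤ (2 * A * q) * 1 := by gcongr
      _ ≤ 12 * A * q := by nlinarith
  · have h3 : |q * w + q * (y * v)| ≤ q * |w| + q * (|y| * |v|) := by
      refine (abs_add_le _ _).trans ?_
      rw [abs_mul, abs_mul, abs_mul, abs_of_pos hq0]
    have h4 : |y| * |v| ≤ A * 1 := by gcongr
    nlinarith
  · have h3 : |2 * v - 2 * (y * w * v)| ≤ 2 * |v| + 2 * (|y| * |w| * |v|) := by
      refine (abs_sub _ _).trans ?_
      rw [abs_mul, abs_mul, abs_mul, abs_mul, abs_of_pos (by norm_num : (0 : ℝ) < 2)]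
    have h4 : |y| * |w| * |v| ≤ A * 1 * 1 := by gcongr
    rw [abs_mul, abs_of_pos (by positivity)]
    have h5 : |2 * v - 2 * (y * w * v)| ≤ 4 * A := by linarith
    calc q ^ 2 * |2 * v - 2 * (y * w * v)| ≤ q ^ 2 * (4 * A) := by gcongr
      _ ≤ q * (4 * A) := by
        have : q ^ 2 ≤ q := by nlinarith
        gcongr
      _ ≤ _ := by nlinarith
  · have h3 : |-6 * (w * v) - 2 * (y * v * v) + 4 * (y * w * w * v)| ≤
        6 * (|w| * |v|) + 2 * (|y| * |v| * |v|) + 4 * (|y| * |w| * |w| * |v|) := by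
      refine (abs_add_le _ _).trans ?_
      refine add_le_add ((abs_sub _ _).trans (le_of_eq ?_)) (le_of_eq ?_)
      · simp only [abs_mul, abs_neg, Nat.abs_ofNat]
      · simp only [abs_mul, Nat.abs_ofNat]
    have h4 : |w| * |v| ≤ 1 * 1 := by gcongr
    have h5 : |y| * |v| * |v| ≤ A * 1 * 1 := by gcongr
    have h6 : |y| * |w| * |w| * |v| ≤ A * 1 * 1 * 1 := by gcongr
    rw [abs_mul, abs_of_pos (by positivity)]
    have h7 : |-6 * (w * v) - 2 * (y * v * v) + 4 * (y * w * w * v)| ≤ 12 * A := by linarith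
    calc q ^ 3 * |-6 * (w * v) - 2 * (y * v * v) + 4 * (y * w * w * v)| ≤ q ^ 3 * (12 * A) := by
          gcongr
      _ ≤ q * (12 * A) := by
        have : q ^ 3 ≤ q := by
          have h8 : q ^ 2 ≤ 1 := by nlinarith
          nlinarith
        gcongr
      _ = _ := by ring

theorem fh_summable (x : ℝ) : Summable fun j : ℕ => fh (x / 2 ^ (j + 1)) := by
  refine Summable.of_norm_bounded (g := fun j : ℕ => |x| / 2 * (1 / 2) ^ j)
    (summable_geometric_two.mul_left _) fun j => ?_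
  unfold fh
  rw [norm_mul, Real.norm_eq_abs, Real.norm_eq_abs, abs_div, abs_of_pos (by positivity : (0 : ℝ) < 2 ^ (j + 1))]
  calc |x| / 2 ^ (j + 1) * |Real.tanh (x / 2 ^ (j + 1))| ≤ |x| / 2 ^ (j + 1) * 1 := by
        gcongr
        exact tanh_abs_le _
    _ = _ := by
      rw [pow_succ, one_div, inv_pow]
      field_simp

theorem coth_half {y : ℝ} (hy : y ≠ 0) : y * (Real.cosh y / Real.sinh y) =
    fh (y / 2) + (y / 2) * (Real.cosh (y / 2) / Real.sinh (y / 2)) := by
  have h1 : Real.sinh (y / 2) ≠ 0 := by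
    rw [Ne, Real.sinh_eq_zero]
    simpa using hy
  have h2 : Real.cosh (y / 2) ≠ 0 := (Real.cosh_pos _).ne'
  have e1 : Real.sinh y = 2 * Real.sinh (y / 2) * Real.cosh (y / 2) := by
    rw [← Real.sinh_two_mul]; congr 1; ring
  have e2 : Real.cosh y = Real.cosh (y / 2) ^ 2 + Real.sinh (y / 2) ^ 2 := by
    rw [← Real.cosh_two_mul]; congr 1; ring
  unfold fh
  rw [Real.tanh_eq_sinh_div_cosh, e1, e2]
  field_simp
  ring

theorem coth_lim {x : ℝ} (hx : x ≠ 0) :
    Tendsto (fun N : ℕ => (x / 2 ^ N) * (Real.cosh (x / 2 ^ N) / Real.sinh (x / 2 ^ N))) atTop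
      (𝓝 1) := by
  have h0 : Tendsto (fun N : ℕ => x / 2 ^ N) atTop (𝓝[≠] 0) := by
    rw [tendsto_nhdsWithin_iff]
    constructor
    · have := (tendsto_pow_atTop_nhds_zero_of_lt_one (r := (1 / 2 : ℝ)) (by norm_num)
        (by norm_num)).const_mul x
      rw [mul_zero] at this
      refine this.congr fun N => ?_
      rw [one_div, inv_pow]
      rfl
    · exact Eventually.of_forall fun N => by
        simp only [Set.mem_compl_iff, Set.mem_singleton_iff]
        positivity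
  have h1 := (hasDerivAt_iff_tendsto_slope.1 (Real.hasDerivAt_sinh 0)).comp h0
  rw [Real.cosh_zero] at h1
  have h2 := (Real.continuous_cosh.tendsto 0).comp (h0.mono_right nhdsWithin_le_nhds)
  rw [Real.cosh_zero] at h2
  have h3 := h2.div h1 one_ne_zero
  rw [div_one] at h3
  refine h3.congr fun N => ?_
  simp only [Function.comp_apply, Pi.div_apply, slope_def_field, sub_zero, Real.sinh_zero]
  have hN : x / 2 ^ N ≠ 0 := by positivity
  field_simp

theorem xcoth_eq {x : ℝ} (hx : x ≠ 0) : xcoth x = x * (Real.cosh x / Real.sinh x) := by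
  have h1 : ∀ N : ℕ, ∑ j ∈ range N, fh (x / 2 ^ (j + 1)) = x * (Real.cosh x / Real.sinh x) -
      (x / 2 ^ N) * (Real.cosh (x / 2 ^ N) / Real.sinh (x / 2 ^ N)) := by
    intro N
    induction N with
    | zero => simp
    | succ N ih =>
      rw [sum_range_succ, ih]
      have h2 := coth_half (y := x / 2 ^ N) (by positivity)
      have h3 : x / 2 ^ N / 2 = x / 2 ^ (N + 1) := by
        rw [pow_succ]; field_simp
      rw [h3] at h2
      linarith
  have h2 := (fh_summable x).hasSum.tendsto_sum_nat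
  have h3 : Tendsto (fun N : ℕ => ∑ j ∈ range N, fh (x / 2 ^ (j + 1))) atTop
      (𝓝 (x * (Real.cosh x / Real.sinh x) - 1)) := by
    simp only [h1]
    exact (coth_lim hx).const_sub _
  have h4 := tendsto_nhds_unique h2 h3
  rw [xcoth, h4]
  ring

theorem xcoth_mul_sinh (x : ℝ) : xcoth x * Real.sinh x = x * Real.cosh x := by
  rcases eq_or_ne x 0 with rfl | hx
  · simp
  · have h1 : Real.sinh x ≠ 0 := by rwa [Ne, Real.sinh_eq_zero]
    rw [xcoth_eq hx]
    field_simp

theorem xcoth_zero : xcoth 0 = 1 := by simp [xcoth, fh]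

theorem exists_xcoth : ∃ K : ℝ, 0 < K ∧ ∀ R : ℝ, 1 ≤ R →
    KC R (K * R ^ 4) (fun t t' => ((xcoth (t - t') : ℝ) : ℂ)) := by
  obtain ⟨K, hK0, hK⟩ := exists_fh
  refine ⟨1 + 32 * K, by positivity, fun R hR => ?_⟩
  have h1 : ∀ j : ℕ, KC R (2 * (K * (2 * R) ^ 4 * (1 / 2) ^ (j + 1)))
      (fun t t' => ((fh ((t - t') / 2 ^ (j + 1)) : ℝ) : ℂ)) := fun j =>
    KC1.diff (f := fun x => ((fh (x / 2 ^ (j + 1)) : ℝ) : ℂ)) (hK (2 * R) (by linarith) j)
  have hs : HasSum (fun j : ℕ => 2 * (K * (2 * R) ^ 4 * (1 / 2 : ℝ) ^ (j + 1)))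
      (K * (2 * R) ^ 4 * 2) := by
    have := hasSum_geometric_two.mul_left (K * (2 * R) ^ 4)
    have e : (fun j : ℕ => 2 * (K * (2 * R) ^ 4 * (1 / 2 : ℝ) ^ (j + 1))) =
        fun j : ℕ => K * (2 * R) ^ 4 * (1 / 2 : ℝ) ^ j := by
      funext j
      rw [pow_succ]
      ring
    rw [e]
    exact this
  have h2 := KC.tsum h1 hs.summable
  have h3 := (KC.const (R := R) 1).add h2
  refine (h3.mono ?_).congr fun t t' _ _ => ?_
  · rw [hs.tsum_eq, norm_one]
    have : 1 ≤ R ^ 4 := one_le_pow₀ hR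
    nlinarith
  · unfold xcoth
    push_cast
    rfl

end NUKer
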