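import Pool.Agent.NUKer.Glob

/-!
Jensen and expectation for weighted (cut) statistics: points anywhere on the line.
-/

open Complex Finset Filter MeasureTheory
open scoped Topology ENNReal

namespace NUKer

/-- weighted centred statistic -/
noncomputable def nuw {ι : Type*} [Fintype ι] (R : ℝ) (ρ : ℝ → ℝ) (w s : ι → ℝ) (f : ℝ → ℝ) : ℝ :=
  ∑ i, w i * f (s i) - ∫ t in (-R)..R, f t * ρ t

/-- admissible weights -/
structure Wt {ι : Type*} (R : ℝ) (w s : ι → ℝ) : Prop where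
  le : ∀ i, |w i| ≤ 1
  sup : ∀ i, w i ≠ 0 → |s i| ≤ R

section nuw

variable {ι : Type*} [Fintype ι] {R : ℝ} {ρ : ℝ → ℝ} {w s : ι → ℝ}

theorem nuw_add (hρ : Continuous ρ) {f g : ℝ → ℝ} (hf : Continuous f) (hg : Continuous g) :
    nuw R ρ w s (fun t => f t + g t) = nuw R ρ w s f + nuw R ρ w s g := by
  unfold nuw
  simp only [add_mul, mul_add]
  rw [intervalIntegral.integral_add (ii hf hρ) (ii hg hρ), sum_add_distrib]
  ring

theorem nuw_smul (c : ℝ) (f : ℝ → ℝ) :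
    nuw R ρ w s (fun t => c * f t) = c * nuw R ρ w s f := by
  unfold nuw
  simp only [mul_assoc, mul_left_comm _ c _]
  rw [intervalIntegral.integral_const_mul, ← mul_sum]
  ring

theorem nuw_sub (hρ : Continuous ρ) {f g : ℝ → ℝ} (hf : Continuous f) (hg : Continuous g) :
    nuw R ρ w s (fun t => f t - g t) = nuw R ρ w s f - nuw R ρ w s g := by
  unfold nuw
  simp only [sub_mul, mul_sub]
  rw [intervalIntegral.integral_sub (ii hf hρ) (ii hg hρ), sum_sub_distrib]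
  ring

theorem nuw_sum (hρ : Continuous ρ) {α : Type*} (S : Finset α) {f : α → ℝ → ℝ}
    (hf : ∀ i ∈ S, Continuous (f i)) :
    nuw R ρ w s (fun t => ∑ i ∈ S, f i t) = ∑ i ∈ S, nuw R ρ w s (f i) := by
  classical
  induction S using Finset.induction_on with
  | empty => simp [nuw]
  | insert j S hj ih =>
    simp only [sum_insert hj]
    rw [nuw_add hρ (hf j (mem_insert_self j S))
      (continuous_finsetSum _ fun i hi => hf i (mem_insert_of_mem hi)),
      ih fun i hi => hf i (mem_insert_of_mem hi)]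

omit [Fintype ι] in
theorem wt_mul_le (hw : Wt R w s) {f : ℝ → ℝ} {C : ℝ} (hC0 : 0 ≤ C)
    (hC : ∀ t, |t| ≤ R → |f t| ≤ C) (i : ι) : |w i * f (s i)| ≤ C := by
  by_cases h0 : w i = 0
  · rw [h0, zero_mul, abs_zero]
    exact hC0
  · rw [abs_mul]
    calc |w i| * |f (s i)| ≤ 1 * C := by
          gcongr
          · exact hw.le i
          · exact hC _ (hw.sup i h0)
      _ = C := one_mul C

theorem abs_nuw_le (hR : 0 ≤ R) (hρ : Continuous ρ) (hw : Wt R w s) {f : ℝ → ℝ}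
    {C : ℝ} (hC : ∀ t, |t| ≤ R → |f t| ≤ C) :
    |nuw R ρ w s f| ≤ tv ι R ρ * C := by
  have hC0 : 0 ≤ C := (abs_nonneg _).trans (hC 0 (by simpa using hR))
  unfold nuw tv
  have h1 : |∑ i, w i * f (s i)| ≤ (Fintype.card ι : ℝ) * C := by
    refine (abs_sum_le_sum_abs _ _).trans ?_
    calc ∑ i, |w i * f (s i)| ≤ ∑ _i : ι, C := sum_le_sum fun i _ => wt_mul_le hw hC0 hC i
      _ = _ := by simp
  have h2 : |∫ t in (-R)..R, f t * ρ t| ≤ (∫ t in (-R)..R, |ρ t|) * C := by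
    have h3 : ‖∫ t in (-R)..R, f t * ρ t‖ ≤ ∫ t in (-R)..R, |ρ t| * C := by
      apply intervalIntegral.norm_integral_le_of_norm_le (by linarith)
      · refine ae_of_all _ fun t ht => ?_
        rw [norm_mul, mul_comm, Real.norm_eq_abs, Real.norm_eq_abs]
        exact mul_le_mul_of_nonneg_left (hC t (abs_le.2 ⟨ht.1.le, ht.2⟩)) (abs_nonneg _)
      · exact (by fun_prop : Continuous fun t => |ρ t| * C).intervalIntegrable _ _
    rwa [intervalIntegral.integral_mul_const] at h3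
  refine (abs_sub _ _).trans ?_
  rw [add_mul]
  exact add_le_add h1 h2

theorem nuw_cont (hρ : Continuous ρ) {κ : ℝ → ℝ → ℝ}
    (hκ : Continuous fun p : ℝ × ℝ => κ p.1 p.2) :
    Continuous fun t => nuw R ρ w s (κ t) := by
  unfold nuw
  refine Continuous.sub ?_ ?_
  · exact continuous_finsetSum _ fun i _ =>
      (hκ.comp (by fun_prop : Continuous fun t => (t, s i))).const_mul (w i)
  · apply intervalIntegral.continuous_parametric_intervalIntegral_of_continuous'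
    exact (by fun_prop : Continuous fun p : ℝ × ℝ => κ p.1 p.2 * ρ p.2)

theorem nuw_congr (hR : 0 ≤ R) (hw : Wt R w s) {f g : ℝ → ℝ}
    (h : ∀ t, |t| ≤ R → f t = g t) : nuw R ρ w s f = nuw R ρ w s g := by
  unfold nuw
  congr 1
  · refine sum_congr rfl fun i _ => ?_
    by_cases h0 : w i = 0
    · rw [h0, zero_mul, zero_mul]
    · rw [h _ (hw.sup i h0)]
  · apply intervalIntegral.integral_congr
    intro t ht
    rw [Set.uIcc_of_le (by linarith)] at ht
    simp only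
    rw [h t (abs_le.2 ⟨ht.1, ht.2⟩)]

end nuw

/-- the bilinear form -/
noncomputable def nuw2 {ι ι' : Type*} [Fintype ι] [Fintype ι'] (R : ℝ) (ρ ρ' : ℝ → ℝ)
    (w s : ι → ℝ) (w' s' : ι' → ℝ) (κ : ℝ → ℝ → ℝ) : ℝ :=
  nuw R ρ w s (fun t => nuw R ρ' w' s' (κ t))

section nuw2

variable {ι ι' : Type*} [Fintype ι] [Fintype ι'] {R : ℝ} {ρ ρ' : ℝ → ℝ} {w s : ι → ℝ}
  {w' s' : ι' → ℝ}

theorem nuw2_sub (hρ : Continuous ρ) (hρ' : Continuous ρ') {κ κ' : ℝ → ℝ → ℝ}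
    (hκ : Continuous fun p : ℝ × ℝ => κ p.1 p.2) (hκ' : Continuous fun p : ℝ × ℝ => κ' p.1 p.2) :
    nuw2 R ρ ρ' w s w' s' (fun t t' => κ t t' - κ' t t') =
      nuw2 R ρ ρ' w s w' s' κ - nuw2 R ρ ρ' w s w' s' κ' := by
  unfold nuw2
  have h1 : ∀ t, nuw R ρ' w' s' (fun t' => κ t t' - κ' t t') =
      nuw R ρ' w' s' (κ t) - nuw R ρ' w' s' (κ' t) := fun t =>
    nuw_sub hρ' (hκ.comp (by fun_prop : Continuous fun t' => (t, t')))
      (hκ'.comp (by fun_prop : Continuous fun t' => (t, t')))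
  simp only [h1]
  exact nuw_sub hρ (nuw_cont hρ' hκ) (nuw_cont hρ' hκ')

theorem nuw2_sum (hρ : Continuous ρ) (hρ' : Continuous ρ') {α : Type*} (S : Finset α)
    {κ : α → ℝ → ℝ → ℝ} (hκ : ∀ j ∈ S, Continuous fun p : ℝ × ℝ => κ j p.1 p.2) :
    nuw2 R ρ ρ' w s w' s' (fun t t' => ∑ j ∈ S, κ j t t') = ∑ j ∈ S, nuw2 R ρ ρ' w s w' s' (κ j) := by
  unfold nuw2
  have h1 : ∀ t, nuw R ρ' w' s' (fun t' => ∑ j ∈ S, κ j t t') = ∑ j ∈ S, nuw R ρ' w' s' (κ j t) :=
    fun t => nuw_sum hρ' S fun j hj => (hκ j hj).comp (by fun_prop : Continuous fun t' => (t, t'))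
  simp only [h1]
  exact nuw_sum hρ S fun j hj => nuw_cont hρ' (hκ j hj)

theorem nuw2_prod (f g : ℝ → ℝ) :
    nuw2 R ρ ρ' w s w' s' (fun t t' => f t * g t') = nuw R ρ w s f * nuw R ρ' w' s' g := by
  unfold nuw2
  have h1 : ∀ t, nuw R ρ' w' s' (fun t' => f t * g t') = nuw R ρ' w' s' g * f t := fun t => by
    rw [nuw_smul, mul_comm]
  simp only [h1]
  rw [nuw_smul, mul_comm]

theorem abs_nuw2_le (hR : 0 ≤ R) (hρ : Continuous ρ) (hρ' : Continuous ρ')
    (hs : Wt R w s) (hs' : Wt R w' s') {κ : ℝ → ℝ → ℝ} {C : ℝ}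
    (hC : ∀ t t', |t| ≤ R → |t'| ≤ R → |κ t t'| ≤ C) :
    |nuw2 R ρ ρ' w s w' s' κ| ≤ tv ι R ρ * (tv ι' R ρ' * C) :=
  abs_nuw_le hR hρ hs fun t ht => abs_nuw_le hR hρ' hs' fun t' ht' => hC t t' ht ht'

theorem nuw2_exp (hρ : Continuous ρ) (hρ' : Continuous ρ') (c : ℂ) (a b : ℝ) :
    nuw2 R ρ ρ' w s w' s' (fun t t' => (c * cexp (((a * t + b * t' : ℝ) : ℂ) * I)).re) ≤
      ‖c‖ * (((nuw R ρ w s fun t => Real.cos (a * t)) ^ 2 + (nuw R ρ w s fun t => Real.sin (a * t)) ^ 2) +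
        ((nuw R ρ' w' s' fun t => Real.cos (b * t)) ^ 2 +
          (nuw R ρ' w' s' fun t => Real.sin (b * t)) ^ 2)) / 2 := by
  have h1 : ∀ t t' : ℝ, (c * cexp (((a * t + b * t' : ℝ) : ℂ) * I)).re =
      ∑ j : Fin 4, (![fun t t' => (c.re * Real.cos (a * t)) * Real.cos (b * t'),
        fun t t' => (-c.re * Real.sin (a * t)) * Real.sin (b * t'),
        fun t t' => (-c.im * Real.sin (a * t)) * Real.cos (b * t'),
        fun t t' => (-c.im * Real.cos (a * t)) * Real.sin (b * t')] : Fin 4 → ℝ → ℝ → ℝ) j t t' := by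
    intro t t'
    rw [Complex.mul_re, exp_ofReal_mul_I_re, exp_ofReal_mul_I_im, Real.cos_add, Real.sin_add]
    simp [Fin.sum_univ_four]
    ring
  have h2 := nuw2_sum (w := w) (w' := w') (s := s) (s' := s') (R := R) hρ hρ' (univ : Finset (Fin 4))
    (κ := ![fun t t' => (c.re * Real.cos (a * t)) * Real.cos (b * t'),
        fun t t' => (-c.re * Real.sin (a * t)) * Real.sin (b * t'),
        fun t t' => (-c.im * Real.sin (a * t)) * Real.cos (b * t'),
        fun t t' => (-c.im * Real.cos (a * t)) * Real.sin (b * t')]) (by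
      intro j _
      fin_cases j <;> simp <;> fun_prop)
  simp only [h1]
  rw [h2, Fin.sum_univ_four]
  simp only [Matrix.cons_val_zero, Matrix.cons_val_one, Matrix.cons_val]
  rw [nuw2_prod, nuw2_prod, nuw2_prod, nuw2_prod, nuw_smul, nuw_smul, nuw_smul, nuw_smul]
  set C := nuw R ρ w s fun t => Real.cos (a * t)
  set S := nuw R ρ w s fun t => Real.sin (a * t)
  set C' := nuw R ρ' w' s' fun t => Real.cos (b * t)
  set S' := nuw R ρ' w' s' fun t => Real.sin (b * t)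
  have h3 : c.re * C * C' + -c.re * S * S' + -c.im * S * C' + -c.im * C * S' =
      (c * ((C + S * I) * (C' + S' * I))).re := by
    simp [Complex.mul_re, Complex.mul_im]
    ring
  rw [h3]
  refine (Complex.re_le_norm _).trans ?_
  rw [norm_mul, norm_mul, mul_div_assoc]
  refine mul_le_mul_of_nonneg_left ?_ (norm_nonneg _)
  have h4 : ‖(C + S * I : ℂ)‖ ^ 2 = C ^ 2 + S ^ 2 := by
    rw [Complex.sq_norm, Complex.normSq_add_mul_I]
  have h5 : ‖(C' + S' * I : ℂ)‖ ^ 2 = C' ^ 2 + S' ^ 2 := by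
    rw [Complex.sq_norm, Complex.normSq_add_mul_I]
  nlinarith [sq_nonneg (‖(C + S * I : ℂ)‖ - ‖(C' + S' * I : ℂ)‖)]

end nuw2

theorem nuw2_congr {ι ι' : Type*} [Fintype ι] [Fintype ι'] {R : ℝ} {ρ ρ' : ℝ → ℝ} {w s : ι → ℝ}
    {w' s' : ι' → ℝ} (hR : 0 ≤ R) (hs : Wt R w s) (hs' : Wt R w' s')
    {κ κ' : ℝ → ℝ → ℝ} (h : ∀ t t', |t| ≤ R → |t'| ≤ R → κ t t' = κ' t t') :
    nuw2 R ρ ρ' w s w' s' κ = nuw2 R ρ ρ' w s w' s' κ' :=
  nuw_congr hR hs fun t ht => nuw_congr hR hs' fun t' ht' => h t t' ht ht'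

end NUKer
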