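import Pool.Agent.NUKer.JenW

/-!
Jensen and expectation for whole line statistics cut by a function `b` of compact support; the
points may be anywhere on the line.
-/

open Complex Finset Filter MeasureTheory
open scoped Topology ENNReal

namespace NUKer

/-- cut function -/
structure Cutf (R : ℝ) (b : ℝ → ℝ) : Prop where
  R0 : 0 ≤ R
  cont : Continuous b
  le : ∀ t, |b t| ≤ 1
  zero : ∀ t, R < |t| → b t = 0

section

variable {R : ℝ} {b : ℝ → ℝ}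

theorem Cutf.wt {ι : Type*} (hb : Cutf R b) (s : ι → ℝ) : Wt R (fun i => b (s i)) s :=
  ⟨fun i => hb.le _, fun i h0 => by
    by_contra h
    exact h0 (hb.zero _ (not_le.1 h))⟩

theorem nuF_b {ι : Type*} [Fintype ι] (hb : Cutf R b) (ρ : ℝ → ℝ) (s : ι → ℝ) (f : ℝ → ℝ) :
    nuF ρ s (fun t => b t * f t) = nuw R (fun t => b t * ρ t) (fun i => b (s i)) s f := by
  unfold nuF nuw
  congr 1
  have hR := hb.R0
  rw [intervalIntegral.integral_of_le (by linarith), ← integral_Icc_eq_integral_Ioc]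
  have h1 : ∫ t, b t * f t * ρ t = ∫ t in Set.Icc (-R) R, b t * f t * ρ t := by
    rw [setIntegral_eq_integral_of_forall_compl_eq_zero]
    intro t ht
    rw [Set.mem_Icc, ← abs_le, not_le] at ht
    rw [hb.zero t ht, zero_mul, zero_mul]
  rw [h1]
  refine setIntegral_congr_fun measurableSet_Icc fun t _ => ?_
  ring

theorem nuF2_b {ι ι' : Type*} [Fintype ι] [Fintype ι'] (hb : Cutf R b) (ρ ρ' : ℝ → ℝ)
    (s : ι → ℝ) (s' : ι' → ℝ) (κ : ℝ → ℝ → ℝ) :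
    nuF2 ρ ρ' s s' (fun t t' => b t * b t' * κ t t') =
      nuw2 R (fun t => b t * ρ t) (fun t => b t * ρ' t) (fun i => b (s i)) s
        (fun i => b (s' i)) s' κ := by
  unfold nuF2 nuw2
  rw [← nuF_b hb]
  congr 1
  funext t
  have h1 : (fun t t' => b t * b t' * κ t t') t = fun t' => b t' * (b t * κ t t') := by
    funext t'; ring
  rw [h1, nuF_b hb, nuw_smul]

theorem KC.clamp' {Λ : ℝ} (hR : 0 ≤ R) {κ : ℝ → ℝ → ℝ}
    (h : KC R Λ (fun t t' => (κ t t' : ℂ))) :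
    Continuous fun p : ℝ × ℝ => (fun t t' => κ (cl R t) (cl R t')) p.1 p.2 := (h.clamp hR).1

end

variable {Ω : Type*} [MeasurableSpace Ω] {μ : Measure Ω} {W : Ω → ℝ≥0∞} {B : ℝ≥0∞}
  {R : ℝ} {b : ℝ → ℝ}

/-- **Jensen**, cut statistics -/
theorem jensenF {σ : Type} [Fintype σ] [Nonempty σ] {n : σ → ℕ} {s : ∀ k, Ω → Fin (n k) → ℝ}
    (hs : ∀ k, Measurable (s k)) (hb : Cutf R b)
    {ρ : σ → ℝ → ℝ} (hρ : ∀ k, Continuous (ρ k)) {κ : σ → σ → ℝ → ℝ → ℝ} {Λ : σ → σ → ℝ}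
    (hK : ∀ k k', KC R (Λ k k') (fun t t' => (κ k k' t t' : ℂ))) {Λ0 : ℝ} (hΛ0 : 0 < Λ0)
    (hΛ : ∑ k, ∑ k', Λ k k' ≤ Λ0) (hW : Measurable W)
    (hc : ∀ k (a : ℝ), ∫⁻ x, W x * ENNReal.ofReal (Real.exp (2 * Λ0 / (1 + |a|) *
      (nuF (ρ k) (s k x) fun t => b t * Real.cos (a * t)) ^ 2)) ∂μ ≤ B)
    (hsn : ∀ k (a : ℝ), ∫⁻ x, W x * ENNReal.ofReal (Real.exp (2 * Λ0 / (1 + |a|) *
      (nuF (ρ k) (s k x) fun t => b t * Real.sin (a * t)) ^ 2)) ∂μ ≤ B) :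
    ∫⁻ x, W x * ENNReal.ofReal (Real.exp (∑ k, ∑ k',
      nuF2 (ρ k) (ρ k') (s k x) (s k' x) (fun t t' => b t * b t' * κ k k' t t'))) ∂μ ≤ B := by
  have hR := hb.R0
  have hbc := hb.cont
  simp only [nuF_b hb] at hc hsn
  have h := jensenw (μ := μ) (W := W) (B := B) (w := fun k x i => b (s k x i))
    (fun k => by
      refine measurable_pi_lambda _ fun i => ?_
      exact hbc.measurable.comp ((measurable_pi_apply i).comp (hs k))) hs hR
    (fun k x => hb.wt (s k x)) (ρ := fun k t => b t * ρ k t)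
    (fun k => hbc.mul (hρ k)) (κ := fun k k' t t' => κ k k' (cl R t) (cl R t'))
    (fun k k' => ((hK k k').clamp hR).1) (fun k k' => ((hK k k').clamp hR).2) hΛ0 hΛ hW hc hsn
  refine le_trans (le_of_eq ?_) h
  refine lintegral_congr fun x => ?_
  congr 3
  refine sum_congr rfl fun k _ => sum_congr rfl fun k' _ => ?_
  rw [nuF2_b hb]
  exact nuw2_congr hR (hb.wt _) (hb.wt _) fun t t' ht ht' => by rw [cl_eq ht, cl_eq ht']

/-- **expectation**, cut statistics -/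
theorem expectF {σ : Type} [Fintype σ] {n : σ → ℕ} {s : ∀ k, Ω → Fin (n k) → ℝ}
    (hs : ∀ k, Measurable (s k)) (hb : Cutf R b)
    {ρ : σ → ℝ → ℝ} (hρ : ∀ k, Continuous (ρ k)) {κ : σ → σ → ℝ → ℝ → ℝ} {Λ : σ → σ → ℝ}
    (hK : ∀ k k', KC R (Λ k k') (fun t t' => (κ k k' t t' : ℂ))) {Λ0 : ℝ}
    (hΛ : ∑ k, ∑ k', Λ k k' ≤ Λ0) {V : ℝ} (hV : 0 ≤ V) [IsFiniteMeasure μ]
    (hc : ∀ k (a : ℝ), ∫⁻ x, ENNReal.ofReal
      ((nuF (ρ k) (s k x) fun t => b t * Real.cos (a * t)) ^ 2) ∂μ ≤ ENNReal.ofReal (V * (1 + |a|)))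
    (hsn : ∀ k (a : ℝ), ∫⁻ x, ENNReal.ofReal
      ((nuF (ρ k) (s k x) fun t => b t * Real.sin (a * t)) ^ 2) ∂μ ≤ ENNReal.ofReal (V * (1 + |a|))) :
    ∫⁻ x, ENNReal.ofReal (∑ k, ∑ k', |nuF2 (ρ k) (ρ k') (s k x) (s k' x)
      (fun t t' => b t * b t' * κ k k' t t')|) ∂μ ≤ ENNReal.ofReal (2 * V * Λ0) := by
  have hR := hb.R0
  have hbc := hb.cont
  simp only [nuF_b hb] at hc hsn
  have h := expectw (μ := μ) (w := fun k x i => b (s k x i))
    (fun k => by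
      refine measurable_pi_lambda _ fun i => ?_
      exact hbc.measurable.comp ((measurable_pi_apply i).comp (hs k))) hs hR
    (fun k x => hb.wt (s k x)) (ρ := fun k t => b t * ρ k t)
    (fun k => hbc.mul (hρ k)) hK hΛ hV hc hsn
  refine le_trans (le_of_eq ?_) h
  refine lintegral_congr fun x => ?_
  congr 1
  refine sum_congr rfl fun k _ => sum_congr rfl fun k' _ => ?_
  rw [nuF2_b hb]

end NUKer
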