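import Pool.Agent.NUKer.JenB

/-!
Jensen and expectation for weighted (cut) statistics: points anywhere on the line.
-/

open Complex Finset Filter MeasureTheory
open scoped Topology ENNReal

namespace NUKer

variable {Ω : Type*} [MeasurableSpace Ω] {μ : Measure Ω} {W : Ω → ℝ≥0∞} {B : ℝ≥0∞}

theorem measurable_nuw {n : ℕ} {R : ℝ} {ρ : ℝ → ℝ} {w s : Ω → Fin n → ℝ} (hw : Measurable w)
    (hs : Measurable s) {f : ℝ → ℝ} (hf : Continuous f) :
    Measurable fun x => nuw R ρ (w x) (s x) f := by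
  unfold nuw
  refine Measurable.sub ?_ measurable_const
  refine Finset.measurable_fun_sum _ fun i _ => ?_
  have h1 : Measurable fun x => f (s x i) := hf.measurable.comp (by fun_prop)
  fun_prop

/-- **Jensen**: one Fourier mode at a time. -/
theorem jensenw {σ : Type} [Fintype σ] [Nonempty σ] {n : σ → ℕ} {w s : ∀ k, Ω → Fin (n k) → ℝ}
    (hwm : ∀ k, Measurable (w k)) (hs : ∀ k, Measurable (s k)) {R : ℝ} (hR : 0 ≤ R) (hsR : ∀ k x, Wt R (w k x) (s k x))
    {ρ : σ → ℝ → ℝ} (hρ : ∀ k, Continuous (ρ k)) {κ : σ → σ → ℝ → ℝ → ℝ}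
    (hκ : ∀ k k', Continuous fun p : ℝ × ℝ => κ k k' p.1 p.2) {Λ : σ → σ → ℝ}
    (hK : ∀ k k', KC R (Λ k k') (fun t t' => (κ k k' t t' : ℂ))) {Λ0 : ℝ} (hΛ0 : 0 < Λ0)
    (hΛ : ∑ k, ∑ k', Λ k k' ≤ Λ0) (hW : Measurable W)
    (hc : ∀ k (a : ℝ), ∫⁻ x, W x * ENNReal.ofReal (Real.exp (2 * Λ0 / (1 + |a|) *
      (nuw R (ρ k) (w k x) (s k x) fun t => Real.cos (a * t)) ^ 2)) ∂μ ≤ B)
    (hsn : ∀ k (a : ℝ), ∫⁻ x, W x * ENNReal.ofReal (Real.exp (2 * Λ0 / (1 + |a|) *
      (nuw R (ρ k) (w k x) (s k x) fun t => Real.sin (a * t)) ^ 2)) ∂μ ≤ B) :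
    ∫⁻ x, W x * ENNReal.ofReal (Real.exp (∑ k, ∑ k',
      nuw2 R (ρ k) (ρ k') (w k x) (s k x) (w k' x) (s k' x) (κ k k'))) ∂μ ≤ B := by
  have h0 : ∫⁻ x, W x ∂μ ≤ B := by
    refine le_trans (lintegral_mono fun x => ?_) (hc (Classical.arbitrary σ) 0)
    calc W x = W x * ENNReal.ofReal 1 := by simp
      _ ≤ _ := by
        gcongr
        rw [← Real.exp_zero]
        exact Real.exp_le_exp.2 (by positivity)
  -- total error constant
  obtain ⟨T, hT⟩ : ∃ T : ℝ, T = ∑ k, ∑ k', tv (Fin (n k)) R (ρ k) * tv (Fin (n k')) R (ρ k') :=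
    ⟨_, rfl⟩
  have key : ∀ ε : ℝ, 0 < ε → ∫⁻ x, W x * ENNReal.ofReal (Real.exp (∑ k, ∑ k',
      nuw2 R (ρ k) (ρ k') (w k x) (s k x) (w k' x) (s k' x) (κ k k'))) ∂μ ≤
      ENNReal.ofReal (Real.exp (T * ε)) * B := by
    intro ε hε
    choose ι hι c a b h1 h2 using fun p : σ × σ => hK p.1 p.2 ε hε
    -- the modes
    set g : (Σ p : σ × σ, ι p × Fin 4) → Ω → ℝ := fun j x =>
      ![2 * Λ0 / (1 + |a j.1 j.2.1|) *
          (nuw R (ρ j.1.1) (w j.1.1 x) (s j.1.1 x) fun t => Real.cos (a j.1 j.2.1 * t)) ^ 2,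
        2 * Λ0 / (1 + |a j.1 j.2.1|) *
          (nuw R (ρ j.1.1) (w j.1.1 x) (s j.1.1 x) fun t => Real.sin (a j.1 j.2.1 * t)) ^ 2,
        2 * Λ0 / (1 + |b j.1 j.2.1|) *
          (nuw R (ρ j.1.2) (w j.1.2 x) (s j.1.2 x) fun t => Real.cos (b j.1 j.2.1 * t)) ^ 2,
        2 * Λ0 / (1 + |b j.1 j.2.1|) *
          (nuw R (ρ j.1.2) (w j.1.2 x) (s j.1.2 x) fun t => Real.sin (b j.1 j.2.1 * t)) ^ 2] j.2.2 with hg
    set ww : (Σ p : σ × σ, ι p × Fin 4) → ℝ := fun j =>
      ‖c j.1 j.2.1‖ * (1 + |a j.1 j.2.1| + |b j.1 j.2.1|) / (4 * Λ0) with hw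
    have hw0 : ∀ j ∈ (univ : Finset (Σ p : σ × σ, ι p × Fin 4)), 0 ≤ ww j := fun j _ => by
      rw [hw]; positivity
    have hws : ∑ j, ww j ≤ 1 := by
      rw [Fintype.sum_sigma, hw]
      have e1 : ∀ p : σ × σ, ∑ y : ι p × Fin 4, ‖c p y.1‖ * (1 + |a p y.1| + |b p y.1|) / (4 * Λ0) ≤
          Λ p.1 p.2 / Λ0 := by
        intro p
        rw [Fintype.sum_prod_type]
        simp only [sum_const, card_univ, Fintype.card_fin, nsmul_eq_mul]
        calc ∑ i, ((4 : ℕ) : ℝ) * (‖c p i‖ * (1 + |a p i| + |b p i|) / (4 * Λ0)) =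
            (∑ i, ‖c p i‖ * (1 + |a p i| + |b p i|)) / Λ0 := by
              rw [sum_div]
              refine sum_congr rfl fun i _ => ?_
              push_cast
              field_simp
          _ ≤ _ := by
            gcongr
            exact h1 p
      calc ∑ p : σ × σ, ∑ y : ι p × Fin 4, ‖c p y.1‖ * (1 + |a p y.1| + |b p y.1|) / (4 * Λ0) ≤
          ∑ p : σ × σ, Λ p.1 p.2 / Λ0 := sum_le_sum fun p _ => e1 p
        _ = (∑ k, ∑ k', Λ k k') / Λ0 := by rw [← sum_div, Fintype.sum_prod_type]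
        _ ≤ 1 := by rw [div_le_one hΛ0]; exact hΛ
    have hgm : ∀ j ∈ (univ : Finset (Σ p : σ × σ, ι p × Fin 4)), Measurable (g j) := by
      rintro ⟨p, i, k⟩ _
      rw [hg]
      have m1 := measurable_nuw (R := R) (ρ := ρ p.1) (hwm p.1) (hs p.1)
        (f := fun t => Real.cos (a p i * t)) (by fun_prop)
      have m2 := measurable_nuw (R := R) (ρ := ρ p.1) (hwm p.1) (hs p.1)
        (f := fun t => Real.sin (a p i * t)) (by fun_prop)
      have m3 := measurable_nuw (R := R) (ρ := ρ p.2) (hwm p.2) (hs p.2)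
        (f := fun t => Real.cos (b p i * t)) (by fun_prop)
      have m4 := measurable_nuw (R := R) (ρ := ρ p.2) (hwm p.2) (hs p.2)
        (f := fun t => Real.sin (b p i * t)) (by fun_prop)
      fin_cases k <;> simp <;> fun_prop
    have hgB : ∀ j ∈ (univ : Finset (Σ p : σ × σ, ι p × Fin 4)),
        ∫⁻ x, W x * ENNReal.ofReal (Real.exp (g j x)) ∂μ ≤ B := by
      rintro ⟨p, i, k⟩ _
      rw [hg]
      fin_cases k
      · exact hc p.1 (a p i)
      · exact hsn p.1 (a p i)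
      · exact hc p.2 (b p i)
      · exact hsn p.2 (b p i)
    have hconv := lint_conv (μ := μ) (W := W) (B := B) univ hw0 hws hW hgm h0 hgB
    have hpt : ∀ x, ∑ k, ∑ k', nuw2 R (ρ k) (ρ k') (w k x) (s k x) (w k' x) (s k' x) (κ k k') ≤
        T * ε + ∑ j, ww j * g j x := by
      intro x
      have e2 : ∀ p : σ × σ, nuw2 R (ρ p.1) (ρ p.2) (w p.1 x) (s p.1 x) (w p.2 x) (s p.2 x) (κ p.1 p.2) ≤
          tv (Fin (n p.1)) R (ρ p.1) * tv (Fin (n p.2)) R (ρ p.2) * ε +
          ∑ y : ι p × Fin 4, ww ⟨p, y⟩ * g ⟨p, y⟩ x := by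
        intro p
        have c1 : Continuous fun q : ℝ × ℝ => ∑ i,
            (c p i * cexp (((a p i * q.1 + b p i * q.2 : ℝ) : ℂ) * I)).re := by fun_prop
        have h3 := nuw2_sub (R := R) (w := w p.1 x) (s := s p.1 x) (w' := w p.2 x) (s' := s p.2 x) (hρ p.1) (hρ p.2)
          (hκ p.1 p.2) (κ' := fun t t' => ∑ i,
            (c p i * cexp (((a p i * t + b p i * t' : ℝ) : ℂ) * I)).re) c1
        have h4 := abs_nuw2_le (w := w p.1 x) (s := s p.1 x) (w' := w p.2 x) (s' := s p.2 x) hR (hρ p.1) (hρ p.2)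
          (hsR p.1 x) (hsR p.2 x) (κ := fun t t' => κ p.1 p.2 t t' - ∑ i,
            (c p i * cexp (((a p i * t + b p i * t' : ℝ) : ℂ) * I)).re) (C := ε) (by
          intro t t' ht ht'
          have h5 := h2 p t t' ht ht'
          have h6 := Complex.abs_re_le_norm ((κ p.1 p.2 t t' : ℂ) -
            ∑ i, c p i * cexp (((a p i * t + b p i * t' : ℝ) : ℂ) * I))
          rw [Complex.sub_re, Complex.ofReal_re, Complex.re_sum] at h6
          exact h6.trans h5)
        have h7 := nuw2_sum (R := R) (w := w p.1 x) (s := s p.1 x) (w' := w p.2 x) (s' := s p.2 x) (hρ p.1) (hρ p.2)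
          (univ : Finset (ι p)) (κ := fun i t t' =>
            (c p i * cexp (((a p i * t + b p i * t' : ℝ) : ℂ) * I)).re)
          (fun i _ => by fun_prop)
        have h8 : ∀ i, nuw2 R (ρ p.1) (ρ p.2) (w p.1 x) (s p.1 x) (w p.2 x) (s p.2 x) (fun t t' =>
            (c p i * cexp (((a p i * t + b p i * t' : ℝ) : ℂ) * I)).re) ≤
            ∑ k, ww ⟨p, i, k⟩ * g ⟨p, i, k⟩ x := by
          intro i
          refine (nuw2_exp (hρ p.1) (hρ p.2) (c p i) (a p i) (b p i)).trans ?_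
          rw [Fin.sum_univ_four]
          simp only [hw, hg, Matrix.cons_val_zero, Matrix.cons_val_one, Matrix.cons_val]
          set C := nuw R (ρ p.1) (w p.1 x) (s p.1 x) fun t => Real.cos (a p i * t)
          set S := nuw R (ρ p.1) (w p.1 x) (s p.1 x) fun t => Real.sin (a p i * t)
          set C' := nuw R (ρ p.2) (w p.2 x) (s p.2 x) fun t => Real.cos (b p i * t)
          set S' := nuw R (ρ p.2) (w p.2 x) (s p.2 x) fun t => Real.sin (b p i * t)
          have pa := abs_nonneg (a p i)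
          have pb := abs_nonneg (b p i)
          have pc := norm_nonneg (c p i)
          have q1 : ‖c p i‖ / 2 ≤ ‖c p i‖ * (1 + |a p i| + |b p i|) / (4 * Λ0) *
              (2 * Λ0 / (1 + |a p i|)) := by
            have : ‖c p i‖ * (1 + |a p i| + |b p i|) / (4 * Λ0) * (2 * Λ0 / (1 + |a p i|)) =
              ‖c p i‖ / 2 * ((1 + |a p i| + |b p i|) / (1 + |a p i|)) := by
              field_simp
              ring
            rw [this]
            refine le_mul_of_one_le_right (by positivity) ?_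
            rw [one_le_div (by positivity)]
            linarith
          have q2 : ‖c p i‖ / 2 ≤ ‖c p i‖ * (1 + |a p i| + |b p i|) / (4 * Λ0) *
              (2 * Λ0 / (1 + |b p i|)) := by
            have : ‖c p i‖ * (1 + |a p i| + |b p i|) / (4 * Λ0) * (2 * Λ0 / (1 + |b p i|)) =
              ‖c p i‖ / 2 * ((1 + |a p i| + |b p i|) / (1 + |b p i|)) := by
              field_simp
              ring
            rw [this]
            refine le_mul_of_one_le_right (by positivity) ?_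
            rw [one_le_div (by positivity)]
            linarith
          calc ‖c p i‖ * (C ^ 2 + S ^ 2 + (C' ^ 2 + S' ^ 2)) / 2 =
              ‖c p i‖ / 2 * C ^ 2 + ‖c p i‖ / 2 * S ^ 2 + ‖c p i‖ / 2 * C' ^ 2 +
                ‖c p i‖ / 2 * S' ^ 2 := by ring
            _ ≤ (‖c p i‖ * (1 + |a p i| + |b p i|) / (4 * Λ0) *
              (2 * Λ0 / (1 + |a p i|))) * C ^ 2 + (‖c p i‖ * (1 + |a p i| + |b p i|) / (4 * Λ0) *
              (2 * Λ0 / (1 + |a p i|))) * S ^ 2 + (‖c p i‖ * (1 + |a p i| + |b p i|) / (4 * Λ0) *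
              (2 * Λ0 / (1 + |b p i|))) * C' ^ 2 + (‖c p i‖ * (1 + |a p i| + |b p i|) / (4 * Λ0) *
              (2 * Λ0 / (1 + |b p i|))) * S' ^ 2 := by gcongr
            _ = _ := by ring
        rw [Fintype.sum_prod_type]
        have h9 : ∑ i, nuw2 R (ρ p.1) (ρ p.2) (w p.1 x) (s p.1 x) (w p.2 x) (s p.2 x) (fun t t' =>
            (c p i * cexp (((a p i * t + b p i * t' : ℝ) : ℂ) * I)).re) ≤
            ∑ i, ∑ k, ww ⟨p, i, k⟩ * g ⟨p, i, k⟩ x := sum_le_sum fun i _ => h8 i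
        rw [← h7] at h9
        have h10 := (abs_le.1 h4).2
        linarith
      have e3 : ∑ k, ∑ k', nuw2 R (ρ k) (ρ k') (w k x) (s k x) (w k' x) (s k' x) (κ k k') =
          ∑ p : σ × σ, nuw2 R (ρ p.1) (ρ p.2) (w p.1 x) (s p.1 x) (w p.2 x) (s p.2 x) (κ p.1 p.2) :=
        (Fintype.sum_prod_type (f := fun p : σ × σ =>
        nuw2 R (ρ p.1) (ρ p.2) (w p.1 x) (s p.1 x) (w p.2 x) (s p.2 x) (κ p.1 p.2))).symm
      have e4 : T = ∑ p : σ × σ, tv (Fin (n p.1)) R (ρ p.1) * tv (Fin (n p.2)) R (ρ p.2) := by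
        rw [hT]
        exact (Fintype.sum_prod_type (f := fun p : σ × σ =>
          tv (Fin (n p.1)) R (ρ p.1) * tv (Fin (n p.2)) R (ρ p.2))).symm
      rw [e3, e4, Fintype.sum_sigma, sum_mul, ← sum_add_distrib]
      exact sum_le_sum fun p _ => e2 p
    calc ∫⁻ x, W x * ENNReal.ofReal (Real.exp (∑ k, ∑ k',
          nuw2 R (ρ k) (ρ k') (w k x) (s k x) (w k' x) (s k' x) (κ k k'))) ∂μ ≤
        ∫⁻ x, ENNReal.ofReal (Real.exp (T * ε)) *
          (W x * ENNReal.ofReal (Real.exp (∑ j, ww j * g j x))) ∂μ := by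
          refine lintegral_mono fun x => ?_
          have h3 := Real.exp_le_exp.2 (hpt x)
          rw [Real.exp_add] at h3
          calc W x * ENNReal.ofReal (Real.exp (∑ k, ∑ k',
              nuw2 R (ρ k) (ρ k') (w k x) (s k x) (w k' x) (s k' x) (κ k k'))) ≤
              W x * ENNReal.ofReal (Real.exp (T * ε) * Real.exp (∑ j, ww j * g j x)) := by gcongr
            _ = _ := by
              rw [ENNReal.ofReal_mul (Real.exp_pos _).le]
              ring
      _ = ENNReal.ofReal (Real.exp (T * ε)) *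
          ∫⁻ x, (W x * ENNReal.ofReal (Real.exp (∑ j, ww j * g j x))) ∂μ := by
          rw [lintegral_const_mul']
          exact ENNReal.ofReal_ne_top
      _ ≤ _ := by gcongr
  have hlim : Tendsto (fun ε : ℝ => ENNReal.ofReal (Real.exp (T * ε)) * B) (𝓝[>] 0)
      (𝓝 (ENNReal.ofReal (Real.exp (T * 0)) * B)) := by
    apply Tendsto.mono_left _ nhdsWithin_le_nhds
    have hcont : Continuous fun ε : ℝ => ENNReal.ofReal (Real.exp (T * ε)) :=
      ENNReal.continuous_ofReal.comp (by fun_prop)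
    refine ENNReal.Tendsto.mul_const (hcont.tendsto 0) (Or.inl ?_)
    simp
  rw [mul_zero, Real.exp_zero, ENNReal.ofReal_one, one_mul] at hlim
  exact ge_of_tendsto hlim (eventually_nhdsWithin_of_forall fun ε hε => key ε hε)


theorem abs_nuw2_exp {ι ι' : Type*} [Fintype ι] [Fintype ι'] {R : ℝ} {ρ ρ' : ℝ → ℝ} {w s : ι → ℝ}
    {w' s' : ι' → ℝ} (hρ : Continuous ρ) (hρ' : Continuous ρ') (c : ℂ) (a b : ℝ) :
    |nuw2 R ρ ρ' w s w' s' (fun t t' => (c * cexp (((a * t + b * t' : ℝ) : ℂ) * I)).re)| ≤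
      ‖c‖ * (((nuw R ρ w s fun t => Real.cos (a * t)) ^ 2 + (nuw R ρ w s fun t => Real.sin (a * t)) ^ 2) +
        ((nuw R ρ' w' s' fun t => Real.cos (b * t)) ^ 2 +
          (nuw R ρ' w' s' fun t => Real.sin (b * t)) ^ 2)) / 2 := by
  rw [abs_le]
  constructor
  · have h := nuw2_exp (R := R) (w := w) (s := s) (w' := w') (s' := s') hρ hρ' (-c) a b
    rw [norm_neg] at h
    have e : nuw2 R ρ ρ' w s w' s' (fun t t' => (-c * cexp (((a * t + b * t' : ℝ) : ℂ) * I)).re) =
        - nuw2 R ρ ρ' w s w' s' (fun t t' => (c * cexp (((a * t + b * t' : ℝ) : ℂ) * I)).re) := by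
      have h1 := nuw2_sub (R := R) (w := w) (s := s) (w' := w') (s' := s') hρ hρ' (κ := fun _ _ => 0)
        (κ' := fun t t' => (c * cexp (((a * t + b * t' : ℝ) : ℂ) * I)).re) continuous_const
        (by fun_prop)
      have h2 : nuw2 R ρ ρ' w s w' s' (fun _ _ => (0 : ℝ)) = 0 := by
        simp [nuw2, nuw]
      rw [h2, zero_sub] at h1
      rw [← h1]
      congr 1
      funext t t'
      rw [neg_mul, Complex.neg_re, zero_sub]
    rw [e] at h
    linarith
  · exact nuw2_exp hρ hρ' c a b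

theorem measurable_nuw2 {n n' : ℕ} {R : ℝ} {w s : Ω → Fin n → ℝ} {w' s' : Ω → Fin n' → ℝ}
    (hw : Measurable w) (hs : Measurable s) (hw' : Measurable w')
    (hs' : Measurable s') {ρ ρ' : ℝ → ℝ} (hρ : Continuous ρ) (hρ' : Continuous ρ')
    {κ : ℝ → ℝ → ℝ} (hκ : Continuous fun p : ℝ × ℝ => κ p.1 p.2) :
    Measurable fun x => nuw2 R ρ ρ' (w x) (s x) (w' x) (s' x) κ := by
  have h1 : Continuous fun p : ((Fin n' → ℝ) × (Fin n' → ℝ)) × ℝ => nuw R ρ' p.1.1 p.1.2 (κ p.2) := by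
    unfold nuw
    refine Continuous.sub ?_ ?_
    · refine continuous_finsetSum _ fun i _ => Continuous.mul (by fun_prop) ?_
      exact hκ.comp (by fun_prop : Continuous fun p : ((Fin n' → ℝ) × (Fin n' → ℝ)) × ℝ =>
        (p.2, p.1.2 i))
    · apply intervalIntegral.continuous_parametric_intervalIntegral_of_continuous'
      have h2 : Continuous fun q : (((Fin n' → ℝ) × (Fin n' → ℝ)) × ℝ) × ℝ => κ q.1.2 q.2 :=
        hκ.comp (by fun_prop : Continuous fun q : (((Fin n' → ℝ) × (Fin n' → ℝ)) × ℝ) × ℝ =>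
          (q.1.2, q.2))
      exact (by fun_prop : Continuous fun q : (((Fin n' → ℝ) × (Fin n' → ℝ)) × ℝ) × ℝ =>
        κ q.1.2 q.2 * ρ' q.2)
  have h3 : Continuous fun p : ((Fin n → ℝ) × (Fin n → ℝ)) × ((Fin n' → ℝ) × (Fin n' → ℝ)) =>
      nuw2 R ρ ρ' p.1.1 p.1.2 p.2.1 p.2.2 κ := by
    unfold nuw2
    show Continuous fun p : ((Fin n → ℝ) × (Fin n → ℝ)) × ((Fin n' → ℝ) × (Fin n' → ℝ)) =>
      (∑ i, p.1.1 i * nuw R ρ' p.2.1 p.2.2 (κ (p.1.2 i)) -
      ∫ t in (-R)..R, nuw R ρ' p.2.1 p.2.2 (κ t) * ρ t)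
    refine Continuous.sub ?_ ?_
    · refine continuous_finsetSum _ fun i _ => Continuous.mul (by fun_prop) ?_
      exact h1.comp (by fun_prop : Continuous fun p : ((Fin n → ℝ) × (Fin n → ℝ)) ×
        ((Fin n' → ℝ) × (Fin n' → ℝ)) => ((p.2.1, p.2.2), p.1.2 i))
    · apply intervalIntegral.continuous_parametric_intervalIntegral_of_continuous'
      have h2 : Continuous fun q : (((Fin n → ℝ) × (Fin n → ℝ)) ×
          ((Fin n' → ℝ) × (Fin n' → ℝ))) × ℝ => nuw R ρ' q.1.2.1 q.1.2.2 (κ q.2) :=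
        h1.comp (by fun_prop : Continuous fun q : (((Fin n → ℝ) × (Fin n → ℝ)) ×
          ((Fin n' → ℝ) × (Fin n' → ℝ))) × ℝ => ((q.1.2.1, q.1.2.2), q.2))
      exact (by fun_prop : Continuous fun q : (((Fin n → ℝ) × (Fin n → ℝ)) ×
          ((Fin n' → ℝ) × (Fin n' → ℝ))) × ℝ => nuw R ρ' q.1.2.1 q.1.2.2 (κ q.2) * ρ q.2)
  exact h3.measurable.comp ((hw.prodMk hs).prodMk (hw'.prodMk hs'))

/-- **expectation** of the absolute value of the quadratic form -/
theorem expectw {σ : Type} [Fintype σ] {n : σ → ℕ} {w s : ∀ k, Ω → Fin (n k) → ℝ}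
    (hwm : ∀ k, Measurable (w k)) (hs : ∀ k, Measurable (s k)) {R : ℝ} (hR : 0 ≤ R)
    (hsR : ∀ k x, Wt R (w k x) (s k x))
    {ρ : σ → ℝ → ℝ} (hρ : ∀ k, Continuous (ρ k)) {κ : σ → σ → ℝ → ℝ → ℝ} {Λ : σ → σ → ℝ}
    (hK : ∀ k k', KC R (Λ k k') (fun t t' => (κ k k' t t' : ℂ))) {Λ0 : ℝ}
    (hΛ : ∑ k, ∑ k', Λ k k' ≤ Λ0) {V : ℝ} (hV : 0 ≤ V) [IsFiniteMeasure μ]
    (hc : ∀ k (a : ℝ), ∫⁻ x, ENNReal.ofReal
      ((nuw R (ρ k) (w k x) (s k x) fun t => Real.cos (a * t)) ^ 2) ∂μ ≤ ENNReal.ofReal (V * (1 + |a|)))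
    (hsn : ∀ k (a : ℝ), ∫⁻ x, ENNReal.ofReal
      ((nuw R (ρ k) (w k x) (s k x) fun t => Real.sin (a * t)) ^ 2) ∂μ ≤ ENNReal.ofReal (V * (1 + |a|))) :
    ∫⁻ x, ENNReal.ofReal (∑ k, ∑ k', |nuw2 R (ρ k) (ρ k') (w k x) (s k x) (w k' x) (s k' x) (κ k k')|) ∂μ ≤
      ENNReal.ofReal (2 * V * Λ0) := by
  obtain ⟨T, hT⟩ : ∃ T : ℝ, T = ∑ k, ∑ k', tv (Fin (n k)) R (ρ k) * tv (Fin (n k')) R (ρ k') :=
    ⟨_, rfl⟩
  have htv : ∀ k, 0 ≤ tv (Fin (n k)) R (ρ k) := fun k => by
    unfold tv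
    have : 0 ≤ ∫ t in (-R)..R, |ρ k t| :=
      intervalIntegral.integral_nonneg (by linarith) fun t _ => abs_nonneg _
    positivity
  have hT0 : 0 ≤ T := by
    rw [hT]
    exact sum_nonneg fun k _ => sum_nonneg fun k' _ => mul_nonneg (htv k) (htv k')
  have hone : ∀ (k k' : σ) (ε : ℝ), 0 < ε →
      ∫⁻ x, ENNReal.ofReal |nuw2 R (ρ k) (ρ k') (w k x) (s k x) (w k' x) (s k' x) (κ k k')| ∂μ ≤
      ENNReal.ofReal (2 * V * Λ k k') +
        ENNReal.ofReal (tv (Fin (n k)) R (ρ k) * tv (Fin (n k')) R (ρ k') * ε) * μ Set.univ := by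
    intro k k' ε hε
    obtain ⟨ι, hι, c, a, b, h1, h2⟩ := ((hK k k').clamp hR).2 ε hε
    have hcont := ((hK k k').clamp hR).1
    have hpt : ∀ x, |nuw2 R (ρ k) (ρ k') (w k x) (s k x) (w k' x) (s k' x) (κ k k')| ≤
        (∑ i, ‖c i‖ / 2 * ((nuw R (ρ k) (w k x) (s k x) fun t => Real.cos (a i * t)) ^ 2 +
          (nuw R (ρ k) (w k x) (s k x) fun t => Real.sin (a i * t)) ^ 2 +
          (nuw R (ρ k') (w k' x) (s k' x) fun t => Real.cos (b i * t)) ^ 2 +
          (nuw R (ρ k') (w k' x) (s k' x) fun t => Real.sin (b i * t)) ^ 2)) +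
        tv (Fin (n k)) R (ρ k) * tv (Fin (n k')) R (ρ k') * ε := by
      intro x
      have c1 : Continuous fun q : ℝ × ℝ => ∑ i,
          (c i * cexp (((a i * q.1 + b i * q.2 : ℝ) : ℂ) * I)).re := by fun_prop
      have h3 := nuw2_sub (R := R) (w := w k x) (s := s k x) (w' := w k' x) (s' := s k' x) (hρ k) (hρ k')
        (κ := fun t t' => κ k k' (cl R t) (cl R t')) hcont (κ' := fun t t' => ∑ i,
          (c i * cexp (((a i * t + b i * t' : ℝ) : ℂ) * I)).re) c1
      have h4 := abs_nuw2_le (w := w k x) (s := s k x) (w' := w k' x) (s' := s k' x) hR (hρ k) (hρ k')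
        (hsR k x) (hsR k' x) (κ := fun t t' => κ k k' (cl R t) (cl R t') - ∑ i,
          (c i * cexp (((a i * t + b i * t' : ℝ) : ℂ) * I)).re) (C := ε) (by
        intro t t' ht ht'
        have h5 := h2 t t' ht ht'
        have h6 := Complex.abs_re_le_norm ((κ k k' (cl R t) (cl R t') : ℂ) -
          ∑ i, c i * cexp (((a i * t + b i * t' : ℝ) : ℂ) * I))
        rw [Complex.sub_re, Complex.ofReal_re, Complex.re_sum] at h6
        exact h6.trans h5)
      have h7 := nuw2_sum (R := R) (w := w k x) (s := s k x) (w' := w k' x) (s' := s k' x) (hρ k) (hρ k')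
        (univ : Finset ι) (κ := fun i t t' =>
          (c i * cexp (((a i * t + b i * t' : ℝ) : ℂ) * I)).re)
        (fun i _ => by fun_prop)
      have h8 : nuw2 R (ρ k) (ρ k') (w k x) (s k x) (w k' x) (s k' x) (κ k k') =
          nuw2 R (ρ k) (ρ k') (w k x) (s k x) (w k' x) (s k' x) (fun t t' => κ k k' (cl R t) (cl R t')) :=
        nuw2_congr hR (hsR k x) (hsR k' x) fun t t' ht ht' => by rw [cl_eq ht, cl_eq ht']
      have h9 : |nuw2 R (ρ k) (ρ k') (w k x) (s k x) (w k' x) (s k' x) (fun t t' => ∑ i,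
          (c i * cexp (((a i * t + b i * t' : ℝ) : ℂ) * I)).re)| ≤
          ∑ i, ‖c i‖ / 2 * ((nuw R (ρ k) (w k x) (s k x) fun t => Real.cos (a i * t)) ^ 2 +
          (nuw R (ρ k) (w k x) (s k x) fun t => Real.sin (a i * t)) ^ 2 +
          (nuw R (ρ k') (w k' x) (s k' x) fun t => Real.cos (b i * t)) ^ 2 +
          (nuw R (ρ k') (w k' x) (s k' x) fun t => Real.sin (b i * t)) ^ 2) := by
        rw [h7]
        refine (abs_sum_le_sum_abs _ _).trans (sum_le_sum fun i _ => ?_)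
        refine (abs_nuw2_exp (hρ k) (hρ k') (c i) (a i) (b i)).trans (le_of_eq ?_)
        ring
      rw [h8]
      rw [h3] at h4
      have h10 := abs_le.1 h4
      have h11 := abs_le.1 h9
      rw [abs_le]
      constructor <;> linarith
    have hm : ∀ (j : σ) (f : ℝ → ℝ), Continuous f →
        Measurable fun x => ENNReal.ofReal ((nuw R (ρ j) (w j x) (s j x) f) ^ 2) := fun j f hf =>
      ENNReal.measurable_ofReal.comp ((measurable_nuw (R := R) (ρ := ρ j) (hwm j) (hs j) hf).pow_const 2)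
    calc ∫⁻ x, ENNReal.ofReal |nuw2 R (ρ k) (ρ k') (w k x) (s k x) (w k' x) (s k' x) (κ k k')| ∂μ ≤
        ∫⁻ x, ((∑ i, ENNReal.ofReal (‖c i‖ / 2) *
          (ENNReal.ofReal ((nuw R (ρ k) (w k x) (s k x) fun t => Real.cos (a i * t)) ^ 2) +
          ENNReal.ofReal ((nuw R (ρ k) (w k x) (s k x) fun t => Real.sin (a i * t)) ^ 2) +
          ENNReal.ofReal ((nuw R (ρ k') (w k' x) (s k' x) fun t => Real.cos (b i * t)) ^ 2) +
          ENNReal.ofReal ((nuw R (ρ k') (w k' x) (s k' x) fun t => Real.sin (b i * t)) ^ 2))) +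
          ENNReal.ofReal (tv (Fin (n k)) R (ρ k) * tv (Fin (n k')) R (ρ k') * ε)) ∂μ := by
          refine lintegral_mono fun x => ?_
          refine (ENNReal.ofReal_le_ofReal (hpt x)).trans (le_of_eq ?_)
          rw [ENNReal.ofReal_add (sum_nonneg fun i _ => by positivity)
            (mul_nonneg (mul_nonneg (htv k) (htv k')) hε.le),
            ENNReal.ofReal_sum_of_nonneg fun i _ => by positivity]
          congr 1
          refine sum_congr rfl fun i _ => ?_
          rw [ENNReal.ofReal_mul (by positivity), ENNReal.ofReal_add (by positivity) (by positivity),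
            ENNReal.ofReal_add (by positivity) (by positivity),
            ENNReal.ofReal_add (by positivity) (by positivity)]
      _ ≤ _ := by
        have m1 := fun i => hm k (fun t => Real.cos (a i * t)) (by fun_prop)
        have m2 := fun i => hm k (fun t => Real.sin (a i * t)) (by fun_prop)
        have m3 := fun i => hm k' (fun t => Real.cos (b i * t)) (by fun_prop)
        have m4 := fun i => hm k' (fun t => Real.sin (b i * t)) (by fun_prop)
        rw [lintegral_add_right _ measurable_const, lintegral_const,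
          lintegral_finsetSum _ (fun i _ => by
            have n1 := m1 i
            have n2 := m2 i
            have n3 := m3 i
            have n4 := m4 i
            fun_prop)]
        gcongr
        have g1 : ∀ i, ∫⁻ x, ENNReal.ofReal (‖c i‖ / 2) *
            (ENNReal.ofReal ((nuw R (ρ k) (w k x) (s k x) fun t => Real.cos (a i * t)) ^ 2) +
            ENNReal.ofReal ((nuw R (ρ k) (w k x) (s k x) fun t => Real.sin (a i * t)) ^ 2) +
            ENNReal.ofReal ((nuw R (ρ k') (w k' x) (s k' x) fun t => Real.cos (b i * t)) ^ 2) +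
            ENNReal.ofReal ((nuw R (ρ k') (w k' x) (s k' x) fun t => Real.sin (b i * t)) ^ 2)) ∂μ ≤
            ENNReal.ofReal (2 * V * (‖c i‖ * (1 + |a i| + |b i|))) := by
          intro i
          have n1 := m1 i
          have n2 := m2 i
          have n3 := m3 i
          have n4 := m4 i
          rw [lintegral_const_mul _ (by fun_prop), lintegral_add_right _ n4,
            lintegral_add_right _ n3, lintegral_add_right _ n2]
          calc ENNReal.ofReal (‖c i‖ / 2) *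
              (∫⁻ x, ENNReal.ofReal ((nuw R (ρ k) (w k x) (s k x) fun t => Real.cos (a i * t)) ^ 2) ∂μ +
              ∫⁻ x, ENNReal.ofReal ((nuw R (ρ k) (w k x) (s k x) fun t => Real.sin (a i * t)) ^ 2) ∂μ +
              ∫⁻ x, ENNReal.ofReal ((nuw R (ρ k') (w k' x) (s k' x) fun t => Real.cos (b i * t)) ^ 2) ∂μ +
              ∫⁻ x, ENNReal.ofReal ((nuw R (ρ k') (w k' x) (s k' x) fun t => Real.sin (b i * t)) ^ 2) ∂μ) ≤
              ENNReal.ofReal (‖c i‖ / 2) * (ENNReal.ofReal (V * (1 + |a i|)) +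
                ENNReal.ofReal (V * (1 + |a i|)) + ENNReal.ofReal (V * (1 + |b i|)) +
                ENNReal.ofReal (V * (1 + |b i|))) := by
                gcongr
                · exact hc k (a i)
                · exact hsn k (a i)
                · exact hc k' (b i)
                · exact hsn k' (b i)
            _ = ENNReal.ofReal (‖c i‖ / 2 * (V * (1 + |a i|) + V * (1 + |a i|) +
                V * (1 + |b i|) + V * (1 + |b i|))) :=
                ofReal4 (by positivity) (by positivity) (by positivity)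
            _ ≤ _ := by
                apply ENNReal.ofReal_le_ofReal
                have q1 : ‖c i‖ / 2 * (V * (1 + |a i|) + V * (1 + |a i|) +
                  V * (1 + |b i|) + V * (1 + |b i|)) = V * (‖c i‖ * (2 + |a i| + |b i|)) := by ring
                rw [q1]
                have q2 : 2 * V * (‖c i‖ * (1 + |a i| + |b i|)) =
                  V * (‖c i‖ * (2 * (1 + |a i| + |b i|))) := by ring
                rw [q2]
                have q3 := abs_nonneg (a i)
                have q4 := abs_nonneg (b i)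
                gcongr
                linarith
        refine (sum_le_sum fun i _ => g1 i).trans ?_
        rw [← ENNReal.ofReal_sum_of_nonneg fun i _ => by positivity]
        apply ENNReal.ofReal_le_ofReal
        rw [← mul_sum]
        gcongr
  have hone' : ∀ (k k' : σ),
      ∫⁻ x, ENNReal.ofReal |nuw2 R (ρ k) (ρ k') (w k x) (s k x) (w k' x) (s k' x) (κ k k')| ∂μ ≤
      ENNReal.ofReal (2 * V * Λ k k') := by
    intro k k'
    have hlim : Tendsto (fun ε : ℝ => ENNReal.ofReal (2 * V * Λ k k') +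
        ENNReal.ofReal (tv (Fin (n k)) R (ρ k) * tv (Fin (n k')) R (ρ k') * ε) * μ Set.univ)
        (𝓝[>] 0) (𝓝 (ENNReal.ofReal (2 * V * Λ k k') +
        ENNReal.ofReal (tv (Fin (n k)) R (ρ k) * tv (Fin (n k')) R (ρ k') * 0) * μ Set.univ)) := by
      apply Tendsto.mono_left _ nhdsWithin_le_nhds
      apply Tendsto.const_add
      have hcont : Continuous fun ε : ℝ =>
          ENNReal.ofReal (tv (Fin (n k)) R (ρ k) * tv (Fin (n k')) R (ρ k') * ε) :=
        ENNReal.continuous_ofReal.comp (by fun_prop)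
      exact ENNReal.Tendsto.mul_const (hcont.tendsto 0) (Or.inr (measure_ne_top μ _))
    rw [mul_zero, ENNReal.ofReal_zero, zero_mul, add_zero] at hlim
    exact ge_of_tendsto hlim (eventually_nhdsWithin_of_forall fun ε hε => hone k k' ε hε)
  have hmeas : ∀ k k', Measurable fun x =>
      ENNReal.ofReal |nuw2 R (ρ k) (ρ k') (w k x) (s k x) (w k' x) (s k' x) (κ k k')| := by
    intro k k'
    have h8 : ∀ x, nuw2 R (ρ k) (ρ k') (w k x) (s k x) (w k' x) (s k' x) (κ k k') =
        nuw2 R (ρ k) (ρ k') (w k x) (s k x) (w k' x) (s k' x) (fun t t' => κ k k' (cl R t) (cl R t')) := fun x =>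
      nuw2_congr hR (hsR k x) (hsR k' x) fun t t' ht ht' => by rw [cl_eq ht, cl_eq ht']
    simp only [h8]
    have h9 := measurable_nuw2 (R := R) (hwm k) (hs k) (hwm k') (hs k') (hρ k) (hρ k')
      (κ := fun t t' => κ k k' (cl R t) (cl R t')) ((hK k k').clamp hR).1
    exact ENNReal.measurable_ofReal.comp h9.abs
  have e1 : ∀ x, ENNReal.ofReal (∑ k, ∑ k', |nuw2 R (ρ k) (ρ k') (w k x) (s k x) (w k' x) (s k' x) (κ k k')|) =
      ∑ k, ∑ k', ENNReal.ofReal |nuw2 R (ρ k) (ρ k') (w k x) (s k x) (w k' x) (s k' x) (κ k k')| := by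
    intro x
    rw [ENNReal.ofReal_sum_of_nonneg fun k _ => sum_nonneg fun k' _ => abs_nonneg _]
    refine sum_congr rfl fun k _ => ?_
    rw [ENNReal.ofReal_sum_of_nonneg fun k' _ => abs_nonneg _]
  simp only [e1]
  rw [lintegral_finsetSum _ fun k _ => Finset.measurable_fun_sum _ fun k' _ => hmeas k k']
  have e2 : ∀ k, ∫⁻ x, ∑ k', ENNReal.ofReal |nuw2 R (ρ k) (ρ k') (w k x) (s k x) (w k' x) (s k' x) (κ k k')| ∂μ ≤
      ENNReal.ofReal (∑ k', 2 * V * Λ k k') := by
    intro k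
    rw [lintegral_finsetSum _ fun k' _ => hmeas k k', ENNReal.ofReal_sum_of_nonneg fun k' _ => by
      have := (hK k k').nonneg
      positivity]
    exact sum_le_sum fun k' _ => hone' k k'
  refine (sum_le_sum fun k _ => e2 k).trans ?_
  rw [← ENNReal.ofReal_sum_of_nonneg fun k _ => sum_nonneg fun k' _ => by
    have := (hK k k').nonneg
    positivity]
  apply ENNReal.ofReal_le_ofReal
  simp only [← mul_sum]
  gcongr


end NUKer
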