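import Pool.Agent.NUKer.Funcs

/-!
The kernels `log |G(ζ(t) - ζ'(t')) / G(t - t')|` of displaced paths `ζ(t) = t + D(t)`,
`ζ'(t') = t' + D'(t')`, for `G = cosh 2z - c` (`c < 1`) and for `G = sinh z` (same path).
-/

open Complex Finset Filter MeasureTheory
open scoped Topology

namespace NUKer

/-- relative change of `cosh 2z - c` -/
noncomputable def Yc (c : ℝ) (D D' : ℝ → ℂ) (t t' : ℝ) : ℂ :=
  (Complex.cosh (2 * (D t - D' t')) - 1) * fC c (t - t') +
    Complex.sinh (2 * (D t - D' t')) * fS c (t - t')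

/-- relative change of `sinh z`, same path; `D1` is the derivative of `D` -/
noncomputable def Y0 (D D1 : ℝ → ℂ) (t t' : ℝ) : ℂ :=
  (Complex.cosh (D t - D t') - 1) + xcoth (t - t') * qd D1 t t' * shc (D t - D t')

/-- kernel for `cosh 2z - c` -/
noncomputable def kc (c : ℝ) (D D' : ℝ → ℂ) (t t' : ℝ) : ℝ := (Complex.log (1 + Yc c D D' t t')).re

/-- kernel for `sinh z` -/
noncomputable def k0 (D D1 : ℝ → ℂ) (t t' : ℝ) : ℝ := (Complex.log (1 + Y0 D D1 t t')).re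

theorem kc_eq (c : ℝ) (D D' : ℝ → ℂ) (t t' : ℝ) :
    kc c D D' t t' = Real.log ‖1 + Yc c D D' t t'‖ := Complex.log_re _

theorem k0_eq (D D1 : ℝ → ℂ) (t t' : ℝ) : k0 D D1 t t' = Real.log ‖1 + Y0 D D1 t t'‖ :=
  Complex.log_re _

theorem den_mul {c : ℝ} (hc : c < 1) (D D' : ℝ → ℂ) (t t' : ℝ) :
    Complex.cosh (2 * ((t + D t) - (t' + D' t'))) - c =
      ((Real.cosh (2 * (t - t')) - c : ℝ) : ℂ) * (1 + Yc c D D' t t') := by
  have h0 : (Real.cosh (2 * (t - t')) - c : ℝ) ≠ 0 := by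
    have := den_ge (c := c) (t - t')
    linarith
  have h0' : (((Real.cosh (2 * (t - t')) - c : ℝ)) : ℂ) ≠ 0 := by exact_mod_cast h0
  have e1 : (2 * (((t : ℂ) + D t) - (t' + D' t'))) =
      ((2 * (t - t') : ℝ) : ℂ) + 2 * (D t - D' t') := by
    push_cast; ring
  rw [e1, Complex.cosh_add, ← Complex.ofReal_cosh, ← Complex.ofReal_sinh]
  unfold Yc fC fS fE
  push_cast
  push_cast at h0'
  field_simp
  ring

theorem sinh_mul {D D1 : ℝ → ℂ} (hD : ∀ x, HasDerivAt D (D1 x) x) (hc : Continuous D1)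
    (t t' : ℝ) : Complex.sinh ((t + D t) - (t' + D t')) =
      ((Real.sinh (t - t') : ℝ) : ℂ) * (1 + Y0 D D1 t t') := by
  have e1 : (((t : ℂ) + D t) - (t' + D t')) = ((t - t' : ℝ) : ℂ) + (D t - D t') := by
    push_cast; ring
  have h1 := sub_eq_qd hD hc t t'
  have h2 := xcoth_mul_sinh (t - t')
  have h2' : (xcoth (t - t') : ℂ) * (Real.sinh (t - t') : ℝ) =
      ((t - t' : ℝ) : ℂ) * (Real.cosh (t - t') : ℝ) := by exact_mod_cast h2
  have h3 := mul_shc (D t - D t')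
  rw [e1, Complex.sinh_add, ← Complex.ofReal_cosh, ← Complex.ofReal_sinh]
  unfold Y0
  have h4 : ((Real.cosh (t - t') : ℝ) : ℂ) * Complex.sinh (D t - D t') =
      ((Real.sinh (t - t') : ℝ) : ℂ) * (xcoth (t - t') * qd D1 t t' * shc (D t - D t')) := by
    calc ((Real.cosh (t - t') : ℝ) : ℂ) * Complex.sinh (D t - D t') =
        ((Real.cosh (t - t') : ℝ) : ℂ) * ((((t - t' : ℝ) : ℂ) * qd D1 t t') * shc (D t - D t')) := by
          rw [← h1, h3]
      _ = (((t - t' : ℝ) : ℂ) * (Real.cosh (t - t') : ℝ)) * (qd D1 t t' * shc (D t - D t')) := by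
          ring
      _ = _ := by rw [← h2']; ring
  rw [h4]
  ring

/-- diagonal value -/
theorem Y0_diag (D D1 : ℝ → ℂ) (t : ℝ) : Y0 D D1 t t = D1 t := by
  unfold Y0
  rw [sub_self, sub_self, Complex.cosh_zero, xcoth_zero, qd_diag]
  have : shc 0 = 1 := by
    unfold shc
    rw [tsum_eq_single 0]
    · simp
    · intro n hn
      rw [zero_pow two_ne_zero, zero_pow hn, mul_zero]
  rw [this]
  simp

theorem exp_one_le : Real.exp 1 ≤ 3 := by
  have := Real.exp_one_lt_d9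
  linarith

theorem exp_four_le : Real.exp 4 ≤ 81 := by
  have h1 : Real.exp 4 = Real.exp 1 ^ 4 := by
    rw [← Real.exp_nat_mul]
    norm_num
  rw [h1]
  calc Real.exp 1 ^ 4 ≤ 3 ^ 4 := pow_le_pow_left₀ (Real.exp_pos 1).le exp_one_le 4
    _ = 81 := by norm_num

variable {R lam : ℝ}

theorem exists_kc {c : ℝ} (hc : c < 1) : ∃ K : ℝ, 1 ≤ K ∧ ∀ R : ℝ, 1 ≤ R → ∀ lam : ℝ,
    ∀ D D' : ℝ → ℂ, KC1 R lam D → KC1 R lam D' → K * R ^ 3 * lam ≤ 1 →
    KC R (K * R ^ 3 * lam) (fun t t' => ((kc c D D' t t' : ℝ) : ℂ)) ∧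
    ∀ t t', |t| ≤ R → |t'| ≤ R → ‖Yc c D D' t t'‖ ≤ 1 / 2 := by
  obtain ⟨K, hK0, hK⟩ := exists_CS hc
  refine ⟨104000 * (K + 1), by nlinarith, fun R hR lam D D' hD hD' hsm => ?_⟩
  have hl := hD.nonneg
  have hR3 : 1 ≤ R ^ 3 := one_le_pow₀ hR
  have hl1 : lam ≤ 1 := by
    have h1 : lam ≤ 104000 * (K + 1) * R ^ 3 * lam :=
      le_mul_of_one_le_left hl (by nlinarith)
    linarith
  obtain ⟨hC, hS⟩ := hK (2 * R) (by linarith)
  have hC2 := hC.diff
  have hS2 := hS.diff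
  have hz : KC R (4 * lam) (fun t t' => 2 * (D t - D' t')) := by
    have h1 := (hD.left.sub hD'.right).smul 2
    refine h1.mono (le_of_eq ?_)
    rw [show ‖(2 : ℂ)‖ = 2 by simp]
    ring
  have h2 := (hz.cosh_sub_one.mul hC2).add (hz.sinh.mul hS2)
  have he : Real.exp (4 * lam) ≤ 81 := (Real.exp_le_exp.2 (by linarith)).trans exp_four_le
  obtain ⟨M, hM⟩ : ∃ M : ℝ, M = (4 * lam) ^ 2 * Real.exp (4 * lam) * (2 * (K * (2 * R) ^ 3)) +
      4 * lam * Real.exp (4 * lam) * (2 * (K * (2 * R) ^ 3)) := ⟨_, rfl⟩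
  have hMb : M ≤ 25920 * (K * R ^ 3 * lam) := by
    have h3 : (4 * lam) ^ 2 ≤ 16 * lam := by nlinarith
    have hE := Real.exp_pos (4 * lam)
    calc M = ((4 * lam) ^ 2 + 4 * lam) * Real.exp (4 * lam) * (16 * (K * R ^ 3)) := by
          rw [hM]; ring
      _ ≤ (20 * lam) * 81 * (16 * (K * R ^ 3)) := by
          have h4 : (4 * lam) ^ 2 + 4 * lam ≤ 20 * lam := by linarith
          have h5 : ((4 * lam) ^ 2 + 4 * lam) * Real.exp (4 * lam) ≤ (20 * lam) * 81 := by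
            apply mul_le_mul h4 he hE.le (by positivity)
          gcongr
      _ ≤ _ := by nlinarith [mul_nonneg (mul_nonneg hK0.le (by positivity : (0 : ℝ) ≤ R ^ 3)) hl]
  have hM4 : M ≤ 1 / 4 := by
    have h6 : K * R ^ 3 * lam ≤ 1 / 104000 := by
      rw [le_div_iff₀ (by norm_num)]
      have : K * R ^ 3 * lam * 104000 ≤ 104000 * (K + 1) * R ^ 3 * lam := by
        nlinarith [mul_nonneg (by positivity : (0 : ℝ) ≤ R ^ 3) hl]
      linarith
    linarith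
  have h2' : KC R M (Yc c D D') := (h2.mono (le_of_eq hM.symm)).congr fun t t' _ _ => rfl
  refine ⟨?_, fun t t' ht ht' => (h2'.bound ht ht').trans (by linarith)⟩
  have h7 := (h2'.log (by linarith)).re
  refine h7.mono ?_
  have : 0 ≤ R ^ 3 * lam := by positivity
  nlinarith

theorem exists_k0 : ∃ K : ℝ, 1 ≤ K ∧ ∀ R : ℝ, 1 ≤ R → ∀ lam : ℝ,
    ∀ D D1 : ℝ → ℂ, KC1 R lam D → KC1 R lam D1 → K * R ^ 4 * lam ≤ 1 →
    KC R (K * R ^ 4 * lam) (fun t t' => ((k0 D D1 t t' : ℝ) : ℂ)) ∧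
    ∀ t t', |t| ≤ R → |t'| ≤ R → ‖Y0 D D1 t t'‖ ≤ 1 / 2 := by
  obtain ⟨K, hK0, hK⟩ := exists_xcoth
  refine ⟨1000 * (K + 1), by nlinarith, fun R hR lam D D1 hD hD1 hsm => ?_⟩
  have hl := hD.nonneg
  have hR4 : 1 ≤ R ^ 4 := one_le_pow₀ hR
  have hl1 : lam ≤ 1 / 1000 := by
    have h1 : 1000 * lam ≤ 1000 * (K + 1) * R ^ 4 * lam := by
      have h2 : 1 ≤ (K + 1) * R ^ 4 := by nlinarith
      nlinarith
    linarith
  have hz : KC R (2 * lam) (fun t t' => D t - D t') := by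
    have h1 := (hD.left.sub hD.right)
    exact h1.mono (le_of_eq (by ring))
  have hq := hD1.qd (by linarith : 0 ≤ R)
  have h2 := hz.cosh_sub_one.add (((hK R hR).mul hq).mul hz.shc)
  have he : Real.exp (2 * lam) ≤ 3 := (Real.exp_le_exp.2 (by linarith)).trans exp_one_le
  obtain ⟨M, hM⟩ : ∃ M : ℝ, M = (2 * lam) ^ 2 * Real.exp (2 * lam) +
      K * R ^ 4 * lam * Real.exp (2 * lam) := ⟨_, rfl⟩
  have hMb : M ≤ 3 * (K + 1) * R ^ 4 * lam := by
    have h3 : (2 * lam) ^ 2 ≤ lam := by nlinarith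
    have hE := Real.exp_pos (2 * lam)
    have h8 : 0 ≤ K * R ^ 4 * lam := by positivity
    calc M = ((2 * lam) ^ 2 + K * R ^ 4 * lam) * Real.exp (2 * lam) := by
          rw [hM]; ring
      _ ≤ (lam + K * R ^ 4 * lam) * 3 := by
          apply mul_le_mul (by linarith) he hE.le (by positivity)
      _ ≤ _ := by nlinarith
  have hM4 : M ≤ 1 / 4 := by nlinarith
  have h2' : KC R M (Y0 D D1) := (h2.mono (le_of_eq hM.symm)).congr fun t t' _ _ => rfl
  refine ⟨?_, fun t t' ht ht' => (h2'.bound ht ht').trans (by linarith)⟩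
  have h7 := (h2'.log (by linarith)).re
  refine h7.mono ?_
  have : 0 ≤ (K + 1) * R ^ 4 * lam := by positivity
  nlinarith

end NUKer
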