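import Pool.Agent.NUKer.Cut
import Pool.Agent.NUKer.Jensen

/-!
More closure properties of `KC`: conjugate, real part, one variable, differences, averages,
entire functions, logarithm; continuity; Jensen without continuity hypotheses.
-/

open Complex Finset Filter MeasureTheory
open scoped Topology ENNReal ComplexConjugate

namespace NUKer

variable {R Λ Λ' : ℝ} {κ κ' : ℝ → ℝ → ℂ} {f : ℝ → ℂ}

theorem KC.conj (h : KC R Λ κ) : KC R Λ (fun t t' => conj (κ t t')) := by
  intro ε hε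
  obtain ⟨ι, hι, c, a, b, h1, h2⟩ := h ε hε
  refine ⟨ι, hι, fun i => conj (c i), fun i => -a i, fun i => -b i, ?_, fun t t' ht ht' => ?_⟩
  · simpa using h1
  · have h3 := h2 t t' ht ht'
    rw [← Complex.norm_conj] at h3
    convert h3 using 2
    rw [map_sub, map_sum]
    congr 1
    refine sum_congr rfl fun i _ => ?_
    rw [map_mul, ← Complex.exp_conj]
    congr 2
    rw [map_mul, Complex.conj_ofReal, Complex.conj_I]
    push_cast
    ring

theorem KC.re (h : KC R Λ κ) : KC R Λ (fun t t' => ((κ t t').re : ℂ)) := by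
  have h1 := (h.add h.conj).smul (1 / 2)
  have h2 : ‖(1 / 2 : ℂ)‖ * (Λ + Λ) = Λ := by
    rw [show (1 / 2 : ℂ) = ((1 / 2 : ℝ) : ℂ) by push_cast; ring, Complex.norm_real,
      Real.norm_of_nonneg (by norm_num)]
    ring
  rw [h2] at h1
  refine h1.congr fun t t' _ _ => ?_
  rw [Complex.add_conj]
  push_cast
  ring

theorem KC1.mono (h : KC1 R Λ f) (hL : Λ ≤ Λ') : KC1 R Λ' f := by
  intro ε hε
  obtain ⟨ι, hι, c, a, h1, h2⟩ := h ε hε
  exact ⟨ι, hι, c, a, h1.trans hL, h2⟩

theorem KC1.mono_R {R' : ℝ} (h : KC1 R Λ f) (hR : R' ≤ R) : KC1 R' Λ f := by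
  intro ε hε
  obtain ⟨ι, hι, c, a, h1, h2⟩ := h ε hε
  exact ⟨ι, hι, c, a, h1, fun t ht => h2 t (ht.trans hR)⟩

theorem KC.mono_R {R' : ℝ} (h : KC R Λ κ) (hR : R' ≤ R) : KC R' Λ κ := by
  intro ε hε
  obtain ⟨ι, hι, c, a, b, h1, h2⟩ := h ε hε
  exact ⟨ι, hι, c, a, b, h1, fun t t' ht ht' => h2 t t' (ht.trans hR) (ht'.trans hR)⟩

theorem KC1.left (h : KC1 R Λ f) : KC R Λ (fun t _ => f t) := by
  intro ε hε
  obtain ⟨ι, hι, c, a, h1, h2⟩ := h ε hε
  refine ⟨ι, hι, c, a, fun _ => 0, by simpa using h1, fun t t' ht _ => ?_⟩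
  simpa using h2 t ht

theorem KC1.right (h : KC1 R Λ f) : KC R Λ (fun _ t' => f t') := by
  intro ε hε
  obtain ⟨ι, hι, c, a, h1, h2⟩ := h ε hε
  refine ⟨ι, hι, c, fun _ => 0, a, by simpa using h1, fun t t' _ ht' => ?_⟩
  simpa using h2 t' ht'

theorem KC1.diff (h : KC1 (2 * R) Λ f) : KC R (2 * Λ) (fun t t' => f (t - t')) := by
  intro ε hε
  obtain ⟨ι, hι, c, a, h1, h2⟩ := h ε hε
  refine ⟨ι, hι, c, a, fun i => -a i, ?_, fun t t' ht ht' => ?_⟩
  · calc ∑ i, ‖c i‖ * (1 + |a i| + |-a i|) ≤ ∑ i, 2 * (‖c i‖ * (1 + |a i|)) := by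
          refine sum_le_sum fun i _ => ?_
          rw [abs_neg]
          nlinarith [norm_nonneg (c i), abs_nonneg (a i)]
      _ ≤ 2 * Λ := by rw [← mul_sum]; linarith
  · have h3 := h2 (t - t') ((abs_sub _ _).trans (by linarith))
    convert h3 using 2
    congr 1
    refine sum_congr rfl fun i _ => ?_
    congr 3
    ring_nf

theorem KC1.nonneg (h : KC1 R Λ f) : 0 ≤ Λ := h.left.nonneg

theorem norm_exp_sub_exp_le (x y : ℝ) : ‖cexp ((x : ℂ) * I) - cexp ((y : ℂ) * I)‖ ≤ |x - y| := by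
  have h1 := Real.norm_exp_I_mul_ofReal_sub_one_le (x := x - y)
  have e1 : cexp ((x : ℂ) * I) - cexp ((y : ℂ) * I) =
      cexp ((y : ℂ) * I) * (cexp (I * ((x - y : ℝ) : ℂ)) - 1) := by
    rw [mul_sub, mul_one, ← Complex.exp_add]
    congr 2
    push_cast
    ring
  rw [e1, norm_mul, norm_e, one_mul]
  simpa [Real.norm_eq_abs] using h1

theorem KC1.lip (h : KC1 R Λ f) {u v : ℝ} (hu : |u| ≤ R) (hv : |v| ≤ R) :
    ‖f u - f v‖ ≤ Λ * |u - v| := by
  refine le_of_forall_pos_le_add fun ε hε => ?_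
  obtain ⟨ι, hι, c, a, h1, h2⟩ := h (ε / 2) (by positivity)
  have h3 := h2 u hu
  have h4 := h2 v hv
  have h5 : ‖∑ i, c i * cexp (((a i * u : ℝ) : ℂ) * I) - ∑ i, c i * cexp (((a i * v : ℝ) : ℂ) * I)‖ ≤
      Λ * |u - v| := by
    rw [← sum_sub_distrib]
    calc ‖∑ i, (c i * cexp (((a i * u : ℝ) : ℂ) * I) - c i * cexp (((a i * v : ℝ) : ℂ) * I))‖ ≤
        ∑ i, (‖c i‖ * (1 + |a i|)) * |u - v| := by
          refine (norm_sum_le _ _).trans (sum_le_sum fun i _ => ?_)
          rw [← mul_sub, norm_mul, mul_assoc]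
          refine mul_le_mul_of_nonneg_left ?_ (norm_nonneg _)
          refine (norm_exp_sub_exp_le _ _).trans ?_
          rw [← mul_sub, abs_mul]
          nlinarith [abs_nonneg (u - v), abs_nonneg (a i)]
      _ ≤ Λ * |u - v| := by
          rw [← sum_mul]
          gcongr
  have e1 : f u - f v = (f u - ∑ i, c i * cexp (((a i * u : ℝ) : ℂ) * I)) +
      (∑ i, c i * cexp (((a i * u : ℝ) : ℂ) * I) - ∑ i, c i * cexp (((a i * v : ℝ) : ℂ) * I)) -
      (f v - ∑ i, c i * cexp (((a i * v : ℝ) : ℂ) * I)) := by ring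
  rw [e1]
  refine (norm_sub_le _ _).trans ?_
  have h6 := norm_add_le (f u - ∑ i, c i * cexp (((a i * u : ℝ) : ℂ) * I))
    (∑ i, c i * cexp (((a i * u : ℝ) : ℂ) * I) - ∑ i, c i * cexp (((a i * v : ℝ) : ℂ) * I))
  linarith

theorem KC.lip (h : KC R Λ κ) {u v u' v' : ℝ} (hu : |u| ≤ R) (hv : |v| ≤ R) (hu' : |u'| ≤ R)
    (hv' : |v'| ≤ R) : ‖κ u u' - κ v v'‖ ≤ Λ * (|u - v| + |u' - v'|) := by
  refine le_of_forall_pos_le_add fun ε hε => ?_
  obtain ⟨ι, hι, c, a, b, h1, h2⟩ := h (ε / 2) (by positivity)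
  have h3 := h2 u u' hu hu'
  have h4 := h2 v v' hv hv'
  have h5 : ‖∑ i, c i * cexp (((a i * u + b i * u' : ℝ) : ℂ) * I) -
      ∑ i, c i * cexp (((a i * v + b i * v' : ℝ) : ℂ) * I)‖ ≤ Λ * (|u - v| + |u' - v'|) := by
    rw [← sum_sub_distrib]
    calc ‖∑ i, (c i * cexp (((a i * u + b i * u' : ℝ) : ℂ) * I) -
        c i * cexp (((a i * v + b i * v' : ℝ) : ℂ) * I))‖ ≤
        ∑ i, (‖c i‖ * (1 + |a i| + |b i|)) * (|u - v| + |u' - v'|) := by
          refine (norm_sum_le _ _).trans (sum_le_sum fun i _ => ?_)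
          rw [← mul_sub, norm_mul, mul_assoc]
          refine mul_le_mul_of_nonneg_left ?_ (norm_nonneg _)
          refine (norm_exp_sub_exp_le _ _).trans ?_
          have e : a i * u + b i * u' - (a i * v + b i * v') = a i * (u - v) + b i * (u' - v') := by
            ring
          rw [e]
          refine (abs_add_le _ _).trans ?_
          rw [abs_mul, abs_mul]
          nlinarith [abs_nonneg (u - v), abs_nonneg (u' - v'), abs_nonneg (a i), abs_nonneg (b i),
            mul_nonneg (abs_nonneg (a i)) (abs_nonneg (u' - v')),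
            mul_nonneg (abs_nonneg (b i)) (abs_nonneg (u - v))]
      _ ≤ Λ * (|u - v| + |u' - v'|) := by
          rw [← sum_mul]
          gcongr
  have e1 : κ u u' - κ v v' = (κ u u' - ∑ i, c i * cexp (((a i * u + b i * u' : ℝ) : ℂ) * I)) +
      (∑ i, c i * cexp (((a i * u + b i * u' : ℝ) : ℂ) * I) -
        ∑ i, c i * cexp (((a i * v + b i * v' : ℝ) : ℂ) * I)) -
      (κ v v' - ∑ i, c i * cexp (((a i * v + b i * v' : ℝ) : ℂ) * I)) := by ring
  rw [e1]
  refine (norm_sub_le _ _).trans ?_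
  have h6 := norm_add_le (κ u u' - ∑ i, c i * cexp (((a i * u + b i * u' : ℝ) : ℂ) * I))
    (∑ i, c i * cexp (((a i * u + b i * u' : ℝ) : ℂ) * I) -
        ∑ i, c i * cexp (((a i * v + b i * v' : ℝ) : ℂ) * I))
  linarith

/-- averages over `s ∈ [0,1]` of a Lipschitz family -/
theorem KC.avg {κ : ℝ → ℝ → ℝ → ℂ} (h : ∀ s, 0 ≤ s → s ≤ 1 → KC R Λ (κ s)) {M : ℝ}
    (hM : ∀ s s', 0 ≤ s → s ≤ 1 → 0 ≤ s' → s' ≤ 1 → ∀ t t', |t| ≤ R → |t'| ≤ R →
      ‖κ s t t' - κ s' t t'‖ ≤ M * |s - s'|) (hM0 : 0 ≤ M) :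
    KC R Λ (fun t t' => ∫ s in (0 : ℝ)..1, κ s t t') := by
  refine KC.lim (κn := fun N t t' => ∑ k ∈ range (N + 1),
    (1 / (N + 1 : ℂ)) * κ (k / (N + 1 : ℝ)) t t') (fun N => ?_) ?_
  · have hk : ∀ k ∈ range (N + 1), KC R (‖(1 / (N + 1 : ℂ))‖ * Λ)
        (fun t t' => (1 / (N + 1 : ℂ)) * κ (k / (N + 1 : ℝ)) t t') := by
      intro k hk
      have hk' : (k : ℝ) ≤ N := by exact_mod_cast Nat.lt_succ_iff.1 (mem_range.1 hk)
      refine (h _ (by positivity) ?_).smul _
      rw [div_le_one (by positivity)]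
      linarith
    refine (KC.sum _ hk).mono (le_of_eq ?_)
    have e1 : ‖(1 / (N + 1 : ℂ))‖ = 1 / (N + 1 : ℝ) := by
      rw [norm_div, norm_one]
      congr 1
      have : ((N : ℂ) + 1) = ((N + 1 : ℕ) : ℂ) := by push_cast; ring
      rw [this, Complex.norm_natCast]
      push_cast; ring
    rw [sum_const, card_range, nsmul_eq_mul, e1]
    push_cast
    field_simp
  · intro ε hε
    obtain ⟨N, hN⟩ := exists_nat_gt (M / ε)
    refine ⟨N, fun t t' ht ht' => ?_⟩
    have hN1 : (0 : ℝ) < N + 1 := by positivity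
    have hcont : ContinuousOn (fun s => κ s t t') (Set.Icc 0 1) := by
      refine LipschitzOnWith.continuousOn (K := M.toNNReal) ?_
      refine LipschitzOnWith.of_dist_le_mul fun x hx y hy => ?_
      rw [dist_eq_norm, Real.coe_toNNReal _ hM0, Real.dist_eq]
      exact hM x y hx.1 hx.2 hy.1 hy.2 t t' ht ht'
    have hint : ∀ k < N + 1, IntervalIntegrable (fun s => κ s t t') volume
        ((k : ℝ) / (N + 1)) (((k + 1 : ℕ) : ℝ) / (N + 1)) := by
      intro k hk
      apply ContinuousOn.intervalIntegrable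
      refine hcont.mono ?_
      rw [Set.uIcc_of_le (by gcongr; simp)]
      apply Set.Icc_subset_Icc (by positivity)
      rw [div_le_one hN1]
      exact_mod_cast hk
    have h1 := intervalIntegral.sum_integral_adjacent_intervals (μ := volume)
      (f := fun s => κ s t t') (a := fun k : ℕ => (k : ℝ) / (N + 1)) (n := N + 1)
      (fun k hk => hint k hk)
    have h2 : ∫ s in (0 : ℝ)..1, κ s t t' =
        ∑ k ∈ range (N + 1), ∫ s in ((k : ℝ) / (N + 1))..(((k + 1 : ℕ) : ℝ) / (N + 1)), κ s t t' := by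
      rw [h1]
      congr 1
      · simp
      · push_cast
        rw [div_self hN1.ne']
    rw [h2, ← sum_sub_distrib]
    calc ‖∑ k ∈ range (N + 1), ((∫ s in ((k : ℝ) / (N + 1))..(((k + 1 : ℕ) : ℝ) / (N + 1)),
        κ s t t') - (1 / (N + 1 : ℂ)) * κ (k / (N + 1 : ℝ)) t t')‖ ≤
        ∑ k ∈ range (N + 1), M / (N + 1) * (1 / (N + 1)) := by
          refine (norm_sum_le _ _).trans (sum_le_sum fun k hk => ?_)
          have hk1 : k < N + 1 := mem_range.1 hk
          have hk' : ((k : ℝ) + 1) ≤ N + 1 := by exact_mod_cast hk1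
          have hlen : (((k + 1 : ℕ) : ℝ) / (N + 1)) - ((k : ℝ) / (N + 1)) = 1 / (N + 1) := by
            push_cast; ring
          have e3 : (1 / (N + 1 : ℂ)) * κ (k / (N + 1 : ℝ)) t t' =
              ∫ _s in ((k : ℝ) / (N + 1))..(((k + 1 : ℕ) : ℝ) / (N + 1)), κ (k / (N + 1 : ℝ)) t t' := by
            rw [intervalIntegral.integral_const, hlen, Complex.real_smul]
            push_cast
            ring
          rw [e3, ← intervalIntegral.integral_sub (hint k hk1) (by simp)]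
          have h4 := intervalIntegral.norm_integral_le_of_norm_le_const
            (a := (k : ℝ) / (N + 1)) (b := ((k + 1 : ℕ) : ℝ) / (N + 1))
            (f := fun s => κ s t t' - κ (k / (N + 1 : ℝ)) t t') (C := M / (N + 1)) (by
              intro s hs
              rw [Set.uIoc_of_le (by gcongr; simp)] at hs
              have hs0 : 0 ≤ s := le_trans (by positivity) hs.1.le
              have hs1 : s ≤ 1 := hs.2.trans (by
                rw [div_le_one hN1]; push_cast; exact hk')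
              refine (hM s _ hs0 hs1 (by positivity) (by
                rw [div_le_one hN1]; linarith) t t' ht ht').trans ?_
              rw [abs_of_nonneg (by linarith [hs.1])]
              have : s - (k : ℝ) / (N + 1) ≤ 1 / (N + 1) := by
                have := hs.2
                rw [← hlen]
                linarith
              calc M * (s - (k : ℝ) / (N + 1)) ≤ M * (1 / (N + 1)) := by gcongr
                _ = _ := by ring)
          rwa [hlen, abs_of_pos (by positivity)] at h4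
      _ = M / (N + 1) := by
          rw [sum_const, card_range, nsmul_eq_mul]
          push_cast
          field_simp
      _ ≤ ε := by
          rw [div_le_iff₀ hN1]
          rw [div_lt_iff₀ hε] at hN
          nlinarith

/-- difference quotient kernel -/
noncomputable def qd (D1 : ℝ → ℂ) (t t' : ℝ) : ℂ := ∫ s in (0 : ℝ)..1, D1 (t' + s * (t - t'))

theorem KC1.qd (hR : 0 ≤ R) (h : KC1 R Λ f) : KC R Λ (NUKer.qd f) := by
  have hbox : ∀ s t t' : ℝ, 0 ≤ s → s ≤ 1 → |t| ≤ R → |t'| ≤ R → |t' + s * (t - t')| ≤ R := by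
    intro s t t' h0 h1 ht ht'
    rw [abs_le] at *
    constructor <;> nlinarith
  refine KC.avg (κ := fun s t t' => f (t' + s * (t - t'))) (M := Λ * (2 * R)) ?_ ?_ ?_
  · intro s hs0 hs1 ε hε
    obtain ⟨ι, hι, c, a, h1, h2⟩ := h ε hε
    refine ⟨ι, hι, c, fun i => s * a i, fun i => (1 - s) * a i, ?_, fun t t' ht ht' => ?_⟩
    · refine le_trans (le_of_eq (sum_congr rfl fun i _ => ?_)) h1
      rw [abs_mul, abs_mul, abs_of_nonneg hs0, abs_of_nonneg (by linarith : 0 ≤ 1 - s)]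
      ring
    · have h3 := h2 _ (hbox s t t' hs0 hs1 ht ht')
      convert h3 using 2
      congr 1
      refine sum_congr rfl fun i _ => ?_
      congr 3
      ring_nf
  · intro s s' hs0 hs1 hs0' hs1' t t' ht ht'
    refine (h.lip (hbox s t t' hs0 hs1 ht ht') (hbox s' t t' hs0' hs1' ht ht')).trans ?_
    have e : t' + s * (t - t') - (t' + s' * (t - t')) = (s - s') * (t - t') := by ring
    rw [e, abs_mul]
    have h4 : |t - t'| ≤ 2 * R := (abs_sub _ _).trans (by linarith)
    have h5 := h.nonneg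
    calc Λ * (|s - s'| * |t - t'|) ≤ Λ * (|s - s'| * (2 * R)) := by gcongr
      _ = _ := by ring
  · have := h.nonneg
    positivity

theorem sub_eq_qd {D D1 : ℝ → ℂ} (hD : ∀ x, HasDerivAt D (D1 x) x) (hc : Continuous D1)
    (t t' : ℝ) : D t - D t' = (t - t' : ℝ) * qd D1 t t' := by
  unfold qd
  have h1 : ∀ s ∈ Set.uIcc (0 : ℝ) 1, HasDerivAt (fun s : ℝ => D (t' + s * (t - t')))
      (((t - t' : ℝ) : ℂ) * D1 (t' + s * (t - t'))) s := by
    intro s _
    have h2 : HasDerivAt (fun s : ℝ => t' + s * (t - t')) (t - t') s := by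
      simpa using ((hasDerivAt_id s).mul_const (t - t')).const_add t'
    have h3 := (hD (t' + s * (t - t'))).scomp s h2
    rw [Complex.real_smul] at h3
    exact h3
  have h3 := intervalIntegral.integral_eq_sub_of_hasDerivAt h1
    ((by fun_prop : Continuous fun s : ℝ =>
      ((t - t' : ℝ) : ℂ) * D1 (t' + s * (t - t'))).intervalIntegrable _ _)
  rw [intervalIntegral.integral_const_mul] at h3
  rw [h3]
  simp

theorem qd_diag (D1 : ℝ → ℂ) (t : ℝ) : qd D1 t t = D1 t := by
  simp [qd]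

end NUKer
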